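import Pool.Agent.W960.HS.LocT

/-! Closed orbits which are long compared with the distance from the origin. -/

open Real Set MeasureTheory Topology Filter
open scoped ENNReal

namespace Pool.Agent.W960.HS

noncomputable section

open Pool.Agent.W960.HR (T mem_T GP volume_ball_le)
open Pool.Agent.H709R2 (wedge rot divRot divW winv ClosedOrbit continuous_rot fld contDiff_fld
  contDiffAt_winv)
open Pool.Agent.H709U (Orb rf)

lemma int_sg (j : ℕ) : ∫⁻ p in Metric.closedBall (0 : ℝ × ℝ) (2 ^ (j + 1)),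
    ENNReal.ofReal (1 / sg p) ≤ ENNReal.ofReal (32 * 2 ^ j) := by
  have hm : ∀ i : ℕ, MeasurableSet {p : ℝ × ℝ | ‖p + 0‖ ≤ 2 ^ i} := fun i =>
    (isClosed_le (by fun_prop) continuous_const).measurableSet
  have h1 : ∀ p ∈ Metric.closedBall (0 : ℝ × ℝ) (2 ^ (j + 1)), ENNReal.ofReal (1 / sg p) ≤
      ∑ i ∈ Finset.range (j + 2), {p : ℝ × ℝ | ‖p + 0‖ ≤ 2 ^ i}.indicator
        (fun _ => ENNReal.ofReal (2 / 2 ^ i)) p := by
    intro p hp
    rw [mem_closedBall_zero_iff] at hp
    have hs := one_le_sg p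
    have hps := norm_le_sg p
    have hex : ∃ i : ℕ, ‖p‖ ≤ 2 ^ i := ⟨j + 1, hp⟩
    classical
    set i := Nat.find hex with hi
    have hi1 : ‖p‖ ≤ 2 ^ i := Nat.find_spec hex
    have hi2 : i ≤ j + 1 := Nat.find_min' hex hp
    refine le_trans ?_ (Finset.single_le_sum (f := fun i : ℕ =>
      {p : ℝ × ℝ | ‖p + 0‖ ≤ 2 ^ i}.indicator (fun _ => ENNReal.ofReal (2 / 2 ^ i)) p)
      (fun _ _ => zero_le) (Finset.mem_range.2 (by omega : i < j + 2)))
    have hmem : p ∈ {p : ℝ × ℝ | ‖p + 0‖ ≤ 2 ^ i} := by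
      show ‖p + 0‖ ≤ 2 ^ i
      rw [add_zero]; exact hi1
    rw [indicator_of_mem hmem]
    apply ENNReal.ofReal_le_ofReal
    rw [div_le_div_iff₀ (by linarith) (by positivity)]
    rcases Nat.eq_zero_or_pos i with h0 | h0
    · rw [h0]; linarith
    · have h4 := Nat.find_min hex (m := i - 1) (by omega)
      push Not at h4
      obtain ⟨m, hm⟩ : ∃ m, i = m + 1 := ⟨i - 1, by omega⟩
      rw [hm] at h4 ⊢
      rw [Nat.add_sub_cancel] at h4
      rw [pow_succ]
      linarith
  calc _ ≤ ∫⁻ p in Metric.closedBall (0 : ℝ × ℝ) (2 ^ (j + 1)),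
        ∑ i ∈ Finset.range (j + 2), {p : ℝ × ℝ | ‖p + 0‖ ≤ 2 ^ i}.indicator
        (fun _ => ENNReal.ofReal (2 / 2 ^ i)) p :=
        setLIntegral_mono' Metric.isClosed_closedBall.measurableSet h1
    _ ≤ ∫⁻ p, ∑ i ∈ Finset.range (j + 2), {p : ℝ × ℝ | ‖p + 0‖ ≤ 2 ^ i}.indicator
        (fun _ => ENNReal.ofReal (2 / 2 ^ i)) p := setLIntegral_le_lintegral _ _
    _ = ∑ i ∈ Finset.range (j + 2), ENNReal.ofReal (2 / 2 ^ i) *
          volume {p : ℝ × ℝ | ‖p + 0‖ ≤ 2 ^ i} := by
        rw [lintegral_finsetSum _ fun i _ => measurable_const.indicator (hm i)]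
        exact Finset.sum_congr rfl fun i _ => lintegral_indicator_const (hm i) _
    _ ≤ ∑ i ∈ Finset.range (j + 2), ENNReal.ofReal (8 * 2 ^ i) := by
        refine Finset.sum_le_sum fun i _ => ?_
        calc _ ≤ ENNReal.ofReal (2 / 2 ^ i) * ENNReal.ofReal (4 * (2 ^ i) ^ 2) := by
              gcongr
              exact volume_ball_le 0 (by positivity)
          _ = ENNReal.ofReal (8 * 2 ^ i) := by
              rw [← ENNReal.ofReal_mul (by positivity)]
              congr 1
              field_simp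
              ring
    _ = ENNReal.ofReal (∑ i ∈ Finset.range (j + 2), 8 * 2 ^ i) := by
        rw [ENNReal.ofReal_sum_of_nonneg fun i _ => by positivity]
    _ ≤ _ := by
        apply ENNReal.ofReal_le_ofReal
        rw [← Finset.mul_sum, geom_sum_eq (by norm_num)]
        rw [pow_add]
        have : (0:ℝ) < 2 ^ j := by positivity
        linarith

/-- the majorant for long orbits -/
def Kb (n j : ℕ) (θ : ℝ) (A : Set (T n → ℝ × ℝ)) (c : T n → ℝ × ℝ) : ℝ≥0∞ :=
  ENNReal.ofReal (32 / 2 ^ j) * ∫⁻ p in Metric.closedBall (0 : ℝ × ℝ) (2 ^ (j + 1)),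
    ENNReal.ofReal (√n / sg p) * (ENNReal.ofReal θ * Qk n c p +
      A.indicator (fun _ => ENNReal.ofReal (1 / θ ^ 2)) c)

variable {n : ℕ}

lemma meas_sg : Measurable fun p : ℝ × ℝ => ENNReal.ofReal (√n / sg p) :=
  (measurable_const.div continuous_sg.measurable).ennreal_ofReal

/-- long orbits -/
theorem big_me (hn : 1 ≤ n) (c : T n → ℝ × ℝ) (j : ℕ) {θ : ℝ} (hθ : 0 < θ)
    {A : Set (T n → ℝ × ℝ)} (hA : c ∈ A) :
    ME (fun α => ((OL (fld (sc n c)) (Metric.closedBall 0 (2 ^ (j + 1))) (Ici (2 ^ j / 32)) α).encard :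
      ℝ≥0∞)) (Kb n j θ A c) := by
  have h1 : Measurable fun p : ℝ × ℝ => ENNReal.ofReal (√n / sg p) * (ENNReal.ofReal θ * Qk n c p +
      A.indicator (fun _ => ENNReal.ofReal (1 / θ ^ 2)) c) :=
    meas_sg.mul (((measurable_Qk_fix c).const_mul _).add_const _)
  have h2 := ol_me c (R := 2 ^ (j + 1)) (by positivity) (isCompact_closedBall (0 : ℝ × ℝ) (2 ^ (j + 1)))
    (fun z hz => mem_closedBall_zero_iff.1 hz) (M := Ici (2 ^ j / 32)) measurableSet_Ici
    (ℓ := 2 ^ j / 32) (by positivity) (fun x hx => hx) h1 (by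
      intro α γ T' ho hΩ hl
      refine (hr_young hn c (γ 0) hθ).trans (le_of_eq ?_)
      rw [indicator_of_mem hA])
  rwa [one_div_div] at h2

theorem big_mean (hn : 1 ≤ n) (j : ℕ) {θ : ℝ}
    {A : Set (T n → ℝ × ℝ)} (hA : MeasurableSet A) :
    Measurable (Kb n j θ A) ∧ ∫⁻ c, Kb n j θ A c ∂GP (T n) ≤
      CM * ENNReal.ofReal (1024 * √n) * (ENNReal.ofReal θ + ENNReal.ofReal (1 / θ ^ 2) * GP (T n) A) := by
  have hn0 := sqrt_pos' hn
  have m0 : Measurable fun q : (T n → ℝ × ℝ) × (ℝ × ℝ) =>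
      A.indicator (fun _ => ENNReal.ofReal (1 / θ ^ 2)) q.1 :=
    (measurable_const.indicator hA).comp measurable_fst
  have m1 : Measurable fun q : (T n → ℝ × ℝ) × (ℝ × ℝ) => ENNReal.ofReal (√n / sg q.2) *
      (ENNReal.ofReal θ * Qk n q.1 q.2 + A.indicator (fun _ => ENNReal.ofReal (1 / θ ^ 2)) q.1) :=
    (meas_sg.comp measurable_snd).mul ((measurable_Qk.const_mul _).add m0)
  refine ⟨measurable_const.mul m1.lintegral_prod_right', ?_⟩
  unfold Kb
  rw [lintegral_const_mul _ m1.lintegral_prod_right', lintegral_lintegral_swap m1.aemeasurable]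
  set E : ℝ≥0∞ := ENNReal.ofReal θ * (ENNReal.ofReal 77 * KE) +
    ENNReal.ofReal (1 / θ ^ 2) * GP (T n) A with hE
  have h1 : ∀ p, ∫⁻ c, ENNReal.ofReal (√n / sg p) * (ENNReal.ofReal θ * Qk n c p +
      A.indicator (fun _ => ENNReal.ofReal (1 / θ ^ 2)) c) ∂GP (T n) ≤
      ENNReal.ofReal (√n / sg p) * E := by
    intro p
    have a1 : Measurable fun c : T n → ℝ × ℝ => Qk n c p := by
      have h1 : Measurable fun c : T n → ℝ × ℝ => (c, p) := measurable_id.prodMk measurable_const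
      have h2 := (measurable_Qk (n := n)).comp h1
      simpa only [Function.comp_def] using h2
    have a2 : Measurable fun c : T n → ℝ × ℝ => ENNReal.ofReal θ * Qk n c p := a1.const_mul _
    have a3 : Measurable fun c : T n → ℝ × ℝ =>
        A.indicator (fun _ => ENNReal.ofReal (1 / θ ^ 2)) c := measurable_const.indicator hA
    have a4 : Measurable fun c : T n → ℝ × ℝ => ENNReal.ofReal θ * Qk n c p +
        A.indicator (fun _ => ENNReal.ofReal (1 / θ ^ 2)) c := a2.add a3
    rw [lintegral_const_mul _ a4, lintegral_add_left a2, lintegral_const_mul _ a1,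
      lintegral_indicator_const hA, hE]
    gcongr
    exact mean_Qk hn p
  calc _ ≤ ENNReal.ofReal (32 / 2 ^ j) * ∫⁻ p in Metric.closedBall (0 : ℝ × ℝ) (2 ^ (j + 1)),
        ENNReal.ofReal (√n / sg p) * E := by
        gcongr _ * ?_
        exact lintegral_mono h1
    _ = ENNReal.ofReal (32 / 2 ^ j) * ((∫⁻ p in Metric.closedBall (0 : ℝ × ℝ) (2 ^ (j + 1)),
        ENNReal.ofReal (√n) * ENNReal.ofReal (1 / sg p)) * E) := by
        rw [lintegral_mul_const _ meas_sg]
        congr 3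
        funext p
        rw [← ENNReal.ofReal_mul hn0.le, mul_one_div]
    _ ≤ ENNReal.ofReal (32 / 2 ^ j) * ((ENNReal.ofReal (√n) * ENNReal.ofReal (32 * 2 ^ j)) * E) := by
        have m7 : Measurable fun p : ℝ × ℝ => ENNReal.ofReal (1 / sg p) :=
          (measurable_const.div continuous_sg.measurable).ennreal_ofReal
        rw [lintegral_const_mul _ m7]
        gcongr
        exact int_sg j
    _ = ENNReal.ofReal (1024 * √n) * E := by
        rw [← mul_assoc, ← ENNReal.ofReal_mul hn0.le, ← ENNReal.ofReal_mul (by positivity)]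
        congr 2
        field_simp
        norm_num
    _ ≤ ENNReal.ofReal (1024 * √n) * (CM * (ENNReal.ofReal θ + ENNReal.ofReal (1 / θ ^ 2) *
          GP (T n) A)) := by
        gcongr
        rw [hE, mul_add]
        refine add_le_add ?_ ?_
        · rw [mul_comm CM]
          gcongr
          exact le_self_add
        · refine le_mul_of_one_le_left zero_le ?_
          unfold CM
          calc (1:ℝ≥0∞) ≤ 1 + K4 := le_self_add
            _ ≤ _ := le_add_self
    _ = _ := by ring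

end

end Pool.Agent.W960.HS
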