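import Pool.Agent.W960.HS.Fin

/-! The estimates in a cell for a general law of the coefficients. -/

open Real Set MeasureTheory Topology Filter
open scoped ENNReal

namespace Pool.Agent.W960.HS

noncomputable section

open Pool.Agent.W960.HR (T mem_T GP abs_fst_le abs_snd_le norm_sq_le_sq sq_le_norm_sq volume_ball_le
  encard_biUnion_le')
open Pool.Agent.H709R2 (wedge rot divRot divW winv ClosedOrbit continuous_rot fld contDiff_fld
  contDiffAt_winv)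
open Pool.Agent.H709U (Orb rf)

/-- The estimates used for a law of the coefficients in a chart. -/
structure Nj {n : ℕ} (μ : Measure (T n → ℝ × ℝ)) (K : ℝ≥0∞) (D : ℝ) : Prop where
  lin : ∀ t, ∫⁻ g, ENNReal.ofReal (as g * ‖Ph n g t‖ ^ (-s8)) ∂μ ≤ ENNReal.ofReal (D ^ 8) * K
  quad : ∀ t, ∫⁻ g, ENNReal.ofReal ((1 + as g ^ 2) * (1 + ‖Ph n g t‖ ^ (-s8))) ∂μ ≤
    ENNReal.ofReal (D ^ 16) * K
  small0 : ∀ (t : ℝ × ℝ) {ρ : ℝ}, 0 ≤ ρ →
    ∫⁻ g, {g : T n → ℝ × ℝ | ‖Ph n g t‖ ≤ ρ * as g}.indicator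
      (fun g => ENNReal.ofReal (as g ^ 0)) g ∂μ ≤
      ENNReal.ofReal (4 * ρ ^ 2) * (ENNReal.ofReal (D ^ 16) * K)
  small2 : ∀ (t : ℝ × ℝ) {ρ : ℝ}, 0 ≤ ρ →
    ∫⁻ g, {g : T n → ℝ × ℝ | ‖Ph n g t‖ ≤ ρ * as g}.indicator
      (fun g => ENNReal.ofReal (as g ^ 2)) g ∂μ ≤
      ENNReal.ofReal (4 * ρ ^ 2) * (ENNReal.ofReal (D ^ 32) * K)

section

variable (F : Fr) {n : ℕ}

/-- the mean of the first majorant -/
theorem Nj.mean_K1 {μ : Measure (T n → ℝ × ℝ)} [IsProbabilityMeasure μ] {K : ℝ≥0∞} {D : ℝ}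
    (hN : Nj μ K D) (hn : 1 ≤ n) {ℓ κ₀ : ℝ} (hℓ : 0 < ℓ) (hκ₀ : 0 < κ₀) (hℓ1 : F.κ n * ℓ ≤ 1 / 20) :
    Measurable (K1 F n ℓ κ₀) ∧ ∫⁻ g, K1 F n ℓ κ₀ g ∂μ ≤
      (ENNReal.ofReal (D ^ 32) * K) * ENNReal.ofReal (2 * 10 ^ 15 * (F.κ n ^ 3 * ℓ ^ 5 / (κ₀ ^ 2 * F.σ))) := by
  have hκ := F.kappa_pos hn
  have hσ := F.hσ
  have hρ : 0 < rh F n ℓ := by unfold rh; positivity
  have hms : ∀ τ, MeasurableSet {g : T n → ℝ × ℝ | ‖Ph n g τ‖ ≤ rh F n ℓ * as g} := fun τ => by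
    have h1 : Continuous fun g : T n → ℝ × ℝ => Ph n g τ :=
      continuous_Ph.comp (continuous_id.prodMk continuous_const)
    exact (isClosed_le h1.norm (continuous_const.mul continuous_as)).measurableSet
  have hma : Measurable fun g : T n → ℝ × ℝ => ENNReal.ofReal (as g ^ 2) := by
    have := continuous_as (n := n)
    fun_prop
  have hm : ∀ τ, Measurable fun g : T n → ℝ × ℝ => ENNReal.ofReal (10 ^ 9 * (F.κ n ^ 3 * ℓ ^ 3 / κ₀)) *
      {g : T n → ℝ × ℝ | ‖Ph n g τ‖ ≤ rh F n ℓ * as g}.indicator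
        (fun g => ENNReal.ofReal (as g ^ 2)) g * ENNReal.ofReal (4 * (70 * ℓ) ^ 2) := fun τ =>
    (measurable_const.mul (hma.indicator (hms τ))).mul measurable_const
  refine ⟨measurable_const.mul (Finset.measurable_fun_sum _ fun τ _ => hm τ), ?_⟩
  unfold K1
  rw [lintegral_const_mul _ (Finset.measurable_fun_sum _ fun τ _ => hm τ),
    lintegral_finsetSum _ fun τ _ => hm τ]
  have h1 : ∀ τ, ∫⁻ g : T n → ℝ × ℝ, ENNReal.ofReal (10 ^ 9 * (F.κ n ^ 3 * ℓ ^ 3 / κ₀)) *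
      {g : T n → ℝ × ℝ | ‖Ph n g τ‖ ≤ rh F n ℓ * as g}.indicator
        (fun g => ENNReal.ofReal (as g ^ 2)) g * ENNReal.ofReal (4 * (70 * ℓ) ^ 2) ∂μ ≤
      (ENNReal.ofReal (D ^ 32) * K) * ENNReal.ofReal (10 ^ 9 * (F.κ n ^ 3 * ℓ ^ 3 / κ₀) * (4 * rh F n ℓ ^ 2) *
        (4 * (70 * ℓ) ^ 2)) := by
    intro τ
    have e : ENNReal.ofReal (10 ^ 9 * (F.κ n ^ 3 * ℓ ^ 3 / κ₀) * (4 * rh F n ℓ ^ 2) *
        (4 * (70 * ℓ) ^ 2)) = ENNReal.ofReal (10 ^ 9 * (F.κ n ^ 3 * ℓ ^ 3 / κ₀)) *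
        ENNReal.ofReal (4 * rh F n ℓ ^ 2) * ENNReal.ofReal (4 * (70 * ℓ) ^ 2) := by
      rw [ENNReal.ofReal_mul (p := 10 ^ 9 * (F.κ n ^ 3 * ℓ ^ 3 / κ₀) * (4 * rh F n ℓ ^ 2))
        (by positivity), ENNReal.ofReal_mul (p := 10 ^ 9 * (F.κ n ^ 3 * ℓ ^ 3 / κ₀)) (by positivity)]
    rw [lintegral_mul_const _ ((hma.indicator (hms τ)).const_mul _),
      lintegral_const_mul _ (hma.indicator (hms τ)), e]
    calc _ ≤ ENNReal.ofReal (10 ^ 9 * (F.κ n ^ 3 * ℓ ^ 3 / κ₀)) *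
          (ENNReal.ofReal (4 * rh F n ℓ ^ 2) * (ENNReal.ofReal (D ^ 32) * K)) * ENNReal.ofReal (4 * (70 * ℓ) ^ 2) := by
          gcongr
          exact hN.small2 τ hρ.le
      _ = _ := by ring
  calc _ ≤ ENNReal.ofReal (1 / κ₀) * ∑ τ ∈ gd F.σ (rh F n ℓ), (ENNReal.ofReal (D ^ 32) * K) *
        ENNReal.ofReal (10 ^ 9 * (F.κ n ^ 3 * ℓ ^ 3 / κ₀) * (4 * rh F n ℓ ^ 2) *
        (4 * (70 * ℓ) ^ 2)) := by
        gcongr with τ
        exact h1 τ
    _ = (ENNReal.ofReal (D ^ 32) * K) * (ENNReal.ofReal (1 / κ₀) * (ENNReal.ofReal ((gd F.σ (rh F n ℓ)).card : ℝ) *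
        ENNReal.ofReal (10 ^ 9 * (F.κ n ^ 3 * ℓ ^ 3 / κ₀) * (4 * rh F n ℓ ^ 2) *
        (4 * (70 * ℓ) ^ 2)))) := by
        rw [Finset.sum_const, nsmul_eq_mul, ENNReal.ofReal_natCast]
        ring
    _ ≤ _ := by
        rw [← ENNReal.ofReal_mul (Nat.cast_nonneg _), ← ENNReal.ofReal_mul (by positivity)]
        refine mul_le_mul_right (ENNReal.ofReal_le_ofReal ?_) _
        have h2 : ((gd F.σ (rh F n ℓ)).card : ℝ) ≤ 16 / (F.σ * rh F n ℓ ^ 2) := by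
          refine gd_card F.one_le hρ ?_
          unfold rh
          exact div_le_div_of_nonneg_right (by linarith) hσ.le
        have h3 : ((gd F.σ (rh F n ℓ)).card : ℝ) * (10 ^ 9 * (F.κ n ^ 3 * ℓ ^ 3 / κ₀) *
            (4 * rh F n ℓ ^ 2) * (4 * (70 * ℓ) ^ 2)) ≤ 16 / (F.σ * rh F n ℓ ^ 2) *
            (10 ^ 9 * (F.κ n ^ 3 * ℓ ^ 3 / κ₀) * (4 * rh F n ℓ ^ 2) * (4 * (70 * ℓ) ^ 2)) :=
          mul_le_mul_of_nonneg_right h2 (by positivity)
        calc _ ≤ 1 / κ₀ * (16 / (F.σ * rh F n ℓ ^ 2) *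
            (10 ^ 9 * (F.κ n ^ 3 * ℓ ^ 3 / κ₀) * (4 * rh F n ℓ ^ 2) * (4 * (70 * ℓ) ^ 2))) :=
              mul_le_mul_of_nonneg_left h3 (by positivity)
          _ = 1254400000000000 * (F.κ n ^ 3 * ℓ ^ 5 / (κ₀ ^ 2 * F.σ)) := by
              field_simp
              norm_num
          _ ≤ _ := mul_le_mul_of_nonneg_right (by norm_num) (by positivity)

/-- the mean of the second majorant -/
theorem Nj.mean_K2 {μ : Measure (T n → ℝ × ℝ)} [IsProbabilityMeasure μ] {K : ℝ≥0∞} {D : ℝ}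
    (hN : Nj μ K D) (hn : 1 ≤ n) {s ℓ κ₀ : ℝ} (hs0 : 0 < s) :
    Measurable (K2 F n s ℓ κ₀) ∧ ∫⁻ g, K2 F n s ℓ κ₀ g ∂μ ≤
      (ENNReal.ofReal (D ^ 8) * K) * ENNReal.ofReal (1 / J₀ ℓ κ₀) * ENNReal.ofReal (576 * F.κ n * s ^ 2) := by
  have hκ := F.kappa_pos hn
  have hm := measurable_k2 F (n := n)
  refine ⟨measurable_const.mul hm.lintegral_prod_right', ?_⟩
  unfold K2
  rw [lintegral_const_mul _ hm.lintegral_prod_right', mul_comm (ENNReal.ofReal (D ^ 8) * K), mul_assoc]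
  refine mul_le_mul_right ?_ _
  rw [lintegral_lintegral_swap hm.aemeasurable]
  calc ∫⁻ p in Metric.closedBall F.pt (2 * s), ∫⁻ g,
        ENNReal.ofReal (36 * F.κ n * as g * ‖Ph n g (F.t n p)‖ ^ (-s8)) ∂μ
      ≤ ∫⁻ p in Metric.closedBall F.pt (2 * s), ENNReal.ofReal (36 * F.κ n) * (ENNReal.ofReal (D ^ 8) * K) := by
        refine lintegral_mono fun p => ?_
        have h1 : ∀ g : T n → ℝ × ℝ, ENNReal.ofReal (36 * F.κ n * as g * ‖Ph n g (F.t n p)‖ ^ (-s8)) =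
            ENNReal.ofReal (36 * F.κ n) *
              ENNReal.ofReal (as g * ‖Ph n g (F.t n p)‖ ^ (-s8)) := by
          intro g
          rw [← ENNReal.ofReal_mul (by positivity), mul_assoc (36 * F.κ n)]
        simp_rw [h1]
        have h5 : Measurable fun g : T n → ℝ × ℝ =>
            ENNReal.ofReal (as g * ‖Ph n g (F.t n p)‖ ^ (-s8)) := by
          have a1 : Measurable fun g : T n → ℝ × ℝ => Ph n g (F.t n p) :=
            (continuous_Ph.comp (continuous_id.prodMk continuous_const)).measurable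
          have a2 := (continuous_as (n := n)).measurable
          exact ENNReal.measurable_ofReal.comp (a2.mul (a1.norm.pow_const (-s8)))
        rw [lintegral_const_mul _ h5]
        gcongr
        exact hN.lin _
    _ = ENNReal.ofReal (36 * F.κ n) * (ENNReal.ofReal (D ^ 8) * K) * volume (Metric.closedBall F.pt (2 * s)) := by
        rw [setLIntegral_const]
    _ ≤ ENNReal.ofReal (36 * F.κ n) * (ENNReal.ofReal (D ^ 8) * K) * ENNReal.ofReal (4 * (2 * s) ^ 2) := by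
        gcongr
        have e : Metric.closedBall F.pt (2 * s) = {w : ℝ × ℝ | ‖w + -F.pt‖ ≤ 2 * s} := by
          ext w
          show w ∈ Metric.closedBall F.pt (2 * s) ↔ ‖w + -F.pt‖ ≤ 2 * s
          rw [← sub_eq_add_neg, mem_closedBall_iff_norm]
        rw [e]
        exact volume_ball_le _ (by positivity)
    _ = (ENNReal.ofReal (D ^ 8) * K) * ENNReal.ofReal (576 * F.κ n * s ^ 2) := by
        rw [mul_comm (ENNReal.ofReal _) (ENNReal.ofReal (D ^ 8) * K), mul_assoc, ← ENNReal.ofReal_mul (by positivity)]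
        congr 2
        ring

/-- the mean of the majorant of a cell -/
theorem Nj.cell_mean {μ : Measure (T n → ℝ × ℝ)} [IsProbabilityMeasure μ] {K : ℝ≥0∞} {D : ℝ}
    (hN : Nj μ K D) (hn : 1 ≤ n) {s : ℝ} (hs0 : 0 < s) (hs : √n * s ≤ F.σ / 128)
    {β : ℝ} (hβ0 : 0 < β) :
    Measurable (Kc F n s β) ∧ ∫⁻ g, Kc F n s β g ∂μ ≤
      ENNReal.ofReal (10 ^ 16) * (ENNReal.ofReal (D ^ 32) * K) * ENNReal.ofReal (β ^ 16 / F.σ) +
        ENNReal.ofReal 1000 * (ENNReal.ofReal (D ^ 8) * K) * ENNReal.ofReal (1 / β ^ 7) := by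
  have hσ := F.hσ
  have hκ := F.kappa_pos hn
  have hκs : F.κ n * s ≤ 1 / 128 := by
    unfold Fr.κ
    rw [div_mul_eq_mul_div, div_le_iff₀ hσ]
    linarith
  have hℓ1 : ∀ k, F.κ n * (s * ak k ^ 6) ≤ 1 / 20 := by
    intro k
    have ha := ak_pos k
    have h2 : ak k ^ 6 ≤ 1 := pow_le_one₀ ha.le (ak_le k)
    have h3 : 0 < F.κ n * s := by positivity
    calc F.κ n * (s * ak k ^ 6) = F.κ n * s * ak k ^ 6 := by ring
      _ ≤ F.κ n * s * 1 := mul_le_mul_of_nonneg_left h2 h3.le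
      _ ≤ 1 / 20 := by linarith
  have hm1 : ∀ k, Measurable (K1 F n (s * ak k ^ 6) (s * ak k ^ 14 / (2 * β ^ 8))) := fun k => by
    have ha := ak_pos k
    exact (hN.mean_K1 F hn (by positivity) (by positivity) (hℓ1 k)).1
  have hm2 : ∀ k, Measurable (K2 F n s (s * ak k ^ 6) (s * ak k ^ 14 / (2 * β ^ 8))) := fun k =>
    (hN.mean_K2 F hn hs0).1
  have hm3 : ∀ k, Measurable fun g => K1 F n (s * ak k ^ 6) (s * ak k ^ 14 / (2 * β ^ 8)) g +
      K2 F n s (s * ak k ^ 6) (s * ak k ^ 14 / (2 * β ^ 8)) g := fun k => (hm1 k).add (hm2 k)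
  refine ⟨Measurable.tsum hm3, ?_⟩
  unfold Kc
  rw [lintegral_tsum fun k => (hm3 k).aemeasurable]
  have h1 : ∀ k, ∫⁻ g, (K1 F n (s * ak k ^ 6) (s * ak k ^ 14 / (2 * β ^ 8)) g +
      K2 F n s (s * ak k ^ 6) (s * ak k ^ 14 / (2 * β ^ 8)) g) ∂μ ≤
      ENNReal.ofReal (ak k) * (ENNReal.ofReal (10 ^ 16) * (ENNReal.ofReal (D ^ 32) * K) * ENNReal.ofReal (β ^ 16 / F.σ) +
        ENNReal.ofReal 1000 * (ENNReal.ofReal (D ^ 8) * K) * ENNReal.ofReal (1 / β ^ 7)) := by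
    intro k
    have ha := ak_pos k
    set a := ak k with hak
    have ha1 : a ≤ 1 := ak_le k
    rw [lintegral_add_left (hm1 k)]
    have e1 : 2 * 10 ^ 15 * (F.κ n ^ 3 * (s * a ^ 6) ^ 5 / ((s * a ^ 14 / (2 * β ^ 8)) ^ 2 * F.σ)) ≤
        10 ^ 16 * (a * (β ^ 16 / F.σ)) := by
      have e2 : F.κ n ^ 3 * (s * a ^ 6) ^ 5 / ((s * a ^ 14 / (2 * β ^ 8)) ^ 2 * F.σ) =
          4 * ((F.κ n * s) ^ 3 * a ^ 2 * (β ^ 16 / F.σ)) := by
        field_simp
        ring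
      rw [e2]
      have h3 : (F.κ n * s) ^ 3 ≤ 1 := pow_le_one₀ (by positivity) (by linarith)
      have h4 : a ^ 2 ≤ a := by nlinarith
      have h5 : 0 ≤ β ^ 16 / F.σ := by positivity
      have h6 : (F.κ n * s) ^ 3 * a ^ 2 ≤ 1 * a := mul_le_mul h3 h4 (by positivity) (by norm_num)
      nlinarith [mul_le_mul_of_nonneg_right h6 h5]
    have hJ : J₀ (s * a ^ 6) (s * a ^ 14 / (2 * β ^ 8)) = s * β ^ 7 / (2 * a) := by
      unfold J₀
      have e3 : s * a ^ 6 / (2 * (s * a ^ 14 / (2 * β ^ 8))) = (β / a) ^ 8 := by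
        field_simp
      have e4 : ((β / a) ^ 8) ^ (s8 - 1) = (β / a) ^ 7 := by
        rw [← Real.rpow_natCast, ← Real.rpow_mul (by positivity), ← Real.rpow_natCast]
        congr 1
        norm_num [s8]
      rw [e3, e4]
      field_simp
    have e5 : 1 / J₀ (s * a ^ 6) (s * a ^ 14 / (2 * β ^ 8)) * (576 * F.κ n * s ^ 2) ≤
        1000 * (a * (1 / β ^ 7)) := by
      rw [hJ]
      have e6 : 1 / (s * β ^ 7 / (2 * a)) * (576 * F.κ n * s ^ 2) =
          1152 * (F.κ n * s) * (a * (1 / β ^ 7)) := by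
        field_simp
        ring
      rw [e6]
      refine mul_le_mul_of_nonneg_right (by linarith) (by positivity)
    have k1 := (hN.mean_K1 F hn (ℓ := s * a ^ 6) (κ₀ := s * a ^ 14 / (2 * β ^ 8)) (by positivity)
      (by positivity) (hℓ1 k)).2
    have k2 := (hN.mean_K2 F hn (ℓ := s * a ^ 6) (κ₀ := s * a ^ 14 / (2 * β ^ 8)) hs0).2
    have hJ0 : 0 ≤ 1 / J₀ (s * a ^ 6) (s * a ^ 14 / (2 * β ^ 8)) := by rw [hJ]; positivity
    rw [mul_assoc, ← ENNReal.ofReal_mul hJ0] at k2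
    calc _ ≤ (ENNReal.ofReal (D ^ 32) * K) * ENNReal.ofReal (10 ^ 16 * (a * (β ^ 16 / F.σ))) +
          (ENNReal.ofReal (D ^ 8) * K) * ENNReal.ofReal (1000 * (a * (1 / β ^ 7))) := by
          refine add_le_add (k1.trans ?_) (k2.trans ?_)
          · gcongr
          · gcongr
      _ = _ := by
          rw [ENNReal.ofReal_mul (p := 10 ^ 16) (by positivity), ENNReal.ofReal_mul ha.le,
            ENNReal.ofReal_mul (p := 1000) (by positivity), ENNReal.ofReal_mul ha.le]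
          ring
  refine (ENNReal.tsum_le_tsum h1).trans (le_of_eq ?_)
  rw [ENNReal.tsum_mul_right, tsum_ak, one_mul]

/-- all small orbits of a cell -/
theorem cell_me1 (hn : 1 ≤ n) (c : T n → ℝ × ℝ) {s : ℝ} (hs0 : 0 < s) (hs : √n * s ≤ F.σ / 128)
    {β : ℝ} (hβ0 : 0 < β) :
    ME (fun α => ((OL (fld (sc n c)) (Metric.closedBall F.pt (2 * s)) (Iio s) α).encard : ℝ≥0∞))
      (Kc F n s β (F.g n c)) := by
  have hσ := F.hσ
  have hκs : F.κ n * s ≤ 1 / 128 := by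
    unfold Fr.κ
    rw [div_mul_eq_mul_div, div_le_iff₀ hσ]
    linarith
  have h1 : ∀ k, ME (fun α => ((A1 (fld (sc n c)) (F.B n) (Metric.closedBall F.pt (2 * s))
        (s * ak k ^ 6) (s * ak k ^ 14 / (2 * β ^ 8)) α).encard : ℝ≥0∞) +
      ((A2 (fld (sc n c)) (F.B n) (Metric.closedBall F.pt (2 * s))
        (s * ak k ^ 6) (s * ak k ^ 14 / (2 * β ^ 8)) α).encard : ℝ≥0∞))
      (K1 F n (s * ak k ^ 6) (s * ak k ^ 14 / (2 * β ^ 8)) (F.g n c) +
        K2 F n s (s * ak k ^ 6) (s * ak k ^ 14 / (2 * β ^ 8)) (F.g n c)) := by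
    intro k
    have ha := ak_pos k
    refine (case1 F hn c hs0 hs (by positivity) (by positivity) ?_).add
      (case2 F hn c hs0 hs (by positivity) (by positivity))
    have h2 : ak k ^ 6 ≤ 1 := pow_le_one₀ ha.le (ak_le k)
    have hκ := F.kappa_pos hn
    have h3 : 0 < F.κ n * s := by positivity
    calc F.κ n * (s * ak k ^ 6) = F.κ n * s * ak k ^ 6 := by ring
      _ ≤ F.κ n * s * 1 := mul_le_mul_of_nonneg_left h2 h3.le
      _ ≤ 1 / 20 := by linarith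
  refine (ME.tsum h1).mono (fun α _ => ?_) le_rfl
  have hsub : OL (fld (sc n c)) (Metric.closedBall F.pt (2 * s)) (Iio s) α ⊆ ⋃ k : ℕ,
      (A1 (fld (sc n c)) (F.B n) (Metric.closedBall F.pt (2 * s))
        (s * ak k ^ 6) (s * ak k ^ 14 / (2 * β ^ 8)) α ∪
      A2 (fld (sc n c)) (F.B n) (Metric.closedBall F.pt (2 * s))
        (s * ak k ^ 6) (s * ak k ^ 14 / (2 * β ^ 8)) α) := by
    rintro C ⟨γ, T', ho, hC, hΩ, hl⟩
    have hpos : 0 < ∫ t in (0:ℝ)..T', winv (fld (sc n c)) (γ t) * H709R2.sq (fld (sc n c) (γ t)) := by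
      rw [winv_len (α := α)]
      have hc : Continuous fun t => eu (rf (fld (sc n c)) α (γ t)) :=
        continuous_eu.comp (((continuous_rot α).comp (contDiff_fld (m := 2) (sc n c)).continuous).comp
          (orb_cont ho))
      refine intervalIntegral.intervalIntegral_pos_of_pos (hc.intervalIntegrable _ _) (fun t => ?_)
        ho.pos
      exact Real.sqrt_pos.2 (H709R2.sq_pos (ho.ne t))
    obtain ⟨k, hk⟩ := small_scale hs0 hpos hl
    rw [mem_iUnion]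
    refine ⟨k, ?_⟩
    rcases lt_or_ge (∫ t in (0:ℝ)..T', F.B n (γ t) * H709R2.sq (fld (sc n c) (γ t)))
      (s * ak k ^ 14 / (2 * β ^ 8)) with h2 | h2
    · exact Or.inr ⟨γ, T', ho, hC, hΩ, hk.1, h2⟩
    · exact Or.inl ⟨γ, T', ho, hC, hΩ, hk, h2⟩
  refine (enc_mono hsub).trans ((enc_iUnion _).trans (ENNReal.tsum_le_tsum fun k => enc_union _ _))

end

section

variable {n : ℕ}

/-- small orbits in the annulus -/
theorem small_me1 (hn : 1 ≤ n) (c : T n → ℝ × ℝ) (j : ℕ) {β : ℝ} (hβ : 0 < β) :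
    ME (fun α => ((OL (fld (sc n c)) (An j) (Iio (sj n j)) α).encard : ℝ≥0∞))
      (∑ q ∈ cells n j, Kc (Fq q) n (sj n j) β ((Fq q).g n c)) := by
  have h := ME.sum (cells n j) fun q hq =>
    cell_me1 (Fq q) hn c (sj_pos hn j) (cells_scale hn hq) hβ
  refine h.mono (fun α _ => ?_) le_rfl
  refine (enc_mono ?_).trans (encard_biUnion_le' (cells n j) fun q =>
    OL (fld (sc n c)) (Metric.closedBall (Fq q).pt (2 * sj n j)) (Iio (sj n j)) α)
  rintro C ⟨γ, T', ho, rfl, hΩ, hl⟩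
  have hs := sj_le hn j
  have h2 : (0:ℝ) < 2 ^ j := by positivity
  obtain ⟨q, hq, z₀, -, hz2, hz3⟩ := near_zero hn c ho (fun t => hΩ ⟨t, rfl⟩) (Λ := sj n j)
    (by linarith) (le_of_lt hl)
  simp only [mem_iUnion]
  refine ⟨q, hq, γ, T', ho, rfl, ?_, hl⟩
  rintro _ ⟨t, rfl⟩
  rw [Fq_pt, mem_closedBall_iff_norm]
  have e : γ t - q = -(z₀ - γ t) + (z₀ - q) := by abel
  rw [e]
  refine (norm_add_le _ _).trans ?_
  rw [norm_neg]
  linarith [hz3 t]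

lemma Nj.Zq_mean {μ : Measure (T n → ℝ × ℝ)} [IsProbabilityMeasure μ] {K : ℝ≥0∞} {D : ℝ}
    (hN : Nj μ K D) (F : Fr) : Measurable (Zq n F) ∧
    ∫⁻ g, Zq n F g ∂μ ≤ (ENNReal.ofReal (D ^ 16) * K) * ENNReal.ofReal (64 / F.σ) := by
  have hσ := F.one_le
  have hρ : 0 < 1 / (20 * F.σ) := by positivity
  have hms : ∀ τ, MeasurableSet {g : T n → ℝ × ℝ | ‖Ph n g τ‖ ≤ 1 / (20 * F.σ) * as g} := fun τ => by
    have h1 : Continuous fun g : T n → ℝ × ℝ => Ph n g τ :=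
      continuous_Ph.comp (continuous_id.prodMk continuous_const)
    exact (isClosed_le h1.norm (continuous_const.mul continuous_as)).measurableSet
  have hma : Measurable fun g : T n → ℝ × ℝ => ENNReal.ofReal (as g ^ 0) := by
    simp only [pow_zero]
    exact measurable_const
  have hm : ∀ τ, Measurable fun g : T n → ℝ × ℝ =>
      {g : T n → ℝ × ℝ | ‖Ph n g τ‖ ≤ 1 / (20 * F.σ) * as g}.indicator
        (fun g => ENNReal.ofReal (as g ^ 0)) g := fun τ => hma.indicator (hms τ)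
  refine ⟨Finset.measurable_fun_sum _ fun τ _ => hm τ, ?_⟩
  unfold Zq
  rw [lintegral_finsetSum _ fun τ _ => hm τ]
  calc _ ≤ ∑ τ ∈ gd F.σ (1 / (20 * F.σ)), ENNReal.ofReal (4 * (1 / (20 * F.σ)) ^ 2) * (ENNReal.ofReal (D ^ 16) * K) :=
        Finset.sum_le_sum fun τ _ => hN.small0 τ hρ.le
    _ = (ENNReal.ofReal (D ^ 16) * K) * (ENNReal.ofReal ((gd F.σ (1 / (20 * F.σ))).card : ℝ) *
          ENNReal.ofReal (4 * (1 / (20 * F.σ)) ^ 2)) := by
        rw [Finset.sum_const, nsmul_eq_mul, ENNReal.ofReal_natCast]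
        ring
    _ ≤ _ := by
        rw [← ENNReal.ofReal_mul (Nat.cast_nonneg _)]
        gcongr
        have h1 := gd_card (σ := F.σ) F.one_le hρ (by
          rw [div_le_div_iff₀ (by positivity) (by positivity)]; linarith)
        calc _ ≤ 16 / (F.σ * (1 / (20 * F.σ)) ^ 2) * (4 * (1 / (20 * F.σ)) ^ 2) :=
              mul_le_mul_of_nonneg_right h1 (by positivity)
          _ = 64 / F.σ := by field_simp; norm_num

end

end

end Pool.Agent.W960.HS
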