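import Pool.Agent.W960.HS.CB1

/-! The estimates for the majorants under a general law of the coefficients. -/

open Real Set MeasureTheory Topology Filter
open scoped ENNReal

namespace Pool.Agent.W960.HS

noncomputable section

open Pool.Agent.W960.HR (T mem_T GP norm_sq_le_sq sq_le_norm_sq volume_ball_le encard_biUnion_le')
open Pool.Agent.H709R2 (wedge rot divRot divW winv ClosedOrbit continuous_rot fld contDiff_fld
  contDiffAt_winv)
open Pool.Agent.H709U (Orb rf)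

variable {n : ℕ}

/-- the estimates in all charts -/
def Nd (μ : Measure (T n → ℝ × ℝ)) (K : ℝ≥0∞) (D : ℝ) : Prop := ∀ F : Fr, Nj (μ.map (F.g n)) K D

/-- the constant of a cell -/
def CE1 : ℝ≥0∞ := ENNReal.ofReal (10 ^ 16) + ENNReal.ofReal 1000

/-- the constant of the intermediate orbits -/
def CM1 : ℝ≥0∞ := ENNReal.ofReal 77 + 1

/-- the constant of the local orbits -/
def CL1 : ℝ≥0∞ :=
  CE1 * (ENNReal.ofReal (25 * 10 ^ 6) * ∑' j : ℕ, ENNReal.ofReal ((1 / bb ^ 7) ^ j)) +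
  CM1 * (ENNReal.ofReal (2 * 10 ^ 9) * ((∑' j : ℕ, ENNReal.ofReal (aa ^ j)) *
    ∑' k : ℕ, ENNReal.ofReal (aa ^ k)))

/-- the majorant for an annulus -/
def Kl1 (n : ℕ) (D : ℝ) (j : ℕ) (c : T n → ℝ × ℝ) : ℝ≥0∞ :=
  ∑ q ∈ cells n j, Kc (Fq q) n (sj n j) (bb ^ j / D) ((Fq q).g n c) + ∑' k, Km n j k (th j k) c

lemma Nj.cell_mean1 {μ : Measure (T n → ℝ × ℝ)} [IsProbabilityMeasure μ] {K : ℝ≥0∞} {D : ℝ}
    (hN : Nj μ K D) (F : Fr) (hD : 1 ≤ D) (hn : 1 ≤ n) {s : ℝ} (hs0 : 0 < s)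
    (hs : √n * s ≤ F.σ / 128) {β : ℝ} (hβ : 0 < β) :
    Measurable (Kc F n s (β / D)) ∧ ∫⁻ g, Kc F n s (β / D) g ∂μ ≤
      CE1 * (ENNReal.ofReal (D ^ 16) * K) * ENNReal.ofReal (β ^ 16 / F.σ + 1 / β ^ 7) := by
  have hσ := F.hσ
  have hD0 : 0 < D := by linarith
  obtain ⟨h1, h2⟩ := hN.cell_mean F hn hs0 hs (β := β / D) (by positivity)
  refine ⟨h1, h2.trans ?_⟩
  have e1 : ENNReal.ofReal (10 ^ 16) * (ENNReal.ofReal (D ^ 32) * K) *
      ENNReal.ofReal ((β / D) ^ 16 / F.σ) =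
      ENNReal.ofReal (10 ^ 16) * (ENNReal.ofReal (D ^ 16) * K) * ENNReal.ofReal (β ^ 16 / F.σ) := by
    have e : ENNReal.ofReal (D ^ 32) * ENNReal.ofReal ((β / D) ^ 16 / F.σ) =
        ENNReal.ofReal (D ^ 16) * ENNReal.ofReal (β ^ 16 / F.σ) := by
      rw [← ENNReal.ofReal_mul (by positivity), ← ENNReal.ofReal_mul (by positivity)]
      congr 1
      field_simp
    calc _ = ENNReal.ofReal (10 ^ 16) * K * (ENNReal.ofReal (D ^ 32) *
          ENNReal.ofReal ((β / D) ^ 16 / F.σ)) := by ring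
      _ = _ := by rw [e]; ring
  have e2 : ENNReal.ofReal 1000 * (ENNReal.ofReal (D ^ 8) * K) * ENNReal.ofReal (1 / (β / D) ^ 7) ≤
      ENNReal.ofReal 1000 * (ENNReal.ofReal (D ^ 16) * K) * ENNReal.ofReal (1 / β ^ 7) := by
    have e : ENNReal.ofReal (D ^ 8) * ENNReal.ofReal (1 / (β / D) ^ 7) ≤
        ENNReal.ofReal (D ^ 16) * ENNReal.ofReal (1 / β ^ 7) := by
      rw [← ENNReal.ofReal_mul (by positivity), ← ENNReal.ofReal_mul (by positivity)]
      apply ENNReal.ofReal_le_ofReal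
      have e3 : D ^ 8 * (1 / (β / D) ^ 7) = D ^ 15 * (1 / β ^ 7) := by
        field_simp
      rw [e3]
      refine mul_le_mul_of_nonneg_right ?_ (by positivity)
      exact pow_le_pow_right₀ hD (by norm_num)
    calc _ = ENNReal.ofReal 1000 * K * (ENNReal.ofReal (D ^ 8) *
          ENNReal.ofReal (1 / (β / D) ^ 7)) := by ring
      _ ≤ ENNReal.ofReal 1000 * K * (ENNReal.ofReal (D ^ 16) * ENNReal.ofReal (1 / β ^ 7)) := by
          gcongr
      _ = _ := by ring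
  rw [e1]
  refine (add_le_add le_rfl e2).trans ?_
  rw [ENNReal.ofReal_add (p := β ^ 16 / F.σ) (by positivity) (by positivity)]
  unfold CE1
  calc _ ≤ ENNReal.ofReal (10 ^ 16) * (ENNReal.ofReal (D ^ 16) * K) * (ENNReal.ofReal (β ^ 16 / F.σ) +
        ENNReal.ofReal (1 / β ^ 7)) + ENNReal.ofReal 1000 * (ENNReal.ofReal (D ^ 16) * K) *
        (ENNReal.ofReal (β ^ 16 / F.σ) + ENNReal.ofReal (1 / β ^ 7)) := by
        gcongr
        · exact le_self_add
        · exact le_add_self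
    _ = _ := by ring

/-- measurability of the majorant of a cell -/
lemma kc_meas (F : Fr) (hn : 1 ≤ n) {s : ℝ} (hs0 : 0 < s) (hs : √n * s ≤ F.σ / 128) {β : ℝ}
    (hβ0 : 0 < β) : Measurable (Kc F n s β) := by
  have hσ := F.hσ
  have hκ := F.kappa_pos hn
  have hκs : F.κ n * s ≤ 1 / 128 := by
    unfold Fr.κ
    rw [div_mul_eq_mul_div, div_le_iff₀ hσ]
    linarith
  have hℓ1 : ∀ k, F.κ n * (s * ak k ^ 6) ≤ 1 / 20 := by
    intro k
    have ha := ak_pos k
    have h2 : ak k ^ 6 ≤ 1 := pow_le_one₀ ha.le (ak_le k)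
    have h3 : 0 < F.κ n * s := by positivity
    calc F.κ n * (s * ak k ^ 6) = F.κ n * s * ak k ^ 6 := by ring
      _ ≤ F.κ n * s * 1 := mul_le_mul_of_nonneg_left h2 h3.le
      _ ≤ 1 / 20 := by linarith
  refine Measurable.tsum fun k => ?_
  have ha := ak_pos k
  exact (mean_K1 F hn (by positivity) (by positivity) (hℓ1 k)).1.add (mean_K2 F hn hs0).1

lemma pow32a {a b : ℝ} (ha : 0 ≤ a) (hb : 0 < b) : 18 * (a / b) * √(18 * (a / b)) ≤
    77 * ((1 + a ^ 2) * (1 + b ^ (-s8))) := by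
  have h1 : √(18 * (a / b)) = √18 * (√a / √b) := by
    rw [Real.sqrt_mul (by norm_num), Real.sqrt_div ha]
  have h2 : a * √a ≤ 1 + a ^ 2 := by
    rcases le_total a 1 with h | h
    · have : √a ≤ 1 := Real.sqrt_le_one.2 h
      nlinarith [Real.sqrt_nonneg a, sq_nonneg a]
    · have h3 : √a ≤ a := by
        rw [Real.sqrt_le_left (by linarith)]
        nlinarith
      nlinarith
  have h3 : 1 / (b * √b) ≤ 1 + b ^ (-s8) := by
    have e : 1 / (b * √b) = b ^ (-(3 / 2) : ℝ) := by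
      rw [Real.rpow_neg hb.le, one_div, show (3 / 2 : ℝ) = 1 + 1 / 2 by norm_num,
        Real.rpow_add hb, Real.rpow_one, Real.sqrt_eq_rpow]
    rw [e]
    rcases le_total b 1 with h | h
    · have := Real.rpow_le_rpow_of_exponent_ge hb h (by norm_num [s8] : -s8 ≤ -(3 / 2))
      linarith
    · have h4 := Real.rpow_le_one_of_one_le_of_nonpos h (by norm_num : (-(3 / 2) : ℝ) ≤ 0)
      have : 0 ≤ b ^ (-s8) := (Real.rpow_pos_of_pos hb _).le
      linarith
  have h4 : √(18:ℝ) ≤ 77 / 18 := by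
    rw [Real.sqrt_le_left (by norm_num)]
    norm_num
  have hb2 : 0 < √b := Real.sqrt_pos.2 hb
  calc 18 * (a / b) * √(18 * (a / b)) = (18 * √18) * ((a * √a) * (1 / (b * √b))) := by
        rw [h1]; field_simp
    _ ≤ 77 * ((1 + a ^ 2) * (1 + b ^ (-s8))) := by
        refine mul_le_mul (by linarith) (mul_le_mul h2 h3 (by positivity) (by positivity))
          (by positivity) (by norm_num)

/-- the mean of the kernel -/
theorem Nd.mean_Qk {μ : Measure (T n → ℝ × ℝ)} [IsProbabilityMeasure μ] {K : ℝ≥0∞} {D : ℝ}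
    (hN : Nd μ K D) (hn : 1 ≤ n) (p : ℝ × ℝ) :
    ∫⁻ c, Qk n c p ∂μ ≤ ENNReal.ofReal 77 * (ENNReal.ofReal (D ^ 16) * K) := by
  set F := Fq p with hF
  have hp : F.pt = p := Fq_pt p
  have hσ : F.σ = sg F.pt := by rw [hp]; exact Fq_σ p
  have h1 : ∀ c : T n → ℝ × ℝ, Qk n c p ≤ ENNReal.ofReal 77 *
      ENNReal.ofReal ((1 + as (F.g n c) ^ 2) * (1 + ‖Ph n (F.g n c) 0‖ ^ (-s8))) := by
    intro c
    rw [← ENNReal.ofReal_mul (by norm_num)]
    unfold Qk
    apply ENNReal.ofReal_le_ofReal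
    by_cases h0 : fld (sc n c) p = 0
    · have : qk n c p = 0 := by
        unfold qk hr
        rw [h0]
        unfold H709R2.sq
        simp
      rw [this, zero_mul]
      have : 0 ≤ ‖Ph n (F.g n c) 0‖ ^ (-s8) := Real.rpow_nonneg (norm_nonneg _) _
      positivity
    · have hX : fld (sc n c) F.pt ≠ 0 := by rw [hp]; exact h0
      have h2 := qk_le F hn hσ c hX
      rw [hp] at h2
      have hq := qk_nonneg c p
      have hP : 0 < ‖Ph n (F.g n c) 0‖ := by
        rw [norm_pos_iff]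
        intro h3
        apply hX
        have hD : 0 < F.D F.pt := by rw [F.D_pt]; have := F.hσ; positivity
        rw [chart F hn c hD, F.t_pt, h3, smul_zero]
      refine le_trans ?_ (pow32a (as_nonneg _) hP)
      exact mul_le_mul h2 (Real.sqrt_le_sqrt h2) (Real.sqrt_nonneg _) (hq.trans h2)
  have hm : Measurable fun g : T n → ℝ × ℝ =>
      ENNReal.ofReal ((1 + as g ^ 2) * (1 + ‖Ph n g 0‖ ^ (-s8))) := by
    have a1 : Measurable fun g : T n → ℝ × ℝ => Ph n g 0 :=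
      (continuous_Ph.comp (continuous_id.prodMk continuous_const)).measurable
    have a2 := (continuous_as (n := n)).measurable
    exact ENNReal.measurable_ofReal.comp (((a2.pow_const 2).const_add 1).mul
      ((a1.norm.pow_const (-s8)).const_add 1))
  calc ∫⁻ c, Qk n c p ∂μ ≤ ∫⁻ c, ENNReal.ofReal 77 *
        ENNReal.ofReal ((1 + as (F.g n c) ^ 2) * (1 + ‖Ph n (F.g n c) 0‖ ^ (-s8))) ∂μ :=
        lintegral_mono h1
    _ = ENNReal.ofReal 77 * ∫⁻ c, ENNReal.ofReal ((1 + as (F.g n c) ^ 2) *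
        (1 + ‖Ph n (F.g n c) 0‖ ^ (-s8))) ∂μ :=
        lintegral_const_mul _ (hm.comp (F.mp_g n).measurable)
    _ = ENNReal.ofReal 77 * ∫⁻ g, ENNReal.ofReal ((1 + as g ^ 2) *
        (1 + ‖Ph n g 0‖ ^ (-s8))) ∂(μ.map (F.g n)) := by
        congr 1
        exact (lintegral_map hm (F.mp_g n).measurable).symm
    _ ≤ _ := by
        gcongr
        exact (hN F).quad 0

/-- the mean of the detector of zeros -/
theorem Nd.mean_Zq {μ : Measure (T n → ℝ × ℝ)} [IsProbabilityMeasure μ] {K : ℝ≥0∞} {D : ℝ}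
    (hN : Nd μ K D) (q : ℝ × ℝ) :
    ∫⁻ c, Zq n (Fq q) ((Fq q).g n c) ∂μ ≤
      (ENNReal.ofReal (D ^ 16) * K) * ENNReal.ofReal (64 / (Fq q).σ) := by
  have : IsProbabilityMeasure (μ.map ((Fq q).g n)) :=
    Measure.isProbabilityMeasure_map ((Fq q).mp_g n).measurable.aemeasurable
  rw [← lintegral_map (Zq_mean n (Fq q)).1 ((Fq q).mp_g n).measurable]
  exact ((hN (Fq q)).Zq_mean (Fq q)).2

theorem Nd.small_mean1 {μ : Measure (T n → ℝ × ℝ)} [IsProbabilityMeasure μ] {K : ℝ≥0∞} {D : ℝ}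
    (hN : Nd μ K D) (hD : 1 ≤ D) (hn : 1 ≤ n) (j : ℕ) {β : ℝ} (hβ : 1 ≤ β) :
    Measurable (fun c : T n → ℝ × ℝ => ∑ q ∈ cells n j, Kc (Fq q) n (sj n j) (β / D) ((Fq q).g n c)) ∧
    ∫⁻ c, ∑ q ∈ cells n j, Kc (Fq q) n (sj n j) (β / D) ((Fq q).g n c) ∂μ ≤
      CE1 * (ENNReal.ofReal (D ^ 16) * K) * ENNReal.ofReal (5 * 10 ^ 6 * n * (4 * β ^ 16 / 2 ^ j + 1 / β ^ 7)) := by
  have hβ0 : 0 < β := by linarith
  have hm : ∀ q ∈ cells n j, Measurable fun c : T n → ℝ × ℝ =>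
      Kc (Fq q) n (sj n j) (β / D) ((Fq q).g n c) := fun q hq =>
    (kc_meas (Fq q) hn (sj_pos hn j) (cells_scale hn hq) (by positivity)).comp
      ((Fq q).mp_g n).measurable
  refine ⟨Finset.measurable_fun_sum _ hm, ?_⟩
  rw [lintegral_finsetSum' _ fun q hq => (hm q hq).aemeasurable]
  have h1 : ∀ q ∈ cells n j, ∫⁻ c, Kc (Fq q) n (sj n j) (β / D) ((Fq q).g n c) ∂μ ≤
      CE1 * (ENNReal.ofReal (D ^ 16) * K) * ENNReal.ofReal (4 * β ^ 16 / 2 ^ j + 1 / β ^ 7) := by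
    intro q hq
    have : IsProbabilityMeasure (μ.map ((Fq q).g n)) :=
      Measure.isProbabilityMeasure_map ((Fq q).mp_g n).measurable.aemeasurable
    obtain ⟨k1, k2⟩ := (hN (Fq q)).cell_mean1 (Fq q) hD hn (sj_pos hn j) (cells_scale hn hq) hβ0
    rw [← lintegral_map k1 ((Fq q).mp_g n).measurable]
    refine k2.trans ?_
    gcongr CE1 * (ENNReal.ofReal (D ^ 16) * K) * ENNReal.ofReal (?_ + _)
    have h2 := cells_sg hq
    have h3 := (Fq q).hσ
    have h4 : (0:ℝ) < 2 ^ j := by positivity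
    rw [div_le_div_iff₀ h3 h4]
    have h5 : 0 < β ^ 16 := by positivity
    nlinarith
  refine (Finset.sum_le_sum h1).trans ?_
  rw [Finset.sum_const, nsmul_eq_mul]
  calc ((cells n j).card : ℝ≥0∞) * (CE1 * (ENNReal.ofReal (D ^ 16) * K) * ENNReal.ofReal (4 * β ^ 16 / 2 ^ j + 1 / β ^ 7)) =
        CE1 * (ENNReal.ofReal (D ^ 16) * K) * (ENNReal.ofReal ((cells n j).card : ℝ) *
          ENNReal.ofReal (4 * β ^ 16 / 2 ^ j + 1 / β ^ 7)) := by
        rw [ENNReal.ofReal_natCast]; ring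
    _ ≤ _ := by
        rw [← ENNReal.ofReal_mul (Nat.cast_nonneg _)]
        gcongr
        exact cells_card hn j

theorem mid_mean1 {μ : Measure (T n → ℝ × ℝ)} [IsProbabilityMeasure μ] {L : ℝ≥0∞}
    (hQ : ∀ p, ∫⁻ c, Qk n c p ∂μ ≤ ENNReal.ofReal 77 * L) 
    (hZ : ∀ q : ℝ × ℝ, ∫⁻ c, Zq n (Fq q) ((Fq q).g n c) ∂μ ≤ L * ENNReal.ofReal (64 / (Fq q).σ)) 
    (hn : 1 ≤ n) (j k : ℕ) {θ : ℝ} (hθ : 0 < θ) :
    Measurable (Km n j k θ) ∧ ∫⁻ c, Km n j k θ c ∂μ ≤
      (CM1 * L) * ENNReal.ofReal (10 ^ 9 * n * (θ / 2 ^ k + 2 ^ k / (θ ^ 2 * 2 ^ j))) := by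
  have hs := sj_pos hn j
  have hn0 := sqrt_pos' hn
  have hmj := measurable_hm (n := n) j k θ
  refine ⟨measurable_const.mul hmj.lintegral_prod_right', ?_⟩
  unfold Km
  rw [lintegral_const_mul _ hmj.lintegral_prod_right', lintegral_lintegral_swap hmj.aemeasurable]
  have hZm : ∀ q : ℝ × ℝ, Measurable fun c : T n → ℝ × ℝ => Zq n (Fq q) ((Fq q).g n c) := fun q =>
    (Zq_mean n (Fq q)).1.comp ((Fq q).mp_g n).measurable
  -- inner integral
  have h1 : ∀ p, ∫⁻ c, hm n j k θ c p ∂μ ≤ ENNReal.ofReal (√n / sg p) *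
      (ENNReal.ofReal θ * (ENNReal.ofReal 77 * L) + ENNReal.ofReal (1 / θ ^ 2) *
      ∑ q ∈ cells n j, {p : ℝ × ℝ | ‖p + -q‖ ≤ 4 * (2 ^ k * sj n j)}.indicator
        (fun _ => L * ENNReal.ofReal (256 / 2 ^ j)) p) := by
    intro p
    have m1 : Measurable fun c : T n → ℝ × ℝ => Qk n c p := by
      have h1 : Measurable fun c : T n → ℝ × ℝ => (c, p) := measurable_id.prodMk measurable_const
      have h2 := (measurable_Qk (n := n)).comp h1
      simpa only [Function.comp_def] using h2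
    have m2 : ∀ q : ℝ × ℝ, Measurable fun c : T n → ℝ × ℝ =>
        {p : ℝ × ℝ | ‖p + -q‖ ≤ 4 * (2 ^ k * sj n j)}.indicator
        (fun _ => Zq n (Fq q) ((Fq q).g n c)) p := by
      intro q
      by_cases h : p ∈ {p : ℝ × ℝ | ‖p + -q‖ ≤ 4 * (2 ^ k * sj n j)}
      · simp only [indicator_of_mem h]
        exact hZm q
      · simp only [indicator_of_notMem h]
        exact measurable_const
    have m3 : Measurable fun c : T n → ℝ × ℝ => ∑ q ∈ cells n j,
        {p : ℝ × ℝ | ‖p + -q‖ ≤ 4 * (2 ^ k * sj n j)}.indicator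
        (fun _ => Zq n (Fq q) ((Fq q).g n c)) p := Finset.measurable_fun_sum _ fun q _ => m2 q
    have m4 : Measurable fun c : T n → ℝ × ℝ => ENNReal.ofReal θ * Qk n c p := m1.const_mul _
    have m5 : Measurable fun c : T n → ℝ × ℝ => ENNReal.ofReal (1 / θ ^ 2) * ∑ q ∈ cells n j,
        {p : ℝ × ℝ | ‖p + -q‖ ≤ 4 * (2 ^ k * sj n j)}.indicator
        (fun _ => Zq n (Fq q) ((Fq q).g n c)) p := m3.const_mul _
    have m6 : Measurable fun c : T n → ℝ × ℝ => ENNReal.ofReal θ * Qk n c p +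
        ENNReal.ofReal (1 / θ ^ 2) * ∑ q ∈ cells n j,
        {p : ℝ × ℝ | ‖p + -q‖ ≤ 4 * (2 ^ k * sj n j)}.indicator
        (fun _ => Zq n (Fq q) ((Fq q).g n c)) p := m4.add m5
    unfold hm
    rw [lintegral_const_mul _ m6,
      lintegral_add_left m4, lintegral_const_mul _ m1, lintegral_const_mul _ m3,
      lintegral_finsetSum _ fun q _ => m2 q]
    gcongr with q hq
    · exact hQ p
    · by_cases h : p ∈ {p : ℝ × ℝ | ‖p + -q‖ ≤ 4 * (2 ^ k * sj n j)}
      · simp only [indicator_of_mem h]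
        refine (hZ q).trans ?_
        gcongr _ * ENNReal.ofReal ?_
        have h2 := cells_sg hq
        have h3 := (Fq q).hσ
        rw [div_le_div_iff₀ h3 (by positivity)]
        linarith
      · simp only [indicator_of_notMem h]
        simp
  have h2 : ∀ p ∈ An j, ∫⁻ c, hm n j k θ c p ∂μ ≤ ENNReal.ofReal (3 * √n / 2 ^ j) *
      (ENNReal.ofReal θ * (ENNReal.ofReal 77 * L) + ENNReal.ofReal (1 / θ ^ 2) *
      ∑ q ∈ cells n j, {p : ℝ × ℝ | ‖p + -q‖ ≤ 4 * (2 ^ k * sj n j)}.indicator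
        (fun _ => L * ENNReal.ofReal (256 / 2 ^ j)) p) := by
    intro p hp
    refine (h1 p).trans ?_
    gcongr ENNReal.ofReal ?_ * _
    have h3 := An_sg hp
    have h4 := one_le_sg p
    rw [div_le_div_iff₀ (by linarith) (by positivity)]
    nlinarith
  have mi : ∀ q : ℝ × ℝ, Measurable ({p : ℝ × ℝ | ‖p + -q‖ ≤ 4 * (2 ^ k * sj n j)}.indicator
        (fun _ => L * ENNReal.ofReal (256 / 2 ^ j))) := fun q =>
    measurable_const.indicator (meas_near q _)
  have ms : Measurable fun p : ℝ × ℝ => ∑ q ∈ cells n j,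
      {p : ℝ × ℝ | ‖p + -q‖ ≤ 4 * (2 ^ k * sj n j)}.indicator
        (fun _ => L * ENNReal.ofReal (256 / 2 ^ j)) p :=
    Finset.measurable_fun_sum _ fun q _ => mi q
  have hvolA : volume (An j) ≤ ENNReal.ofReal (4 * (2 ^ (j + 1)) ^ 2) := by
    refine (measure_mono ?_).trans (volume_ball_le (0 : ℝ × ℝ) (by positivity))
    intro z hz
    show ‖z + 0‖ ≤ 2 ^ (j + 1)
    rw [add_zero]
    exact hz.2
  have h3 : ∫⁻ p in An j, ∑ q ∈ cells n j, {p : ℝ × ℝ | ‖p + -q‖ ≤ 4 * (2 ^ k * sj n j)}.indicator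
        (fun _ => L * ENNReal.ofReal (256 / 2 ^ j)) p ≤
      L * ENNReal.ofReal (5 * 10 ^ 6 * n * (256 / 2 ^ j * (4 * (4 * (2 ^ k * sj n j)) ^ 2))) := by
    refine (setLIntegral_le_lintegral _ _).trans ?_
    rw [lintegral_finsetSum _ fun q _ => mi q]
    calc _ ≤ ∑ q ∈ cells n j, L * ENNReal.ofReal (256 / 2 ^ j) *
          ENNReal.ofReal (4 * (4 * (2 ^ k * sj n j)) ^ 2) := by
          refine Finset.sum_le_sum fun q _ => ?_
          rw [lintegral_indicator_const (meas_near q _)]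
          gcongr
          exact volume_ball_le _ (by positivity)
      _ = L * (ENNReal.ofReal ((cells n j).card : ℝ) * ENNReal.ofReal (256 / 2 ^ j *
          (4 * (4 * (2 ^ k * sj n j)) ^ 2))) := by
          rw [Finset.sum_const, nsmul_eq_mul, ENNReal.ofReal_natCast,
            ENNReal.ofReal_mul (p := 256 / 2 ^ j) (by positivity)]
          ring
      _ ≤ _ := by
          rw [← ENNReal.ofReal_mul (Nat.cast_nonneg _)]
          gcongr
          exact cells_card hn j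
  calc ENNReal.ofReal (1 / (2 ^ k * sj n j)) * ∫⁻ p in An j, ∫⁻ c, hm n j k θ c p ∂μ
      ≤ ENNReal.ofReal (1 / (2 ^ k * sj n j)) * ∫⁻ p in An j, ENNReal.ofReal (3 * √n / 2 ^ j) *
      (ENNReal.ofReal θ * (ENNReal.ofReal 77 * L) + ENNReal.ofReal (1 / θ ^ 2) *
      ∑ q ∈ cells n j, {p : ℝ × ℝ | ‖p + -q‖ ≤ 4 * (2 ^ k * sj n j)}.indicator
        (fun _ => L * ENNReal.ofReal (256 / 2 ^ j)) p) := by
        gcongr _ * ?_
        exact setLIntegral_mono' (An_compact j).measurableSet h2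
    _ = ENNReal.ofReal (1 / (2 ^ k * sj n j)) * (ENNReal.ofReal (3 * √n / 2 ^ j) *
      (ENNReal.ofReal θ * (ENNReal.ofReal 77 * L) * volume (An j) + ENNReal.ofReal (1 / θ ^ 2) *
      ∫⁻ p in An j, ∑ q ∈ cells n j, {p : ℝ × ℝ | ‖p + -q‖ ≤ 4 * (2 ^ k * sj n j)}.indicator
        (fun _ => L * ENNReal.ofReal (256 / 2 ^ j)) p)) := by
        have m5 : Measurable fun p : ℝ × ℝ => ENNReal.ofReal (1 / θ ^ 2) * ∑ q ∈ cells n j,
          {p : ℝ × ℝ | ‖p + -q‖ ≤ 4 * (2 ^ k * sj n j)}.indicator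
            (fun _ => L * ENNReal.ofReal (256 / 2 ^ j)) p := ms.const_mul _
        have m6 : Measurable fun p : ℝ × ℝ => ENNReal.ofReal θ * (ENNReal.ofReal 77 * L) +
          ENNReal.ofReal (1 / θ ^ 2) * ∑ q ∈ cells n j,
          {p : ℝ × ℝ | ‖p + -q‖ ≤ 4 * (2 ^ k * sj n j)}.indicator
            (fun _ => L * ENNReal.ofReal (256 / 2 ^ j)) p := measurable_const.add m5
        rw [lintegral_const_mul _ m6,
          lintegral_add_left measurable_const, setLIntegral_const, lintegral_const_mul _ ms]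
    _ ≤ ENNReal.ofReal (1 / (2 ^ k * sj n j)) * (ENNReal.ofReal (3 * √n / 2 ^ j) *
      (ENNReal.ofReal θ * (CM1 * L) * ENNReal.ofReal (4 * (2 ^ (j + 1)) ^ 2) +
        ENNReal.ofReal (1 / θ ^ 2) * ((CM1 * L) * ENNReal.ofReal
          (5 * 10 ^ 6 * n * (256 / 2 ^ j * (4 * (4 * (2 ^ k * sj n j)) ^ 2)))))) := by
        gcongr
        · exact (le_self_add : ENNReal.ofReal 77 ≤ ENNReal.ofReal 77 + 1)
        · refine h3.trans ?_
          gcongr
          exact le_mul_of_one_le_left zero_le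
            (show (1:ℝ≥0∞) ≤ ENNReal.ofReal 77 + 1 from le_add_self)
    _ = (CM1 * L) * ENNReal.ofReal (1 / (2 ^ k * sj n j) * (3 * √n / 2 ^ j * (θ * (4 * (2 ^ (j + 1)) ^ 2) +
        1 / θ ^ 2 * (5 * 10 ^ 6 * n * (256 / 2 ^ j * (4 * (4 * (2 ^ k * sj n j)) ^ 2)))))) := by
        rw [ENNReal.ofReal_mul (p := 1 / (2 ^ k * sj n j)) (by positivity),
          ENNReal.ofReal_mul (p := 3 * √n / 2 ^ j) (by positivity),
          ENNReal.ofReal_add (by positivity) (by positivity),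
          ENNReal.ofReal_mul (p := θ) hθ.le, ENNReal.ofReal_mul (p := 1 / θ ^ 2) (by positivity)]
        ring
    _ ≤ _ := by
        gcongr (CM1 * L) * ENNReal.ofReal ?_
        have e1 : 1 / (2 ^ k * sj n j) * (3 * √n / 2 ^ j * (θ * (4 * (2 ^ (j + 1)) ^ 2) +
            1 / θ ^ 2 * (5 * 10 ^ 6 * n * (256 / 2 ^ j * (4 * (4 * (2 ^ k * sj n j)) ^ 2))))) =
            24576 * (√n * √n) * (θ / 2 ^ k) + 480000000 * n * (2 ^ k / (θ ^ 2 * 2 ^ j)) := by
          unfold sj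
          rw [pow_succ]
          field_simp
          ring
        have e2 : √(n:ℝ) * √n = n := Real.mul_self_sqrt (Nat.cast_nonneg _)
        rw [e1, e2]
        have a1 : 0 ≤ (n:ℝ) * (θ / 2 ^ k) := by positivity
        have a2 : 0 ≤ (n:ℝ) * (2 ^ k / (θ ^ 2 * 2 ^ j)) := by positivity
        nlinarith

theorem Nd.loc_mean1 {μ : Measure (T n → ℝ × ℝ)} [IsProbabilityMeasure μ] {K : ℝ≥0∞} {D : ℝ}
    (hN : Nd μ K D) (hD : 1 ≤ D) (hn : 1 ≤ n) : (∀ j, Measurable (Kl1 n D j)) ∧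
    ∫⁻ c, ∑' j, Kl1 n D j c ∂μ ≤ CL1 * (ENNReal.ofReal (D ^ 16) * K) * ENNReal.ofReal n := by
  have m1 : ∀ j, Measurable fun c : T n → ℝ × ℝ =>
      ∑ q ∈ cells n j, Kc (Fq q) n (sj n j) (bb ^ j / D) ((Fq q).g n c) := fun j =>
    (hN.small_mean1 hD hn j (one_le_pow₀ bb_one)).1
  have m2 : ∀ j k, Measurable (Km n j k (th j k)) := fun j k => (mid_mean1 (hN.mean_Qk hn) hN.mean_Zq hn j k (th_pos j k)).1
  have m3 : ∀ j, Measurable fun c : T n → ℝ × ℝ => ∑' k, Km n j k (th j k) c := fun j =>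
    Measurable.tsum fun k => m2 j k
  have m4 : ∀ j, Measurable (Kl1 n D j) := fun j => (m1 j).add (m3 j)
  refine ⟨m4, ?_⟩
  rw [lintegral_tsum fun j => (m4 j).aemeasurable]
  have h1 : ∀ j, ∫⁻ c, Kl1 n D j c ∂μ ≤
      CE1 * (ENNReal.ofReal (D ^ 16) * K) * (ENNReal.ofReal (25 * 10 ^ 6) * ENNReal.ofReal ((1 / bb ^ 7) ^ j)) * ENNReal.ofReal n +
      ∑' k : ℕ, CM1 * (ENNReal.ofReal (D ^ 16) * K) * (ENNReal.ofReal (2 * 10 ^ 9) * (ENNReal.ofReal (aa ^ j) *
        ENNReal.ofReal (aa ^ k))) * ENNReal.ofReal n := by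
    intro j
    have hb := bb_lt
    have hb0 : 0 < bb := by linarith
    unfold Kl1
    rw [lintegral_add_left (m1 j), lintegral_tsum fun k => (m2 j k).aemeasurable]
    refine add_le_add ?_ (ENNReal.tsum_le_tsum fun k => ?_)
    · refine (hN.small_mean1 hD hn j (one_le_pow₀ bb_one)).2.trans (le_of_eq ?_)
      rw [← ENNReal.ofReal_mul (by norm_num), mul_assoc (CE1 * (ENNReal.ofReal (D ^ 16) * K)), ← ENNReal.ofReal_mul (by positivity)]
      congr 2
      have e : (2:ℝ) ^ j = bb ^ (23 * j) := by rw [pow_mul, bb_pow]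
      rw [e, div_pow, one_pow, ← pow_mul, ← pow_mul, ← pow_mul, mul_comm j 16, mul_comm j 7]
      have e2 : bb ^ (23 * j) = bb ^ (16 * j) * bb ^ (7 * j) := by rw [← pow_add]; congr 1; ring
      rw [e2]
      field_simp
      ring
    · refine (mid_mean1 (hN.mean_Qk hn) hN.mean_Zq hn j k (th_pos j k)).2.trans (le_of_eq ?_)
      have ha := aa_pos
      rw [← ENNReal.ofReal_mul (by positivity), ← ENNReal.ofReal_mul (by positivity),
        mul_assoc (CM1 * (ENNReal.ofReal (D ^ 16) * K)), ← ENNReal.ofReal_mul (by positivity), th_one, th_two]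
      congr 2
      ring
  refine (ENNReal.tsum_le_tsum h1).trans (le_of_eq ?_)
  rw [ENNReal.tsum_add]
  simp_rw [ENNReal.tsum_mul_right, ENNReal.tsum_mul_left]
  rw [ENNReal.tsum_mul_right]
  unfold CL1
  ring

theorem big_mean1 {μ : Measure (T n → ℝ × ℝ)} [IsProbabilityMeasure μ] {L : ℝ≥0∞}
    (hQ : ∀ p, ∫⁻ c, Qk n c p ∂μ ≤ ENNReal.ofReal 77 * L) 
    (hn : 1 ≤ n) (j : ℕ) {θ : ℝ}
    {A : Set (T n → ℝ × ℝ)} (hA : MeasurableSet A) :
    Measurable (Kb n j θ A) ∧ ∫⁻ c, Kb n j θ A c ∂μ ≤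
      ENNReal.ofReal (1024 * √n) * (ENNReal.ofReal θ * (ENNReal.ofReal 77 * L) +
        ENNReal.ofReal (1 / θ ^ 2) * μ A) := by
  have hn0 := sqrt_pos' hn
  have m0 : Measurable fun q : (T n → ℝ × ℝ) × (ℝ × ℝ) =>
      A.indicator (fun _ => ENNReal.ofReal (1 / θ ^ 2)) q.1 :=
    (measurable_const.indicator hA).comp measurable_fst
  have m1 : Measurable fun q : (T n → ℝ × ℝ) × (ℝ × ℝ) => ENNReal.ofReal (√n / sg q.2) *
      (ENNReal.ofReal θ * Qk n q.1 q.2 + A.indicator (fun _ => ENNReal.ofReal (1 / θ ^ 2)) q.1) :=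
    (meas_sg.comp measurable_snd).mul ((measurable_Qk.const_mul _).add m0)
  refine ⟨measurable_const.mul m1.lintegral_prod_right', ?_⟩
  unfold Kb
  rw [lintegral_const_mul _ m1.lintegral_prod_right', lintegral_lintegral_swap m1.aemeasurable]
  set E : ℝ≥0∞ := ENNReal.ofReal θ * (ENNReal.ofReal 77 * L) +
    ENNReal.ofReal (1 / θ ^ 2) * μ A with hE
  have h1 : ∀ p, ∫⁻ c, ENNReal.ofReal (√n / sg p) * (ENNReal.ofReal θ * Qk n c p +
      A.indicator (fun _ => ENNReal.ofReal (1 / θ ^ 2)) c) ∂μ ≤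
      ENNReal.ofReal (√n / sg p) * E := by
    intro p
    have a1 : Measurable fun c : T n → ℝ × ℝ => Qk n c p := by
      have h1 : Measurable fun c : T n → ℝ × ℝ => (c, p) := measurable_id.prodMk measurable_const
      have h2 := (measurable_Qk (n := n)).comp h1
      simpa only [Function.comp_def] using h2
    have a2 : Measurable fun c : T n → ℝ × ℝ => ENNReal.ofReal θ * Qk n c p := a1.const_mul _
    have a3 : Measurable fun c : T n → ℝ × ℝ =>
        A.indicator (fun _ => ENNReal.ofReal (1 / θ ^ 2)) c := measurable_const.indicator hA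
    have a4 : Measurable fun c : T n → ℝ × ℝ => ENNReal.ofReal θ * Qk n c p +
        A.indicator (fun _ => ENNReal.ofReal (1 / θ ^ 2)) c := a2.add a3
    rw [lintegral_const_mul _ a4, lintegral_add_left a2, lintegral_const_mul _ a1,
      lintegral_indicator_const hA, hE]
    gcongr
    exact hQ p
  calc _ ≤ ENNReal.ofReal (32 / 2 ^ j) * ∫⁻ p in Metric.closedBall (0 : ℝ × ℝ) (2 ^ (j + 1)),
        ENNReal.ofReal (√n / sg p) * E := by
        gcongr _ * ?_
        exact lintegral_mono h1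
    _ = ENNReal.ofReal (32 / 2 ^ j) * ((∫⁻ p in Metric.closedBall (0 : ℝ × ℝ) (2 ^ (j + 1)),
        ENNReal.ofReal (√n) * ENNReal.ofReal (1 / sg p)) * E) := by
        rw [lintegral_mul_const _ meas_sg]
        congr 3
        funext p
        rw [← ENNReal.ofReal_mul hn0.le, mul_one_div]
    _ ≤ ENNReal.ofReal (32 / 2 ^ j) * ((ENNReal.ofReal (√n) * ENNReal.ofReal (32 * 2 ^ j)) * E) := by
        have m7 : Measurable fun p : ℝ × ℝ => ENNReal.ofReal (1 / sg p) :=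
          (measurable_const.div continuous_sg.measurable).ennreal_ofReal
        rw [lintegral_const_mul _ m7]
        gcongr
        exact int_sg j
    _ = ENNReal.ofReal (1024 * √n) * E := by
        rw [← mul_assoc, ← ENNReal.ofReal_mul hn0.le, ← ENNReal.ofReal_mul (by positivity)]
        congr 2
        field_simp
        norm_num

end

end Pool.Agent.W960.HS
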