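import Pool.Agent.W960.HS.CB2

/-! The mean number of closed orbits over all rotations, for a general law of the coefficients. -/

open Real Set MeasureTheory Topology Filter
open scoped ENNReal

namespace Pool.Agent.W960.HS

noncomputable section

open Pool.Agent.W960.HR (T mem_T GP)
open Pool.Agent.H709R2 (wedge rot divRot divW winv ClosedOrbit continuous_rot fld contDiff_fld
  contDiffAt_winv NP measurable_NP rotc rot_fld continuous_rotc g2)
open Pool.Agent.H709U (Orb rf m0)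

variable {n : ℕ}

/-- short orbits in an annulus -/
theorem loc_me1 (hn : 1 ≤ n) {D : ℝ} (hD : 0 < D) (c : T n → ℝ × ℝ) (j : ℕ) :
    ME (fun α => ((OL (fld (sc n c)) (An j) (Iio (2 ^ j / 32)) α).encard : ℝ≥0∞)) (Kl1 n D j c) := by
  have hs := sj_pos hn j
  have h1 := small_me1 hn c j (β := bb ^ j / D) (div_pos (pow_pos (lt_of_lt_of_le one_pos bb_one) j) hD)
  have h2 : ∀ k : ℕ, ME (fun α => ((OL (fld (sc n c)) (An j)
      (Ico (2 ^ k * sj n j) (2 * (2 ^ k * sj n j)) ∩ Iio (2 ^ j / 32)) α).encard : ℝ≥0∞))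
      (Km n j k (th j k) c) := by
    intro k
    by_cases hk : 2 ^ k * sj n j ≤ 2 ^ j / 32
    · exact (mid_me hn c hk (th_pos j k)).mono
        (fun α _ => enc_mono (ol_mono Subset.rfl inter_subset_left α)) le_rfl
    · refine ⟨fun _ => 0, measurable_const, fun α _ => ?_, by simp⟩
      have he : OL (fld (sc n c)) (An j)
          (Ico (2 ^ k * sj n j) (2 * (2 ^ k * sj n j)) ∩ Iio (2 ^ j / 32)) α = ∅ := by
        rw [eq_empty_iff_forall_notMem]
        rintro C ⟨γ, T', ho, hC, hΩ, hl⟩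
        have a1 := hl.1.1
        have a2 := hl.2
        rw [mem_Iio] at a2
        exact hk (a1.trans a2.le)
      show ((OL (fld (sc n c)) (An j)
          (Ico (2 ^ k * sj n j) (2 * (2 ^ k * sj n j)) ∩ Iio (2 ^ j / 32)) α).encard : ℝ≥0∞) ≤ 0
      rw [he]
      simp
  refine (h1.add (ME.tsum h2)).mono (fun α _ => ?_) le_rfl
  have hsub : OL (fld (sc n c)) (An j) (Iio (2 ^ j / 32)) α ⊆
      OL (fld (sc n c)) (An j) (Iio (sj n j)) α ∪ ⋃ k : ℕ, OL (fld (sc n c)) (An j)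
      (Ico (2 ^ k * sj n j) (2 * (2 ^ k * sj n j)) ∩ Iio (2 ^ j / 32)) α := by
    rintro C ⟨γ, T', ho, hC, hΩ, hl⟩
    set x := ∫ t in (0:ℝ)..T', winv (fld (sc n c)) (γ t) * H709R2.sq (fld (sc n c) (γ t)) with hx
    rcases lt_or_ge x (sj n j) with h | h
    · exact Or.inl ⟨γ, T', ho, hC, hΩ, h⟩
    · right
      rw [mem_iUnion]
      have h3 : ∃ k : ℕ, x < 2 ^ (k + 1) * sj n j := by
        obtain ⟨k, hk⟩ := pow_unbounded_of_one_lt (x / sj n j) (by norm_num : (1:ℝ) < 2)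
        refine ⟨k, ?_⟩
        rw [div_lt_iff₀ hs] at hk
        refine hk.trans_le (mul_le_mul_of_nonneg_right ?_ hs.le)
        exact pow_le_pow_right₀ (by norm_num) (by omega)
      classical
      set k := Nat.find h3 with hkd
      have hk1 : x < 2 ^ (k + 1) * sj n j := Nat.find_spec h3
      have hk2 : 2 ^ k * sj n j ≤ x := by
        rcases Nat.eq_zero_or_pos k with h0 | h0
        · rw [h0, pow_zero, one_mul]; exact h
        · have h4 := Nat.find_min h3 (m := k - 1) (by omega)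
          push Not at h4
          rwa [Nat.sub_add_cancel h0] at h4
      refine ⟨k, γ, T', ho, hC, hΩ, ⟨hk2, ?_⟩, hl⟩
      rw [pow_succ] at hk1
      linarith
  refine (enc_mono hsub).trans ((enc_union _ _).trans ?_)
  gcongr
  exact enc_iUnion _

/-- the total majorant -/
def Kt1 (n : ℕ) (D : ℝ) (c : T n → ℝ × ℝ) : ℝ≥0∞ :=
  (ENNReal.ofReal 4000 + ENNReal.ofReal (8000 * (n + 1))) + ∑' j, Kl1 n D j c +
    ∑' j, Kb n j (tj n j) (Aj n j) c

/-- All closed orbits, for a vector of coefficients which is good at some scale. -/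
theorem all_me1 (hn : 1 ≤ n) {D : ℝ} (hD : 0 < D) {c : T n → ℝ × ℝ} (hc : ∃ j, c ∉ Aj n j) :
    ME (fun α => NP (rotc α (sc n c))) (Kt1 n D c) := by
  classical
  set J := Nat.find hc with hJ
  have hJ1 : c ∉ Aj n J := Nat.find_spec hc
  have hJ2 : ∀ j < J, c ∈ Aj n j := by
    intro j hj
    have := Nat.find_min hc hj
    rwa [not_not] at this
  obtain ⟨hy, hg⟩ : 1 ≤ yj n J ∧ c ∈ GF n (yj n J) := by
    simp only [Aj, mem_ofPred_eq, not_forall, not_not] at hJ1
    obtain ⟨h1, h2⟩ := hJ1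
    exact ⟨h1, h2⟩
  have hJ0 : 0 < J := by
    by_contra hcon
    have h0 : J = 0 := by omega
    rw [h0] at hy
    unfold yj at hy
    have h1 := sqrt_one' hn
    rw [pow_zero, le_div_iff₀ (by positivity)] at hy
    linarith
  set X := fld (sc n c) with hX
  have hX2 : ContDiff ℝ 2 X := contDiff_fld _
  have hXr : ∀ α, Continuous (rf X α) := fun α => (continuous_rot α).comp hX2.continuous
  have m1 := far_me hn hy hg (yj_scale hn J)
  have m2 := ME.tsum fun j => loc_me1 hn hD c j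
  have m3 : ∀ j, ME (fun α => (((if c ∈ Aj n j then OL X (Metric.closedBall 0 (2 ^ (j + 1)))
      (Ici (2 ^ j / 32)) α else (∅ : Set (Set (ℝ × ℝ)))).encard : ℕ∞) : ℝ≥0∞))
      (Kb n j (tj n j) (Aj n j) c) := by
    intro j
    by_cases h : c ∈ Aj n j
    · simp only [if_pos h]
      exact big_me hn c j (tj_pos n j) h
    · simp only [if_neg h]
      exact ⟨fun _ => 0, measurable_const, fun α _ => by simp, by simp⟩
  refine ((m1.add m2).add (ME.tsum m3)).mono (fun α hα => ?_) le_rfl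
  have hfld : fld (rotc α (sc n c)) = rf X α := by
    funext z
    unfold rf
    rw [hX, rot_fld]
  have hNP : NP (rotc α (sc n c)) = (({C : Set (ℝ × ℝ) | ClosedOrbit (rf X α) C}.encard : ℕ∞) : ℝ≥0∞) := by
    unfold NP
    rw [hfld]
  rw [hNP]
  have hsub : {C : Set (ℝ × ℝ) | ClosedOrbit (rf X α) C} ⊆
      ({C | ClosedOrbit (rf X α) C ∧ ∃ z ∈ C, (2:ℝ) ^ J < ‖z‖} ∪
        ⋃ j, OL X (An j) (Iio (2 ^ j / 32)) α) ∪
      ⋃ j, (if c ∈ Aj n j then OL X (Metric.closedBall 0 (2 ^ (j + 1)))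
      (Ici (2 ^ j / 32)) α else (∅ : Set (Set (ℝ × ℝ)))) := by
    intro C hC
    have hC' : ClosedOrbit (rf X α) C := hC
    by_cases hfar : ∃ z ∈ C, (2:ℝ) ^ J < ‖z‖
    · exact Or.inl (Or.inl ⟨hC', hfar⟩)
    push Not at hfar
    obtain ⟨γ, T', ho, hCr⟩ := m0 X hX2 α C hC'
    have hex : ∃ j : ℕ, ∀ z ∈ C, ‖z‖ ≤ (2:ℝ) ^ (j + 1) :=
      ⟨J, fun z hz => (hfar z hz).trans (pow_le_pow_right₀ (by norm_num) (by omega))⟩
    set j := Nat.find hex with hj
    have hj1 : ∀ z ∈ C, ‖z‖ ≤ (2:ℝ) ^ (j + 1) := Nat.find_spec hex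
    have hj2 : j = 0 ∨ ∃ w ∈ C, (2:ℝ) ^ j < ‖w‖ := by
      rcases Nat.eq_zero_or_pos j with h0 | h0
      · exact Or.inl h0
      · right
        have h4 := Nat.find_min hex (m := j - 1) (by omega)
        push Not at h4
        rwa [Nat.sub_add_cancel h0] at h4
    have hjJ : j < J := by
      rcases hj2 with h0 | ⟨w, hw, hw2⟩
      · rw [h0]; exact hJ0
      · have h5 : (2:ℝ) ^ j < 2 ^ J := hw2.trans_le (hfar w hw)
        exact (pow_lt_pow_iff_right₀ (by norm_num)).1 h5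
    rcases lt_or_ge (∫ t in (0:ℝ)..T', winv X (γ t) * H709R2.sq (X (γ t))) (2 ^ j / 32) with h | h
    · refine Or.inl (Or.inr ?_)
      rw [mem_iUnion]
      refine ⟨j, γ, T', ho, hCr, fun z hz => ⟨?_, hj1 z hz⟩, h⟩
      rcases hj2 with h0 | ⟨w, hw, hw2⟩
      · rw [h0, pow_zero]
        linarith [norm_nonneg z]
      · rw [hCr] at hz hw
        obtain ⟨a, rfl⟩ := hz
        obtain ⟨b, rfl⟩ := hw
        have h6 := (norm_le_eu _).trans (orb_diam (hXr α) ho a b)
        rw [← winv_len (X := X) (α := α)] at h6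
        have h7 := norm_le_norm_add_norm_sub' (γ b) (γ a)
        have h8 : (0:ℝ) < 2 ^ j := by positivity
        linarith
    · refine Or.inr ?_
      rw [mem_iUnion]
      refine ⟨j, ?_⟩
      rw [if_pos (hJ2 j hjJ)]
      exact ⟨γ, T', ho, hCr, fun z hz => mem_closedBall_zero_iff.2 (hj1 z hz), h⟩
  refine (enc_mono hsub).trans ((enc_union _ _).trans ?_)
  refine add_le_add ((enc_union _ _).trans (add_le_add le_rfl (enc_iUnion _))) (enc_iUnion _)

/-- the estimate of the bad events -/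
def Bd (μ : Measure (T n → ℝ × ℝ)) (K : ℝ≥0∞) : Prop :=
  ∀ y : ℝ, 1 ≤ y → μ (GF n y)ᶜ ≤ K * ENNReal.ofReal (1 / y ^ 4)

lemma bad_le' {μ : Measure (T n → ℝ × ℝ)} [IsProbabilityMeasure μ] {K : ℝ≥0∞} (hK : 1 ≤ K)
    (hB : Bd μ K) (hn : 1 ≤ n) (j : ℕ) :
    ENNReal.ofReal (tj n j) * (ENNReal.ofReal 77 * K) +
      ENNReal.ofReal (1 / tj n j ^ 2) * μ (Aj n j) ≤
      ENNReal.ofReal 78 * K * ENNReal.ofReal (1 / yj n j) := by
  have hy := yj_pos hn j
  have hpr : μ (Aj n j) ≤ 1 := prob_le_one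
  have e78 : ENNReal.ofReal 78 = ENNReal.ofReal 77 + 1 := by
    rw [← ENNReal.ofReal_one, ← ENNReal.ofReal_add (by norm_num) (by norm_num)]
    norm_num
  rcases lt_or_ge (yj n j) 1 with h | h
  · have e : tj n j = 1 := by unfold tj; rw [max_eq_left h.le, div_one]
    have h1 : 1 ≤ ENNReal.ofReal (1 / yj n j) := by
      rw [ENNReal.one_le_ofReal, le_div_iff₀ hy]
      linarith
    rw [e]
    calc _ ≤ ENNReal.ofReal 1 * (ENNReal.ofReal 77 * K) + ENNReal.ofReal (1 / 1 ^ 2) * 1 := by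
          gcongr
      _ = ENNReal.ofReal 77 * K + 1 := by
          rw [ENNReal.ofReal_one, one_mul]
          norm_num
      _ ≤ ENNReal.ofReal 77 * K + K := by gcongr
      _ = ENNReal.ofReal 78 * K := by rw [e78]; ring
      _ ≤ _ := le_mul_of_one_le_right zero_le h1
  · have e : tj n j = 1 / yj n j := by unfold tj; rw [max_eq_right h]
    have hA : μ (Aj n j) ≤ K * ENNReal.ofReal (1 / yj n j ^ 4) := by
      refine (measure_mono ?_).trans (hB _ h)
      intro c hc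
      exact hc h
    rw [e]
    calc _ ≤ ENNReal.ofReal (1 / yj n j) * (ENNReal.ofReal 77 * K) +
          ENNReal.ofReal (1 / (1 / yj n j) ^ 2) * (K * ENNReal.ofReal (1 / yj n j ^ 4)) := by gcongr
      _ = ENNReal.ofReal (1 / yj n j) * (ENNReal.ofReal 77 * K) +
          K * ENNReal.ofReal (1 / (1 / yj n j) ^ 2 * (1 / yj n j ^ 4)) := by
          rw [ENNReal.ofReal_mul (p := 1 / (1 / yj n j) ^ 2) (by positivity)]
          ring
      _ ≤ ENNReal.ofReal (1 / yj n j) * (ENNReal.ofReal 77 * K) +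
          K * ENNReal.ofReal (1 / yj n j) := by
          gcongr _ + K * ENNReal.ofReal ?_
          have e2 : 1 / (1 / yj n j) ^ 2 * (1 / yj n j ^ 4) = 1 / yj n j / yj n j := by
            field_simp
          rw [e2]
          exact div_le_self (by positivity) h
      _ = _ := by rw [e78]; ring

lemma ae_some' {μ : Measure (T n → ℝ × ℝ)} [IsProbabilityMeasure μ] {K : ℝ≥0∞} (hK : 1 ≤ K)
    (hKt : K ≠ ⊤) (hB : Bd μ K) (hn : 1 ≤ n) : ∀ᵐ c ∂μ, ∃ j, c ∉ Aj n j := by
  rw [ae_iff]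
  have hd := dd_lt
  have h1 : ∀ j : ℕ, μ {c | ¬ ∃ j, c ∉ Aj n j} ≤
      ENNReal.ofReal 78 * K * ENNReal.ofReal (1 / yj n j) := by
    intro j
    have h2 := bad_le' hK hB hn j
    have h3 : μ {c | ¬ ∃ j, c ∉ Aj n j} ≤ μ (Aj n j) := by
      apply measure_mono
      intro c hc
      have hc' : ¬ ∃ j, c ∉ Aj n j := hc
      push Not at hc'
      exact hc' j
    have h4 : (1:ℝ≥0∞) ≤ ENNReal.ofReal (1 / tj n j ^ 2) := by
      rw [ENNReal.one_le_ofReal]
      have ht := tj_pos n j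
      have ht1 : tj n j ≤ 1 := by
        unfold tj
        exact (div_le_one (lt_max_of_lt_left one_pos)).2 (le_max_left _ _)
      rw [le_div_iff₀ (by positivity), one_mul]
      exact pow_le_one₀ ht.le ht1
    calc _ ≤ _ := h3
      _ = 1 * μ (Aj n j) := (one_mul _).symm
      _ ≤ ENNReal.ofReal (1 / tj n j ^ 2) * μ (Aj n j) := by gcongr
      _ ≤ _ := le_add_self
      _ ≤ _ := h2
  have h2 : Tendsto (fun j : ℕ => ENNReal.ofReal 78 * K * ENNReal.ofReal (1 / yj n j)) atTop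
      (𝓝 0) := by
    have h3 : Tendsto (fun j : ℕ => (3 * √(n:ℝ)) * (1 / dd) ^ j) atTop (𝓝 ((3 * √(n:ℝ)) * 0)) :=
      (tendsto_pow_atTop_nhds_zero_of_lt_one (by positivity)
        ((div_lt_one (by linarith)).2 hd)).const_mul _
    rw [mul_zero] at h3
    have h4 := (ENNReal.tendsto_ofReal h3)
    rw [ENNReal.ofReal_zero] at h4
    have h5 := ENNReal.Tendsto.const_mul (a := ENNReal.ofReal 78 * K) h4
      (Or.inr (ENNReal.mul_ne_top ENNReal.ofReal_ne_top hKt))
    rw [mul_zero] at h5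
    refine h5.congr fun j => ?_
    congr 2
    have := sqrt_pos' hn
    unfold yj
    rw [div_pow, one_pow]
    field_simp
  exact le_antisymm (ge_of_tendsto' h2 h1) zero_le

/-- the constant -/
def CT1 : ℝ≥0∞ := ENNReal.ofReal 20000 + CL1 +
  ENNReal.ofReal 239616 * ∑' j : ℕ, ENNReal.ofReal ((1 / dd) ^ j)

lemma CT1_ne : CT1 ≠ ⊤ := by
  have h := geo_ne (r := 1 / dd) (by have := dd_lt; positivity)
    ((div_lt_one (by linarith [dd_lt])).2 dd_lt)
  have hb : 1 < bb ^ 7 := one_lt_pow₀ bb_lt (by norm_num)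
  have h2 : ∑' j : ℕ, ENNReal.ofReal ((1 / bb ^ 7) ^ j) ≠ ⊤ :=
    geo_ne (by positivity) ((div_lt_one (by linarith)).2 hb)
  have h3 := geo_ne aa_pos.le aa_lt
  have hCE : CE1 ≠ ⊤ := ENNReal.add_ne_top.2 ⟨ENNReal.ofReal_ne_top, ENNReal.ofReal_ne_top⟩
  have hCM : CM1 ≠ ⊤ := ENNReal.add_ne_top.2 ⟨ENNReal.ofReal_ne_top, ENNReal.one_ne_top⟩
  have hCL : CL1 ≠ ⊤ := ENNReal.add_ne_top.2
    ⟨ENNReal.mul_ne_top hCE (ENNReal.mul_ne_top ENNReal.ofReal_ne_top h2),
    ENNReal.mul_ne_top hCM (ENNReal.mul_ne_top ENNReal.ofReal_ne_top (ENNReal.mul_ne_top h3 h3))⟩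
  exact ENNReal.add_ne_top.2 ⟨ENNReal.add_ne_top.2 ⟨ENNReal.ofReal_ne_top, hCL⟩,
    ENNReal.mul_ne_top ENNReal.ofReal_ne_top h⟩

lemma mean_Kt1 {μ : Measure (T n → ℝ × ℝ)} [IsProbabilityMeasure μ] {K : ℝ≥0∞} {D : ℝ}
    (hD : 1 ≤ D) (hK : 1 ≤ ENNReal.ofReal (D ^ 16) * K)
    (hN : Nd μ K D) (hB : Bd μ (ENNReal.ofReal (D ^ 16) * K)) (hn : 1 ≤ n) :
    ∫⁻ c, Kt1 n D c ∂μ ≤ CT1 * (ENNReal.ofReal (D ^ 16) * K) * ENNReal.ofReal n := by
  have hQ := hN.mean_Qk hn
  have hloc := hN.loc_mean1 hD hn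
  generalize ENNReal.ofReal (D ^ 16) * K = L at *
  have hn1 : (1:ℝ) ≤ n := by exact_mod_cast hn
  have m1 : Measurable fun c : T n → ℝ × ℝ => ∑' j, Kl1 n D j c := Measurable.tsum hloc.1
  have m2 : ∀ j, Measurable (Kb n j (tj n j) (Aj n j)) := fun j => (big_mean hn j (meas_Aj n j)).1
  have m3 : Measurable fun c : T n → ℝ × ℝ =>
      (ENNReal.ofReal 4000 + ENNReal.ofReal (8000 * (n + 1))) + ∑' j, Kl1 n D j c :=
    measurable_const.add m1
  unfold Kt1
  rw [lintegral_add_left m3, lintegral_add_left measurable_const, lintegral_const, measure_univ,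
    mul_one, lintegral_tsum fun j => (m2 j).aemeasurable]
  have h1 : ENNReal.ofReal 4000 + ENNReal.ofReal (8000 * (n + 1)) ≤
      ENNReal.ofReal 20000 * L * ENNReal.ofReal n := by
    calc _ ≤ ENNReal.ofReal 20000 * ENNReal.ofReal n := by
          rw [← ENNReal.ofReal_add (by norm_num) (by positivity), ← ENNReal.ofReal_mul (by norm_num)]
          apply ENNReal.ofReal_le_ofReal
          linarith
      _ = ENNReal.ofReal 20000 * 1 * ENNReal.ofReal n := by rw [mul_one]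
      _ ≤ _ := by gcongr
  have h2 : ∀ j, ∫⁻ c, Kb n j (tj n j) (Aj n j) c ∂μ ≤
      ENNReal.ofReal 239616 * ENNReal.ofReal ((1 / dd) ^ j) * (L * ENNReal.ofReal n) := by
    intro j
    refine (big_mean1 hQ hn j (meas_Aj n j)).2.trans ?_
    calc _ ≤ ENNReal.ofReal (1024 * √n) * (ENNReal.ofReal 78 * L * ENNReal.ofReal (1 / yj n j)) := by
          gcongr
          exact bad_le' hK hB hn j
      _ = (ENNReal.ofReal (1024 * √n) * ENNReal.ofReal 78 * ENNReal.ofReal (1 / yj n j)) * L := by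
          ring
      _ = _ := by
          have h0 := sqrt_pos' hn
          have hd := dd_lt
          have e1 : ENNReal.ofReal (1024 * √n) * ENNReal.ofReal 78 * ENNReal.ofReal (1 / yj n j) =
              ENNReal.ofReal 239616 * ENNReal.ofReal ((1 / dd) ^ j) * ENNReal.ofReal n := by
            rw [← ENNReal.ofReal_mul (by positivity), ← ENNReal.ofReal_mul (by positivity),
              ← ENNReal.ofReal_mul (by norm_num), ← ENNReal.ofReal_mul (by positivity)]
            congr 1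
            have e : 239616 * (1 / dd) ^ j * (n:ℝ) = 239616 * (1 / dd) ^ j * (√n * √n) := by
              rw [Real.mul_self_sqrt (Nat.cast_nonneg _)]
            rw [e]
            unfold yj
            rw [div_pow, one_pow]
            field_simp
            norm_num
          rw [e1]
          ring
  calc _ ≤ ENNReal.ofReal 20000 * L * ENNReal.ofReal n + CL1 * L * ENNReal.ofReal n +
        ∑' j, ENNReal.ofReal 239616 * ENNReal.ofReal ((1 / dd) ^ j) * (L * ENNReal.ofReal n) :=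
        add_le_add (add_le_add h1 hloc.2) (ENNReal.tsum_le_tsum h2)
    _ = _ := by
        rw [ENNReal.tsum_mul_right, ENNReal.tsum_mul_left]
        unfold CT1
        ring

/-- the mean over all rotations -/
theorem mean_Phi {μ : Measure (T n → ℝ × ℝ)} [IsProbabilityMeasure μ] {K : ℝ≥0∞} {D : ℝ}
    (hD : 1 ≤ D) (hK : 1 ≤ K) (hKt : K ≠ ⊤)
    (hN : Nd μ K D) (hB : Bd μ (ENNReal.ofReal (D ^ 16) * K)) (hn : 1 ≤ n) :
    ∫⁻ c, HR.Phi (sc n c) ∂μ ≤ CT1 * (ENNReal.ofReal (D ^ 16) * K) * ENNReal.ofReal n := by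
  have hK1 : 1 ≤ ENNReal.ofReal (D ^ 16) * K := by
    refine one_le_mul ?_ hK
    rw [ENNReal.one_le_ofReal]
    exact one_le_pow₀ hD
  have hK2 : ENNReal.ofReal (D ^ 16) * K ≠ ⊤ := ENNReal.mul_ne_top ENNReal.ofReal_ne_top hKt
  refine (lintegral_mono_ae ?_).trans (mean_Kt1 hD hK1 hN hB hn)
  filter_upwards [ae_some' hK1 hK2 hB hn] with c hc
  exact (all_me1 hn (by linarith) hc).lintegral_le

end

end Pool.Agent.W960.HS
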