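import Pool.Agent.W960.HS.CB3

/-! The estimates for a Gaussian law with an arbitrary centre. -/

open Real Set MeasureTheory Topology Filter ProbabilityTheory
open scoped ENNReal

namespace Pool.Agent.W960.HS

noncomputable section

open Pool.Agent.W960.HR (T mem_T GP gb mp_gb lintegral_gb sn mean_sn full_T card_le g2_le
  volume_ball_le resample)
open Pool.Agent.H709R2 (g2)

variable {n : ℕ}

lemma gb_map (O : EuclideanSpace ℝ (T n) →ₗᵢ[ℝ] EuclideanSpace ℝ (T n)) (b : T n → ℝ × ℝ) :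
    (gb b).map (tr O) = gb (tr O b) := by
  have m1 : Measurable fun g : T n → ℝ × ℝ => fun m => b m + g m := (mp_gb b).measurable
  have m2 : Measurable (tr O) := (mp_tr O).measurable
  have m3 : Measurable fun g : T n → ℝ × ℝ => fun m => tr O b m + g m := (mp_gb (tr O b)).measurable
  rw [← (mp_gb b).map_eq, Measure.map_map m2 m1]
  have e : (tr O) ∘ (fun g : T n → ℝ × ℝ => fun m => b m + g m) =
      (fun g : T n → ℝ × ℝ => fun m => tr O b m + g m) ∘ (tr O) := by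
    funext g
    have h1 : (fun m => b m + g m) = b + g := rfl
    simp only [Function.comp]
    rw [h1, map_add]
    rfl
  rw [e, ← Measure.map_map m3 m2, (mp_tr O).map_eq, (mp_gb _).map_eq]

/-- integration over the constant term -/
lemma cond_gb (b : T n → ℝ × ℝ) {Ψ : ℝ → ℝ × ℝ → ℝ≥0∞} (hΨ : Measurable (Function.uncurry Ψ))
    {K : ℝ → ℝ≥0∞} (hK : ∀ a, 0 ≤ a → ∀ b, ∫⁻ v, Ψ a (v + b) ∂g2 ≤ K a) (t : ℝ × ℝ) :
    ∫⁻ g, Ψ (as g) (Ph n g t) ∂gb b ≤ ∫⁻ g : T n → ℝ × ℝ, K (as fun m => b m + g m) ∂GP (T n) := by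
  classical
  have hm : Measurable fun g : T n → ℝ × ℝ => Ψ (as g) (Ph n g t) := by
    have h1 : Continuous fun g : T n → ℝ × ℝ => Ph n g t :=
      continuous_Ph.comp (continuous_id.prodMk continuous_const)
    exact hΨ.comp (continuous_as.measurable.prodMk h1.measurable)
  rw [lintegral_gb b hm]
  have hm2 : Measurable fun g : T n → ℝ × ℝ => Ψ (as fun m => b m + g m)
      (Ph n (fun m => b m + g m) t) := hm.comp (mp_gb b).measurable
  have h1 := resample (fun _ : T n => g2) hm2 (o n)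
  have h2 : ∫⁻ g : T n → ℝ × ℝ, Ψ (as fun m => b m + g m) (Ph n (fun m => b m + g m) t) ∂GP (T n) =
      ∫⁻ g : T n → ℝ × ℝ, (∫⁻ w, Ψ (as fun m => b m + (Function.update g (o n) w) m)
        (Ph n (fun m => b m + (Function.update g (o n) w) m) t) ∂g2) ∂GP (T n) := h1
  rw [h2]
  refine lintegral_mono fun g => ?_
  have e : ∀ w : ℝ × ℝ, (fun m => b m + (Function.update g (o n) w) m) =
      Function.update (fun m => b m + g m) (o n) (b (o n) + w) := by
    intro w
    funext m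
    by_cases h : m = o n
    · subst h
      simp
    · rw [Function.update_of_ne h, Function.update_of_ne h]
  simp only [e, as_update, Ph_update]
  have e2 : ∀ w : ℝ × ℝ, b (o n) + w + (Ph n (fun m => b m + g m) t - (b (o n) + g (o n))) =
      w + (b (o n) + (Ph n (fun m => b m + g m) t - (b (o n) + g (o n)))) := fun w => by abel
  simp only [e2]
  exact hK _ (as_nonneg _) _

/-- the size of the centre -/
def nb (b : T n → ℝ × ℝ) : ℝ := √(sn b)

lemma nb_nonneg (b : T n → ℝ × ℝ) : 0 ≤ nb b := Real.sqrt_nonneg _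

lemma as_le_nb (b : T n → ℝ × ℝ) : as b ≤ 256 * nb b := by
  have h1 : ∀ m, ‖b m‖ ≤ nb b := fun m =>
    (norm_le_pi_norm b m).trans (Real.le_sqrt_of_sq_le (norm_sq_le_sn b))
  calc as b ≤ ∑ m : T n, wt m.1 * nb b :=
        Finset.sum_le_sum fun m _ => mul_le_mul_of_nonneg_left (h1 m) (wt_nonneg _)
    _ = (∑ m : T n, wt m.1) * nb b := by rw [Finset.sum_mul]
    _ ≤ _ := mul_le_mul_of_nonneg_right sum_wt (nb_nonneg b)

lemma as_add_le (b g : T n → ℝ × ℝ) : as (fun m => b m + g m) ≤ as b + as g := by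
  unfold as
  rw [← Finset.sum_add_distrib]
  refine Finset.sum_le_sum fun m _ => ?_
  rw [← mul_add]
  exact mul_le_mul_of_nonneg_left (norm_add_le _ _) (wt_nonneg _)

lemma as_gb_le (b g : T n → ℝ × ℝ) : (as fun m => b m + g m) ≤ 256 * nb b + as g :=
  (as_add_le b g).trans (by linarith [as_le_nb b])

/-- first power -/
lemma as1_gb (b g : T n → ℝ × ℝ) :
    (as fun m => b m + g m) ≤ 2 ^ 35 * (1 + nb b) * (1 + as g ^ 4) := by
  have hβ := nb_nonneg b
  have h2 := as_gb_le b g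
  set β := nb b
  set x := as g
  have hx : 0 ≤ x := as_nonneg g
  have h3 : x ≤ 1 + x ^ 4 := by nlinarith [sq_nonneg (x ^ 2 - 1), sq_nonneg (x - 1)]
  have h4 : 0 ≤ x ^ 4 := by positivity
  have h5 : 0 ≤ β * x ^ 4 := by positivity
  nlinarith

/-- second power -/
lemma as2_gb (b g : T n → ℝ × ℝ) :
    1 + (as fun m => b m + g m) ^ 2 ≤ 2 ^ 35 * (1 + nb b) ^ 2 * (1 + as g ^ 4) := by
  have hβ := nb_nonneg b
  have h2 := pow_le_pow_left₀ (as_nonneg _) (as_gb_le b g) 2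
  set β := nb b
  set x := as g
  have hx : 0 ≤ x := as_nonneg g
  have h3 : x ^ 2 ≤ 1 + x ^ 4 := by nlinarith [sq_nonneg (x ^ 2 - 1)]
  have h4 : 0 ≤ x ^ 4 := by positivity
  have h5 : (256 * β + x) ^ 2 ≤ 2 * ((256 * β) ^ 2 + x ^ 2) := by
    nlinarith [sq_nonneg (256 * β - x)]
  have h6 : 1 + β ^ 2 ≤ (1 + β) ^ 2 := by nlinarith
  have h7 : (1 + β ^ 2) * (1 + x ^ 4) ≤ (1 + β) ^ 2 * (1 + x ^ 4) :=
    mul_le_mul_of_nonneg_right h6 (by linarith)
  have h8 : 0 ≤ β ^ 2 * x ^ 4 := by positivity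
  have h9 : 0 ≤ β ^ 2 := sq_nonneg _
  nlinarith

/-- fourth power -/
lemma as4_gb (b g : T n → ℝ × ℝ) :
    1 + (as fun m => b m + g m) ^ 4 ≤ 2 ^ 35 * (1 + nb b) ^ 4 * (1 + as g ^ 4) := by
  have hβ := nb_nonneg b
  have ha := as_nonneg g
  have h2 := as_gb_le b g
  set β := nb b with hβd
  have h3 : (as fun m => b m + g m) ^ 4 ≤ (256 * β + as g) ^ 4 :=
    pow_le_pow_left₀ (as_nonneg _) h2 4
  have h4 : (256 * β + as g) ^ 4 ≤ 8 * ((256 * β) ^ 4 + as g ^ 4) := by
    have h5 : (256 * β + as g) ^ 2 ≤ 2 * ((256 * β) ^ 2 + as g ^ 2) := by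
      nlinarith [sq_nonneg (256 * β - as g)]
    have h6 : ((256 * β) ^ 2 + as g ^ 2) ^ 2 ≤ 2 * ((256 * β) ^ 4 + as g ^ 4) := by
      nlinarith [sq_nonneg ((256 * β) ^ 2 - as g ^ 2)]
    calc (256 * β + as g) ^ 4 = ((256 * β + as g) ^ 2) ^ 2 := by ring
      _ ≤ (2 * ((256 * β) ^ 2 + as g ^ 2)) ^ 2 := pow_le_pow_left₀ (sq_nonneg _) h5 2
      _ = 4 * ((256 * β) ^ 2 + as g ^ 2) ^ 2 := by ring
      _ ≤ 4 * (2 * ((256 * β) ^ 4 + as g ^ 4)) := mul_le_mul_of_nonneg_left h6 (by norm_num)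
      _ = _ := by ring
  have h7 : β ^ 4 + 1 ≤ (1 + β) ^ 4 := by
    have a1 : 0 ≤ β ^ 3 := by positivity
    have a2 : 0 ≤ β ^ 2 := by positivity
    nlinarith
  have h8 : 0 ≤ as g ^ 4 := by positivity
  have h9 : 0 ≤ β ^ 4 := by positivity
  have h10 : (1:ℝ) ≤ (1 + β) ^ 4 := by linarith
  have h11 : as g ^ 4 ≤ (1 + β) ^ 4 * as g ^ 4 := by nlinarith
  nlinarith

lemma mean_gb {f : (T n → ℝ × ℝ) → ℝ} {C : ℝ} (hC : 0 ≤ C)
    (hf : ∀ g, f g ≤ 2 ^ 35 * C * (1 + as g ^ 4)) :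
    ∫⁻ g : T n → ℝ × ℝ, ENNReal.ofReal (f g) ∂GP (T n) ≤
      ENNReal.ofReal C * (ENNReal.ofReal (2 ^ 35) * (1 + K4)) := by
  have hm : Measurable fun g : T n → ℝ × ℝ => ENNReal.ofReal (1 + as g ^ 4) := by
    have := continuous_as (n := n)
    fun_prop
  calc _ ≤ ∫⁻ g : T n → ℝ × ℝ, ENNReal.ofReal (2 ^ 35 * C) * ENNReal.ofReal (1 + as g ^ 4)
        ∂GP (T n) := by
        refine lintegral_mono fun g => ?_
        rw [← ENNReal.ofReal_mul (by positivity)]
        exact ENNReal.ofReal_le_ofReal (hf g)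
    _ ≤ ENNReal.ofReal (2 ^ 35 * C) * (1 + K4) := by
        rw [lintegral_const_mul _ hm]
        gcongr
        exact one_add_as4
    _ = _ := by
        rw [ENNReal.ofReal_mul (by norm_num)]
        ring

/-- the absolute constant -/
def KA : ℝ≥0∞ := ENNReal.ofReal (2 ^ 35) * KE

lemma KA_ne : KA ≠ ⊤ := ENNReal.mul_ne_top ENNReal.ofReal_ne_top KE_ne

lemma one_le_KE : 1 ≤ KE := by
  unfold KE
  exact one_le_mul (le_self_add) (le_self_add)

lemma one_le_KA : 1 ≤ KA := by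
  unfold KA
  refine one_le_mul ?_ one_le_KE
  rw [ENNReal.one_le_ofReal]
  norm_num

/-- the parameter for the centre `b` -/
def Db (β : ℝ) : ℝ := (1 + β) ^ (1 / 8 : ℝ)

lemma Db8 {β : ℝ} (hβ : 0 ≤ β) : Db β ^ 8 = 1 + β := by
  unfold Db
  rw [← Real.rpow_natCast, ← Real.rpow_mul (by linarith)]
  norm_num

lemma Db16 {β : ℝ} (hβ : 0 ≤ β) : Db β ^ 16 = (1 + β) ^ 2 := by
  rw [show 16 = 8 * 2 by norm_num, pow_mul, Db8 hβ]

lemma Db32 {β : ℝ} (hβ : 0 ≤ β) : Db β ^ 32 = (1 + β) ^ 4 := by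
  rw [show 32 = 8 * 4 by norm_num, pow_mul, Db8 hβ]

lemma one_le_Db {β : ℝ} (hβ : 0 ≤ β) : 1 ≤ Db β :=
  Real.one_le_rpow (by linarith) (by norm_num)

lemma small_gb (k : ℕ) (b : T n → ℝ × ℝ) (t : ℝ × ℝ) {ρ : ℝ} (hρ : 0 ≤ ρ) :
    ∫⁻ g, {g : T n → ℝ × ℝ | ‖Ph n g t‖ ≤ ρ * as g}.indicator
      (fun g => ENNReal.ofReal (as g ^ k)) g ∂gb b ≤ ENNReal.ofReal (4 * ρ ^ 2) *
      ∫⁻ g : T n → ℝ × ℝ, ENNReal.ofReal ((as fun m => b m + g m) ^ (k + 2)) ∂GP (T n) := by
  have hc := continuous_as (n := n)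
  have hcm : Measurable fun g : T n → ℝ × ℝ => as fun m => b m + g m :=
    hc.measurable.comp (mp_gb b).measurable
  have hm : MeasurableSet {q : ℝ × (ℝ × ℝ) | ‖q.2‖ ≤ ρ * q.1} :=
    (isClosed_le (by fun_prop) (by fun_prop)).measurableSet
  have hΨ : Measurable (Function.uncurry fun (a : ℝ) (v : ℝ × ℝ) =>
      {q : ℝ × (ℝ × ℝ) | ‖q.2‖ ≤ ρ * q.1}.indicator (fun q => ENNReal.ofReal (q.1 ^ k)) (a, v)) := by
    have : Measurable fun q : ℝ × (ℝ × ℝ) => ENNReal.ofReal (q.1 ^ k) := by fun_prop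
    exact this.indicator hm
  have h := cond_gb b (K := fun a => ENNReal.ofReal (4 * ρ ^ 2) * ENNReal.ofReal (a ^ (k + 2)))
    hΨ (by
      intro a ha b
      have hm' : MeasurableSet {v : ℝ × ℝ | ‖v + b‖ ≤ ρ * a} :=
        (isClosed_le (by fun_prop) continuous_const).measurableSet
      have e : ∀ v : ℝ × ℝ, {q : ℝ × (ℝ × ℝ) | ‖q.2‖ ≤ ρ * q.1}.indicator
          (fun q => ENNReal.ofReal (q.1 ^ k)) (a, v + b) =
          {v : ℝ × ℝ | ‖v + b‖ ≤ ρ * a}.indicator (fun _ => ENNReal.ofReal (a ^ k)) v := by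
        intro v
        simp only [indicator, mem_ofPred_eq]
      simp_rw [e]
      rw [lintegral_indicator_const hm']
      calc ENNReal.ofReal (a ^ k) * g2 {v : ℝ × ℝ | ‖v + b‖ ≤ ρ * a}
          ≤ ENNReal.ofReal (a ^ k) * ENNReal.ofReal (4 * (ρ * a) ^ 2) := by
            gcongr
            exact (g2_le _).trans (volume_ball_le b (by positivity))
        _ = ENNReal.ofReal (4 * ρ ^ 2) * ENNReal.ofReal (a ^ (k + 2)) := by
            rw [← ENNReal.ofReal_mul (by positivity), ← ENNReal.ofReal_mul (by positivity)]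
            congr 1
            rw [pow_add]
            ring
        _ ≤ _ := le_rfl) t
  have e : ∀ g : T n → ℝ × ℝ, {g : T n → ℝ × ℝ | ‖Ph n g t‖ ≤ ρ * as g}.indicator
      (fun g => ENNReal.ofReal (as g ^ k)) g =
      {q : ℝ × (ℝ × ℝ) | ‖q.2‖ ≤ ρ * q.1}.indicator (fun q => ENNReal.ofReal (q.1 ^ k))
        (as g, Ph n g t) := by
    intro g
    simp only [indicator, mem_ofPred_eq]
  simp_rw [e]
  refine h.trans ?_
  rw [lintegral_const_mul _ (hcm.pow_const _).ennreal_ofReal]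

theorem nj_gb (b : T n → ℝ × ℝ) : Nj (gb b) KA (Db (nb b)) := by
  have hc := continuous_as (n := n)
  have hβ := nb_nonneg b
  have hcm : Measurable fun g : T n → ℝ × ℝ => as fun m => b m + g m :=
    hc.measurable.comp (mp_gb b).measurable
  have hK : ENNReal.ofReal (2 ^ 35) * (1 + K4) ≤ KA := by
    unfold KA KE
    gcongr
    exact le_mul_of_one_le_right zero_le le_self_add
  refine ⟨fun t => ?_, fun t => ?_, fun t {ρ} hρ => ?_, fun t {ρ} hρ => ?_⟩
  · have h := cond_gb b (Ψ := fun a v => ENNReal.ofReal (a * ‖v‖ ^ (-s8)))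
      (K := fun a => ENNReal.ofReal a * K15) (by fun_prop) (by
        intro a ha b
        have e : ∀ v : ℝ × ℝ, ENNReal.ofReal (a * ‖v + b‖ ^ (-s8)) =
            ENNReal.ofReal a * ENNReal.ofReal (‖v + b‖ ^ (-s8)) := by
          intro v
          rw [ENNReal.ofReal_mul ha]
        simp_rw [e]
        rw [lintegral_const_mul _ (by fun_prop)]
        gcongr
        exact neg_moment b) t
    refine h.trans ?_
    rw [lintegral_mul_const _ hcm.ennreal_ofReal, Db8 hβ]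
    calc _ ≤ (ENNReal.ofReal (1 + nb b) * (ENNReal.ofReal (2 ^ 35) * (1 + K4))) * K15 := by
          gcongr
          exact mean_gb (by linarith) fun g => as1_gb b g
      _ ≤ (ENNReal.ofReal (1 + nb b) * (ENNReal.ofReal (2 ^ 35) * (1 + K4))) * (1 + K15) := by
          gcongr
          exact le_add_self
      _ = _ := by unfold KA KE; ring
  · have h := cond_gb b (Ψ := fun a v => ENNReal.ofReal ((1 + a ^ 2) * (1 + ‖v‖ ^ (-s8))))
      (K := fun a => ENNReal.ofReal (1 + a ^ 2) * (1 + K15)) (by fun_prop) (by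
        intro a ha b
        have e : ∀ v : ℝ × ℝ, ENNReal.ofReal ((1 + a ^ 2) * (1 + ‖v + b‖ ^ (-s8))) =
            ENNReal.ofReal (1 + a ^ 2) * (1 + ENNReal.ofReal (‖v + b‖ ^ (-s8))) := by
          intro v
          rw [ENNReal.ofReal_mul (by positivity), ENNReal.ofReal_add (q := ‖v + b‖ ^ (-s8))
            zero_le_one (by positivity), ENNReal.ofReal_one]
        simp_rw [e]
        rw [lintegral_const_mul _ (by fun_prop), lintegral_add_left measurable_const, lintegral_const,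
          measure_univ, mul_one]
        gcongr
        exact neg_moment b) t
    refine h.trans ?_
    rw [lintegral_mul_const _ (by fun_prop), Db16 hβ]
    calc _ ≤ (ENNReal.ofReal ((1 + nb b) ^ 2) * (ENNReal.ofReal (2 ^ 35) * (1 + K4))) * (1 + K15) := by
          gcongr
          exact mean_gb (by positivity) fun g => as2_gb b g
      _ = _ := by unfold KA KE; ring
  · have h := small_gb (k := 0) b t hρ
    refine h.trans ?_
    rw [Db16 hβ]
    gcongr
    refine (mean_gb (C := (1 + nb b) ^ 2) (by positivity) fun g => ?_).trans (by gcongr)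
    refine le_trans ?_ (as2_gb b g)
    rw [zero_add]
    linarith [sq_nonneg (as fun m => b m + g m)]
  · have h := small_gb (k := 2) b t hρ
    refine h.trans ?_
    rw [Db32 hβ]
    gcongr
    refine (mean_gb (C := (1 + nb b) ^ 4) (by positivity) fun g => ?_).trans (by gcongr)
    refine le_trans ?_ (as4_gb b g)
    have e : (2 + 2 : ℕ) = 4 := rfl
    rw [e]
    linarith

lemma nb_tr (O : EuclideanSpace ℝ (T n) →ₗᵢ[ℝ] EuclideanSpace ℝ (T n)) (b : T n → ℝ × ℝ) :
    nb (tr O b) = nb b := by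
  unfold nb
  rw [sn_tr]

theorem nd_gb (b : T n → ℝ × ℝ) : Nd (gb b) KA (Db (nb b)) := by
  intro F
  have h1 : (gb b).map (F.g n) = gb (tr (F.O n) b) := gb_map (F.O n) b
  rw [h1, ← nb_tr (F.O n) b]
  exact nj_gb _

lemma prob_dir_gb (b : T n → ℝ × ℝ) {u : ℝ × ℝ} (hu : u.1 ^ 2 + u.2 ^ 2 = 1) {ρ : ℝ} (hρ : 0 ≤ ρ) :
    gb b {c | ‖Yh n c u‖ < ρ} ≤ ENNReal.ofReal (4 * ρ ^ 2) := by
  obtain ⟨O, hO⟩ := Yh_law (n := n) hu
  have h2 : MeasurableSet {g : T n → ℝ × ℝ | ‖g (o n)‖ < ρ} :=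
    (isOpen_lt (by fun_prop) continuous_const).measurableSet
  have e1 : {c | ‖Yh n c u‖ < ρ} = (tr O) ⁻¹' {g : T n → ℝ × ℝ | ‖g (o n)‖ < ρ} := by
    ext c
    simp only [mem_ofPred_eq, mem_preimage, hO]
  rw [e1, ← Measure.map_apply (mp_tr O).measurable h2, gb_map, ← (mp_gb (tr O b)).map_eq,
    Measure.map_apply (mp_gb (tr O b)).measurable h2]
  have h1 : MeasurableSet {v : ℝ × ℝ | ‖tr O b (o n) + v‖ < ρ} :=
    (isOpen_lt (by fun_prop) continuous_const).measurableSet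
  have h3 := (measurePreserving_eval (fun _ : T n => g2) (o n)).measure_preimage
    h1.nullMeasurableSet
  have h4 : GP (T n) = Measure.pi fun _ : T n => g2 := rfl
  rw [h4]
  refine (le_of_eq h3).trans ((g2_le _).trans ?_)
  refine (measure_mono ?_).trans (volume_ball_le (tr O b (o n)) hρ)
  intro v hv
  show ‖v + tr O b (o n)‖ ≤ ρ
  rw [add_comm]
  exact le_of_lt hv

theorem bd_gb (hn : 1 ≤ n) (b : T n → ℝ × ℝ) :
    Bd (gb b) (ENNReal.ofReal (Db (nb b) ^ 16) * KA) := by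
  intro y hy
  have hn1 : (1:ℝ) ≤ n := by exact_mod_cast hn
  have hy0 : 0 < y := by linarith
  have hβ := nb_nonneg b
  have hβ2 : nb b ^ 2 = sn b := Real.sq_sqrt (HR.sn_nonneg b)
  set β := nb b with hβd
  have hsub : (GF n y)ᶜ ⊆ {c : T n → ℝ × ℝ | ENNReal.ofReal ((n * y ^ 2) ^ 2) ≤ ENNReal.ofReal (sn c)} ∪
      ⋃ i ∈ Finset.range (Ln n y + 1), {c | ‖Yh n c (di (Ln n y) i)‖ < 2 / (n ^ 2 * y ^ 6)} := by
    intro c hc
    by_contra hcon
    rw [mem_union, not_or] at hcon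
    apply hc
    constructor
    · by_contra h1
      push Not at h1
      exact hcon.1 (ENNReal.ofReal_le_ofReal h1.le)
    · intro i hi
      by_contra h1
      push Not at h1
      apply hcon.2
      simp only [mem_iUnion]
      exact ⟨i, hi, h1⟩
  have hsm : Measurable fun c : T n → ℝ × ℝ => ENNReal.ofReal (sn c) :=
    (continuous_sn (S := T n)).measurable.ennreal_ofReal
  have hmean : ∫⁻ c, ENNReal.ofReal (sn c) ∂gb b ≤ ENNReal.ofReal (2 * β ^ 2 + 16 * n ^ 2) := by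
    rw [lintegral_gb b hsm]
    have h1 : ∀ g : T n → ℝ × ℝ, ENNReal.ofReal (sn fun m => b m + g m) ≤
        ENNReal.ofReal (2 * β ^ 2) + ENNReal.ofReal 2 * ENNReal.ofReal (sn g) := by
      intro g
      rw [← ENNReal.ofReal_mul (by norm_num), ← ENNReal.ofReal_add (by positivity)
        (mul_nonneg (by norm_num) (HR.sn_nonneg g))]
      apply ENNReal.ofReal_le_ofReal
      rw [hβ2]
      unfold sn H709R2.sq
      rw [Finset.mul_sum, Finset.mul_sum, ← Finset.sum_add_distrib]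
      refine Finset.sum_le_sum fun m _ => ?_
      simp only [Prod.fst_add, Prod.snd_add]
      nlinarith [sq_nonneg ((b m).1 - (g m).1), sq_nonneg ((b m).2 - (g m).2)]
    refine (lintegral_mono h1).trans ?_
    rw [lintegral_add_left measurable_const, lintegral_const, measure_univ, mul_one,
      lintegral_const_mul _ hsm]
    have h2 := card_le (full_T hn)
    calc _ ≤ ENNReal.ofReal (2 * β ^ 2) + ENNReal.ofReal 2 * ENNReal.ofReal (2 * (T n).card) := by
          gcongr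
          exact mean_sn
      _ = ENNReal.ofReal (2 * β ^ 2 + 2 * (2 * (T n).card)) := by
          rw [← ENNReal.ofReal_mul (by norm_num), ← ENNReal.ofReal_add (by positivity)
            (by positivity)]
      _ ≤ _ := ENNReal.ofReal_le_ofReal (by linarith)
  have hp1 : gb b {c : T n → ℝ × ℝ | ENNReal.ofReal ((n * y ^ 2) ^ 2) ≤ ENNReal.ofReal (sn c)} ≤
      ENNReal.ofReal ((2 * β ^ 2 + 16) / y ^ 4) := by
    have h1 := meas_ge_le_lintegral_div (μ := gb b) (f := fun c => ENNReal.ofReal (sn c))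
      hsm.aemeasurable (ε := ENNReal.ofReal ((n * y ^ 2) ^ 2))
      (by rw [Ne, ENNReal.ofReal_eq_zero, not_le]; positivity) ENNReal.ofReal_ne_top
    refine h1.trans ?_
    rw [ENNReal.div_le_iff (by rw [Ne, ENNReal.ofReal_eq_zero, not_le]; positivity)
      ENNReal.ofReal_ne_top, ← ENNReal.ofReal_mul (by positivity)]
    refine hmean.trans (ENNReal.ofReal_le_ofReal ?_)
    have e : (2 * β ^ 2 + 16) / y ^ 4 * (n * y ^ 2) ^ 2 = (2 * β ^ 2 + 16) * n ^ 2 := by field_simp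
    rw [e]
    have h3 : (1:ℝ) ≤ (n:ℝ) ^ 2 := one_le_pow₀ hn1
    have h4 : 0 ≤ β ^ 2 := sq_nonneg _
    nlinarith
  have hp2 : gb b (⋃ i ∈ Finset.range (Ln n y + 1),
      {c | ‖Yh n c (di (Ln n y) i)‖ < 2 / (n ^ 2 * y ^ 6)}) ≤ ENNReal.ofReal (144 / y ^ 4) := by
    refine (measure_biUnion_finset_le _ _).trans ?_
    calc _ ≤ ∑ i ∈ Finset.range (Ln n y + 1), ENNReal.ofReal (4 * (2 / (n ^ 2 * y ^ 6)) ^ 2) := by
          refine Finset.sum_le_sum fun i _ => prob_dir_gb b ?_ (by positivity)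
          unfold di
          simp only
          linarith [Real.sin_sq_add_cos_sq (2 * π * i / (Ln n y) - π)]
      _ = ENNReal.ofReal (((Ln n y + 1 : ℕ) : ℝ)) * ENNReal.ofReal (4 * (2 / (n ^ 2 * y ^ 6)) ^ 2) := by
          rw [Finset.sum_const, nsmul_eq_mul, Finset.card_range, ENNReal.ofReal_natCast]
      _ ≤ _ := by
          rw [← ENNReal.ofReal_mul (Nat.cast_nonneg _)]
          apply ENNReal.ofReal_le_ofReal
          have h1 : ((Ln n y : ℕ) : ℝ) ≤ 7 * n ^ 4 * y ^ 8 + 1 := (Nat.ceil_lt_add_one (by positivity)).le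
          have h2 : 1 ≤ (n:ℝ) ^ 4 * y ^ 8 := by
            have h1 : 1 ≤ (n:ℝ) ^ 4 := one_le_pow₀ hn1
            have h2 : 1 ≤ y ^ 8 := one_le_pow₀ hy
            nlinarith
          have h3 : (((Ln n y + 1 : ℕ) : ℝ)) ≤ 9 * (n ^ 4 * y ^ 8) := by
            push_cast
            linarith
          calc _ ≤ 9 * (n ^ 4 * y ^ 8) * (4 * (2 / (n ^ 2 * y ^ 6)) ^ 2) :=
                mul_le_mul_of_nonneg_right h3 (by positivity)
            _ = 144 / y ^ 4 := by
                field_simp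
                norm_num
  have hfin : ENNReal.ofReal ((2 * β ^ 2 + 160) / y ^ 4) ≤
      ENNReal.ofReal (Db β ^ 16) * KA * ENNReal.ofReal (1 / y ^ 4) := by
    have h1 : (2 * β ^ 2 + 160) / y ^ 4 = (2 * β ^ 2 + 160) * (1 / y ^ 4) := by ring
    rw [h1, ENNReal.ofReal_mul (by positivity)]
    gcongr
    rw [Db16 hβ]
    unfold KA
    rw [← mul_assoc, ← ENNReal.ofReal_mul (by positivity)]
    refine le_trans (ENNReal.ofReal_le_ofReal ?_) (le_mul_of_one_le_right zero_le one_le_KE)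
    have a2 : 0 ≤ β ^ 2 := by positivity
    nlinarith
  calc _ ≤ _ := measure_mono hsub
    _ ≤ _ := measure_union_le _ _
    _ ≤ _ := add_le_add hp1 hp2
    _ = ENNReal.ofReal ((2 * β ^ 2 + 160) / y ^ 4) := by
        rw [← ENNReal.ofReal_add (by positivity) (by positivity)]
        congr 1
        ring
    _ ≤ _ := hfin

/-- the mean over all rotations, for a Gaussian law with any centre -/
theorem mean_Phi_gb (hn : 1 ≤ n) (b : T n → ℝ × ℝ) :
    ∫⁻ c, HR.Phi (sc n c) ∂gb b ≤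
      CT1 * (ENNReal.ofReal ((1 + nb b) ^ 2) * KA) * ENNReal.ofReal n := by
  rw [← Db16 (nb_nonneg b)]
  exact mean_Phi (one_le_Db (nb_nonneg b)) one_le_KA KA_ne (nd_gb b) (bd_gb hn b) hn

end

end Pool.Agent.W960.HS
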