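import Pool.Agent.W960.HS.CB4

/-! The mean number of closed orbits near an arbitrary system, for noise of the Kostlan ensemble. -/

open Real Set MeasureTheory Topology Filter ProbabilityTheory
open scoped ENNReal

namespace Pool.Agent.W960.HS

noncomputable section

open Pool.Agent.W960.HR (T mem_T GP gb mp_gb lintegral_gb lintegral_gb' sn ip iw xx pb pb_eq pb_le
  continuous_pb continuous_xx xx_nonneg xx_rotc full_circle measurable_Phi)
open Pool.Agent.H709R2 (fld rot rotc rot_fld NP NP_smul g2 dens measurable_NP measurePreserving_rotc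
  continuous_rotc)

section

variable {S : Finset (ℕ × ℕ)}

/-- The mean over a Gaussian law and over all rotations. -/
lemma to_rot (b : S → ℝ × ℝ) {N P : (S → ℝ × ℝ) → ℝ≥0∞} (hN : Measurable N) (hP : Measurable P)
    (hNP : ∀ c, ∫⁻ α in Ioo (-π) π, N (rotc (-α) c) ≤ 2 * P c) : ∫⁻ c, N c ∂gb b ≤
    4 * ∫⁻ c, ENNReal.ofReal √(1 + xx c b) * P c ∂gb b := by
  have hk : Measurable fun c : S → ℝ × ℝ => ENNReal.ofReal (2 * √(1 + xx c b)) :=
    ENNReal.measurable_ofReal.comp
      ((continuous_const.mul (continuous_const.add (continuous_xx b)).sqrt).measurable)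
  have hk' : Measurable fun c : S → ℝ × ℝ => ENNReal.ofReal √(1 + xx c b) :=
    ENNReal.measurable_ofReal.comp ((continuous_const.add (continuous_xx b)).sqrt.measurable)
  have hp : Measurable fun c : S → ℝ × ℝ => ENNReal.ofReal (pb b c) :=
    ENNReal.measurable_ofReal.comp (continuous_pb b).measurable
  have hrot : Continuous fun q : (S → ℝ × ℝ) × ℝ => rotc q.2 q.1 := by
    unfold rotc rot
    fun_prop
  have hrot' : Continuous fun q : ℝ × (S → ℝ × ℝ) => rotc (-q.1) q.2 := by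
    unfold rotc rot
    fun_prop
  have hp1 : ∀ c : S → ℝ × ℝ, Measurable fun α : ℝ => ENNReal.ofReal (pb b (rotc α c)) := by
    intro c
    have h1 : Continuous fun α : ℝ => rotc α c := by
      unfold rotc rot
      fun_prop
    exact ENNReal.measurable_ofReal.comp ((continuous_pb b).comp h1).measurable
  have hN1 : ∀ c : S → ℝ × ℝ, Measurable fun α : ℝ => N (rotc (-α) c) := by
    intro c
    have h1 : Continuous fun α : ℝ => rotc (-α) c := by
      unfold rotc rot
      fun_prop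
    exact hN.comp h1.measurable
  have hα : ∀ α : ℝ, Measurable fun c : S → ℝ × ℝ => rotc α c := fun α => by
    have : Continuous fun c : S → ℝ × ℝ => rotc α c := by unfold rotc rot; fun_prop
    exact this.measurable
  rw [lintegral_gb' b hN, lintegral_gb' b
    (F := fun c => ENNReal.ofReal √(1 + xx c b) * P c) (hk'.mul hP)]
  have hback : ∀ (α : ℝ) (c : S → ℝ × ℝ), rotc (-α) (rotc α c) = c := by
    intro α c
    funext m
    unfold rotc rot
    rw [Real.cos_neg, Real.sin_neg]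
    have := Real.sin_sq_add_cos_sq α
    ext
    · simp only
      linear_combination (c m).1 * this
    · simp only
      linear_combination (c m).2 * this
  calc ∫⁻ c, ENNReal.ofReal (pb b c) * N c
      ≤ ∫⁻ c, ∫⁻ α in Ioo (-π) π, ENNReal.ofReal (2 * √(1 + xx c b)) * N c *
          ENNReal.ofReal (pb b (rotc α c)) := by
        refine lintegral_mono fun c => ?_
        have h1 := mul_le_mul_left (pb_le b c) (N c)
        refine h1.trans (le_of_eq ?_)
        rw [lintegral_const_mul (ENNReal.ofReal (2 * √(1 + xx c b)) * N c) (hp1 c)]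
        ring
    _ = ∫⁻ α in Ioo (-π) π, ∫⁻ c, ENNReal.ofReal (2 * √(1 + xx c b)) * N c *
          ENNReal.ofReal (pb b (rotc α c)) := by
        have h1 : Measurable (Function.uncurry fun (c : S → ℝ × ℝ) (α : ℝ) =>
            ENNReal.ofReal (2 * √(1 + xx c b)) * N c * ENNReal.ofReal (pb b (rotc α c))) :=
          ((hk.comp measurable_fst).mul (hN.comp measurable_fst)).mul
            (hp.comp hrot.measurable)
        exact lintegral_lintegral_swap h1.aemeasurable
    _ = ∫⁻ α in Ioo (-π) π, ∫⁻ c, ENNReal.ofReal (2 * √(1 + xx c b)) * N (rotc (-α) c) *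
          ENNReal.ofReal (pb b c) := by
        refine lintegral_congr fun α => ?_
        have h1 := (measurePreserving_rotc (S := S) α).lintegral_comp
          (f := fun c => ENNReal.ofReal (2 * √(1 + xx c b)) * N (rotc (-α) c) *
            ENNReal.ofReal (pb b c)) ((hk.mul (hN.comp (hα _))).mul hp)
        rw [← h1]
        refine lintegral_congr fun c => ?_
        rw [xx_rotc, hback]
    _ = ∫⁻ c, ∫⁻ α in Ioo (-π) π, ENNReal.ofReal (2 * √(1 + xx c b)) * N (rotc (-α) c) *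
          ENNReal.ofReal (pb b c) := by
        have h1 : Measurable (Function.uncurry fun (α : ℝ) (c : S → ℝ × ℝ) =>
            ENNReal.ofReal (2 * √(1 + xx c b)) * N (rotc (-α) c) * ENNReal.ofReal (pb b c)) :=
          ((hk.comp measurable_snd).mul (hN.comp hrot'.measurable)).mul
            (hp.comp measurable_snd)
        exact lintegral_lintegral_swap h1.aemeasurable
    _ ≤ ∫⁻ c, 4 * (ENNReal.ofReal (pb b c) * (ENNReal.ofReal √(1 + xx c b) * P c)) := by
        refine lintegral_mono fun c => ?_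
        have h1 : ∀ α : ℝ, ENNReal.ofReal (2 * √(1 + xx c b)) * N (rotc (-α) c) *
            ENNReal.ofReal (pb b c) = (ENNReal.ofReal (2 * √(1 + xx c b)) *
              ENNReal.ofReal (pb b c)) * N (rotc (-α) c) := fun α => by ring
        simp only [h1]
        rw [lintegral_const_mul (ENNReal.ofReal (2 * √(1 + xx c b)) * ENNReal.ofReal (pb b c))
          (hN1 c)]
        have h2 := mul_le_mul_right (hNP c) (ENNReal.ofReal (2 * √(1 + xx c b)) *
              ENNReal.ofReal (pb b c))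
        refine h2.trans (le_of_eq ?_)
        rw [ENNReal.ofReal_mul (by norm_num), ENNReal.ofReal_ofNat]
        ring
    _ = 4 * ∫⁻ c, ENNReal.ofReal (pb b c) * (ENNReal.ofReal √(1 + xx c b) * P c) :=
        lintegral_const_mul _ (hp.mul (hk'.mul hP))

lemma pb_nonneg (b c : S → ℝ × ℝ) : 0 ≤ pb b c := by
  rw [pb_eq]
  positivity

lemma pb_shift (b v c : S → ℝ × ℝ) :
    pb (b + v) c = pb b c * rexp (ip c v - ip b v - sn v / 2) := by
  have h1 : sn (b + v) = sn b + 2 * ip b v + sn v := by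
    unfold sn ip H709R2.sq
    rw [Finset.mul_sum, ← Finset.sum_add_distrib, ← Finset.sum_add_distrib]
    refine Finset.sum_congr rfl fun m _ => ?_
    simp only [Pi.add_apply, Prod.fst_add, Prod.snd_add]
    ring
  have h2 : ip c (b + v) = ip c b + ip c v := by
    unfold ip
    rw [← Finset.sum_add_distrib]
    refine Finset.sum_congr rfl fun m _ => ?_
    simp only [Pi.add_apply, Prod.fst_add, Prod.snd_add]
    ring
  rw [pb_eq, pb_eq, h1, h2, mul_assoc, mul_assoc, mul_assoc, ← Real.exp_add, ← Real.exp_add,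
    ← Real.exp_add]
  congr 2
  ring

lemma two_cosh (x : ℝ) : 2 + x ^ 2 / 2 ≤ rexp x + rexp (-x) := by
  rcases le_total 0 x with h | h
  · have h1 := Real.quadratic_le_exp_of_nonneg h
    have h2 := Real.add_one_le_exp (-x)
    linarith
  · have h1 := Real.quadratic_le_exp_of_nonneg (neg_nonneg.2 h)
    have h2 := Real.add_one_le_exp x
    rw [neg_sq] at h1
    linarith

/-- multiplication by the imaginary unit -/
def Jm (b : S → ℝ × ℝ) : S → ℝ × ℝ := fun m => (-(b m).2, (b m).1)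

lemma ip_smul (c b : S → ℝ × ℝ) (t : ℝ) : ip c (t • b) = t * ip c b := by
  unfold ip
  rw [Finset.mul_sum]
  refine Finset.sum_congr rfl fun m _ => ?_
  simp only [Pi.smul_apply, Prod.smul_fst, Prod.smul_snd, smul_eq_mul]
  ring

lemma sn_smul (b : S → ℝ × ℝ) (t : ℝ) : sn (t • b) = t ^ 2 * sn b := by
  unfold sn H709R2.sq
  rw [Finset.mul_sum]
  refine Finset.sum_congr rfl fun m _ => ?_
  simp only [Pi.smul_apply, Prod.smul_fst, Prod.smul_snd, smul_eq_mul]
  ring

lemma ip_Jm (c b : S → ℝ × ℝ) : ip c (Jm b) = -iw c b := by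
  unfold ip iw Jm
  rw [← Finset.sum_neg_distrib]
  refine Finset.sum_congr rfl fun m _ => ?_
  simp only
  ring

lemma iw_self (b : S → ℝ × ℝ) : iw b b = 0 := by
  unfold iw
  refine Finset.sum_eq_zero fun m _ => ?_
  ring

lemma ip_self (b : S → ℝ × ℝ) : ip b b = sn b := by
  unfold ip sn H709R2.sq
  refine Finset.sum_congr rfl fun m _ => ?_
  ring

lemma sn_Jm (b : S → ℝ × ℝ) : sn (Jm b) = sn b := by
  unfold sn Jm H709R2.sq
  refine Finset.sum_congr rfl fun m _ => ?_
  simp only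
  ring

lemma sn_add (b v : S → ℝ × ℝ) : sn (b + v) = sn b + 2 * ip b v + sn v := by
  unfold sn ip H709R2.sq
  rw [Finset.mul_sum, ← Finset.sum_add_distrib, ← Finset.sum_add_distrib]
  refine Finset.sum_congr rfl fun m _ => ?_
  simp only [Pi.add_apply, Prod.fst_add, Prod.snd_add]
  ring

end

variable {n : ℕ}

/-- the length of the shifts -/
def ts (b : T n → ℝ × ℝ) : ℝ := 1 / (1 + nb b)

/-- the four shifts -/
def sh (b : T n → ℝ × ℝ) : Fin 4 → (T n → ℝ × ℝ) :=
  ![ts b • b, (-ts b) • b, ts b • Jm b, (-ts b) • Jm b]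

lemma ts_pos (b : T n → ℝ × ℝ) : 0 < ts b := by
  have := nb_nonneg b
  unfold ts
  positivity

lemma ts_nb (b : T n → ℝ × ℝ) : ts b * nb b ≤ 1 := by
  have := nb_nonneg b
  unfold ts
  rw [one_div, inv_mul_le_iff₀ (by linarith)]
  linarith

lemma nb_sq (b : T n → ℝ × ℝ) : nb b ^ 2 = sn b := Real.sq_sqrt (HR.sn_nonneg b)

lemma ts_sn (b : T n → ℝ × ℝ) : ts b ^ 2 * sn b ≤ 1 := by
  rw [← nb_sq, ← mul_pow]
  exact pow_le_one₀ (mul_nonneg (ts_pos b).le (nb_nonneg b)) (ts_nb b)

lemma nb_sh (b : T n → ℝ × ℝ) (i : Fin 4) : nb (b + sh b i) ≤ 1 + nb b := by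
  have hβ := nb_nonneg b
  have ht := ts_pos b
  have h1 := ts_nb b
  have h2 := ts_sn b
  have h3 := nb_sq b
  have h4 : ts b * sn b ≤ nb b := by rw [← h3]; nlinarith
  have h5 : 0 ≤ ts b * sn b := mul_nonneg ht.le (HR.sn_nonneg b)
  have key : sn (b + sh b i) ≤ (1 + nb b) ^ 2 := by
    rw [sn_add]
    fin_cases i
    · show sn b + 2 * ip b (ts b • b) + sn (ts b • b) ≤ _
      rw [ip_smul, sn_smul, ip_self]
      nlinarith
    · show sn b + 2 * ip b ((-ts b) • b) + sn ((-ts b) • b) ≤ _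
      rw [ip_smul, sn_smul, ip_self, neg_sq]
      nlinarith
    · show sn b + 2 * ip b (ts b • Jm b) + sn (ts b • Jm b) ≤ _
      rw [ip_smul, sn_smul, ip_Jm, iw_self, sn_Jm]
      nlinarith
    · show sn b + 2 * ip b ((-ts b) • Jm b) + sn ((-ts b) • Jm b) ≤ _
      rw [ip_smul, sn_smul, ip_Jm, iw_self, sn_Jm, neg_sq]
      nlinarith
  exact Real.sqrt_le_iff.2 ⟨by linarith, key⟩

lemma sqrt_aux {β A x y : ℝ} (hβ : 0 ≤ β) (hx0 : 0 ≤ x) (hy0 : 0 ≤ y)
    (hA : A ≤ β ^ 2 + x * (1 + β) + y * (1 + β)) : √(1 + A) ≤ (1 + β) * (1 + (x + y) / 2) := by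
  rw [Real.sqrt_le_iff]
  refine ⟨by positivity, ?_⟩
  have h6 : x * (1 + β) ≤ (1 + β) ^ 2 * x := by nlinarith [mul_nonneg hx0 hβ, mul_nonneg (mul_nonneg hx0 hβ) hβ]
  have h7 : y * (1 + β) ≤ (1 + β) ^ 2 * y := by nlinarith [mul_nonneg hy0 hβ, mul_nonneg (mul_nonneg hy0 hβ) hβ]
  have h5 : 1 + A ≤ (1 + β) ^ 2 * (1 + (x + y)) := by
    have h8 : 1 + β ^ 2 ≤ (1 + β) ^ 2 := by nlinarith
    linarith
  refine h5.trans ?_
  rw [mul_pow]
  refine mul_le_mul_of_nonneg_left ?_ (sq_nonneg _)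
  nlinarith [sq_nonneg ((x + y) / 2)]

lemma sum_aux {x y E p q r s : ℝ} (hE : 1 / 2 ≤ E) (c1 : 2 + x ^ 2 / 2 ≤ p + q)
    (c2 : 2 + y ^ 2 / 2 ≤ r + s) : 1 + (x + y) / 2 ≤ p * E + q * E + s * E + r * E := by
  have h1 : 4 + (x ^ 2 + y ^ 2) / 2 ≤ p + q + (s + r) := by linarith
  have h2 : 1 + (x + y) / 2 ≤ 1 / 2 * (4 + (x ^ 2 + y ^ 2) / 2) := by
    nlinarith [sq_nonneg (x - 1), sq_nonneg (y - 1)]
  have h3 : 0 ≤ 4 + (x ^ 2 + y ^ 2) / 2 := by positivity
  calc 1 + (x + y) / 2 ≤ 1 / 2 * (4 + (x ^ 2 + y ^ 2) / 2) := h2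
    _ ≤ E * (p + q + (s + r)) := mul_le_mul hE h1 h3 (by linarith)
    _ = _ := by ring

lemma xx_aux (b c : T n → ℝ × ℝ) : xx c b ≤ nb b ^ 2 + ts b * |ip c b - sn b| * (1 + nb b) +
    ts b * |iw c b| * (1 + nb b) := by
  have hβ := nb_nonneg b
  have ht1 : ts b * (1 + nb b) = 1 := by
    unfold ts
    field_simp
  have h1 : xx c b ≤ |ip c b| + |iw c b| := by
    unfold HR.xx
    rw [Real.sqrt_le_iff]
    refine ⟨by positivity, ?_⟩
    rw [← sq_abs (ip c b), ← sq_abs (iw c b)]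
    have := mul_nonneg (abs_nonneg (ip c b)) (abs_nonneg (iw c b))
    nlinarith
  have h2 : |ip c b| ≤ nb b ^ 2 + |ip c b - sn b| := by
    have e : ip c b = sn b + (ip c b - sn b) := by ring
    calc |ip c b| = |sn b + (ip c b - sn b)| := by rw [← e]
      _ ≤ |sn b| + |ip c b - sn b| := abs_add_le _ _
      _ = _ := by rw [abs_of_nonneg (HR.sn_nonneg b), nb_sq]
  have h3 : ts b * |ip c b - sn b| * (1 + nb b) = |ip c b - sn b| := by
    calc _ = (ts b * (1 + nb b)) * |ip c b - sn b| := by ring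
      _ = _ := by rw [ht1, one_mul]
  have h4 : ts b * |iw c b| * (1 + nb b) = |iw c b| := by
    calc _ = (ts b * (1 + nb b)) * |iw c b| := by ring
      _ = _ := by rw [ht1, one_mul]
  rw [h3, h4]
  linarith

lemma pb_sh (b c : T n → ℝ × ℝ) :
    pb (b + sh b 0) c = pb b c * (rexp (ts b * (ip c b - sn b)) * rexp (-(ts b ^ 2 * sn b) / 2)) ∧
    pb (b + sh b 1) c = pb b c * (rexp (-(ts b * (ip c b - sn b))) * rexp (-(ts b ^ 2 * sn b) / 2)) ∧
    pb (b + sh b 2) c = pb b c * (rexp (-(ts b * iw c b)) * rexp (-(ts b ^ 2 * sn b) / 2)) ∧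
    pb (b + sh b 3) c = pb b c * (rexp (ts b * iw c b) * rexp (-(ts b ^ 2 * sn b) / 2)) := by
  refine ⟨?_, ?_, ?_, ?_⟩
  · rw [pb_shift, ← Real.exp_add]
    show pb b c * rexp (ip c (ts b • b) - ip b (ts b • b) - sn (ts b • b) / 2) = _
    rw [ip_smul, ip_smul, sn_smul, ip_self]
    congr 2
    ring
  · rw [pb_shift, ← Real.exp_add]
    show pb b c * rexp (ip c ((-ts b) • b) - ip b ((-ts b) • b) - sn ((-ts b) • b) / 2) = _
    rw [ip_smul, ip_smul, sn_smul, ip_self]
    congr 2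
    ring
  · rw [pb_shift, ← Real.exp_add]
    show pb b c * rexp (ip c (ts b • Jm b) - ip b (ts b • Jm b) - sn (ts b • Jm b) / 2) = _
    rw [ip_smul, ip_smul, sn_smul, ip_Jm, ip_Jm, iw_self, sn_Jm]
    congr 2
    ring
  · rw [pb_shift, ← Real.exp_add]
    show pb b c * rexp (ip c ((-ts b) • Jm b) - ip b ((-ts b) • Jm b) - sn ((-ts b) • Jm b) / 2) = _
    rw [ip_smul, ip_smul, sn_smul, ip_Jm, ip_Jm, iw_self, sn_Jm]
    congr 2
    ring

/-- the weight is absorbed by four shifts of the centre -/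
lemma mix (b c : T n → ℝ × ℝ) :
    √(1 + xx c b) * pb b c ≤ (1 + nb b) * ∑ i : Fin 4, pb (b + sh b i) c := by
  have hβ := nb_nonneg b
  have ht := ts_pos b
  have hts := ts_sn b
  have hq := pb_nonneg b c
  obtain ⟨e1, e2, e3, e4⟩ := pb_sh b c
  rw [Fin.sum_univ_four, e1, e2, e3, e4]
  have hE : 1 / 2 ≤ rexp (-(ts b ^ 2 * sn b) / 2) := by
    have h1 := Real.add_one_le_exp (-(ts b ^ 2 * sn b) / 2)
    linarith
  have c1 := two_cosh (ts b * (ip c b - sn b))
  have c2 := two_cosh (ts b * iw c b)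
  have hx2 : (ts b * (ip c b - sn b)) ^ 2 = (ts b * |ip c b - sn b|) ^ 2 := by
    rw [mul_pow, mul_pow, sq_abs]
  have hy2 : (ts b * iw c b) ^ 2 = (ts b * |iw c b|) ^ 2 := by rw [mul_pow, mul_pow, sq_abs]
  rw [hx2] at c1
  rw [hy2] at c2
  have hw := sqrt_aux hβ (mul_nonneg ht.le (abs_nonneg (ip c b - sn b)))
    (mul_nonneg ht.le (abs_nonneg (iw c b))) (xx_aux b c)
  have hsum := sum_aux hE c1 c2
  generalize rexp (-(ts b ^ 2 * sn b) / 2) = E at *
  generalize rexp (ts b * (ip c b - sn b)) = p at *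
  generalize rexp (-(ts b * (ip c b - sn b))) = q at *
  generalize rexp (ts b * iw c b) = r at *
  generalize rexp (-(ts b * iw c b)) = s at *
  calc √(1 + xx c b) * pb b c ≤ (1 + nb b) * (1 + (ts b * |ip c b - sn b| + ts b * |iw c b|) / 2) *
        pb b c := mul_le_mul_of_nonneg_right hw hq
    _ ≤ (1 + nb b) * (p * E + q * E + s * E + r * E) * pb b c :=
        mul_le_mul_of_nonneg_right (mul_le_mul_of_nonneg_left hsum (by linarith)) hq
    _ = _ := by ring

/-- the weighted mean -/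
lemma weighted (b : T n → ℝ × ℝ) {P : (T n → ℝ × ℝ) → ℝ≥0∞} (hP : Measurable P) :
    ∫⁻ c, ENNReal.ofReal √(1 + xx c b) * P c ∂gb b ≤
      ENNReal.ofReal (1 + nb b) * ∑ i : Fin 4, ∫⁻ c, P c ∂gb (b + sh b i) := by
  have hβ := nb_nonneg b
  have hk' : Measurable fun c : T n → ℝ × ℝ => ENNReal.ofReal √(1 + xx c b) :=
    ENNReal.measurable_ofReal.comp ((continuous_const.add (continuous_xx b)).sqrt.measurable)
  have hp : ∀ b : T n → ℝ × ℝ, Measurable fun c : T n → ℝ × ℝ => ENNReal.ofReal (pb b c) := fun b =>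
    ENNReal.measurable_ofReal.comp (continuous_pb b).measurable
  rw [lintegral_gb' b (F := fun c => ENNReal.ofReal √(1 + xx c b) * P c) (hk'.mul hP)]
  have e : ∀ i : Fin 4, ∫⁻ c, P c ∂gb (b + sh b i) =
      ∫⁻ c, ENNReal.ofReal (pb (b + sh b i) c) * P c := fun i => lintegral_gb' _ hP
  simp_rw [e]
  have hm : ∀ i : Fin 4, Measurable fun c => ENNReal.ofReal (pb (b + sh b i) c) * P c :=
    fun i => (hp _).mul hP
  rw [← lintegral_finsetSum _ fun i _ => hm i,
    ← lintegral_const_mul _ (Finset.measurable_fun_sum _ fun i _ => hm i)]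
  refine lintegral_mono fun c => ?_
  have h1 := ENNReal.ofReal_le_ofReal (mix b c)
  rw [ENNReal.ofReal_mul (Real.sqrt_nonneg _), ENNReal.ofReal_mul (by linarith),
    ENNReal.ofReal_sum_of_nonneg fun i _ => pb_nonneg _ _] at h1
  calc ENNReal.ofReal (pb b c) * (ENNReal.ofReal √(1 + xx c b) * P c) =
        (ENNReal.ofReal √(1 + xx c b) * ENNReal.ofReal (pb b c)) * P c := by ring
    _ ≤ (ENNReal.ofReal (1 + nb b) * ∑ i : Fin 4, ENNReal.ofReal (pb (b + sh b i) c)) * P c := by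
        gcongr
    _ = _ := by rw [mul_assoc, Finset.sum_mul]

/-- the mean for any centre -/
theorem centred (hn : 1 ≤ n) (b : T n → ℝ × ℝ) :
    ∫⁻ c, NP (sc n c) ∂gb b ≤ CT1 * KA * ENNReal.ofReal (64 * n * (1 + nb b) ^ 3) := by
  have hβ := nb_nonneg b
  have hsc := (continuous_sc n).measurable
  have h1 := to_rot b (N := fun c => NP (sc n c)) (P := fun c => HR.Phi (sc n c))
    (measurable_NP.comp hsc) (measurable_Phi.comp hsc) (by
      intro c
      have h := full_circle (sc n c)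
      refine le_trans (le_of_eq ?_) h
      refine lintegral_congr fun α => ?_
      rw [sc_rotc])
  refine h1.trans ?_
  have h2 := weighted b (P := fun c => HR.Phi (sc n c)) (measurable_Phi.comp hsc)
  have h3 : ∀ i : Fin 4, ∫⁻ c, HR.Phi (sc n c) ∂gb (b + sh b i) ≤
      CT1 * KA * ENNReal.ofReal (4 * (1 + nb b) ^ 2 * n) := by
    intro i
    refine (mean_Phi_gb hn _).trans ?_
    have h4 := nb_sh b i
    have h5 := nb_nonneg (b + sh b i)
    calc CT1 * (ENNReal.ofReal ((1 + nb (b + sh b i)) ^ 2) * KA) * ENNReal.ofReal n =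
          CT1 * KA * (ENNReal.ofReal ((1 + nb (b + sh b i)) ^ 2) * ENNReal.ofReal n) := by
          ring
      _ ≤ _ := by
          rw [← ENNReal.ofReal_mul (by positivity)]
          gcongr CT1 * KA * ENNReal.ofReal ?_
          have h6 : 1 + nb (b + sh b i) ≤ 2 * (1 + nb b) := by linarith
          have h7 : (1 + nb (b + sh b i)) ^ 2 ≤ (2 * (1 + nb b)) ^ 2 :=
            pow_le_pow_left₀ (by linarith) h6 2
          rw [mul_pow] at h7
          have h8 : (0:ℝ) ≤ n := Nat.cast_nonneg _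
          refine mul_le_mul_of_nonneg_right ?_ h8
          linarith
  calc _ ≤ 4 * (ENNReal.ofReal (1 + nb b) *
        ∑ i : Fin 4, CT1 * KA * ENNReal.ofReal (4 * (1 + nb b) ^ 2 * n)) := by
        refine mul_le_mul_right (h2.trans (mul_le_mul_right (Finset.sum_le_sum fun i _ => h3 i) _)) _
    _ = CT1 * KA * (ENNReal.ofReal 16 * (ENNReal.ofReal (1 + nb b) *
          ENNReal.ofReal (4 * (1 + nb b) ^ 2 * n))) := by
        rw [Finset.sum_const, Finset.card_univ, Fintype.card_fin, nsmul_eq_mul]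
        have e16 : ENNReal.ofReal 16 = 4 * 4 := by norm_num
        rw [e16]
        push_cast
        ring
    _ = _ := by
        rw [← ENNReal.ofReal_mul (by linarith), ← ENNReal.ofReal_mul (by norm_num)]
        congr 2
        ring

lemma geo_le {r q : ℝ} (h0 : 0 ≤ r) (h1 : r ≤ q) (h2 : q < 1) :
    ∑' j : ℕ, ENNReal.ofReal (r ^ j) ≤ ENNReal.ofReal (1 / (1 - q)) := by
  have hq : 0 ≤ q := h0.trans h1
  calc _ ≤ ∑' j : ℕ, ENNReal.ofReal (q ^ j) :=
        ENNReal.tsum_le_tsum fun j => ENNReal.ofReal_le_ofReal (pow_le_pow_left₀ h0 h1 j)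
    _ = _ := by
        rw [← ENNReal.ofReal_tsum_of_nonneg (fun j => pow_nonneg hq j)
          (summable_geometric_of_lt_one hq h2), tsum_geometric_of_lt_one hq h2, one_div]

lemma bb_bound : 1 / bb ^ 7 ≤ 5 / 6 := by
  have hb := bb_lt
  have h1 : (6 / 5 : ℝ) ≤ bb ^ 7 := by
    rw [← pow_le_pow_iff_left₀ (by norm_num) (by positivity) (by norm_num : 23 ≠ 0), ← pow_mul,
      mul_comm 7 23, pow_mul, bb_pow]
    norm_num
  rw [div_le_div_iff₀ (by positivity) (by norm_num)]
  linarith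

lemma aa_bound : aa ≤ 4 / 5 := by
  rw [← pow_le_pow_iff_left₀ aa_pos.le (by norm_num) (by norm_num : 3 ≠ 0), aa_pow]
  norm_num

lemma dd_bound : 1 / dd ≤ 24 / 25 := by
  have hd := dd_lt
  have h1 : (25 / 24 : ℝ) ≤ dd := by
    rw [← pow_le_pow_iff_left₀ (by norm_num) (by positivity) (by norm_num : 16 ≠ 0), dd_pow]
    norm_num
  rw [div_le_div_iff₀ (by positivity) (by norm_num)]
  linarith

lemma CT1_le : CT1 ≤ ENNReal.ofReal (2 * 10 ^ 24) := by
  have h1 := geo_le (r := 1 / bb ^ 7) (by have := bb_lt; positivity) bb_bound (by norm_num)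
  have h2 := geo_le aa_pos.le aa_bound (by norm_num)
  have h3 := geo_le (r := 1 / dd) (by have := dd_lt; positivity) dd_bound (by norm_num)
  have e1 : CE1 = ENNReal.ofReal (10 ^ 16 + 1000) := by
    unfold CE1
    rw [ENNReal.ofReal_add (by norm_num) (by norm_num)]
  have e2 : CM1 = ENNReal.ofReal 78 := by
    unfold CM1
    rw [← ENNReal.ofReal_one, ← ENNReal.ofReal_add (by norm_num) (by norm_num)]
    norm_num
  unfold CT1 CL1
  rw [e1, e2]
  calc _ ≤ ENNReal.ofReal 20000 + (ENNReal.ofReal (10 ^ 16 + 1000) * (ENNReal.ofReal (25 * 10 ^ 6) *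
        ENNReal.ofReal (1 / (1 - 5 / 6))) + ENNReal.ofReal 78 * (ENNReal.ofReal (2 * 10 ^ 9) *
        (ENNReal.ofReal (1 / (1 - 4 / 5)) * ENNReal.ofReal (1 / (1 - 4 / 5))))) +
        ENNReal.ofReal 239616 * ENNReal.ofReal (1 / (1 - 24 / 25)) := by gcongr
    _ = ENNReal.ofReal (20000 + ((10 ^ 16 + 1000) * (25 * 10 ^ 6 * (1 / (1 - 5 / 6))) +
        78 * (2 * 10 ^ 9 * (1 / (1 - 4 / 5) * (1 / (1 - 4 / 5))))) +
        239616 * (1 / (1 - 24 / 25))) := by
        rw [← ENNReal.ofReal_mul (p := 25 * 10 ^ 6) (by norm_num),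
          ← ENNReal.ofReal_mul (p := 10 ^ 16 + 1000) (by norm_num),
          ← ENNReal.ofReal_mul (p := 1 / (1 - 4 / 5)) (by norm_num),
          ← ENNReal.ofReal_mul (p := 2 * 10 ^ 9) (by norm_num),
          ← ENNReal.ofReal_mul (p := 78) (by norm_num),
          ← ENNReal.ofReal_mul (p := 239616) (by norm_num),
          ← ENNReal.ofReal_add (by norm_num) (by norm_num),
          ← ENNReal.ofReal_add (by norm_num) (by norm_num),
          ← ENNReal.ofReal_add (by norm_num) (by norm_num)]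
    _ ≤ _ := by
        apply ENNReal.ofReal_le_ofReal
        norm_num

lemma βs_bound : βs ≤ 92 / 25 := by
  have h1 : βs ^ 8 = 2 ^ 15 := by
    unfold βs s8
    rw [← Real.rpow_natCast, ← Real.rpow_mul (by norm_num)]
    have e : (-(15 / 8) : ℝ) * ((8 : ℕ) : ℝ) = ((-15 : ℤ) : ℝ) := by norm_num
    rw [e, Real.rpow_intCast]
    norm_num
  rw [← pow_le_pow_iff_left₀ βs_pos.le (by norm_num) (by norm_num : 8 ≠ 0), h1]
  norm_num

lemma K15_le : K15 ≤ ENNReal.ofReal 185 := by
  have h0 := βs_pos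
  have hb := βs_bound
  have e : ∀ k : ℕ, ENNReal.ofReal (βs ^ (k + 1) * (4 * ((1 / 2) ^ k) ^ 2)) =
      ENNReal.ofReal (4 * βs) * ENNReal.ofReal ((βs / 4) ^ k) := by
    intro k
    rw [← ENNReal.ofReal_mul (by positivity)]
    congr 1
    have h4 : (((1:ℝ) / 2) ^ k) ^ 2 = (1 / 4) ^ k := by
      rw [← pow_mul, mul_comm k 2, pow_mul]; norm_num
    rw [h4, pow_succ, div_eq_mul_one_div βs 4, mul_pow]
    ring
  unfold K15
  simp_rw [e]
  rw [ENNReal.tsum_mul_left]
  have h1 := geo_le (r := βs / 4) (by positivity) (q := 23 / 25) (by linarith) (by norm_num)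
  calc _ ≤ ENNReal.ofReal 1 + ENNReal.ofReal (4 * (92 / 25)) * ENNReal.ofReal (1 / (1 - 23 / 25)) := by
        rw [ENNReal.ofReal_one]
        gcongr
    _ = ENNReal.ofReal (1 + 4 * (92 / 25) * (1 / (1 - 23 / 25))) := by
        rw [← ENNReal.ofReal_mul (by norm_num), ← ENNReal.ofReal_add (by norm_num) (by norm_num)]
    _ ≤ _ := by
        apply ENNReal.ofReal_le_ofReal
        norm_num

lemma fourth : ∫⁻ x, ENNReal.ofReal (x ^ 4) ∂gaussianReal 0 1 ≤ ENNReal.ofReal 80 := by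
  have i1 : Integrable (fun x : ℝ => rexp (1 * x)) (gaussianReal 0 1) :=
    integrable_exp_mul_gaussianReal 1
  have i2 : Integrable (fun x : ℝ => rexp (-1 * x)) (gaussianReal 0 1) :=
    integrable_exp_mul_gaussianReal (-1)
  have m1 : ∫ x, rexp (1 * x) ∂gaussianReal 0 1 = rexp (1 / 2) := by
    have := congrFun (mgf_id_gaussianReal (μ := 0) (v := 1)) 1
    simpa [mgf] using this
  have m2 : ∫ x, rexp (-1 * x) ∂gaussianReal 0 1 = rexp (1 / 2) := by
    have := congrFun (mgf_id_gaussianReal (μ := 0) (v := 1)) (-1)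
    simpa [mgf] using this
  have h1 : ∀ x : ℝ, x ^ 4 ≤ 24 * rexp (1 * x) + 24 * rexp (-1 * x) := by
    intro x
    rcases le_total 0 x with h | h
    · have h2 := Real.pow_div_factorial_le_exp x h 4
      have h3 := Real.exp_pos (-1 * x)
      rw [show ((Nat.factorial 4 : ℕ) : ℝ) = 24 by norm_num [Nat.factorial]] at h2
      rw [one_mul]
      linarith
    · have h2 := Real.pow_div_factorial_le_exp (-x) (neg_nonneg.2 h) 4
      have h3 := Real.exp_pos (1 * x)
      rw [show ((Nat.factorial 4 : ℕ) : ℝ) = 24 by norm_num [Nat.factorial]] at h2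
      have e : (-x) ^ 4 = x ^ 4 := by ring
      rw [e] at h2
      rw [neg_one_mul]
      linarith
  have i3 : Integrable (fun x : ℝ => 24 * rexp (1 * x) + 24 * rexp (-1 * x)) (gaussianReal 0 1) :=
    (i1.const_mul 24).add (i2.const_mul 24)
  calc _ ≤ ∫⁻ x, ENNReal.ofReal (24 * rexp (1 * x) + 24 * rexp (-1 * x)) ∂gaussianReal 0 1 :=
        lintegral_mono fun x => ENNReal.ofReal_le_ofReal (h1 x)
    _ = ENNReal.ofReal (24 * rexp (1 / 2) + 24 * rexp (1 / 2)) := by
        rw [← ofReal_integral_eq_lintegral_ofReal i3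
          (Eventually.of_forall fun x => by positivity), integral_add (i1.const_mul 24)
          (i2.const_mul 24), integral_const_mul, integral_const_mul, m1, m2]
    _ ≤ _ := by
        apply ENNReal.ofReal_le_ofReal
        have h2 : rexp (1 / 2) ≤ 5 / 3 := by
          have h3 : rexp (1 / 2) ^ 2 = rexp 1 := by rw [← Real.exp_nat_mul]; norm_num
          have h4 := Real.exp_one_lt_d9
          have h5 : rexp (1 / 2) ^ 2 ≤ (5 / 3) ^ 2 := by rw [h3]; norm_num; linarith
          exact (pow_le_pow_iff_left₀ (Real.exp_pos _).le (by norm_num) (by norm_num : 2 ≠ 0)).1 h5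
        linarith

lemma M4_le : M4 ≤ ENNReal.ofReal 160 := by
  have hm : Measurable fun x : ℝ => ENNReal.ofReal (x ^ 4) := by fun_prop
  have h1 : ∀ v : ℝ × ℝ, ENNReal.ofReal (‖v‖ ^ 4) ≤ ENNReal.ofReal (v.1 ^ 4) +
      ENNReal.ofReal (v.2 ^ 4) := by
    intro v
    rw [← ENNReal.ofReal_add (by positivity) (by positivity)]
    apply ENNReal.ofReal_le_ofReal
    have a1 : ‖v.1‖ ^ 4 = v.1 ^ 4 := by
      rw [Real.norm_eq_abs]
      exact Even.pow_abs (by decide) _
    have a2 : ‖v.2‖ ^ 4 = v.2 ^ 4 := by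
      rw [Real.norm_eq_abs]
      exact Even.pow_abs (by decide) _
    have a3 : 0 ≤ v.1 ^ 4 := by positivity
    have a4 : 0 ≤ v.2 ^ 4 := by positivity
    rw [Prod.norm_def]
    rcases le_total ‖v.1‖ ‖v.2‖ with h | h
    · rw [max_eq_right h, a2]; linarith
    · rw [max_eq_left h, a1]; linarith
  have e1 : ∫⁻ v : ℝ × ℝ, ENNReal.ofReal (v.1 ^ 4) ∂g2 ≤ ENNReal.ofReal 80 :=
    (le_of_eq ((measurePreserving_fst (μ := gaussianReal 0 1)
      (ν := gaussianReal 0 1)).lintegral_comp hm)).trans fourth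
  have e2 : ∫⁻ v : ℝ × ℝ, ENNReal.ofReal (v.2 ^ 4) ∂g2 ≤ ENNReal.ofReal 80 :=
    (le_of_eq ((measurePreserving_snd (μ := gaussianReal 0 1)
      (ν := gaussianReal 0 1)).lintegral_comp hm)).trans fourth
  unfold M4
  refine (lintegral_mono h1).trans ?_
  rw [lintegral_add_left (by fun_prop)]
  refine (add_le_add e1 e2).trans (le_of_eq ?_)
  rw [← ENNReal.ofReal_add (by norm_num) (by norm_num)]
  norm_num

lemma KA_le : KA ≤ ENNReal.ofReal (5 * 10 ^ 24) := by
  have h1 := M4_le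
  have h2 := K15_le
  unfold KA KE K4
  calc _ ≤ ENNReal.ofReal (2 ^ 35) * ((ENNReal.ofReal 1 + ENNReal.ofReal (256 ^ 4) *
        ENNReal.ofReal 160) * (ENNReal.ofReal 1 + ENNReal.ofReal 185)) := by
        rw [ENNReal.ofReal_one]
        gcongr
    _ = ENNReal.ofReal (2 ^ 35 * ((1 + 256 ^ 4 * 160) * (1 + 185))) := by
        rw [← ENNReal.ofReal_mul (by norm_num), ← ENNReal.ofReal_add (by norm_num) (by norm_num),
          ← ENNReal.ofReal_add (by norm_num) (by norm_num), ← ENNReal.ofReal_mul (by norm_num),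
          ← ENNReal.ofReal_mul (by norm_num)]
    _ ≤ _ := by
        apply ENNReal.ofReal_le_ofReal
        norm_num

/-- **Smoothed analysis with noise of the Kostlan ensemble.** -/
theorem kostlan_smoothed (hn : 1 ≤ n) (c₀ : T n → ℝ × ℝ) {σ : ℝ} (hσ : 0 < σ) :
    ∫⁻ g, NP (sc n fun m => c₀ m + σ • g m) ∂GP (T n) ≤
      ENNReal.ofReal (10 ^ 51 * n * (1 + √(sn c₀) / σ) ^ 3) := by
  set b : T n → ℝ × ℝ := σ⁻¹ • c₀ with hb
  have hsn : nb b = √(sn c₀) / σ := by
    unfold nb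
    rw [hb, sn_smul, inv_pow, inv_mul_eq_div, Real.sqrt_div' _ (by positivity), Real.sqrt_sq hσ.le]
  have h1 : ∀ g : T n → ℝ × ℝ, NP (sc n fun m => c₀ m + σ • g m) =
      NP (sc n fun m => b m + g m) := by
    intro g
    have h2 : (sc n fun m => c₀ m + σ • g m) = σ • sc n fun m => b m + g m := by
      funext m
      unfold sc
      rw [Pi.smul_apply, smul_comm σ, smul_add σ, hb, Pi.smul_apply, smul_inv_smul₀ hσ.ne']
    rw [h2, NP_smul hσ]
  simp only [h1]
  have hm : Measurable fun c : T n → ℝ × ℝ => NP (sc n c) :=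
    measurable_NP.comp (continuous_sc n).measurable
  rw [← lintegral_gb b hm]
  refine (centred hn b).trans ?_
  rw [hsn]
  set z : ℝ := 1 + √(sn c₀) / σ with hz
  have hz0 : 0 ≤ z := by positivity
  have h3 := mul_le_mul' CT1_le KA_le
  calc CT1 * KA * ENNReal.ofReal (64 * n * z ^ 3) ≤
        ENNReal.ofReal (2 * 10 ^ 24) * ENNReal.ofReal (5 * 10 ^ 24) *
        ENNReal.ofReal (64 * n * z ^ 3) := by gcongr
    _ = ENNReal.ofReal (2 * 10 ^ 24 * (5 * 10 ^ 24) * (64 * n * z ^ 3)) := by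
        rw [← ENNReal.ofReal_mul (by norm_num), ← ENNReal.ofReal_mul (by norm_num)]
    _ ≤ _ := by
        apply ENNReal.ofReal_le_ofReal
        have : 0 ≤ (n:ℝ) * z ^ 3 := by positivity
        nlinarith

end

end Pool.Agent.W960.HS
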