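import Pool.Agent.W960.HS.Master
import Pool.Agent.H709U.M0

/-! The master inequality for classes described by two weighted lengths, for a field on the plane
and weights near a compact set. -/

open Real Set MeasureTheory Topology Filter
open scoped ENNReal

namespace Pool.Agent.W960.HS

noncomputable section

open Pool.Agent.H709R2 hiding sq
open Pool.Agent.H709U (Orb rf)

lemma inj_of_minPer {X : ℝ × ℝ → ℝ × ℝ} {φ : ℝ → ℝ × ℝ → ℝ → ℝ × ℝ} (hφ : RotFlow X φ)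
    {α : ℝ} {p : ℝ × ℝ} {T : ℝ} (h : MinPer X φ α p T) (s t : ℝ) (hst : φ s p α = φ t p α) :
    ∃ k : ℤ, s = t + k * T := by
  have h1 : φ (s - t) p α = p := by
    have := congrArg (fun q => φ (-t) q α) hst
    simp only [← hφ.add, neg_add_cancel, hφ.zero] at this
    rw [← this]
    congr 1
    ring
  have hpos := h.pos
  set k : ℤ := ⌊(s - t) / T⌋ with hk
  have hr0 : 0 ≤ (s - t) - k * T := by
    have := Int.floor_le ((s - t) / T)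
    rw [← hk, le_div_iff₀ hpos] at this
    linarith
  have hr1 : (s - t) - k * T < T := by
    have := Int.lt_floor_add_one ((s - t) / T)
    rw [← hk, div_lt_iff₀ hpos] at this
    linarith
  have hper : Function.Periodic (fun t => φ t p α) T := fun t => hφ.periodic h.per t
  have h2 : φ ((s - t) - k * T) p α = p :=
    (hper.sub_int_mul_eq (x := s - t) k).trans h1
  refine ⟨k, ?_⟩
  rcases hr0.lt_or_eq with h3 | h3
  · exact absurd h2 (h.min _ ⟨h3, hr1⟩)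
  · linarith

lemma rot_ne {α : ℝ} {v : ℝ × ℝ} (h : v ≠ 0) : rot α v ≠ 0 := by
  intro h0
  have h1 := H709R2.sq_pos h
  rw [← sq_rot α v, h0] at h1
  unfold H709R2.sq at h1
  simp at h1

lemma orb_of_minPer {X X' : ℝ × ℝ → ℝ × ℝ} {φ : ℝ → ℝ × ℝ → ℝ → ℝ × ℝ} (hφ : RotFlow X' φ)
    {α : ℝ} {p : ℝ × ℝ} {T : ℝ} (h : MinPer X' φ α p T) (he : ∀ t, X' (φ t p α) = X (φ t p α)) :
    Orb (rf X α) (fun t => φ t p α) T := by
  refine ⟨h.pos, fun t => ?_, fun t => hφ.periodic h.per t, inj_of_minPer hφ h, fun t => ?_⟩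
  · have := hφ.deriv p α t
    rw [he t] at this
    exact this
  · exact rot_ne (by rw [← he t]; exact hφ.ne_zero h.ne t)

/-- the master inequality, local version -/
theorem mb2 {X : ℝ × ℝ → ℝ × ℝ} (hX : ContDiff ℝ 2 X) {p₀ : ℝ × ℝ} {s : ℝ} (hs : 0 < s)
    {w₁ w₂ w : ℝ × ℝ → ℝ}
    (hw₁ : ∀ z, ‖z - p₀‖ ≤ 2 * s → X z ≠ 0 → ContDiffAt ℝ 1 w₁ z)
    (hw₂ : ∀ z, ‖z - p₀‖ ≤ 2 * s → X z ≠ 0 → ContDiffAt ℝ 1 w₂ z)
    (hw : ∀ z, ‖z - p₀‖ ≤ 2 * s → X z ≠ 0 → ContDiffAt ℝ 1 w z)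
    {Ω : Set (ℝ × ℝ)} (hΩ : IsCompact Ω) (hΩs : ∀ z ∈ Ω, ‖z - p₀‖ ≤ s)
    {M M' : Set ℝ} (hM : MeasurableSet M) (hM' : MeasurableSet M')
    {h : ℝ × ℝ → ℝ≥0∞} (hh : Measurable h) {l : ℝ} (hl : 0 < l)
    (hbd : ∀ α ∈ Ioo 0 π, ∀ γ T, Orb (rf X α) γ T → (∀ t, γ t ∈ Ω) →
      (∫ t in (0:ℝ)..T, w₁ (γ t) * H709R2.sq (X (γ t))) ∈ M →
      (∫ t in (0:ℝ)..T, w₂ (γ t) * H709R2.sq (X (γ t))) ∈ M' →
      l ≤ ∫ t in (0:ℝ)..T, w (γ t) * H709R2.sq (X (γ t)) ∧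
      ENNReal.ofReal |divW w X α (γ 0)| ≤ h (γ 0)) :
    ∃ g : ℝ → ℝ≥0∞, Measurable g ∧
      (∀ α ∈ Ioo 0 π, ({C | ∃ γ T, Orb (rf X α) γ T ∧ C = range γ ∧ C ⊆ Ω ∧
        (∫ t in (0:ℝ)..T, w₁ (γ t) * H709R2.sq (X (γ t))) ∈ M ∧
        (∫ t in (0:ℝ)..T, w₂ (γ t) * H709R2.sq (X (γ t))) ∈ M'}.encard : ℝ≥0∞) ≤ g α) ∧
      ∫⁻ α, g α ≤ ENNReal.ofReal (1 / l) * ∫⁻ z in Ω, h z := by
  set r := ‖p₀‖ + s with hr
  have hr0 : 0 ≤ r := by positivity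
  have hΩn : ∀ z ∈ Ω, ‖z‖ ≤ r := by
    intro z hz
    have := norm_add_le (z - p₀) p₀
    rw [sub_add_cancel] at this
    linarith [hΩs z hz]
  obtain ⟨X', hX', ⟨K, hK⟩, ⟨M₀, hM₀⟩, hXX⟩ := exists_cutoff hX (r + s)
  obtain ⟨φ, hφ⟩ := exists_rotFlow hX' hK hM₀
  let c : ContDiffBump p₀ := ⟨5 / 4 * s, 7 / 4 * s, by positivity, by linarith⟩
  set W : (ℝ × ℝ → ℝ) → ℝ × ℝ → ℝ := fun w z => c z * w z with hW
  have hXΩ : ∀ z ∈ Ω, X' =ᶠ[𝓝 z] X := fun z hz => hXX z (by linarith [hΩn z hz])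
  have hwΩ : ∀ w : ℝ × ℝ → ℝ, ∀ z ∈ Ω, W w =ᶠ[𝓝 z] w := by
    intro w z hz
    have h1 : Metric.ball p₀ (5 / 4 * s) ∈ 𝓝 z := by
      refine Metric.isOpen_ball.mem_nhds ?_
      rw [mem_ball_iff_norm]
      linarith [hΩs z hz]
    filter_upwards [h1] with x hx
    simp only [hW]
    rw [c.one_of_mem_closedBall (Metric.ball_subset_closedBall hx), one_mul]
  have hdiv : ∀ z ∈ Ω, ∀ α, divW (W w) X' α z = divW w X α z := by
    intro z hz α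
    unfold divW divRot
    rw [(hXΩ z hz).fderiv_eq, (hwΩ w z hz).fderiv_eq, (hXΩ z hz).eq_of_nhds,
      (hwΩ w z hz).eq_of_nhds]
  have hw' : ∀ w : ℝ × ℝ → ℝ, (∀ z, ‖z - p₀‖ ≤ 2 * s → X z ≠ 0 → ContDiffAt ℝ 1 w z) →
      ∀ z, X' z ≠ 0 → ContDiffAt ℝ 1 (W w) z := by
    intro w hw z hz
    rcases le_or_gt ‖z - p₀‖ (7 / 4 * s) with hn | hn
    · have h0 : ‖z‖ ≤ r + s := by
        have := norm_add_le (z - p₀) p₀
        rw [sub_add_cancel] at this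
        linarith
      have h1 := hXX z h0
      rw [h1.eq_of_nhds] at hz
      have h2 : ContDiffAt ℝ 1 (fun z => c z) z := c.contDiffAt
      exact h2.mul (hw z (by linarith) hz)
    · have h1 : (Metric.closedBall p₀ (7 / 4 * s))ᶜ ∈ 𝓝 z := by
        refine Metric.isClosed_closedBall.isOpen_compl.mem_nhds ?_
        rw [mem_compl_iff, mem_closedBall_iff_norm]
        exact not_le.2 hn
      have h2 : W w =ᶠ[𝓝 z] fun _ => 0 := by
        filter_upwards [h1] with x hx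
        simp only [hW]
        rw [c.zero_of_le_dist, zero_mul]
        rw [mem_compl_iff, mem_closedBall_iff_norm, not_le] at hx
        rw [dist_eq_norm]
        exact hx.le
      exact contDiffAt_const.congr_of_eventuallyEq h2
  have hint : ∀ (w : ℝ × ℝ → ℝ) (γ : ℝ → ℝ × ℝ) (T : ℝ), (∀ t, γ t ∈ Ω) →
      ∫ t in (0:ℝ)..T, W w (γ t) * H709R2.sq (X' (γ t)) = ∫ t in (0:ℝ)..T, w (γ t) * H709R2.sq (X (γ t)) := by
    intro w γ T hγ
    congr 1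
    ext1 t
    rw [(hwΩ w _ (hγ t)).eq_of_nhds, (hXΩ _ (hγ t)).eq_of_nhds]
  obtain ⟨g, hg1, hg2, hg3⟩ := master2 (w₁ := W w₁) (w₂ := W w₂) (w := W w) (M := M) (M' := M')
    (ℓ := l) (Ω := Ω) hφ hX' (hw' _ hw₁) (hw' _ hw₂) (hw' _ hw) hΩ.isClosed hM hM' hh hl (by
      intro α hα p T hmp hpΩ hl1 hl2
      have hp : p ∈ Ω := by
        have := hpΩ 0
        rwa [hφ.zero] at this
      have ho : Orb (rf X α) (fun t => φ t p α) T :=
        orb_of_minPer hφ hmp fun t => (hXΩ _ (hpΩ t)).eq_of_nhds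
      unfold wlen at hl1 hl2 ⊢
      rw [hint w₁ _ _ hpΩ] at hl1
      rw [hint w₂ _ _ hpΩ] at hl2
      rw [hint w _ _ hpΩ, hdiv p hp α]
      have := hbd α hα _ T ho hpΩ hl1 hl2
      simpa only [hφ.zero] using this)
  refine ⟨g, hg1, ?_, hg3⟩
  intro α hα
  refine le_trans ?_ (hg2 α hα)
  refine ENat.toENNReal_le.2 (Set.encard_le_encard ?_)
  rintro C ⟨γ, T, ho, rfl, hCΩ, hlen, hlen'⟩
  have hγΩ : ∀ t, γ t ∈ Ω := fun t => hCΩ ⟨t, rfl⟩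
  have hXγ : ∀ t, X' (γ t) = X (γ t) := fun t => (hXΩ _ (hγΩ t)).eq_of_nhds
  have hγ' : ∀ t, HasDerivAt γ (rot α (X' (γ t))) t := by
    intro t
    rw [hXγ t]
    exact ho.ode t
  have hu : ∀ t, γ t = φ t (γ 0) α := hφ.uniq α γ hγ'
  have hu' : (fun t => φ t (γ 0) α) = γ := funext fun t => (hu t).symm
  have hi : ∀ w : ℝ × ℝ → ℝ, wlen X' φ (W w) α (γ 0) T =
      ∫ t in (0:ℝ)..T, w (γ t) * H709R2.sq (X (γ t)) := by
    intro w
    rw [← hint w γ T hγΩ]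
    unfold wlen
    congr 1
    ext1 t
    rw [← hu t]
  refine ⟨γ 0, T, ⟨ho.pos, ?_, ?_, ?_⟩, ?_, hCΩ, ?_, ?_⟩
  · rw [← hu, ← ho.per 0, zero_add]
  · intro t ht hc
    rw [← hu] at hc
    obtain ⟨k, hk⟩ := ho.inj t 0 hc
    rw [zero_add] at hk
    have h1 : (0 : ℝ) < k := by
      by_contra hcon
      have := mul_nonpos_of_nonpos_of_nonneg (not_lt.1 hcon) ho.pos.le
      linarith [ht.1]
    have h2 : (k : ℝ) < 1 := by
      by_contra hcon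
      have := mul_le_mul_of_nonneg_right (not_lt.1 hcon) ho.pos.le
      linarith [ht.2]
    have h3 : (0 : ℤ) < k := by exact_mod_cast h1
    have h4 : k < (1 : ℤ) := by exact_mod_cast h2
    omega
  · rw [hXγ]
    intro hc
    apply ho.ne 0
    unfold rf
    rw [hc]
    unfold rot
    ext <;> simp
  · rw [hu']
  · rw [hi]; exact hlen
  · rw [hi]; exact hlen'

end

end Pool.Agent.W960.HS
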