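import Pool.Agent.W960.HS.Flux
import Pool.Agent.W960.HS.MB2
import Pool.Agent.H709U.TopR

/-! Elementary facts about closed orbits, and majorants with values in `[0, ∞]`. -/

open Real Set MeasureTheory Topology Filter
open scoped ENNReal

namespace Pool.Agent.W960.HS

noncomputable section

open Pool.Agent.H709R2 (wedge rot divRot divW winv ClosedOrbit continuous_rot)
open Pool.Agent.H709U (Orb rf InBox t3')

/-- `N` has a measurable majorant on `(0, π)` with integral at most `K` -/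
def ME (N : ℝ → ℝ≥0∞) (K : ℝ≥0∞) : Prop :=
  ∃ g : ℝ → ℝ≥0∞, Measurable g ∧ (∀ α ∈ Ioo 0 π, N α ≤ g α) ∧ ∫⁻ α in Ioo 0 π, g α ≤ K

lemma ME.mono {N N' : ℝ → ℝ≥0∞} {K K' : ℝ≥0∞} (h : ME N K) (h1 : ∀ α ∈ Ioo 0 π, N' α ≤ N α)
    (h2 : K ≤ K') : ME N' K' := by
  obtain ⟨g, hg1, hg2, hg3⟩ := h
  exact ⟨g, hg1, fun α hα => (h1 α hα).trans (hg2 α hα), hg3.trans h2⟩

lemma ME.add {N N' : ℝ → ℝ≥0∞} {K K' : ℝ≥0∞} (h : ME N K) (h' : ME N' K') :
    ME (fun α => N α + N' α) (K + K') := by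
  obtain ⟨g, hg1, hg2, hg3⟩ := h
  obtain ⟨g', hg1', hg2', hg3'⟩ := h'
  refine ⟨fun α => g α + g' α, hg1.add hg1', fun α hα => add_le_add (hg2 α hα) (hg2' α hα), ?_⟩
  rw [lintegral_add_left hg1]
  exact add_le_add hg3 hg3'

lemma ME.tsum {ι : Type*} [Countable ι] {N : ι → ℝ → ℝ≥0∞} {K : ι → ℝ≥0∞}
    (h : ∀ i, ME (N i) (K i)) : ME (fun α => ∑' i, N i α) (∑' i, K i) := by
  choose g hg1 hg2 hg3 using h
  refine ⟨fun α => ∑' i, g i α, Measurable.tsum hg1,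
    fun α hα => ENNReal.tsum_le_tsum fun i => hg2 i α hα, ?_⟩
  rw [lintegral_tsum fun i => (hg1 i).aemeasurable]
  exact ENNReal.tsum_le_tsum fun i => hg3 i

lemma ME.sum {ι : Type*} (s : Finset ι) {N : ι → ℝ → ℝ≥0∞} {K : ι → ℝ≥0∞}
    (h : ∀ i ∈ s, ME (N i) (K i)) : ME (fun α => ∑ i ∈ s, N i α) (∑ i ∈ s, K i) := by
  classical
  induction s using Finset.induction_on with
  | empty => exact ⟨fun _ => 0, measurable_const, fun α _ => by simp, by simp⟩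
  | insert a s ha ih =>
    have h1 := (h a (Finset.mem_insert_self a s)).add
      (ih fun i hi => h i (Finset.mem_insert_of_mem hi))
    refine h1.mono (fun α _ => ?_) ?_
    · rw [Finset.sum_insert ha]
    · rw [Finset.sum_insert ha]

lemma ME.lintegral_le {N : ℝ → ℝ≥0∞} {K : ℝ≥0∞} (h : ME N K) : ∫⁻ α in Ioo 0 π, N α ≤ K := by
  obtain ⟨g, hg1, hg2, hg3⟩ := h
  exact (setLIntegral_mono' measurableSet_Ioo hg2).trans hg3

lemma enc_union {β : Type*} (s t : Set β) :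
    ((s ∪ t).encard : ℝ≥0∞) ≤ (s.encard : ℝ≥0∞) + (t.encard : ℝ≥0∞) := by
  have h1 : ((s ∪ t).encard : ℝ≥0∞) ≤ ((s.encard + t.encard : ℕ∞) : ℝ≥0∞) :=
    ENat.toENNReal_le.2 (encard_union_le _ _)
  rwa [ENat.toENNReal_add] at h1

lemma enc_mono {β : Type*} {s t : Set β} (h : s ⊆ t) : ((s.encard : ℕ∞) : ℝ≥0∞) ≤ (t.encard : ℝ≥0∞) :=
  ENat.toENNReal_le.2 (encard_le_encard h)

lemma enc_iUnion {β ι : Type*} [Countable ι] (A : ι → Set β) :
    (((⋃ i, A i).encard : ℕ∞) : ℝ≥0∞) ≤ ∑' i, ((A i).encard : ℝ≥0∞) := by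
  classical
  refine H709R2.encard_le_of_finset fun F hF => ?_
  have hch : ∀ x ∈ F, ∃ i, x ∈ A i := fun x hx => mem_iUnion.1 (hF hx)
  rcases isEmpty_or_nonempty ι with hι | hι
  · have : F = ∅ := by
      by_contra hne
      obtain ⟨x, hx⟩ := Finset.nonempty_iff_ne_empty.2 hne
      obtain ⟨i, -⟩ := hch x hx
      exact hι.elim i
    rw [this]
    simp
  choose! i hi using hch
  calc (F.card : ℝ≥0∞) = ((∑ k ∈ F.image i, (F.filter fun x => i x = k).card : ℕ) : ℝ≥0∞) := by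
        congr 1
        exact Finset.card_eq_sum_card_image i F
    _ = ∑ k ∈ F.image i, ((F.filter fun x => i x = k).card : ℝ≥0∞) := by push_cast; rfl
    _ ≤ ∑ k ∈ F.image i, ((A k).encard : ℝ≥0∞) := by
        refine Finset.sum_le_sum fun k _ => ?_
        have h1 : ((F.filter fun x => i x = k : Finset β) : Set β) ⊆ A k := by
          intro x hx
          simp only [Finset.coe_filter, mem_ofPred_eq] at hx
          rw [← hx.2]
          exact hi x hx.1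
        have h2 := enc_mono h1
        rw [Set.encard_coe_eq_coe_finsetCard] at h2
        simpa using h2
    _ ≤ ∑' k, ((A k).encard : ℝ≥0∞) := ENNReal.sum_le_tsum _

lemma rf_eu (X : ℝ × ℝ → ℝ × ℝ) (α : ℝ) (z : ℝ × ℝ) : eu (rf X α z) = eu (X z) := by
  unfold eu rf
  rw [H709R2.sq_rot]

lemma orb_closed {Y : ℝ × ℝ → ℝ × ℝ} {γ : ℝ → ℝ × ℝ} {T : ℝ} (h : Orb Y γ T) :
    ClosedOrbit Y (range γ) := by
  refine ⟨γ, T, h.pos, h.ode, h.per, ?_, rfl⟩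
  by_contra hcon
  push Not at hcon
  have h1 : γ = fun _ => γ 0 := funext fun t => hcon t 0
  have h2 := h.ode 0
  rw [h1] at h2
  exact h.ne 0 (h2.unique (hasDerivAt_const _ _))

lemma orb_cont {Y : ℝ × ℝ → ℝ × ℝ} {γ : ℝ → ℝ × ℝ} {T : ℝ} (h : Orb Y γ T) : Continuous γ :=
  continuous_iff_continuousAt.2 fun t => (h.ode t).continuousAt

lemma norm_le_eu (v : ℝ × ℝ) : ‖v‖ ≤ eu v := by
  unfold eu
  refine Real.le_sqrt_of_sq_le ?_
  rw [Prod.norm_def]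
  unfold H709R2.sq
  rcases le_total ‖v.1‖ ‖v.2‖ with h | h
  · rw [max_eq_right h, Real.norm_eq_abs, sq_abs]
    nlinarith [sq_nonneg v.1]
  · rw [max_eq_left h, Real.norm_eq_abs, sq_abs]
    nlinarith [sq_nonneg v.2]

lemma eu_le_norm (v : ℝ × ℝ) : eu v ≤ 3 / 2 * ‖v‖ := by
  unfold eu
  rw [Real.sqrt_le_iff]
  refine ⟨by positivity, ?_⟩
  have h1 : |v.1| ≤ ‖v‖ := norm_fst_le v
  have h2 : |v.2| ≤ ‖v‖ := norm_snd_le v
  have h3 := pow_le_pow_left₀ (abs_nonneg _) h1 2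
  have h4 := pow_le_pow_left₀ (abs_nonneg _) h2 2
  rw [sq_abs] at h3 h4
  unfold H709R2.sq
  nlinarith [sq_nonneg ‖v‖]

/-- the length of a closed orbit bounds its diameter -/
lemma orb_diam {Y : ℝ × ℝ → ℝ × ℝ} (hY : Continuous Y) {γ : ℝ → ℝ × ℝ} {T : ℝ} (h : Orb Y γ T)
    (s t : ℝ) : eu (γ t - γ s) ≤ ∫ u in (0:ℝ)..T, eu (Y (γ u)) := by
  have hc : Continuous fun u => Y (γ u) := hY.comp (orb_cont h)
  have hp : Function.Periodic γ T := h.per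
  obtain ⟨t', ht', ht'2⟩ := hp.exists_mem_Ico h.pos t s
  rw [ht'2]
  have h1 : eu (γ t' - γ s) ≤ ∫ u in s..t', eu (Y (γ u)) := H709R2.dist_le_len h.ode hc ht'.1
  have hce : Continuous fun u => eu (Y (γ u)) := continuous_eu.comp hc
  have h2 : ∫ u in s..t', eu (Y (γ u)) ≤ ∫ u in s..(s + T), eu (Y (γ u)) := by
    rw [← intervalIntegral.integral_add_adjacent_intervals (hce.intervalIntegrable s t')
      (hce.intervalIntegrable t' (s + T))]
    have : 0 ≤ ∫ u in t'..(s + T), eu (Y (γ u)) :=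
      intervalIntegral.integral_nonneg ht'.2.le fun _ _ => eu_nonneg _
    linarith
  have hp2 : Function.Periodic (fun u => eu (Y (γ u))) T := fun u => by simp only [h.per]
  have h3 := hp2.intervalIntegral_add_eq 0 s
  rw [zero_add] at h3
  rw [h3]
  exact h1.trans h2

lemma winv_len {X : ℝ × ℝ → ℝ × ℝ} {α : ℝ} {γ : ℝ → ℝ × ℝ} {T : ℝ} :
    ∫ t in (0:ℝ)..T, winv X (γ t) * H709R2.sq (X (γ t)) = ∫ t in (0:ℝ)..T, eu (rf X α (γ t)) := by
  congr 1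
  ext1 t
  rw [rf_eu]
  unfold winv eu
  rw [inv_mul_eq_div, Real.div_sqrt]

/-- a zero of the field near a closed orbit -/
lemma orb_zero {X : ℝ × ℝ → ℝ × ℝ} (hX : ContDiff ℝ 2 X) {α : ℝ} {γ : ℝ → ℝ × ℝ} {T : ℝ}
    (h : Orb (rf X α) γ T) {Λ : ℝ}
    (hΛ : ∫ t in (0:ℝ)..T, winv X (γ t) * H709R2.sq (X (γ t)) ≤ Λ) :
    ∃ z₀, X z₀ = 0 ∧ (∀ t, ‖z₀ - γ t‖ ≤ Λ) ∧
      ∀ p r, (∀ t, ‖γ t - p‖ ≤ r) → ‖z₀ - p‖ ≤ r := by
  obtain ⟨z₀, hz₀, ⟨x, ⟨s1, rfl⟩, y, ⟨s2, rfl⟩, hx, hy⟩, ⟨x', ⟨s3, rfl⟩, y', ⟨s4, rfl⟩, hx', hy'⟩⟩ :=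
    t3' X hX α _ (orb_closed h)
  have key : ∀ p r, (∀ t, ‖γ t - p‖ ≤ r) → ‖z₀ - p‖ ≤ r := by
    intro p r hr
    have a1 := (norm_fst_le (γ s1 - p)).trans (hr s1)
    have a2 := (norm_fst_le (γ s2 - p)).trans (hr s2)
    have a3 := (norm_snd_le (γ s3 - p)).trans (hr s3)
    have a4 := (norm_snd_le (γ s4 - p)).trans (hr s4)
    rw [Real.norm_eq_abs, abs_le] at a1 a2 a3 a4
    simp only [Prod.fst_sub, Prod.snd_sub] at a1 a2 a3 a4
    rw [Prod.norm_def, max_le_iff, Real.norm_eq_abs, Real.norm_eq_abs, abs_le, abs_le]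
    simp only [Prod.fst_sub, Prod.snd_sub]
    refine ⟨⟨by linarith, by linarith⟩, ⟨by linarith, by linarith⟩⟩
  refine ⟨z₀, hz₀, fun t => ?_, key⟩
  apply key
  intro s
  have hc : Continuous (rf X α) := (continuous_rot α).comp hX.continuous
  refine (norm_le_eu _).trans ((orb_diam hc h t s).trans ?_)
  rw [← winv_len]
  exact hΛ

end

end Pool.Agent.W960.HS
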