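import Pool.Agent.W960.HS.GE2
import Pool.Agent.W960.HS.Orbit

/-! Small closed orbits in a cell: deterministic bounds. -/

open Real Set MeasureTheory Topology Filter
open scoped ENNReal

namespace Pool.Agent.W960.HS

noncomputable section

open Pool.Agent.W960.HR (T mem_T GP abs_fst_le abs_snd_le)
open Pool.Agent.H709R2 (wedge rot divRot divW winv ClosedOrbit continuous_rot fld contDiff_fld
  contDiffAt_winv)
open Pool.Agent.H709U (Orb rf)

namespace Fr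

variable (F : Fr) {n : ℕ} {z : ℝ × ℝ}

/-- the normalising weight -/
def B (n : ℕ) (z : ℝ × ℝ) : ℝ := (F.σ / F.D z) ^ n

lemma B_pos (hD : 0 < F.D z) : 0 < F.B n z := pow_pos (div_pos F.hσ hD) n

lemma continuous_D : Continuous F.D := by
  unfold D x
  fun_prop

lemma B_smul (hn : 1 ≤ n) (c : T n → ℝ × ℝ) (hD : 0 < F.D z) :
    F.B n z • fld (sc n c) z = F.yf n (F.g n c) z := by
  rw [chart F hn c hD, smul_smul]
  unfold B yf
  rw [← mul_pow]
  have h1 : F.σ / F.D z * (F.D z / F.σ) = 1 := by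
    have := F.hσ.ne'
    have := hD.ne'
    field_simp
  rw [h1, one_pow, one_smul]

lemma contDiffAt_B {m : WithTop ℕ∞} (hD : 0 < F.D z) : ContDiffAt ℝ m (F.B n) z := by
  have h1 : ContDiff ℝ m F.D := by
    unfold D x
    exact contDiff_const.add (contDiff_const.mul ((contDiff_const.mul contDiff_fst).add
      (contDiff_const.mul contDiff_snd)))
  unfold B
  exact ((contDiffAt_const.div h1.contDiffAt hD.ne').pow n)

lemma B_smul_ev (hn : 1 ≤ n) (c : T n → ℝ × ℝ) (hD : 0 < F.D z) :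
    (fun z => F.B n z • fld (sc n c) z) =ᶠ[𝓝 z] F.yf n (F.g n c) := by
  filter_upwards [(isOpen_lt continuous_const F.continuous_D).mem_nhds hD] with y hy
  exact F.B_smul hn c hy

lemma nr_of {s : ℝ} (hs : √n * s ≤ F.σ / 128) {k : ℝ} (hk : k ≤ 4) (hk0 : 0 ≤ k)
    (hs0 : 0 ≤ s) (h : ‖z - F.pt‖ ≤ k * s) : F.Nr n z := by
  unfold Nr
  have h1 : √n * ‖z - F.pt‖ ≤ √n * (k * s) := mul_le_mul_of_nonneg_left h (Real.sqrt_nonneg _)
  have h2 : √n * (k * s) ≤ 4 * (√n * s) := by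
    have : 0 ≤ √n * s := by positivity
    nlinarith
  linarith

end Fr

/-- small orbits with large circulation -/
def A1 (X : ℝ × ℝ → ℝ × ℝ) (B : ℝ × ℝ → ℝ) (Ω : Set (ℝ × ℝ)) (ℓ κ₀ : ℝ) (α : ℝ) :
    Set (Set (ℝ × ℝ)) :=
  {C | ∃ γ T, Orb (rf X α) γ T ∧ C = range γ ∧ C ⊆ Ω ∧
    (∫ t in (0:ℝ)..T, winv X (γ t) * H709R2.sq (X (γ t))) ∈ Ico ℓ (64 * ℓ) ∧
    (∫ t in (0:ℝ)..T, B (γ t) * H709R2.sq (X (γ t))) ∈ Ici κ₀}

/-- orbits with small circulation -/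
def A2 (X : ℝ × ℝ → ℝ × ℝ) (B : ℝ × ℝ → ℝ) (Ω : Set (ℝ × ℝ)) (ℓ κ₀ : ℝ) (α : ℝ) :
    Set (Set (ℝ × ℝ)) :=
  {C | ∃ γ T, Orb (rf X α) γ T ∧ C = range γ ∧ C ⊆ Ω ∧
    (∫ t in (0:ℝ)..T, winv X (γ t) * H709R2.sq (X (γ t))) ∈ Ici ℓ ∧
    (∫ t in (0:ℝ)..T, B (γ t) * H709R2.sq (X (γ t))) ∈ Iio κ₀}

lemma rot_lin (α : ℝ) (a b : ℝ × ℝ) (x y : ℝ) :
    rot α (x • a + y • b) = ((rot α a).1 * x + (rot α b).1 * y, (rot α a).2 * x + (rot α b).2 * y) := by
  unfold rot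
  ext <;> simp <;> ring

lemma rot_sub' (α : ℝ) (a b : ℝ × ℝ) : rot α (a - b) = rot α a - rot α b := by
  unfold rot
  ext <;> simp <;> ring

lemma eu_rot (α : ℝ) (a : ℝ × ℝ) : eu (rot α a) = eu a := by
  unfold eu
  rw [H709R2.sq_rot]

lemma abs_fst_eu (a : ℝ × ℝ) : |a.1| ≤ eu a := (norm_fst_le a).trans (norm_le_eu a)

lemma abs_snd_eu (a : ℝ × ℝ) : |a.2| ≤ eu a := (norm_snd_le a).trans (norm_le_eu a)

section

variable (F : Fr) {n : ℕ} (hn : 1 ≤ n) (c : T n → ℝ × ℝ) {s : ℝ} (hs0 : 0 < s)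
  (hs : √n * s ≤ F.σ / 128)

lemma dy_lin (g : T n → ℝ × ℝ) (z w : ℝ × ℝ) :
    F.dy n g z w = w.1 • F.dy n g z (1, 0) + w.2 • F.dy n g z (0, 1) := by
  have e : w = w.1 • ((1, 0) : ℝ × ℝ) + w.2 • ((0, 1) : ℝ × ℝ) := by ext <;> simp
  unfold Fr.dy
  conv_lhs => rw [e]
  simp only [map_add, map_smul, smul_eq_mul, add_smul, smul_add, mul_smul]
  abel

include hn hs0 hs in
/-- the divergence on an orbit with large circulation -/
lemma div_bound {α : ℝ} {γ : ℝ → ℝ × ℝ} {T' : ℝ} (ho : Orb (rf (fld (sc n c)) α) γ T')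
    (hΩ : ∀ t, ‖γ t - F.pt‖ ≤ 2 * s) {ℓ κ₀ : ℝ} (hκ₀ : 0 < κ₀)
    (h1 : (∫ t in (0:ℝ)..T', winv (fld (sc n c)) (γ t) * H709R2.sq (fld (sc n c) (γ t))) ≤ 64 * ℓ)
    (h2 : κ₀ ≤ ∫ t in (0:ℝ)..T', F.B n (γ t) * H709R2.sq (fld (sc n c) (γ t))) :
    |divW (F.B n) (fld (sc n c)) α (γ 0)| ≤
      10 ^ 9 * (F.κ n ^ 3 * as (F.g n c) ^ 2 * ℓ ^ 3 / κ₀) := by
  set X := fld (sc n c) with hX
  set g := F.g n c with hg
  have hκ := F.kappa_pos hn
  have ha := as_nonneg g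
  have hXc : ContDiff ℝ 2 X := contDiff_fld _
  have hnr : ∀ t, F.Nr n (γ t) := fun t => F.nr_of hs (by norm_num) (by norm_num) hs0.le (hΩ t)
  have hD : ∀ t, 0 < F.D (γ t) := fun t => F.D_pos hn (hnr t)
  have hrc : Continuous (rf X α) := (continuous_rot α).comp hXc.continuous
  have hγ := orb_cont ho
  have hdiam : ∀ t, ‖γ t - γ 0‖ ≤ 64 * ℓ := by
    intro t
    refine (norm_le_eu _).trans ((orb_diam hrc ho 0 t).trans ?_)
    rw [← winv_len]
    exact h1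
  have hℓ : 0 ≤ 64 * ℓ := (norm_nonneg _).trans (hdiam 0)
  -- divergence
  have e1 : divW (F.B n) X α (γ 0) = divRot (F.yf n g) α (γ 0) :=
    divW_eq α ((F.contDiffAt_B (m := 1) (hD 0)).differentiableAt (by norm_num))
      (hXc.differentiable (by norm_num) _) (F.B_smul_ev hn c (hD 0))
  rw [e1]
  unfold divRot
  rw [F.fderiv_yf g hn (hnr 0), F.fderiv_yf g hn (hnr 0)]
  set e₁ := F.dy n g (γ 0) (1, 0) with he₁
  set e₂ := F.dy n g (γ 0) (0, 1) with he₂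
  have n1 : eu e₁ ≤ 9 * F.κ n * as g := by
    refine (eu_le_norm _).trans ?_
    have := F.dy_le g hn (hnr 0) (w := (1, 0))
    have h3 : ‖((1, 0) : ℝ × ℝ)‖ = 1 := by simp
    rw [h3, mul_one] at this
    linarith
  have n2 : eu e₂ ≤ 9 * F.κ n * as g := by
    refine (eu_le_norm _).trans ?_
    have := F.dy_le g hn (hnr 0) (w := (0, 1))
    have h3 : ‖((0, 1) : ℝ × ℝ)‖ = 1 := by simp
    rw [h3, mul_one] at this
    linarith
  have hBX : ∀ t, F.B n (γ t) • X (γ t) = F.yf n g (γ t) := fun t => F.B_smul hn c (hD t)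
  have hvc : Continuous fun t => rot α (F.yf n g (γ t)) := by
    have h3a : Continuous fun t => F.B n (γ t) := by
      rw [continuous_iff_continuousAt]
      intro t
      exact (F.contDiffAt_B (m := 1) (n := n) (hD t)).continuousAt.comp hγ.continuousAt
    have h3 : Continuous fun t => F.B n (γ t) • X (γ t) := h3a.smul (hXc.continuous.comp hγ)
    refine (continuous_rot α).comp (h3.congr hBX)
  have hfl := flux (γ := γ) (γ' := fun t => rf X α (γ t)) (v := fun t => rot α (F.yf n g (γ t)))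
    (T := T') ho.pos ho.ode (hrc.comp hγ) hvc (by have := ho.per 0; rwa [zero_add] at this)
    (p := γ 0) (v₀ := rot α (F.yf n g (γ 0))) (a := (rot α e₁).1) (b := (rot α e₂).1)
    (c := (rot α e₁).2) (d := (rot α e₂).2) (ε := 66 * F.κ n ^ 2 * as g * (64 * ℓ) ^ 2)
    (Λ := 64 * ℓ) (κ := κ₀) (m := 18 * F.κ n * as g) ?_ ?_ ?_ ?_ hκ₀ (by positivity) ?_ ?_
  · refine hfl.trans ?_
    have e : 2 * (18 * F.κ n * as g) * (66 * F.κ n ^ 2 * as g * (64 * ℓ) ^ 2 * (64 * ℓ)) / κ₀ =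
        622854144 * (F.κ n ^ 3 * as g ^ 2 * ℓ ^ 3 / κ₀) := by ring
    rw [e]
    refine mul_le_mul_of_nonneg_right (by norm_num) ?_
    have : 0 ≤ ℓ := by linarith
    positivity
  · intro t
    have h3 := F.yf_taylor g hn (hnr 0) (hnr t)
    rw [dy_lin, ← he₁, ← he₂] at h3
    have e3 : rot α (F.yf n g (γ t)) - rot α (F.yf n g (γ 0)) -
        ((rot α e₁).1 * ((γ t).1 - (γ 0).1) + (rot α e₂).1 * ((γ t).2 - (γ 0).2),
        (rot α e₁).2 * ((γ t).1 - (γ 0).1) + (rot α e₂).2 * ((γ t).2 - (γ 0).2)) =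
        rot α (F.yf n g (γ t) - F.yf n g (γ 0) -
          ((γ t - γ 0).1 • e₁ + (γ t - γ 0).2 • e₂)) := by
      rw [rot_sub', rot_sub', rot_lin]
      simp only [Prod.fst_sub, Prod.snd_sub]
    rw [e3, eu_rot]
    refine (eu_le_norm _).trans ?_
    have h4 : ‖γ t - γ 0‖ ^ 2 ≤ (64 * ℓ) ^ 2 := pow_le_pow_left₀ (norm_nonneg _) (hdiam t) 2
    calc 3 / 2 * ‖F.yf n g (γ t) - F.yf n g (γ 0) - ((γ t - γ 0).1 • e₁ + (γ t - γ 0).2 • e₂)‖
        ≤ 3 / 2 * (44 * F.κ n ^ 2 * as g * ‖γ t - γ 0‖ ^ 2) := by gcongr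
      _ ≤ 3 / 2 * (44 * F.κ n ^ 2 * as g * (64 * ℓ) ^ 2) := by gcongr
      _ = _ := by ring
  · intro t
    rw [← hBX t]
    unfold rf wedge rot
    simp only [Prod.smul_fst, Prod.smul_snd, smul_eq_mul]
    ring
  · refine h2.trans (le_of_eq ?_)
    congr 1
    ext1 t
    rw [← hBX t]
    have hs := Real.sin_sq_add_cos_sq α
    unfold rf rot H709R2.sq
    simp only [Prod.smul_fst, Prod.smul_snd, smul_eq_mul]
    linear_combination (-(F.B n (γ t) * ((X (γ t)).1 ^ 2 + (X (γ t)).2 ^ 2))) * hs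
  · rw [← winv_len]
    exact h1
  · refine (abs_add_le _ _).trans ?_
    have h3 := abs_fst_eu (rot α e₁)
    have h4 := abs_snd_eu (rot α e₂)
    rw [eu_rot] at h3 h4
    linarith
  · refine (abs_sub _ _).trans ?_
    have h3 := abs_snd_eu (rot α e₁)
    have h4 := abs_fst_eu (rot α e₂)
    rw [eu_rot] at h3 h4
    linarith

end

end

end Pool.Agent.W960.HS
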