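import Pool.Agent.W960.HS.Loc2

/-! Grids in the chart. -/

open Real Set MeasureTheory Topology Filter
open scoped ENNReal

namespace Pool.Agent.W960.HS

noncomputable section

open Pool.Agent.W960.HR (abs_fst_le abs_snd_le)

/-- one-dimensional grid -/
def gr (ρ A : ℝ) : Finset ℝ := (Finset.Icc (-⌈A / ρ⌉) ⌈A / ρ⌉).image fun k : ℤ => k * ρ

lemma gr_cover {ρ A x : ℝ} (hρ : 0 < ρ) (hx : |x| ≤ A) : ∃ y ∈ gr ρ A, |x - y| ≤ ρ := by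
  rw [abs_le] at hx
  refine ⟨⌊x / ρ⌋ * ρ, ?_, ?_⟩
  · refine Finset.mem_image.2 ⟨⌊x / ρ⌋, ?_, rfl⟩
    rw [Finset.mem_Icc]
    constructor
    · rw [Int.le_floor]
      push_cast
      have h1 := Int.le_ceil (A / ρ)
      have h2 : -(A / ρ) ≤ x / ρ := by
        rw [← neg_div]
        exact div_le_div_of_nonneg_right hx.1 hρ.le
      linarith
    · have h1 : (⌊x / ρ⌋ : ℝ) ≤ ⌈A / ρ⌉ := (Int.floor_le _).trans
        ((div_le_div_of_nonneg_right hx.2 hρ.le).trans (Int.le_ceil _))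
      exact_mod_cast h1
  · have h1 := Int.floor_le (x / ρ)
    have h2 := Int.lt_floor_add_one (x / ρ)
    rw [le_div_iff₀ hρ] at h1
    rw [div_lt_iff₀ hρ] at h2
    rw [abs_le]
    constructor <;> nlinarith

lemma gr_abs {ρ A y : ℝ} (hρ : 0 < ρ) (h : y ∈ gr ρ A) : |y| ≤ A + ρ := by
  obtain ⟨k, hk, rfl⟩ := Finset.mem_image.1 h
  rw [Finset.mem_Icc] at hk
  have h1 : |(k:ℝ)| ≤ ⌈A / ρ⌉ := by
    rw [abs_le]
    constructor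
    · exact_mod_cast hk.1
    · exact_mod_cast hk.2
  have h2 := (Int.ceil_lt_add_one (A / ρ)).le
  rw [abs_mul, abs_of_pos hρ]
  calc |(k:ℝ)| * ρ ≤ (A / ρ + 1) * ρ := mul_le_mul_of_nonneg_right (h1.trans h2) hρ.le
    _ = A + ρ := by field_simp

lemma gr_card {ρ A : ℝ} (hρ : 0 < ρ) (hA : 0 ≤ A) : ((gr ρ A).card : ℝ) ≤ 2 * (A / ρ) + 3 := by
  have h1 : (gr ρ A).card ≤ (Finset.Icc (-⌈A / ρ⌉) ⌈A / ρ⌉).card := Finset.card_image_le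
  rw [Int.card_Icc] at h1
  have h0 : 0 ≤ ⌈A / ρ⌉ := Int.ceil_nonneg (div_nonneg hA hρ.le)
  have h2 := (Int.ceil_lt_add_one (A / ρ)).le
  have h3 : (((⌈A / ρ⌉ + 1 - -⌈A / ρ⌉).toNat : ℕ) : ℝ) = 2 * (⌈A / ρ⌉ : ℝ) + 1 := by
    have : (((⌈A / ρ⌉ + 1 - -⌈A / ρ⌉).toNat : ℕ) : ℤ) = 2 * ⌈A / ρ⌉ + 1 := by
      rw [Int.toNat_of_nonneg (by linarith)]
      ring
    exact_mod_cast this
  have h4 : ((gr ρ A).card : ℝ) ≤ (((⌈A / ρ⌉ + 1 - -⌈A / ρ⌉).toNat : ℕ) : ℝ) := by exact_mod_cast h1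
  linarith

/-- grid in the chart -/
def gd (σ ρ : ℝ) : Finset (ℝ × ℝ) := gr ρ (1 / (15 * σ)) ×ˢ gr ρ (1 / 15)

lemma gd_cover {σ ρ : ℝ} (hρ : 0 < ρ) {t : ℝ × ℝ} (h1 : |t.1| ≤ 1 / (15 * σ)) (h2 : |t.2| ≤ 1 / 15) :
    ∃ τ ∈ gd σ ρ, ‖t - τ‖ ≤ ρ := by
  obtain ⟨y1, hy1, hy1'⟩ := gr_cover hρ h1
  obtain ⟨y2, hy2, hy2'⟩ := gr_cover hρ h2
  refine ⟨(y1, y2), Finset.mem_product.2 ⟨hy1, hy2⟩, ?_⟩
  rw [Prod.norm_def, max_le_iff]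
  exact ⟨hy1', hy2'⟩

lemma gd_norm {σ ρ : ℝ} (hσ : 1 ≤ σ) (hρ : 0 < ρ) (hρ1 : ρ ≤ 1 / 20) {τ : ℝ × ℝ}
    (h : τ ∈ gd σ ρ) : ‖τ‖ ≤ 1 / 8 := by
  rw [gd, Finset.mem_product] at h
  have h1 := gr_abs hρ h.1
  have h2 := gr_abs hρ h.2
  have h3 : 1 / (15 * σ) ≤ 1 / 15 := by
    rw [div_le_div_iff₀ (by positivity) (by norm_num)]; linarith
  rw [Prod.norm_def, max_le_iff, Real.norm_eq_abs, Real.norm_eq_abs]
  constructor <;> linarith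

lemma gd_card {σ ρ : ℝ} (hσ : 1 ≤ σ) (hρ : 0 < ρ) (hρ1 : ρ ≤ 1 / σ) :
    ((gd σ ρ).card : ℝ) ≤ 16 / (σ * ρ ^ 2) := by
  have hσ0 : 0 < σ := by linarith
  have h1 := gr_card (A := 1 / (15 * σ)) hρ (by positivity)
  have h2 := gr_card (A := 1 / 15) hρ (by positivity)
  have hρσ : ρ * σ ≤ 1 := by rwa [le_div_iff₀ hσ0] at hρ1
  have hρ2 : ρ ≤ 1 := hρ1.trans ((div_le_one hσ0).2 hσ)
  have a1 : 2 * (1 / (15 * σ) / ρ) + 3 ≤ 4 / (σ * ρ) := by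
    rw [le_div_iff₀ (by positivity)]
    have : (2 * (1 / (15 * σ) / ρ) + 3) * (σ * ρ) = 2 / 15 + 3 * (ρ * σ) := by
      field_simp
    rw [this]
    linarith
  have a2 : 2 * (1 / 15 / ρ) + 3 ≤ 4 / ρ := by
    rw [le_div_iff₀ hρ]
    have : (2 * (1 / 15 / ρ) + 3) * ρ = 2 / 15 + 3 * ρ := by
      field_simp
    rw [this]
    linarith
  rw [gd, Finset.card_product]
  push_cast
  calc ((gr ρ (1 / (15 * σ))).card : ℝ) * ((gr ρ (1 / 15)).card : ℝ) ≤ (4 / (σ * ρ)) * (4 / ρ) :=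
        mul_le_mul (h1.trans a1) (h2.trans a2) (Nat.cast_nonneg _) (by positivity)
    _ = _ := by field_simp; norm_num

end

end Pool.Agent.W960.HS
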