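import Pool.Agent.W960.HS.Cell1
import Pool.Agent.W960.HS.Grid

/-! Small closed orbits in a cell: the two classes. -/

open Real Set MeasureTheory Topology Filter
open scoped ENNReal

namespace Pool.Agent.W960.HS

noncomputable section

open Pool.Agent.W960.HR (T mem_T GP abs_fst_le abs_snd_le volume_ball_le)
open Pool.Agent.H709R2 (wedge rot divRot divW winv ClosedOrbit continuous_rot fld contDiff_fld
  contDiffAt_winv)
open Pool.Agent.H709U (Orb rf)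

section

variable (F : Fr) {n : ℕ}

/-- mesh -/
def rh (F : Fr) (n : ℕ) (ℓ : ℝ) : ℝ := F.κ n * ℓ / F.σ

/-- majorant for the first class -/
def K1 (F : Fr) (n : ℕ) (ℓ κ₀ : ℝ) (g : T n → ℝ × ℝ) : ℝ≥0∞ :=
  ENNReal.ofReal (1 / κ₀) * ∑ τ ∈ gd F.σ (rh F n ℓ),
    ENNReal.ofReal (10 ^ 9 * (F.κ n ^ 3 * ℓ ^ 3 / κ₀)) *
    {g : T n → ℝ × ℝ | ‖Ph n g τ‖ ≤ rh F n ℓ * as g}.indicator
      (fun g => ENNReal.ofReal (as g ^ 2)) g * ENNReal.ofReal (4 * (70 * ℓ) ^ 2)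

lemma near_tau (hn : 1 ≤ n) {s ℓ : ℝ} (hs0 : 0 < s) (hs : √n * s ≤ F.σ / 128)
    (τ : ℝ × ℝ) : ∃ zτ : ℝ × ℝ, ∀ z₀, ‖z₀ - F.pt‖ ≤ 2 * s → ‖F.t n z₀ - τ‖ ≤ rh F n ℓ →
      ‖z₀ - zτ‖ ≤ 6 * ℓ := by
  by_cases h : ∃ z, ‖z - F.pt‖ ≤ 2 * s ∧ ‖F.t n z - τ‖ ≤ rh F n ℓ
  · obtain ⟨z, hz, hz'⟩ := h
    refine ⟨z, fun z₀ h1 h2 => ?_⟩
    have n1 := F.nr_of hs (by norm_num) (by norm_num) hs0.le h1
    have n2 := F.nr_of hs (by norm_num) (by norm_num) hs0.le hz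
    refine (F.inv_lip hn n1 n2).trans ?_
    have h3 : ‖F.t n z₀ - F.t n z‖ ≤ 2 * rh F n ℓ := by
      have e : F.t n z₀ - F.t n z = (F.t n z₀ - τ) - (F.t n z - τ) := by abel
      rw [e]
      refine (norm_sub_le _ _).trans ?_
      linarith
    have h4 : 0 ≤ 3 * (F.σ ^ 2 / √n) := by have := F.hσ; positivity
    refine (mul_le_mul_of_nonneg_left h3 h4).trans (le_of_eq ?_)
    have h5 : 0 < √(n:ℝ) := lt_of_lt_of_le zero_lt_one (Fr.sqrt_ge hn)
    have h6 := F.hσ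
    unfold rh Fr.κ
    field_simp
    ring
  · push Not at h
    exact ⟨0, fun z₀ h1 h2 => absurd h2 (not_le.2 (h z₀ h1))⟩

/-- small orbits with large circulation -/
theorem case1 (hn : 1 ≤ n) (c : T n → ℝ × ℝ) {s : ℝ} (hs0 : 0 < s) (hs : √n * s ≤ F.σ / 128)
    {ℓ κ₀ : ℝ} (hℓ : 0 < ℓ) (hκ₀ : 0 < κ₀) (hℓ1 : F.κ n * ℓ ≤ 1 / 20) :
    ME (fun α => ((A1 (fld (sc n c)) (F.B n) (Metric.closedBall F.pt (2 * s)) ℓ κ₀ α).encard : ℝ≥0∞))
      (K1 F n ℓ κ₀ (F.g n c)) := by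
  classical
  set X := fld (sc n c) with hX
  set g := F.g n c with hg
  have hκ := F.kappa_pos hn
  have hσ := F.hσ
  have ha := as_nonneg g
  have hXc : ContDiff ℝ 2 X := contDiff_fld _
  have hρ : 0 < rh F n ℓ := by unfold rh; positivity
  have hρ1 : rh F n ℓ ≤ 1 / 20 := (div_le_self (by positivity) F.one_le).trans hℓ1
  choose zt hzt using fun τ => near_tau F hn (ℓ := ℓ) hs0 hs τ
  have hBs : ∀ z, ‖z - F.pt‖ ≤ 2 * (2 * s) → X z ≠ 0 → ContDiffAt ℝ 1 (F.B n) z := by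
    intro z hz _
    exact F.contDiffAt_B (F.D_pos hn (F.nr_of (k := 4) hs le_rfl (by norm_num) hs0.le
      (by linarith)))
  set h : ℝ × ℝ → ℝ≥0∞ := fun p => ∑ τ ∈ gd F.σ (rh F n ℓ),
    {p : ℝ × ℝ | ‖p + -zt τ‖ ≤ 70 * ℓ}.indicator (fun _ =>
      ENNReal.ofReal (10 ^ 9 * (F.κ n ^ 3 * ℓ ^ 3 / κ₀)) *
      {g : T n → ℝ × ℝ | ‖Ph n g τ‖ ≤ rh F n ℓ * as g}.indicator
        (fun g => ENNReal.ofReal (as g ^ 2)) g) p with hh
  have hms : ∀ τ, MeasurableSet {p : ℝ × ℝ | ‖p + -zt τ‖ ≤ 70 * ℓ} := fun τ =>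
    (isClosed_le (by fun_prop) continuous_const).measurableSet
  have hhm : Measurable h := Finset.measurable_fun_sum _ fun τ _ => measurable_const.indicator (hms τ)
  obtain ⟨G, hG1, hG2, hG3⟩ := mb2 (X := X) hXc (p₀ := F.pt) (s := 2 * s) (by positivity)
    (w₁ := winv X) (w₂ := F.B n) (w := F.B n) (fun z _ hz => contDiffAt_winv hXc hz) hBs hBs
    (Ω := Metric.closedBall F.pt (2 * s)) (isCompact_closedBall _ _)
    (fun z hz => mem_closedBall_iff_norm.1 hz) (M := Ico ℓ (64 * ℓ)) (M' := Ici κ₀)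
    measurableSet_Ico measurableSet_Ici hhm hκ₀ (by
      intro α hα γ T' ho hΩ h1 h2
      refine ⟨h2, ?_⟩
      have hΩ' : ∀ t, ‖γ t - F.pt‖ ≤ 2 * s := fun t => mem_closedBall_iff_norm.1 (hΩ t)
      obtain ⟨z₀, hz1, hz2, hz3⟩ := orb_zero hXc ho h1.2.le
      have hz4 := hz3 F.pt (2 * s) hΩ'
      have hnr : F.Nr n z₀ := F.nr_of hs (by norm_num) (by norm_num) hs0.le hz4
      have hy : F.yf n g z₀ = 0 := by
        rw [← F.B_smul hn c (F.D_pos hn hnr), ← hX, hz1, smul_zero]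
      obtain ⟨τ, hτ, hτ'⟩ := gd_cover (σ := F.σ) hρ (F.t1_le hn hnr) (F.t2_le hn hnr)
      have hev : g ∈ {g : T n → ℝ × ℝ | ‖Ph n g τ‖ ≤ rh F n ℓ * as g} := by
        have h3 := Ph_sub g hn (t := τ) (s := F.t n z₀) (gd_norm F.one_le hρ hρ1 hτ) (F.t_le hn hnr)
        have h4 : Ph n g (F.t n z₀) = 0 := hy
        rw [h4, sub_zero] at h3
        refine h3.trans ?_
        rw [mul_comm, norm_sub_rev]
        exact mul_le_mul_of_nonneg_right hτ' ha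
      have hp : γ 0 ∈ {p : ℝ × ℝ | ‖p + -zt τ‖ ≤ 70 * ℓ} := by
        have h3 := hzt τ z₀ hz4 hτ'
        have h4 := hz2 0
        have e : γ 0 + -zt τ = -(z₀ - γ 0) + (z₀ - zt τ) := by abel
        show ‖γ 0 + -zt τ‖ ≤ 70 * ℓ
        rw [e]
        refine (norm_add_le _ _).trans ?_
        rw [norm_neg]
        linarith
      have h5 := div_bound F hn c hs0 hs ho hΩ' hκ₀ h1.2.le h2
      refine le_trans ?_ (Finset.single_le_sum (f := fun τ =>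
        {p : ℝ × ℝ | ‖p + -zt τ‖ ≤ 70 * ℓ}.indicator (fun _ =>
        ENNReal.ofReal (10 ^ 9 * (F.κ n ^ 3 * ℓ ^ 3 / κ₀)) *
        {g : T n → ℝ × ℝ | ‖Ph n g τ‖ ≤ rh F n ℓ * as g}.indicator
          (fun g => ENNReal.ofReal (as g ^ 2)) g) (γ 0)) (fun _ _ => zero_le) hτ)
      rw [indicator_of_mem hp, indicator_of_mem hev, ← ENNReal.ofReal_mul (by positivity)]
      refine ENNReal.ofReal_le_ofReal (h5.trans (le_of_eq ?_))
      ring)
  refine ⟨G, hG1, fun α hα => hG2 α hα, ?_⟩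
  refine (setLIntegral_le_lintegral _ _).trans (hG3.trans ?_)
  unfold K1
  refine mul_le_mul_right ((setLIntegral_le_lintegral _ _).trans ?_) _
  rw [lintegral_finsetSum _ fun τ _ => measurable_const.indicator (hms τ)]
  refine Finset.sum_le_sum fun τ _ => ?_
  rw [lintegral_indicator_const (hms τ)]
  gcongr
  exact volume_ball_le _ (by positivity)

/-- the mean of the first majorant -/
theorem mean_K1 (hn : 1 ≤ n) {ℓ κ₀ : ℝ} (hℓ : 0 < ℓ) (hκ₀ : 0 < κ₀) (hℓ1 : F.κ n * ℓ ≤ 1 / 20) :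
    Measurable (K1 F n ℓ κ₀) ∧ ∫⁻ g, K1 F n ℓ κ₀ g ∂GP (T n) ≤
      (1 + K4) * ENNReal.ofReal (2 * 10 ^ 15 * (F.κ n ^ 3 * ℓ ^ 5 / (κ₀ ^ 2 * F.σ))) := by
  have hκ := F.kappa_pos hn
  have hσ := F.hσ
  have hρ : 0 < rh F n ℓ := by unfold rh; positivity
  have hms : ∀ τ, MeasurableSet {g : T n → ℝ × ℝ | ‖Ph n g τ‖ ≤ rh F n ℓ * as g} := fun τ => by
    have h1 : Continuous fun g : T n → ℝ × ℝ => Ph n g τ :=
      continuous_Ph.comp (continuous_id.prodMk continuous_const)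
    exact (isClosed_le h1.norm (continuous_const.mul continuous_as)).measurableSet
  have hma : Measurable fun g : T n → ℝ × ℝ => ENNReal.ofReal (as g ^ 2) := by
    have := continuous_as (n := n)
    fun_prop
  have hm : ∀ τ, Measurable fun g : T n → ℝ × ℝ => ENNReal.ofReal (10 ^ 9 * (F.κ n ^ 3 * ℓ ^ 3 / κ₀)) *
      {g : T n → ℝ × ℝ | ‖Ph n g τ‖ ≤ rh F n ℓ * as g}.indicator
        (fun g => ENNReal.ofReal (as g ^ 2)) g * ENNReal.ofReal (4 * (70 * ℓ) ^ 2) := fun τ =>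
    (measurable_const.mul (hma.indicator (hms τ))).mul measurable_const
  refine ⟨measurable_const.mul (Finset.measurable_fun_sum _ fun τ _ => hm τ), ?_⟩
  unfold K1
  rw [lintegral_const_mul _ (Finset.measurable_fun_sum _ fun τ _ => hm τ),
    lintegral_finsetSum _ fun τ _ => hm τ]
  have h1 : ∀ τ, ∫⁻ g : T n → ℝ × ℝ, ENNReal.ofReal (10 ^ 9 * (F.κ n ^ 3 * ℓ ^ 3 / κ₀)) *
      {g : T n → ℝ × ℝ | ‖Ph n g τ‖ ≤ rh F n ℓ * as g}.indicator
        (fun g => ENNReal.ofReal (as g ^ 2)) g * ENNReal.ofReal (4 * (70 * ℓ) ^ 2) ∂GP (T n) ≤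
      (1 + K4) * ENNReal.ofReal (10 ^ 9 * (F.κ n ^ 3 * ℓ ^ 3 / κ₀) * (4 * rh F n ℓ ^ 2) *
        (4 * (70 * ℓ) ^ 2)) := by
    intro τ
    have e : ENNReal.ofReal (10 ^ 9 * (F.κ n ^ 3 * ℓ ^ 3 / κ₀) * (4 * rh F n ℓ ^ 2) *
        (4 * (70 * ℓ) ^ 2)) = ENNReal.ofReal (10 ^ 9 * (F.κ n ^ 3 * ℓ ^ 3 / κ₀)) *
        ENNReal.ofReal (4 * rh F n ℓ ^ 2) * ENNReal.ofReal (4 * (70 * ℓ) ^ 2) := by
      rw [ENNReal.ofReal_mul (p := 10 ^ 9 * (F.κ n ^ 3 * ℓ ^ 3 / κ₀) * (4 * rh F n ℓ ^ 2))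
        (by positivity), ENNReal.ofReal_mul (p := 10 ^ 9 * (F.κ n ^ 3 * ℓ ^ 3 / κ₀)) (by positivity)]
    rw [lintegral_mul_const _ ((hma.indicator (hms τ)).const_mul _),
      lintegral_const_mul _ (hma.indicator (hms τ)), e]
    calc _ ≤ ENNReal.ofReal (10 ^ 9 * (F.κ n ^ 3 * ℓ ^ 3 / κ₀)) *
          (ENNReal.ofReal (4 * rh F n ℓ ^ 2) * (1 + K4)) * ENNReal.ofReal (4 * (70 * ℓ) ^ 2) := by
          gcongr
          exact small (by norm_num) τ hρ.le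
      _ = _ := by ring
  calc _ ≤ ENNReal.ofReal (1 / κ₀) * ∑ τ ∈ gd F.σ (rh F n ℓ), (1 + K4) *
        ENNReal.ofReal (10 ^ 9 * (F.κ n ^ 3 * ℓ ^ 3 / κ₀) * (4 * rh F n ℓ ^ 2) *
        (4 * (70 * ℓ) ^ 2)) := by
        gcongr with τ
        exact h1 τ
    _ = (1 + K4) * (ENNReal.ofReal (1 / κ₀) * (ENNReal.ofReal ((gd F.σ (rh F n ℓ)).card : ℝ) *
        ENNReal.ofReal (10 ^ 9 * (F.κ n ^ 3 * ℓ ^ 3 / κ₀) * (4 * rh F n ℓ ^ 2) *
        (4 * (70 * ℓ) ^ 2)))) := by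
        rw [Finset.sum_const, nsmul_eq_mul, ENNReal.ofReal_natCast]
        ring
    _ ≤ _ := by
        rw [← ENNReal.ofReal_mul (Nat.cast_nonneg _), ← ENNReal.ofReal_mul (by positivity)]
        refine mul_le_mul_right (ENNReal.ofReal_le_ofReal ?_) _
        have h2 : ((gd F.σ (rh F n ℓ)).card : ℝ) ≤ 16 / (F.σ * rh F n ℓ ^ 2) := by
          refine gd_card F.one_le hρ ?_
          unfold rh
          exact div_le_div_of_nonneg_right (by linarith) hσ.le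
        have h3 : ((gd F.σ (rh F n ℓ)).card : ℝ) * (10 ^ 9 * (F.κ n ^ 3 * ℓ ^ 3 / κ₀) *
            (4 * rh F n ℓ ^ 2) * (4 * (70 * ℓ) ^ 2)) ≤ 16 / (F.σ * rh F n ℓ ^ 2) *
            (10 ^ 9 * (F.κ n ^ 3 * ℓ ^ 3 / κ₀) * (4 * rh F n ℓ ^ 2) * (4 * (70 * ℓ) ^ 2)) :=
          mul_le_mul_of_nonneg_right h2 (by positivity)
        calc _ ≤ 1 / κ₀ * (16 / (F.σ * rh F n ℓ ^ 2) *
            (10 ^ 9 * (F.κ n ^ 3 * ℓ ^ 3 / κ₀) * (4 * rh F n ℓ ^ 2) * (4 * (70 * ℓ) ^ 2))) :=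
              mul_le_mul_of_nonneg_left h3 (by positivity)
          _ = 1254400000000000 * (F.κ n ^ 3 * ℓ ^ 5 / (κ₀ ^ 2 * F.σ)) := by
              field_simp
              norm_num
          _ ≤ _ := mul_le_mul_of_nonneg_right (by norm_num) (by positivity)

/-- lower bound of the third functional -/
def J₀ (ℓ κ₀ : ℝ) : ℝ := ℓ / 2 * (ℓ / (2 * κ₀)) ^ (s8 - 1)

/-- majorant for the second class -/
def K2 (F : Fr) (n : ℕ) (s ℓ κ₀ : ℝ) (g : T n → ℝ × ℝ) : ℝ≥0∞ :=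
  ENNReal.ofReal (1 / J₀ ℓ κ₀) * ∫⁻ p in Metric.closedBall F.pt (2 * s),
    ENNReal.ofReal (36 * F.κ n * as g * ‖Ph n g (F.t n p)‖ ^ (-s8))

/-- the weight of the second class -/
def w2 (F : Fr) (n : ℕ) (c : T n → ℝ × ℝ) (z : ℝ × ℝ) : ℝ :=
  F.B n z * H709R2.sq (F.B n z • fld (sc n c) z) ^ (-s8 / 2)

lemma sq_smul' (r : ℝ) (v : ℝ × ℝ) : H709R2.sq (r • v) = r ^ 2 * H709R2.sq v := by
  unfold H709R2.sq
  simp only [Prod.smul_fst, Prod.smul_snd, smul_eq_mul]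
  ring

lemma contDiffAt_w2 (c : T n → ℝ × ℝ) {z : ℝ × ℝ} (hD : 0 < F.D z) (hX : fld (sc n c) z ≠ 0) :
    ContDiffAt ℝ 1 (w2 F n c) z := by
  have h1 : ContDiffAt ℝ 1 (F.B n) z := F.contDiffAt_B hD
  have h2 : ContDiffAt ℝ 1 (fld (sc n c)) z := (contDiff_fld _).contDiffAt
  have h3 : ContDiffAt ℝ 1 (fun z => F.B n z • fld (sc n c) z) z := h1.smul h2
  have h4 : ContDiffAt ℝ 1 (fun z => H709R2.sq (F.B n z • fld (sc n c) z)) z := by
    unfold H709R2.sq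
    exact ((contDiffAt_fst.comp z h3).pow 2).add ((contDiffAt_snd.comp z h3).pow 2)
  unfold w2
  refine h1.mul (h4.rpow_const_of_ne ?_)
  rw [sq_smul']
  have := F.B_pos (n := n) hD
  have := H709R2.sq_pos hX
  positivity

/-- the divergence for the second weight -/
lemma div_w2 (hn : 1 ≤ n) (c : T n → ℝ × ℝ) (α : ℝ) {z : ℝ × ℝ} (hz : F.Nr n z)
    (hX : fld (sc n c) z ≠ 0) : |divW (w2 F n c) (fld (sc n c)) α z| ≤
      36 * F.κ n * as (F.g n c) * ‖F.yf n (F.g n c) z‖ ^ (-s8) := by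
  set g := F.g n c with hg
  have hκ := F.kappa_pos hn
  have ha := as_nonneg g
  have hD := F.D_pos hn hz
  have hXc : ContDiff ℝ 2 (fld (sc n c)) := contDiff_fld _
  have hY0 : F.yf n g z ≠ 0 := by
    rw [← F.B_smul hn c hD]
    exact smul_ne_zero (F.B_pos hD).ne' hX
  have hsq := H709R2.sq_pos hY0
  have hev : (fun z => w2 F n c z • fld (sc n c) z) =ᶠ[𝓝 z]
      fun z => H709R2.sq (F.yf n g z) ^ (-s8 / 2) • F.yf n g z := by
    filter_upwards [(isOpen_lt continuous_const F.continuous_D).mem_nhds hD] with y hy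
    unfold w2
    rw [F.B_smul hn c hy, mul_comm, mul_smul, F.B_smul hn c hy]
  rw [divW_eq α ((contDiffAt_w2 F c hD hX).differentiableAt (by norm_num))
      (hXc.differentiable (by norm_num) _) hev]
  have hY := F.hasFDerivAt_yf g hn hz
  set L := ((F.dt1 n z).smulRight (P1 n g (F.t n z)) + (F.dt2 n z).smulRight (P2 n g (F.t n z)))
    with hL
  have hLw : ∀ w, L w = F.dy n g z w := fun w => by simp [hL, Fr.dy]
  set y := F.yf n g z with hy
  have h1 : HasFDerivAt (fun z => (F.yf n g z).1) ((ContinuousLinearMap.fst ℝ ℝ ℝ).comp L) z :=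
    hY.fst
  have h2 : HasFDerivAt (fun z => (F.yf n g z).2) ((ContinuousLinearMap.snd ℝ ℝ ℝ).comp L) z :=
    hY.snd
  have h3 : HasFDerivAt (fun z => H709R2.sq (F.yf n g z)) ((2 * y.1) • ((ContinuousLinearMap.fst ℝ ℝ ℝ).comp L) +
      (2 * y.2) • ((ContinuousLinearMap.snd ℝ ℝ ℝ).comp L)) z := by
    have := (h1.pow 2).add (h2.pow 2)
    refine this.congr_fderiv (ContinuousLinearMap.ext fun w => ?_)
    simp [hy]
  have h4 := h3.rpow_const (p := -s8 / 2) (Or.inl hsq.ne')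
  have h5 : HasFDerivAt (fun z => H709R2.sq (F.yf n g z) ^ (-s8 / 2) • F.yf n g z) _ z := h4.smul hY
  unfold divRot
  rw [h5.fderiv]
  set N := H709R2.sq y ^ (-s8 / 2) with hN
  have hN0 : 0 < N := Real.rpow_pos_of_pos hsq _
  have hN1 : H709R2.sq y ^ (-s8 / 2 - 1) = N / H709R2.sq y := Real.rpow_sub_one hsq.ne' _
  rw [hN1]
  set e₁ := L (1, 0) with he₁
  set e₂ := L (0, 1) with he₂
  have b1 : eu e₁ ≤ 9 * F.κ n * as g := by
    refine (eu_le_norm _).trans ?_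
    have := F.dy_le g hn hz (w := (1, 0))
    rw [← hLw, ← he₁] at this
    have h3 : ‖((1, 0) : ℝ × ℝ)‖ = 1 := by simp
    rw [h3, mul_one] at this
    linarith
  have b2 : eu e₂ ≤ 9 * F.κ n * as g := by
    refine (eu_le_norm _).trans ?_
    have := F.dy_le g hn hz (w := (0, 1))
    rw [← hLw, ← he₂] at this
    have h3 : ‖((0, 1) : ℝ × ℝ)‖ = 1 := by simp
    rw [h3, mul_one] at this
    linarith
  have hapl : ∀ w : ℝ × ℝ, (N • L + (((-s8 / 2 * (N / H709R2.sq y)) •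
      ((2 * y.1) • ((ContinuousLinearMap.fst ℝ ℝ ℝ).comp L) +
      (2 * y.2) • ((ContinuousLinearMap.snd ℝ ℝ ℝ).comp L))).smulRight y)) w =
      N • L w - (s8 * N / H709R2.sq y * (y.1 * (L w).1 + y.2 * (L w).2)) • y := by
    intro w
    simp only [_root_.add_apply, _root_.smul_apply, ContinuousLinearMap.smulRight_apply,
      ContinuousLinearMap.comp_apply, ContinuousLinearMap.coe_fst', ContinuousLinearMap.coe_snd',
      smul_eq_mul]
    rw [sub_eq_add_neg, ← neg_smul]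
    congr 2
    ring
  rw [hapl, hapl, ← he₁, ← he₂]
  have key : ∀ e : ℝ × ℝ, eu e ≤ 9 * F.κ n * as g →
      eu (rot α (N • e - (s8 * N / H709R2.sq y * (y.1 * e.1 + y.2 * e.2)) • y)) ≤
        N * (18 * F.κ n * as g) := by
    intro e he
    rw [eu_rot]
    -- projection
    have h7 : eu (N • e - (s8 * N / H709R2.sq y * (y.1 * e.1 + y.2 * e.2)) • y) ^ 2 ≤
        (N * (1 * eu e)) ^ 2 := by
      rw [eu_sq]
      have h8 : H709R2.sq (N • e - (s8 * N / H709R2.sq y * (y.1 * e.1 + y.2 * e.2)) • y) =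
          N ^ 2 * (H709R2.sq e - (2 * s8 - s8 ^ 2) * (y.1 * e.1 + y.2 * e.2) ^ 2 / H709R2.sq y) := by
        have e9 : ∀ v w : ℝ × ℝ, H709R2.sq (v - w) = H709R2.sq v - 2 * (v.1 * w.1 + v.2 * w.2) +
            H709R2.sq w := by
          intro v w
          unfold H709R2.sq
          simp only [Prod.fst_sub, Prod.snd_sub]
          ring
        rw [e9, sq_smul', sq_smul']
        simp only [Prod.smul_fst, Prod.smul_snd, smul_eq_mul]
        have h10 := hsq.ne'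
        generalize H709R2.sq y = S at *
        field_simp
        ring
      rw [h8, mul_pow, one_mul, eu_sq]
      have h9 : 0 ≤ (2 * s8 - s8 ^ 2) * (y.1 * e.1 + y.2 * e.2) ^ 2 / H709R2.sq y := by
        have : (0:ℝ) ≤ 2 * s8 - s8 ^ 2 := by norm_num [s8]
        positivity
      exact mul_le_mul_of_nonneg_left (by linarith) (sq_nonneg _)
    have h8 := abs_le_of_sq_le_sq' h7 (mul_nonneg hN0.le (mul_nonneg zero_le_one (eu_nonneg _)))
    refine h8.2.trans (mul_le_mul_of_nonneg_left ?_ hN0.le)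
    have := mul_nonneg hκ.le ha
    nlinarith
  have k1 := (abs_fst_eu _).trans (key e₁ b1)
  have k2 := (abs_snd_eu _).trans (key e₂ b2)
  have hfin : N ≤ ‖y‖ ^ (-s8) := by
    have hy0 : 0 < ‖y‖ := norm_pos_iff.2 hY0
    have e : ‖y‖ ^ (-s8) = (‖y‖ ^ 2) ^ (-s8 / 2) := by
      rw [← Real.rpow_natCast, ← Real.rpow_mul hy0.le]
      congr 1
      push_cast
      ring
    rw [e, hN]
    exact Real.rpow_le_rpow_of_nonpos (by positivity) (HR.norm_sq_le_sq y) (by norm_num [s8])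
  refine (abs_add_le _ _).trans ?_
  have hm := mul_nonneg hκ.le ha
  calc _ ≤ N * (18 * F.κ n * as g) + N * (18 * F.κ n * as g) := add_le_add k1 k2
    _ = 36 * F.κ n * as g * N := by ring
    _ ≤ 36 * F.κ n * as g * ‖y‖ ^ (-s8) := mul_le_mul_of_nonneg_left hfin (by positivity)

end

end

end Pool.Agent.W960.HS
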