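import Pool.Agent.W960.HS.Cell2

/-! Small closed orbits in a cell: the second class and the sum over all scales. -/

open Real Set MeasureTheory Topology Filter
open scoped ENNReal

namespace Pool.Agent.W960.HS

noncomputable section

open Pool.Agent.W960.HR (T mem_T GP abs_fst_le abs_snd_le volume_ball_le)
open Pool.Agent.H709R2 (wedge rot divRot divW winv ClosedOrbit continuous_rot fld contDiff_fld
  contDiffAt_winv)
open Pool.Agent.H709U (Orb rf)

lemma young8 {u : ℝ} (hu : 0 < u) : 1 ≤ u + u ^ (1 - s8) := by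
  rcases le_total 1 u with h | h
  · have : 0 ≤ u ^ (1 - s8) := (Real.rpow_pos_of_pos hu _).le
    linarith
  · have := Real.one_le_rpow_of_pos_of_le_one_of_nonpos hu h (by norm_num [s8] : 1 - s8 ≤ 0)
    linarith

section

variable (F : Fr) {n : ℕ}

lemma point_young (c : T n → ℝ × ℝ) {z : ℝ × ℝ} (hD : 0 < F.D z) (hX : fld (sc n c) z ≠ 0)
    {l : ℝ} (hl : 0 < l) : eu (fld (sc n c) z) ≤ l * (F.B n z * H709R2.sq (fld (sc n c) z)) +
      l ^ (1 - s8) * (w2 F n c z * H709R2.sq (fld (sc n c) z)) := by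
  set X := fld (sc n c) z with hXd
  have hB := F.B_pos (n := n) hD
  set b := F.B n z with hb
  have hsq := H709R2.sq_pos hX
  have he : 0 < eu X := Real.sqrt_pos.2 hsq
  have hes : eu X ^ 2 = H709R2.sq X := eu_sq X
  set e := eu X with hed
  have h1 : H709R2.sq (b • X) = (b * e) ^ 2 := by rw [sq_smul', mul_pow, hes]
  have h2 : H709R2.sq (b • X) ^ (-s8 / 2) = (b * e) ^ (-s8) := by
    rw [h1, ← Real.rpow_natCast, ← Real.rpow_mul (by positivity)]
    congr 1
    push_cast
    ring
  have h3 : w2 F n c z * H709R2.sq X = (b * e) ^ (1 - s8) * e := by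
    unfold w2
    rw [← hXd, ← hb, h2, ← hes, sub_eq_add_neg, Real.rpow_add (by positivity), Real.rpow_one]
    ring
  rw [h3, ← hes]
  have h4 := young8 (u := l * (b * e)) (by positivity)
  rw [Real.mul_rpow (x := l) hl.le (by positivity)] at h4
  calc e = 1 * e := (one_mul e).symm
    _ ≤ (l * (b * e) + l ^ (1 - s8) * (b * e) ^ (1 - s8)) * e := mul_le_mul_of_nonneg_right h4 he.le
    _ = _ := by ring

lemma measurable_t : Measurable (F.t n) := by
  have h1 : Measurable F.D := F.continuous_D.measurable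
  have h2 : Measurable F.x := by
    unfold Fr.x
    fun_prop
  have h3 : Measurable F.y := by
    unfold Fr.y
    fun_prop
  unfold Fr.t
  exact ((measurable_const.mul (h2.sub measurable_const)).div h1).prodMk
    ((measurable_const.mul (measurable_const.mul h3)).div h1)

lemma measurable_Ph (n : ℕ) :
    Measurable fun q : (T n → ℝ × ℝ) × (ℝ × ℝ) => Ph n q.1 q.2 :=
  (continuous_Ph (n := n)).measurable

lemma measurable_Phf (f : ℝ × ℝ → ℝ × ℝ) (h : Measurable f) :
    Measurable fun q : (T n → ℝ × ℝ) × (ℝ × ℝ) => Ph n q.1 (f q.2) := by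
  have h1 : Measurable fun q : (T n → ℝ × ℝ) × (ℝ × ℝ) => (q.1, f q.2) :=
    measurable_fst.prodMk (h.comp measurable_snd)
  have h2 := (measurable_Ph n).comp h1
  simpa only [Function.comp_def] using h2

lemma measurable_Phg (g : T n → ℝ × ℝ) (f : ℝ × ℝ → ℝ × ℝ) (h : Measurable f) :
    Measurable fun p : ℝ × ℝ => Ph n g (f p) := by
  have h1 : Measurable fun p : ℝ × ℝ => (g, f p) := measurable_const.prodMk h
  have h2 := (measurable_Ph n).comp h1
  simpa only [Function.comp_def] using h2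

lemma measurable_k2 : Measurable fun q : (T n → ℝ × ℝ) × (ℝ × ℝ) =>
    ENNReal.ofReal (36 * F.κ n * as q.1 * ‖Ph n q.1 (F.t n q.2)‖ ^ (-s8)) := by
  have h1 : Measurable fun q : (T n → ℝ × ℝ) × (ℝ × ℝ) => Ph n q.1 (F.t n q.2) :=
    measurable_Phf _ (measurable_t F)
  have h2 : Measurable fun q : (T n → ℝ × ℝ) × (ℝ × ℝ) => as q.1 :=
    continuous_as.measurable.comp measurable_fst
  have h3 : Measurable fun q : (T n → ℝ × ℝ) × (ℝ × ℝ) => ‖Ph n q.1 (F.t n q.2)‖ := h1.norm
  have h4 : Measurable fun q : (T n → ℝ × ℝ) × (ℝ × ℝ) => ‖Ph n q.1 (F.t n q.2)‖ ^ (-s8 : ℝ) :=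
    h3.pow_const (-s8 : ℝ)
  have h5 : Measurable fun q : (T n → ℝ × ℝ) × (ℝ × ℝ) =>
      36 * F.κ n * as q.1 * ‖Ph n q.1 (F.t n q.2)‖ ^ (-s8 : ℝ) := (h2.const_mul _).mul h4
  exact h5.ennreal_ofReal

lemma measurable_k2' (g : T n → ℝ × ℝ) : Measurable fun p : ℝ × ℝ =>
      ENNReal.ofReal (36 * F.κ n * as g * ‖Ph n g (F.t n p)‖ ^ (-s8)) := by
  have h1 : Measurable fun p : ℝ × ℝ => Ph n g (F.t n p) := measurable_Phg g _ (measurable_t F)
  have h3 : Measurable fun p : ℝ × ℝ => ‖Ph n g (F.t n p)‖ := h1.norm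
  have h4 : Measurable fun p : ℝ × ℝ => ‖Ph n g (F.t n p)‖ ^ (-s8 : ℝ) :=
    h3.pow_const (-s8 : ℝ)
  have h5 : Measurable fun p : ℝ × ℝ =>
      36 * F.κ n * as g * ‖Ph n g (F.t n p)‖ ^ (-s8 : ℝ) := h4.const_mul _
  exact h5.ennreal_ofReal

/-- small orbits with small circulation -/
theorem case2 (hn : 1 ≤ n) (c : T n → ℝ × ℝ) {s : ℝ} (hs0 : 0 < s) (hs : √n * s ≤ F.σ / 128)
    {ℓ κ₀ : ℝ} (hℓ : 0 < ℓ) (hκ₀ : 0 < κ₀) :
    ME (fun α => ((A2 (fld (sc n c)) (F.B n) (Metric.closedBall F.pt (2 * s)) ℓ κ₀ α).encard : ℝ≥0∞))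
      (K2 F n s ℓ κ₀ (F.g n c)) := by
  set X := fld (sc n c) with hX
  set g := F.g n c with hg
  have hκ := F.kappa_pos hn
  have hσ := F.hσ
  have ha := as_nonneg g
  have hXc : ContDiff ℝ 2 X := contDiff_fld _
  have hnr4 : ∀ z, ‖z - F.pt‖ ≤ 2 * (2 * s) → 0 < F.D z := fun z hz =>
    F.D_pos hn (F.nr_of (k := 4) hs le_rfl (by norm_num) hs0.le (by linarith))
  have hhm : Measurable fun p : ℝ × ℝ =>
      ENNReal.ofReal (36 * F.κ n * as g * ‖Ph n g (F.t n p)‖ ^ (-s8)) := measurable_k2' F g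
  have hJ : 0 < J₀ ℓ κ₀ := by
    unfold J₀
    have : 0 < ℓ / (2 * κ₀) := by positivity
    have := Real.rpow_pos_of_pos this (s8 - 1)
    positivity
  obtain ⟨G, hG1, hG2, hG3⟩ := mb2 (X := X) hXc (p₀ := F.pt) (s := 2 * s) (by positivity)
    (w₁ := winv X) (w₂ := F.B n) (w := w2 F n c) (fun z _ hz => contDiffAt_winv hXc hz)
    (fun z hz _ => F.contDiffAt_B (hnr4 z hz)) (fun z hz hz' => contDiffAt_w2 F c (hnr4 z hz) hz')
    (Ω := Metric.closedBall F.pt (2 * s)) (isCompact_closedBall _ _)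
    (fun z hz => mem_closedBall_iff_norm.1 hz) (M := Ici ℓ) (M' := Iio κ₀)
    measurableSet_Ici measurableSet_Iio hhm hJ (by
      intro α hα γ T' ho hΩ h1 h2
      have hΩ' : ∀ t, ‖γ t - F.pt‖ ≤ 2 * s := fun t => mem_closedBall_iff_norm.1 (hΩ t)
      have hnr : ∀ t, F.Nr n (γ t) := fun t =>
        F.nr_of hs (by norm_num) (by norm_num) hs0.le (hΩ' t)
      have hD : ∀ t, 0 < F.D (γ t) := fun t => F.D_pos hn (hnr t)
      have hX0 : ∀ t, X (γ t) ≠ 0 := by
        intro t h0
        apply ho.ne t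
        unfold rf
        rw [h0]
        unfold rot
        ext <;> simp
      constructor
      · set l := ℓ / (2 * κ₀) with hl
        have hl0 : 0 < l := by positivity
        have hγ := orb_cont ho
        have cB : Continuous fun t => F.B n (γ t) := by
          rw [continuous_iff_continuousAt]
          intro t
          exact (F.contDiffAt_B (m := 1) (n := n) (hD t)).continuousAt.comp hγ.continuousAt
        have cw : Continuous fun t => w2 F n c (γ t) := by
          rw [continuous_iff_continuousAt]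
          intro t
          exact (contDiffAt_w2 F c (hD t) (hX0 t)).continuousAt.comp hγ.continuousAt
        have cs : Continuous fun t => H709R2.sq (X (γ t)) := by
          have := hXc.continuous
          unfold H709R2.sq
          fun_prop
        have ce : Continuous fun t => eu (X (γ t)) := continuous_eu.comp (hXc.continuous.comp hγ)
        have e1 : ∫ t in (0:ℝ)..T', winv X (γ t) * H709R2.sq (X (γ t)) =
            ∫ t in (0:ℝ)..T', eu (X (γ t)) := by
          congr 1
          ext1 t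
          unfold winv eu
          rw [inv_mul_eq_div, Real.div_sqrt]
        have c1' : Continuous fun t => l * (F.B n (γ t) * H709R2.sq (X (γ t))) :=
          continuous_const.mul (cB.mul cs)
        have c2' : Continuous fun t => l ^ (1 - s8) * (w2 F n c (γ t) * H709R2.sq (X (γ t))) :=
          continuous_const.mul (cw.mul cs)
        have h3 : ∫ t in (0:ℝ)..T', eu (X (γ t)) ≤ ∫ t in (0:ℝ)..T',
            (l * (F.B n (γ t) * H709R2.sq (X (γ t))) +
              l ^ (1 - s8) * (w2 F n c (γ t) * H709R2.sq (X (γ t)))) := by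
          refine intervalIntegral.integral_mono_on ho.pos.le (ce.intervalIntegrable _ _)
            ((c1'.add c2').intervalIntegrable _ _) fun t _ => ?_
          exact point_young F c (hD t) (hX0 t) hl0
        rw [intervalIntegral.integral_add (c1'.intervalIntegrable _ _)
          (c2'.intervalIntegrable _ _),
          intervalIntegral.integral_const_mul, intervalIntegral.integral_const_mul, ← e1] at h3
        have h1' : ℓ ≤ ∫ t in (0:ℝ)..T', winv X (γ t) * H709R2.sq (X (γ t)) := h1
        have h2' : ∫ t in (0:ℝ)..T', F.B n (γ t) * H709R2.sq (X (γ t)) < κ₀ := h2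
        set J := ∫ t in (0:ℝ)..T', w2 F n c (γ t) * H709R2.sq (X (γ t)) with hJd
        have h4 : l * (∫ t in (0:ℝ)..T', F.B n (γ t) * H709R2.sq (X (γ t))) ≤ ℓ / 2 := by
          calc _ ≤ l * κ₀ := mul_le_mul_of_nonneg_left h2'.le hl0.le
            _ = ℓ / 2 := by rw [hl]; field_simp
        have h5 : ℓ / 2 ≤ l ^ (1 - s8) * J := by linarith
        have h6 : l ^ (1 - s8) * l ^ (s8 - 1) = 1 := by
          rw [← Real.rpow_add hl0, show 1 - s8 + (s8 - 1) = 0 by ring, Real.rpow_zero]
        have h7 : 0 < l ^ (s8 - 1) := Real.rpow_pos_of_pos hl0 _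
        unfold J₀
        rw [← hl]
        calc ℓ / 2 * l ^ (s8 - 1) ≤ l ^ (1 - s8) * J * l ^ (s8 - 1) :=
              mul_le_mul_of_nonneg_right h5 h7.le
          _ = (l ^ (1 - s8) * l ^ (s8 - 1)) * J := by ring
          _ = J := by rw [h6, one_mul]
      · exact ENNReal.ofReal_le_ofReal (div_w2 F hn c α (hnr 0) (hX0 0)))
  refine ⟨G, hG1, fun α hα => hG2 α hα, ?_⟩
  exact (setLIntegral_le_lintegral _ _).trans hG3

/-- the mean of the second majorant -/
theorem mean_K2 (hn : 1 ≤ n) {s ℓ κ₀ : ℝ} (hs0 : 0 < s) :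
    Measurable (K2 F n s ℓ κ₀) ∧ ∫⁻ g, K2 F n s ℓ κ₀ g ∂GP (T n) ≤
      KE * ENNReal.ofReal (1 / J₀ ℓ κ₀) * ENNReal.ofReal (576 * F.κ n * s ^ 2) := by
  have hκ := F.kappa_pos hn
  have hm := measurable_k2 F (n := n)
  refine ⟨measurable_const.mul hm.lintegral_prod_right', ?_⟩
  unfold K2
  rw [lintegral_const_mul _ hm.lintegral_prod_right', mul_comm KE, mul_assoc]
  refine mul_le_mul_right ?_ _
  rw [lintegral_lintegral_swap hm.aemeasurable]
  calc ∫⁻ p in Metric.closedBall F.pt (2 * s), ∫⁻ g,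
        ENNReal.ofReal (36 * F.κ n * as g * ‖Ph n g (F.t n p)‖ ^ (-s8)) ∂GP (T n)
      ≤ ∫⁻ p in Metric.closedBall F.pt (2 * s), ENNReal.ofReal (36 * F.κ n) * KE := by
        refine lintegral_mono fun p => ?_
        have h1 : ∀ g : T n → ℝ × ℝ, ENNReal.ofReal (36 * F.κ n * as g * ‖Ph n g (F.t n p)‖ ^ (-s8)) ≤
            ENNReal.ofReal (36 * F.κ n) *
              ENNReal.ofReal ((1 + as g ^ 4) * (1 + ‖Ph n g (F.t n p)‖ ^ (-s8))) := by
          intro g
          rw [← ENNReal.ofReal_mul (by positivity)]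
          apply ENNReal.ofReal_le_ofReal
          have ha := as_nonneg g
          have h2 : as g ≤ 1 + as g ^ 4 := by
            nlinarith [sq_nonneg (as g ^ 2 - 1), sq_nonneg (as g - 1)]
          have h3 : 0 ≤ ‖Ph n g (F.t n p)‖ ^ (-s8) := by positivity
          calc 36 * F.κ n * as g * ‖Ph n g (F.t n p)‖ ^ (-s8) =
                36 * F.κ n * (as g * ‖Ph n g (F.t n p)‖ ^ (-s8)) := by ring
            _ ≤ 36 * F.κ n * ((1 + as g ^ 4) * (1 + ‖Ph n g (F.t n p)‖ ^ (-s8))) := by
                refine mul_le_mul_of_nonneg_left (mul_le_mul h2 (by linarith) h3 (by positivity))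
                  (by positivity)
        refine (lintegral_mono h1).trans ?_
        have h5 : Measurable fun g : T n → ℝ × ℝ =>
            ENNReal.ofReal ((1 + as g ^ 4) * (1 + ‖Ph n g (F.t n p)‖ ^ (-s8))) := by
          have a1 : Measurable fun g : T n → ℝ × ℝ => Ph n g (F.t n p) :=
            (continuous_Ph.comp (continuous_id.prodMk continuous_const)).measurable
          have a2 := (continuous_as (n := n)).measurable
          exact ENNReal.measurable_ofReal.comp (((a2.pow_const 4).const_add 1).mul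
            ((a1.norm.pow_const (-s8)).const_add 1))
        rw [lintegral_const_mul _ h5]
        gcongr
        exact mixed _
    _ = ENNReal.ofReal (36 * F.κ n) * KE * volume (Metric.closedBall F.pt (2 * s)) := by
        rw [setLIntegral_const]
    _ ≤ ENNReal.ofReal (36 * F.κ n) * KE * ENNReal.ofReal (4 * (2 * s) ^ 2) := by
        gcongr
        have e : Metric.closedBall F.pt (2 * s) = {w : ℝ × ℝ | ‖w + -F.pt‖ ≤ 2 * s} := by
          ext w
          show w ∈ Metric.closedBall F.pt (2 * s) ↔ ‖w + -F.pt‖ ≤ 2 * s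
          rw [← sub_eq_add_neg, mem_closedBall_iff_norm]
        rw [e]
        exact volume_ball_le _ (by positivity)
    _ = KE * ENNReal.ofReal (576 * F.κ n * s ^ 2) := by
        rw [mul_comm (ENNReal.ofReal _) KE, mul_assoc, ← ENNReal.ofReal_mul (by positivity)]
        congr 2
        ring

end

end

end Pool.Agent.W960.HS
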