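import Pool.Agent.W960.HS.Cell3

/-! Small closed orbits in a cell: the sum over all scales. -/

open Real Set MeasureTheory Topology Filter
open scoped ENNReal

namespace Pool.Agent.W960.HS

noncomputable section

open Pool.Agent.W960.HR (T mem_T GP)
open Pool.Agent.H709R2 (wedge rot divRot divW winv ClosedOrbit continuous_rot fld contDiff_fld
  contDiffAt_winv)
open Pool.Agent.H709U (Orb rf)

/-- closed orbits in a set with length in a set -/
def OL (X : ℝ × ℝ → ℝ × ℝ) (Ω : Set (ℝ × ℝ)) (M : Set ℝ) (α : ℝ) : Set (Set (ℝ × ℝ)) :=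
  {C | ∃ γ T, Orb (rf X α) γ T ∧ C = range γ ∧ C ⊆ Ω ∧
    (∫ t in (0:ℝ)..T, winv X (γ t) * H709R2.sq (X (γ t))) ∈ M}

/-- scales -/
def ak (k : ℕ) : ℝ := (1 / 2) ^ (k + 1)

lemma ak_pos (k : ℕ) : 0 < ak k := by unfold ak; positivity

lemma ak_le (k : ℕ) : ak k ≤ 1 := pow_le_one₀ (by norm_num) (by norm_num)

lemma tsum_ak : ∑' k, ENNReal.ofReal (ak k) = 1 := by
  have h1 : HasSum ak 1 := by
    have := hasSum_geometric_two.mul_left (1 / 2 : ℝ)
    norm_num at this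
    refine this.congr_fun ?_
    intro k
    unfold ak
    rw [pow_succ]
    ring
  rw [← ENNReal.ofReal_tsum_of_nonneg (fun k => (ak_pos k).le) h1.summable, h1.tsum_eq,
    ENNReal.ofReal_one]

/-- the majorant for a cell -/
def Kc (F : Fr) (n : ℕ) (s β : ℝ) (g : T n → ℝ × ℝ) : ℝ≥0∞ :=
  ∑' k : ℕ, (K1 F n (s * ak k ^ 6) (s * ak k ^ 14 / (2 * β ^ 8)) g +
    K2 F n s (s * ak k ^ 6) (s * ak k ^ 14 / (2 * β ^ 8)) g)

/-- the constant -/
def CE : ℝ≥0∞ := (1 + K4) * ENNReal.ofReal (10 ^ 16) + KE * ENNReal.ofReal 1000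

lemma CE_ne : CE ≠ ⊤ := by
  unfold CE
  refine ENNReal.add_ne_top.2 ⟨ENNReal.mul_ne_top (ENNReal.add_ne_top.2 ⟨ENNReal.one_ne_top, K4_ne⟩)
    ENNReal.ofReal_ne_top, ENNReal.mul_ne_top KE_ne ENNReal.ofReal_ne_top⟩

section

variable (F : Fr) {n : ℕ}

lemma small_scale {s : ℝ} (hs0 : 0 < s) {x : ℝ} (hx0 : 0 < x) (hx : x < s) :
    ∃ k, x ∈ Ico (s * ak k ^ 6) (64 * (s * ak k ^ 6)) := by
  have h1 : ∃ k : ℕ, s * ak k ^ 6 ≤ x := by
    obtain ⟨k, hk⟩ := exists_pow_lt_of_lt_one (div_pos hx0 hs0) (by norm_num : (1 / 2 : ℝ) < 1)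
    refine ⟨k, ?_⟩
    have h2 : ak k ^ 6 ≤ (1 / 2) ^ k := by
      unfold ak
      rw [← pow_mul]
      exact pow_le_pow_of_le_one (by norm_num) (by norm_num) (by omega)
    have h3 := (lt_div_iff₀ hs0).1 hk
    nlinarith
  classical
  set k := Nat.find h1 with hk
  have hk1 : s * ak k ^ 6 ≤ x := Nat.find_spec h1
  refine ⟨k, hk1, ?_⟩
  rcases Nat.eq_zero_or_pos k with h0 | h0
  · rw [h0]
    unfold ak
    norm_num
    linarith
  · have h2 := Nat.find_min h1 (m := k - 1) (by omega)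
    push Not at h2
    obtain ⟨m, hm⟩ : ∃ m, k = m + 1 := ⟨k - 1, by omega⟩
    rw [hm] at h2 ⊢
    rw [Nat.add_sub_cancel] at h2
    refine h2.trans_le (le_of_eq ?_)
    unfold ak
    rw [pow_succ (1 / 2 : ℝ) (m + 1)]
    ring

/-- all small orbits of a cell -/
theorem cell_me (hn : 1 ≤ n) (c : T n → ℝ × ℝ) {s : ℝ} (hs0 : 0 < s) (hs : √n * s ≤ F.σ / 128)
    {β : ℝ} (hβ : 1 ≤ β) :
    ME (fun α => ((OL (fld (sc n c)) (Metric.closedBall F.pt (2 * s)) (Iio s) α).encard : ℝ≥0∞))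
      (Kc F n s β (F.g n c)) := by
  have hσ := F.hσ
  have hκs : F.κ n * s ≤ 1 / 128 := by
    unfold Fr.κ
    rw [div_mul_eq_mul_div, div_le_iff₀ hσ]
    linarith
  have hβ0 : 0 < β := by linarith
  have h1 : ∀ k, ME (fun α => ((A1 (fld (sc n c)) (F.B n) (Metric.closedBall F.pt (2 * s))
        (s * ak k ^ 6) (s * ak k ^ 14 / (2 * β ^ 8)) α).encard : ℝ≥0∞) +
      ((A2 (fld (sc n c)) (F.B n) (Metric.closedBall F.pt (2 * s))
        (s * ak k ^ 6) (s * ak k ^ 14 / (2 * β ^ 8)) α).encard : ℝ≥0∞))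
      (K1 F n (s * ak k ^ 6) (s * ak k ^ 14 / (2 * β ^ 8)) (F.g n c) +
        K2 F n s (s * ak k ^ 6) (s * ak k ^ 14 / (2 * β ^ 8)) (F.g n c)) := by
    intro k
    have ha := ak_pos k
    refine (case1 F hn c hs0 hs (by positivity) (by positivity) ?_).add
      (case2 F hn c hs0 hs (by positivity) (by positivity))
    have h2 : ak k ^ 6 ≤ 1 := pow_le_one₀ ha.le (ak_le k)
    have hκ := F.kappa_pos hn
    have h3 : 0 < F.κ n * s := by positivity
    calc F.κ n * (s * ak k ^ 6) = F.κ n * s * ak k ^ 6 := by ring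
      _ ≤ F.κ n * s * 1 := mul_le_mul_of_nonneg_left h2 h3.le
      _ ≤ 1 / 20 := by linarith
  refine (ME.tsum h1).mono (fun α _ => ?_) le_rfl
  have hsub : OL (fld (sc n c)) (Metric.closedBall F.pt (2 * s)) (Iio s) α ⊆ ⋃ k : ℕ,
      (A1 (fld (sc n c)) (F.B n) (Metric.closedBall F.pt (2 * s))
        (s * ak k ^ 6) (s * ak k ^ 14 / (2 * β ^ 8)) α ∪
      A2 (fld (sc n c)) (F.B n) (Metric.closedBall F.pt (2 * s))
        (s * ak k ^ 6) (s * ak k ^ 14 / (2 * β ^ 8)) α) := by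
    rintro C ⟨γ, T', ho, hC, hΩ, hl⟩
    have hpos : 0 < ∫ t in (0:ℝ)..T', winv (fld (sc n c)) (γ t) * H709R2.sq (fld (sc n c) (γ t)) := by
      rw [winv_len (α := α)]
      have hc : Continuous fun t => eu (rf (fld (sc n c)) α (γ t)) :=
        continuous_eu.comp (((continuous_rot α).comp (contDiff_fld (m := 2) (sc n c)).continuous).comp
          (orb_cont ho))
      refine intervalIntegral.intervalIntegral_pos_of_pos (hc.intervalIntegrable _ _) (fun t => ?_)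
        ho.pos
      exact Real.sqrt_pos.2 (H709R2.sq_pos (ho.ne t))
    obtain ⟨k, hk⟩ := small_scale hs0 hpos hl
    rw [mem_iUnion]
    refine ⟨k, ?_⟩
    rcases lt_or_ge (∫ t in (0:ℝ)..T', F.B n (γ t) * H709R2.sq (fld (sc n c) (γ t)))
      (s * ak k ^ 14 / (2 * β ^ 8)) with h2 | h2
    · exact Or.inr ⟨γ, T', ho, hC, hΩ, hk.1, h2⟩
    · exact Or.inl ⟨γ, T', ho, hC, hΩ, hk, h2⟩
  refine (enc_mono hsub).trans ((enc_iUnion _).trans (ENNReal.tsum_le_tsum fun k => enc_union _ _))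

/-- the mean of the majorant of a cell -/
theorem cell_mean (hn : 1 ≤ n) {s : ℝ} (hs0 : 0 < s) (hs : √n * s ≤ F.σ / 128)
    {β : ℝ} (hβ : 1 ≤ β) :
    Measurable (Kc F n s β) ∧ ∫⁻ g, Kc F n s β g ∂GP (T n) ≤
      CE * ENNReal.ofReal (β ^ 16 / F.σ + 1 / β ^ 7) := by
  have hσ := F.hσ
  have hκ := F.kappa_pos hn
  have hκs : F.κ n * s ≤ 1 / 128 := by
    unfold Fr.κ
    rw [div_mul_eq_mul_div, div_le_iff₀ hσ]
    linarith
  have hβ0 : 0 < β := by linarith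
  have hℓ1 : ∀ k, F.κ n * (s * ak k ^ 6) ≤ 1 / 20 := by
    intro k
    have ha := ak_pos k
    have h2 : ak k ^ 6 ≤ 1 := pow_le_one₀ ha.le (ak_le k)
    have h3 : 0 < F.κ n * s := by positivity
    calc F.κ n * (s * ak k ^ 6) = F.κ n * s * ak k ^ 6 := by ring
      _ ≤ F.κ n * s * 1 := mul_le_mul_of_nonneg_left h2 h3.le
      _ ≤ 1 / 20 := by linarith
  have hm1 : ∀ k, Measurable (K1 F n (s * ak k ^ 6) (s * ak k ^ 14 / (2 * β ^ 8))) := fun k => by
    have ha := ak_pos k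
    exact (mean_K1 F hn (by positivity) (by positivity) (hℓ1 k)).1
  have hm2 : ∀ k, Measurable (K2 F n s (s * ak k ^ 6) (s * ak k ^ 14 / (2 * β ^ 8))) := fun k =>
    (mean_K2 F hn hs0).1
  have hm3 : ∀ k, Measurable fun g => K1 F n (s * ak k ^ 6) (s * ak k ^ 14 / (2 * β ^ 8)) g +
      K2 F n s (s * ak k ^ 6) (s * ak k ^ 14 / (2 * β ^ 8)) g := fun k => (hm1 k).add (hm2 k)
  refine ⟨Measurable.tsum hm3, ?_⟩
  unfold Kc
  rw [lintegral_tsum fun k => (hm3 k).aemeasurable]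
  have h1 : ∀ k, ∫⁻ g, (K1 F n (s * ak k ^ 6) (s * ak k ^ 14 / (2 * β ^ 8)) g +
      K2 F n s (s * ak k ^ 6) (s * ak k ^ 14 / (2 * β ^ 8)) g) ∂GP (T n) ≤
      ENNReal.ofReal (ak k) * (CE * ENNReal.ofReal (β ^ 16 / F.σ + 1 / β ^ 7)) := by
    intro k
    have ha := ak_pos k
    set a := ak k with hak
    have ha1 : a ≤ 1 := ak_le k
    rw [lintegral_add_left (hm1 k)]
    have e1 : 2 * 10 ^ 15 * (F.κ n ^ 3 * (s * a ^ 6) ^ 5 / ((s * a ^ 14 / (2 * β ^ 8)) ^ 2 * F.σ)) ≤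
        10 ^ 16 * (a * (β ^ 16 / F.σ)) := by
      have e2 : F.κ n ^ 3 * (s * a ^ 6) ^ 5 / ((s * a ^ 14 / (2 * β ^ 8)) ^ 2 * F.σ) =
          4 * ((F.κ n * s) ^ 3 * a ^ 2 * (β ^ 16 / F.σ)) := by
        field_simp
        ring
      rw [e2]
      have h3 : (F.κ n * s) ^ 3 ≤ 1 := pow_le_one₀ (by positivity) (by linarith)
      have h4 : a ^ 2 ≤ a := by nlinarith
      have h5 : 0 ≤ β ^ 16 / F.σ := by positivity
      have h6 : (F.κ n * s) ^ 3 * a ^ 2 ≤ 1 * a := mul_le_mul h3 h4 (by positivity) (by norm_num)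
      nlinarith [mul_le_mul_of_nonneg_right h6 h5]
    have hJ : J₀ (s * a ^ 6) (s * a ^ 14 / (2 * β ^ 8)) = s * β ^ 7 / (2 * a) := by
      unfold J₀
      have e3 : s * a ^ 6 / (2 * (s * a ^ 14 / (2 * β ^ 8))) = (β / a) ^ 8 := by
        field_simp
      have e4 : ((β / a) ^ 8) ^ (s8 - 1) = (β / a) ^ 7 := by
        rw [← Real.rpow_natCast, ← Real.rpow_mul (by positivity), ← Real.rpow_natCast]
        congr 1
        norm_num [s8]
      rw [e3, e4]
      field_simp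
    have e5 : 1 / J₀ (s * a ^ 6) (s * a ^ 14 / (2 * β ^ 8)) * (576 * F.κ n * s ^ 2) ≤
        1000 * (a * (1 / β ^ 7)) := by
      rw [hJ]
      have e6 : 1 / (s * β ^ 7 / (2 * a)) * (576 * F.κ n * s ^ 2) =
          1152 * (F.κ n * s) * (a * (1 / β ^ 7)) := by
        field_simp
        ring
      rw [e6]
      refine mul_le_mul_of_nonneg_right (by linarith) (by positivity)
    have k1 := (mean_K1 F hn (ℓ := s * a ^ 6) (κ₀ := s * a ^ 14 / (2 * β ^ 8)) (by positivity)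
      (by positivity) (hℓ1 k)).2
    have k2 := (mean_K2 F hn (ℓ := s * a ^ 6) (κ₀ := s * a ^ 14 / (2 * β ^ 8)) hs0).2
    have hJ0 : 0 ≤ 1 / J₀ (s * a ^ 6) (s * a ^ 14 / (2 * β ^ 8)) := by rw [hJ]; positivity
    rw [mul_assoc, ← ENNReal.ofReal_mul hJ0] at k2
    calc _ ≤ (1 + K4) * ENNReal.ofReal (10 ^ 16 * (a * (β ^ 16 / F.σ))) +
          KE * ENNReal.ofReal (1000 * (a * (1 / β ^ 7))) := by
          refine add_le_add (k1.trans ?_) (k2.trans ?_)
          · gcongr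
          · gcongr
      _ ≤ (1 + K4) * ENNReal.ofReal (10 ^ 16 * (a * (β ^ 16 / F.σ + 1 / β ^ 7))) +
          KE * ENNReal.ofReal (1000 * (a * (β ^ 16 / F.σ + 1 / β ^ 7))) := by
          have h7 : 0 ≤ 1 / β ^ 7 := by positivity
          have h8 : 0 ≤ β ^ 16 / F.σ := by positivity
          gcongr
          · linarith
          · linarith
      _ = _ := by
          unfold CE
          rw [ENNReal.ofReal_mul (by positivity), ENNReal.ofReal_mul ha.le,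
            ENNReal.ofReal_mul (by positivity), ENNReal.ofReal_mul ha.le]
          ring
  refine (ENNReal.tsum_le_tsum h1).trans (le_of_eq ?_)
  rw [ENNReal.tsum_mul_right, tsum_ak, one_mul]

end

end

end Pool.Agent.W960.HS
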