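import Pool.Agent.W960.HS.Pt
import Pool.Agent.W960.HR.Det
import Mathlib.Analysis.SpecialFunctions.Complex.Arg

/-! The field near infinity. -/

open Real Set MeasureTheory Topology Filter
open scoped ENNReal

namespace Pool.Agent.W960.HS

noncomputable section

open Pool.Agent.W960.HR (T mem_T GP sn ZC inf_zone norm_sq_le_sq)
open Pool.Agent.H709R2 (wedge rot divRot divW winv ClosedOrbit continuous_rot fld contDiff_fld
  contDiffAt_winv)
open Pool.Agent.H709U (Orb rf)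

variable {n : ℕ}

/-- the field at infinity -/
def Yh (n : ℕ) (c : T n → ℝ × ℝ) (v : ℝ × ℝ) : ℝ × ℝ :=
  (inner ℝ (ev n (0, v)) (c1 c), inner ℝ (ev n (0, v)) (c2 c))

lemma sn_nonneg (c : T n → ℝ × ℝ) : 0 ≤ sn c := by
  rw [sn_eq]; positivity

lemma c1_le (c : T n → ℝ × ℝ) : ‖c1 c‖ ≤ √(sn c) :=
  Real.le_sqrt_of_sq_le (by rw [sn_eq]; nlinarith [sq_nonneg ‖c2 c‖])

lemma c2_le (c : T n → ℝ × ℝ) : ‖c2 c‖ ≤ √(sn c) :=
  Real.le_sqrt_of_sq_le (by rw [sn_eq]; nlinarith [sq_nonneg ‖c1 c‖])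

lemma inner_close (c : T n → ℝ × ℝ) (e e' : EuclideanSpace ℝ (T n)) {d : ℝ} (hd : ‖e - e'‖ ≤ d) :
    ‖((inner ℝ e (c1 c), inner ℝ e (c2 c)) : ℝ × ℝ) - (inner ℝ e' (c1 c), inner ℝ e' (c2 c))‖ ≤
      d * √(sn c) := by
  have hd0 : 0 ≤ d := (norm_nonneg _).trans hd
  rw [Prod.norm_def, max_le_iff]
  simp only [Prod.mk_sub_mk, ← inner_sub_left, Real.norm_eq_abs]
  exact ⟨(abs_real_inner_le_norm _ _).trans (mul_le_mul hd (c1_le c) (norm_nonneg _) hd0),
    (abs_real_inner_le_norm _ _).trans (mul_le_mul hd (c2_le c) (norm_nonneg _) hd0)⟩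

lemma ev_angle (φ ψ : ℝ) : ‖ev n (0, (cos φ, sin φ)) - ev n (0, (cos ψ, sin ψ))‖ ≤ √n * |φ - ψ| := by
  have h1 : ‖ev n (0, (cos φ, sin φ)) - ev n (0, (cos ψ, sin ψ))‖ ^ 2 ≤ (√n * |φ - ψ|) ^ 2 := by
    rw [norm_sub_sq_real, ← real_inner_self_eq_norm_sq, ← real_inner_self_eq_norm_sq, inner_ev,
      inner_ev, inner_ev]
    have e1 : dt3 (0, (cos φ, sin φ)) (0, (cos φ, sin φ)) = 1 := by
      unfold dt3
      have := Real.sin_sq_add_cos_sq φ
      simp only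
      nlinarith
    have e2 : dt3 (0, (cos ψ, sin ψ)) (0, (cos ψ, sin ψ)) = 1 := by
      unfold dt3
      have := Real.sin_sq_add_cos_sq ψ
      simp only
      nlinarith
    have e3 : dt3 (0, (cos φ, sin φ)) (0, (cos ψ, sin ψ)) = cos (φ - ψ) := by
      unfold dt3
      rw [Real.cos_sub]
      simp only
      ring
    rw [e1, e2, e3, one_pow, mul_pow, Real.sq_sqrt (Nat.cast_nonneg _), sq_abs]
    have h2 := Real.one_sub_sq_div_two_le_cos (x := φ - ψ)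
    have h4 := one_add_mul_le_pow (a := cos (φ - ψ) - 1) (by linarith [Real.neg_one_le_cos (φ - ψ)]) n
    have h5 : (1 + (cos (φ - ψ) - 1)) = cos (φ - ψ) := by ring
    rw [h5] at h4
    have hn : (0:ℝ) ≤ n := Nat.cast_nonneg n
    nlinarith [mul_le_mul_of_nonneg_left h2 hn]
  exact (abs_le_of_sq_le_sq' h1 (by positivity)).2

/-- number of directions in the net -/
def Ln (n : ℕ) (y : ℝ) : ℕ := ⌈7 * n ^ 4 * y ^ 8⌉₊

/-- direction in the net -/
def di (L i : ℕ) : ℝ × ℝ := (cos (2 * π * i / L - π), sin (2 * π * i / L - π))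

/-- the good event -/
def GF (n : ℕ) (y : ℝ) : Set (T n → ℝ × ℝ) :=
  {c | sn c ≤ (n * y ^ 2) ^ 2 ∧ ∀ i ∈ Finset.range (Ln n y + 1),
    2 / (n ^ 2 * y ^ 6) ≤ ‖Yh n c (di (Ln n y) i)‖}

/-- lower bound in all directions -/
lemma dir_lower (hn : 1 ≤ n) {y : ℝ} (hy : 1 ≤ y) {c : T n → ℝ × ℝ} (hc : c ∈ GF n y)
    {u : ℝ × ℝ} (hu : u.1 ^ 2 + u.2 ^ 2 = 1) : 1 / (n ^ 2 * y ^ 6) ≤ ‖Yh n c u‖ := by
  have hn1 : (1:ℝ) ≤ n := by exact_mod_cast hn
  have hy0 : 0 < y := by linarith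
  set φ := Complex.arg ⟨u.1, u.2⟩ with hφ
  have habs : ‖(⟨u.1, u.2⟩ : ℂ)‖ = 1 := by
    rw [Complex.norm_eq_sqrt_sq_add_sq]
    simp only
    rw [hu, Real.sqrt_one]
  have hne : (⟨u.1, u.2⟩ : ℂ) ≠ 0 := by
    intro h
    rw [h, norm_zero] at habs
    exact zero_ne_one habs
  have hu1 : u = (cos φ, sin φ) := by
    ext
    · simp only
      rw [hφ, Complex.cos_arg hne, habs, div_one]
    · simp only
      rw [hφ, Complex.sin_arg, habs, div_one]
  set L := Ln n y with hL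
  have hL1 : 7 * (n:ℝ) ^ 4 * y ^ 8 ≤ L := Nat.le_ceil _
  have hL0 : (0:ℝ) < L := lt_of_lt_of_le (by positivity) hL1
  have hφ1 : -π < φ := Complex.neg_pi_lt_arg _
  have hφ2 : φ ≤ π := Complex.arg_le_pi _
  set x := (φ + π) * L / (2 * π) with hx
  have hx0 : 0 ≤ x := by
    have : 0 ≤ φ + π := by linarith
    positivity
  have hxL : x ≤ L := by
    rw [hx, div_le_iff₀ (by positivity)]
    nlinarith [Real.pi_pos]
  set i := ⌊x⌋₊ with hi
  have hi1 : (i:ℝ) ≤ x := Nat.floor_le hx0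
  have hi2 : x < i + 1 := Nat.lt_floor_add_one x
  have hiL : i ∈ Finset.range (L + 1) := by
    rw [Finset.mem_range, Nat.lt_succ_iff]
    have : (i:ℝ) ≤ L := hi1.trans hxL
    exact_mod_cast this
  have hδ : |φ - (2 * π * i / L - π)| ≤ 2 * π / L := by
    have e : φ - (2 * π * i / L - π) = 2 * π / L * (x - i) := by
      rw [hx]
      field_simp
      ring
    rw [e, abs_mul, abs_of_pos (by positivity), abs_of_nonneg (by linarith)]
    have : 0 < 2 * π / L := by positivity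
    nlinarith
  have h1 := inner_close c _ _ (ev_angle (n := n) φ (2 * π * i / L - π))
  have h2 := hc.2 i hiL
  have hsn : √(sn c) ≤ n * y ^ 2 := by
    rw [Real.sqrt_le_left (by positivity)]
    exact hc.1
  have h3 : √n * |φ - (2 * π * i / L - π)| * √(sn c) ≤ 1 / (n ^ 2 * y ^ 6) := by
    have hsq : √(n:ℝ) ≤ n := by
      rw [Real.sqrt_le_left (by linarith)]
      nlinarith
    calc √n * |φ - (2 * π * i / L - π)| * √(sn c) ≤ n * (2 * π / L) * (n * y ^ 2) := by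
          refine mul_le_mul (mul_le_mul hsq hδ (abs_nonneg _) (by linarith)) hsn
            (Real.sqrt_nonneg _) (by positivity)
      _ ≤ 1 / (n ^ 2 * y ^ 6) := by
          rw [le_div_iff₀ (by positivity)]
          have e : n * (2 * π / L) * (n * y ^ 2) * (n ^ 2 * y ^ 6) = 2 * π * (n ^ 4 * y ^ 8) / L := by
            field_simp
          rw [e, div_le_one hL0]
          refine le_trans ?_ hL1
          have : 0 ≤ (n:ℝ) ^ 4 * y ^ 8 := by positivity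
          nlinarith [Real.pi_lt_d2]
  have h4 : Yh n c u = (inner ℝ (ev n (0, (cos φ, sin φ))) (c1 c),
      inner ℝ (ev n (0, (cos φ, sin φ))) (c2 c)) := by rw [hu1]; rfl
  have h5 : Yh n c (di L i) = (inner ℝ (ev n (0, (cos (2 * π * i / L - π), sin (2 * π * i / L - π))))
      (c1 c), inner ℝ (ev n (0, (cos (2 * π * i / L - π), sin (2 * π * i / L - π)))) (c2 c)) := rfl
  rw [← h4, ← h5] at h1
  have h6 := norm_sub_norm_le (Yh n c (di L i)) (Yh n c u)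
  rw [norm_sub_rev] at h6
  have h7 : 2 / ((n:ℝ) ^ 2 * y ^ 6) = 2 * (1 / (n ^ 2 * y ^ 6)) := by ring
  rw [h7] at h2
  linarith [h1.trans h3]

/-- lower bound for the field far away -/
lemma far_lower (hn : 1 ≤ n) {y : ℝ} (hy : 1 ≤ y) {c : T n → ℝ × ℝ} (hc : c ∈ GF n y)
    {p : ℝ × ℝ} (hp : 1000 * (n:ℝ) ^ 4 * y ^ 8 ≤ ‖p‖) :
    sg p ^ n / (2 * (n ^ 2 * y ^ 6)) ≤ ‖fld (sc n c) p‖ := by
  have hn1 : (1:ℝ) ≤ n := by exact_mod_cast hn
  have hy0 : 0 < y := by linarith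
  have hs1 := one_le_sg p
  have hps := norm_le_sg p
  have hbig : 1 ≤ (n:ℝ) ^ 4 * y ^ 8 := by
    have h1 : 1 ≤ (n:ℝ) ^ 4 := one_le_pow₀ hn1
    have h2 : 1 ≤ y ^ 8 := one_le_pow₀ hy
    nlinarith
  set σ := sg p with hσ
  set r := eu p with hr
  have hr0 : 0 < r := by
    have := norm_le_eu p
    rw [← hr] at this
    nlinarith
  have hσr : σ ^ 2 = 1 + r ^ 2 := by rw [hσ, hr, sg_sq, eu_sq]
  set u : ℝ × ℝ := (p.1 / r, p.2 / r) with hu
  have hu1 : u.1 ^ 2 + u.2 ^ 2 = 1 := by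
    rw [hu]
    simp only
    rw [div_pow, div_pow, ← add_div, div_eq_one_iff_eq (by positivity)]
    rw [hr, eu_sq]
    rfl
  have hdir := dir_lower hn hy hc hu1
  have hsn : √(sn c) ≤ n * y ^ 2 := by
    rw [Real.sqrt_le_left (by positivity)]
    exact hc.1
  have hσ0 : 0 < σ := by linarith
  have h1 : ‖(σ ^ n)⁻¹ • ev n (1, p) - ev n (0, u)‖ ≤ 2 * n / σ := by
    have h2 : ‖(σ ^ n)⁻¹ • ev n (1, p) - ev n (0, u)‖ ^ 2 ≤ (2 * n / σ) ^ 2 := by
      rw [norm_sub_sq_real, ← real_inner_self_eq_norm_sq, ← real_inner_self_eq_norm_sq,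
        real_inner_smul_left, real_inner_smul_left, real_inner_smul_right, inner_ev, inner_ev, inner_ev]
      have e1 : dt3 (1, p) (1, p) = σ ^ 2 := by
        unfold dt3
        rw [hσ, sg_sq]
        unfold H709R2.sq
        ring
      have e2 : dt3 (1, p) (0, u) = r := by
        unfold dt3
        simp only [hu]
        have h3 : p.1 ^ 2 + p.2 ^ 2 = r ^ 2 := by rw [hr, eu_sq]; rfl
        field_simp
        linarith
      have e3 : dt3 (0, u) (0, u) = 1 := by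
        unfold dt3
        simp only
        linarith [hu1]
      rw [e1, e2, e3, one_pow]
      have e4 : (σ ^ n)⁻¹ * ((σ ^ n)⁻¹ * (σ ^ 2) ^ n) = 1 := by
        rw [← pow_mul, mul_comm 2 n, pow_mul]
        have : σ ^ n ≠ 0 := by positivity
        field_simp
      have e5 : (σ ^ n)⁻¹ * r ^ n = (r / σ) ^ n := by rw [div_pow]; field_simp
      rw [e4, e5]
      have h4 : 1 - 1 / σ ^ 2 ≤ r / σ := by
        have h5 : 0 ≤ r / σ := by positivity
        have h6 : r / σ ≤ 1 := (div_le_one hσ0).2 (by rw [hσ, hr]; exact eu_le_sg p)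
        have h7 : (r / σ) ^ 2 = 1 - 1 / σ ^ 2 := by
          rw [div_pow, eq_sub_iff_add_eq, ← add_div, div_eq_one_iff_eq (by positivity)]
          linarith
        nlinarith
      have h5 : 1 / σ ^ 2 ≤ 1 := (div_le_one (by positivity)).2 (one_le_pow₀ hs1)
      have h6 := one_add_mul_le_pow (a := -(1 / σ ^ 2)) (by linarith) n
      have h7 : (1 + -(1 / σ ^ 2)) ^ n ≤ (r / σ) ^ n :=
        pow_le_pow_left₀ (by linarith) (by linarith) n
      have h8 : (2 * n / σ) ^ 2 = 4 * n ^ 2 * (1 / σ ^ 2) := by field_simp; norm_num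
      rw [h8]
      have h9 : 0 ≤ 1 / σ ^ 2 := by positivity
      have h10 : (n:ℝ) ≤ n ^ 2 := by nlinarith
      nlinarith [mul_le_mul_of_nonneg_right h10 h9]
    exact (abs_le_of_sq_le_sq' h2 (by positivity)).2
  have h2 := inner_close c _ _ h1
  have h3 : ((inner ℝ ((σ ^ n)⁻¹ • ev n (1, p)) (c1 c), inner ℝ ((σ ^ n)⁻¹ • ev n (1, p)) (c2 c)) :
      ℝ × ℝ) = (σ ^ n)⁻¹ • fld (sc n c) p := by
    ext
    · show inner ℝ ((σ ^ n)⁻¹ • ev n (1, p)) (c1 c) = _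
      rw [Prod.smul_fst, fld_fst, real_inner_smul_left, smul_eq_mul]
    · show inner ℝ ((σ ^ n)⁻¹ • ev n (1, p)) (c2 c) = _
      rw [Prod.smul_snd, fld_snd, real_inner_smul_left, smul_eq_mul]
  have h4 : ((inner ℝ (ev n (0, u)) (c1 c), inner ℝ (ev n (0, u)) (c2 c)) : ℝ × ℝ) = Yh n c u := rfl
  rw [h3, h4] at h2
  have h5 : 2 * n / σ * √(sn c) ≤ 1 / (2 * (n ^ 2 * y ^ 6)) := by
    calc 2 * n / σ * √(sn c) ≤ 2 * n / σ * (n * y ^ 2) := mul_le_mul_of_nonneg_left hsn (by positivity)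
      _ ≤ _ := by
        rw [le_div_iff₀ (by positivity)]
        have e : 2 * n / σ * (n * y ^ 2) * (2 * (n ^ 2 * y ^ 6)) = 4 * (n ^ 4 * y ^ 8) / σ := by
          field_simp; ring
        rw [e, div_le_one hσ0]
        nlinarith
  have h6 := norm_sub_norm_le (Yh n c u) ((σ ^ n)⁻¹ • fld (sc n c) p)
  rw [norm_sub_rev] at h6
  have h7 : 1 / (2 * ((n:ℝ) ^ 2 * y ^ 6)) = 1 / (n ^ 2 * y ^ 6) / 2 := by field_simp
  have h8 : 1 / (2 * ((n:ℝ) ^ 2 * y ^ 6)) ≤ ‖(σ ^ n)⁻¹ • fld (sc n c) p‖ := by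
    rw [h7] at h5 ⊢
    linarith [h2.trans h5]
  rw [norm_smul, Real.norm_eq_abs, abs_of_pos (by positivity)] at h8
  have h9 : 0 < σ ^ n := by positivity
  calc σ ^ n / (2 * ((n:ℝ) ^ 2 * y ^ 6)) = σ ^ n * (1 / (2 * (n ^ 2 * y ^ 6))) := by ring
    _ ≤ σ ^ n * ((σ ^ n)⁻¹ * ‖fld (sc n c) p‖) := mul_le_mul_of_nonneg_left h8 h9.le
    _ = _ := by field_simp

end

end Pool.Agent.W960.HS
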