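import Pool.Agent.W960.HS.Far1

/-! The zone at infinity. -/

open Real Set MeasureTheory Topology Filter
open scoped ENNReal

namespace Pool.Agent.W960.HS

noncomputable section

open Pool.Agent.W960.HR (T mem_T GP sn ZC inf_zone norm_sq_le_sq)
open Pool.Agent.H709R2 (wedge rot divRot divW winv ClosedOrbit continuous_rot fld contDiff_fld
  contDiffAt_winv)
open Pool.Agent.H709U (Orb rf)

namespace Fr

variable (F : Fr) {n : ℕ}

lemma q_pt : F.q F.pt = 1 := by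
  have := F.hσ
  unfold q
  rw [F.D_pt]
  field_simp

lemma dy_radial (hn : 1 ≤ n) (g : T n → ℝ × ℝ) : ‖F.dy n g F.pt F.pt‖ ≤ F.κ n * as g := by
  have hσ := F.hσ
  have hκ := F.kappa_pos hn
  have ha := as_nonneg g
  have h1 : F.dt1 n F.pt F.pt = F.κ n * (F.r / F.σ) := by
    unfold dt1
    rw [_root_.smul_apply, F.X_apply, F.q_pt, F.x_pt, smul_eq_mul]
    ring
  have h2 : F.dt2 n F.pt F.pt = 0 := by
    unfold dt2 η
    rw [_root_.sub_apply, _root_.smul_apply, _root_.smul_apply, F.X_apply, F.Y_apply, F.y_pt]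
    simp
  unfold dy
  rw [h1, h2, zero_smul, add_zero, F.t_pt, norm_smul, Real.norm_eq_abs]
  have h3 : F.r / F.σ ≤ 1 := (div_le_one hσ).2 F.r_le
  have h4 : 0 ≤ F.r / F.σ := div_nonneg F.hr hσ.le
  rw [abs_of_nonneg (by positivity)]
  have h5 := P1_le g hn (t := 0) (by simp)
  refine mul_le_mul ?_ h5 (norm_nonneg _) hκ.le
  nlinarith

lemma D_line (w : ℝ × ℝ) (s : ℝ) : F.D (F.pt + s • w) = F.σ ^ 2 + s * (F.r * F.x w) := by
  have h1 := F.D_pt
  rw [← h1]
  unfold D x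
  simp only [Prod.fst_add, Prod.snd_add, Prod.smul_fst, Prod.smul_snd, smul_eq_mul]
  ring

lemma B_pt : F.B n F.pt = (F.σ ^ n)⁻¹ := by
  have := F.hσ
  unfold B
  rw [F.D_pt, pow_two, div_mul_cancel_left₀ this.ne', inv_pow]

lemma fderiv_B (hn : 1 ≤ n) (w : ℝ × ℝ) :
    fderiv ℝ (F.B n) F.pt w = -(n * (F.r * F.x w) / F.σ ^ 2) * F.B n F.pt := by
  have hσ := F.hσ
  have hD : 0 < F.D F.pt := by rw [F.D_pt]; positivity
  have hB := ((F.contDiffAt_B (m := 1) (n := n) hD).differentiableAt (by norm_num)).hasFDerivAt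
  have hl : HasDerivAt (fun s : ℝ => F.pt + s • w) w 0 := by
    have := ((hasDerivAt_id (0:ℝ)).smul_const w).const_add F.pt
    simpa using this
  have h1 : HasDerivAt (fun s : ℝ => F.B n (F.pt + s • w)) (fderiv ℝ (F.B n) F.pt w) 0 := by
    have hB' : HasFDerivAt (F.B n) (fderiv ℝ (F.B n) F.pt) (F.pt + (0:ℝ) • w) := by
      rw [zero_smul, add_zero]; exact hB
    exact hB'.comp_hasDerivAt 0 hl
  have h2 : HasDerivAt (fun s : ℝ => F.σ ^ 2 + s * (F.r * F.x w)) (F.r * F.x w) 0 := by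
    have := ((hasDerivAt_id (0:ℝ)).mul_const (F.r * F.x w)).const_add (F.σ ^ 2)
    simpa using this
  have h0 : F.σ ^ 2 + 0 * (F.r * F.x w) ≠ 0 := by
    rw [zero_mul, add_zero]; positivity
  have h3 := (((hasDerivAt_const (0:ℝ) F.σ).div h2 h0).pow n)
  have h4 : (fun s : ℝ => F.B n (F.pt + s • w)) =
      ((fun _ : ℝ => F.σ) / fun s : ℝ => F.σ ^ 2 + s * (F.r * F.x w)) ^ n := by
    funext s
    unfold B
    rw [F.D_line]
    rfl
  rw [h4] at h1
  rw [h1.unique h3, F.B_pt]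
  obtain ⟨m, rfl⟩ : ∃ m, n = m + 1 := ⟨n - 1, by omega⟩
  rw [Nat.add_sub_cancel]
  simp only [Pi.div_apply, zero_mul, add_zero, zero_sub]
  have e : F.σ / F.σ ^ 2 = F.σ⁻¹ := by field_simp
  have hm0 : F.σ ^ m ≠ 0 := by positivity
  rw [e, inv_pow, pow_succ]
  push_cast
  field_simp
  ring

lemma DX_eq (hn : 1 ≤ n) (c : T n → ℝ × ℝ) (w : ℝ × ℝ) : fderiv ℝ (fld (sc n c)) F.pt w =
    F.σ ^ n • F.dy n (F.g n c) F.pt w + (n * (F.r * F.x w) / F.σ ^ 2) • fld (sc n c) F.pt := by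
  have hσ := F.hσ
  have hD : 0 < F.D F.pt := by rw [F.D_pt]; positivity
  have hXd' : DifferentiableAt ℝ (fld (sc n c)) F.pt :=
    (contDiff_fld (m := 2) (sc n c)).differentiable (by norm_num) _
  have hBd : DifferentiableAt ℝ (F.B n) F.pt :=
    (F.contDiffAt_B (m := 1) hD).differentiableAt (by norm_num)
  have h1 : fderiv ℝ (fun z => F.B n z • fld (sc n c) z) F.pt w =
      F.B n F.pt • fderiv ℝ (fld (sc n c)) F.pt w +
      (fderiv ℝ (F.B n) F.pt w) • fld (sc n c) F.pt := by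
    rw [fderiv_fun_smul hBd hXd']
    simp
  rw [(F.B_smul_ev hn c hD).fderiv_eq, F.fderiv_yf (F.g n c) hn F.nr_pt, F.fderiv_B hn, F.B_pt] at h1
  rw [h1, smul_add, smul_smul, smul_smul, mul_inv_cancel₀ (by positivity), one_smul]
  have e : F.σ ^ n * (-(n * (F.r * F.x w) / F.σ ^ 2) * (F.σ ^ n)⁻¹) =
      -(n * (F.r * F.x w) / F.σ ^ 2) := by
    have : F.σ ^ n ≠ 0 := by positivity
    field_simp
  rw [e, neg_smul]
  abel

end Fr

variable {n : ℕ}

lemma as_le_norm (g : T n → ℝ × ℝ) : as g ≤ 256 * ‖g‖ := by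
  unfold as
  calc ∑ m : T n, wt m.1 * ‖g m‖ ≤ ∑ m : T n, wt m.1 * ‖g‖ :=
        Finset.sum_le_sum fun m _ => mul_le_mul_of_nonneg_left (norm_le_pi_norm g m) (wt_nonneg _)
    _ = (∑ m : T n, wt m.1) * ‖g‖ := by rw [Finset.sum_mul]
    _ ≤ 256 * ‖g‖ := mul_le_mul_of_nonneg_right sum_wt (norm_nonneg _)

lemma as_g_le (F : Fr) (c : T n → ℝ × ℝ) : as (F.g n c) ≤ 256 * √(sn c) := by
  refine (as_le_norm _).trans (mul_le_mul_of_nonneg_left ?_ (by norm_num))
  refine Real.le_sqrt_of_sq_le ((norm_sq_le_sn _).trans (le_of_eq ?_))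
  exact sn_tr _ _

/-- The conditions near infinity on the good event. -/
theorem far_zc (hn : 1 ≤ n) {y : ℝ} (hy : 1 ≤ y) {c : T n → ℝ × ℝ} (hc : c ∈ GF n y) :
    ZC (fld (sc n c)) 0 (-1) (Real.log (1600 * (n ^ 4 * y ^ 8))) (6200 * (n ^ 4 * y ^ 8)) := by
  have hn1 : (1:ℝ) ≤ n := by exact_mod_cast hn
  have hy0 : 0 < y := by linarith
  set N : ℝ := n ^ 4 * y ^ 8 with hN
  have hbig : 1 ≤ N := by
    have h1 : 1 ≤ (n:ℝ) ^ 4 := one_le_pow₀ hn1
    have h2 : 1 ≤ y ^ 8 := one_le_pow₀ hy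
    nlinarith
  refine inf_zone (k := n) (by positivity) (by positivity) fun z hz => ?_
  have hz1 : 1000 * (n:ℝ) ^ 4 * y ^ 8 ≤ ‖z‖ := by
    have e : 1000 * (n:ℝ) ^ 4 * y ^ 8 = 1000 * N := by rw [hN]; ring
    rw [e]
    by_contra hcon
    push Not at hcon
    have : ‖z‖ ^ 2 < (1000 * N) ^ 2 := pow_lt_pow_left₀ hcon (norm_nonneg _) (by norm_num)
    nlinarith [sq_nonneg N, hbig]
  have hlow := far_lower hn hy hc hz1
  set F := Fq z with hF
  have hpt : F.pt = z := Fq_pt z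
  have hσz : F.σ = sg z := Fq_σ z
  rw [← hσz] at hlow
  have hσ := F.hσ
  have hzσ : ‖z‖ ≤ F.σ := by rw [hσz]; exact norm_le_sg z
  have hrσ := F.r_le
  have hr0 := F.hr
  set X := fld (sc n c) with hX
  set E : ℝ := n ^ 2 * y ^ 6 with hE
  have hE0 : 0 < E := by positivity
  have hX0 : 0 < ‖X z‖ := lt_of_lt_of_le (by positivity) hlow
  have hσn : F.σ ^ n ≤ 2 * E * ‖X z‖ := by
    rw [div_le_iff₀ (by positivity)] at hlow
    linarith
  have hsn : √(sn c) ≤ n * y ^ 2 := by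
    rw [Real.sqrt_le_left (by positivity)]
    exact hc.1
  have has : as (F.g n c) ≤ 256 * (n * y ^ 2) := (as_g_le F c).trans (by linarith)
  have ha0 := as_nonneg (F.g n c)
  have hκ : F.κ n ≤ n / F.σ := by
    unfold Fr.κ
    refine div_le_div_of_nonneg_right ?_ hσ.le
    rw [Real.sqrt_le_left (by linarith)]
    nlinarith
  have hκ0 := F.kappa_pos hn
  have hprod : F.σ ^ n * (F.κ n * as (F.g n c)) ≤ 512 * N * (‖X z‖ / F.σ) := by
    calc F.σ ^ n * (F.κ n * as (F.g n c)) ≤ (2 * E * ‖X z‖) * ((n / F.σ) * (256 * (n * y ^ 2))) := by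
          refine mul_le_mul hσn (mul_le_mul hκ has ha0 (by positivity)) (by positivity) (by positivity)
      _ = 512 * N * (‖X z‖ / F.σ) := by
          rw [hE, hN]
          field_simp
          ring
  refine ⟨norm_pos_iff.1 hX0, fun v => ?_, ?_⟩
  · have h1 : ‖fderiv ℝ X z v‖ ≤ (3072 * N + 2 * n) * (‖X z‖ / F.σ) * ‖v‖ := by
      have h2 := F.DX_eq hn c v
      rw [hpt] at h2
      rw [hX, h2]
      refine (norm_add_le _ _).trans ?_
      rw [norm_smul, norm_smul, Real.norm_eq_abs, Real.norm_eq_abs, abs_of_pos (by positivity)]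
      have h3 : ‖F.dy n (F.g n c) z v‖ ≤ 6 * F.κ n * as (F.g n c) * ‖v‖ := by
        have := F.dy_le (F.g n c) hn (z := F.pt) (w := v) F.nr_pt
        rwa [hpt] at this
      have h4 : |n * (F.r * F.x v) / F.σ ^ 2| ≤ 2 * n / F.σ * ‖v‖ := by
        rw [abs_div, abs_mul, abs_mul, abs_of_nonneg hr0, abs_of_pos (by positivity : 0 < F.σ ^ 2),
          abs_of_nonneg (by positivity : (0:ℝ) ≤ n), div_le_iff₀ (by positivity)]
        have h5 := F.x_le (w := v)
        have e : 2 * n / F.σ * ‖v‖ * F.σ ^ 2 = n * (F.σ * (2 * ‖v‖)) := by field_simp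
        rw [e]
        gcongr
      calc F.σ ^ n * ‖F.dy n (F.g n c) z v‖ + |n * (F.r * F.x v) / F.σ ^ 2| * ‖fld (sc n c) z‖
          ≤ F.σ ^ n * (6 * F.κ n * as (F.g n c) * ‖v‖) + 2 * n / F.σ * ‖v‖ * ‖fld (sc n c) z‖ := by
            gcongr
        _ = 6 * (F.σ ^ n * (F.κ n * as (F.g n c))) * ‖v‖ + 2 * n * (‖X z‖ / F.σ) * ‖v‖ := by
            rw [← hX]; ring
        _ ≤ 6 * (512 * N * (‖X z‖ / F.σ)) * ‖v‖ + 2 * n * (‖X z‖ / F.σ) * ‖v‖ := by gcongr
        _ = _ := by ring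
    have hnN : (n:ℝ) ≤ N := by
      rw [hN]
      have h1 : (n:ℝ) ≤ n ^ 4 := by
        calc (n:ℝ) = n ^ 1 := (pow_one _).symm
          _ ≤ n ^ 4 := pow_le_pow_right₀ hn1 (by norm_num)
      have h2 : 1 ≤ y ^ 8 := one_le_pow₀ hy
      have : (0:ℝ) ≤ n ^ 4 := by positivity
      nlinarith
    calc 2 * ‖fderiv ℝ X z v‖ * ‖z‖ ≤ 2 * ((3072 * N + 2 * n) * (‖X z‖ / F.σ) * ‖v‖) * F.σ := by
          gcongr
      _ = 2 * (3072 * N + 2 * n) * ‖X z‖ * ‖v‖ := by field_simp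
      _ ≤ 6200 * N * ‖X z‖ * ‖v‖ := by
          have h5 : 2 * (3072 * N + 2 * n) ≤ 6200 * N := by linarith
          exact mul_le_mul_of_nonneg_right (mul_le_mul_of_nonneg_right h5 (norm_nonneg _))
            (norm_nonneg _)
  · have h1 : ‖fderiv ℝ X z z - (n:ℝ) • X z‖ ≤ (512 * N + n) * (‖X z‖ / F.σ) := by
      have h2 := F.DX_eq hn c F.pt
      rw [F.x_pt, hpt] at h2
      have e : fderiv ℝ X z z - (n:ℝ) • X z =
          F.σ ^ n • F.dy n (F.g n c) z z + (-(n / F.σ ^ 2)) • X z := by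
        rw [hX, h2, add_sub_assoc, ← sub_smul]
        congr 2
        have : F.r * F.r = F.σ ^ 2 - 1 := by have := F.hσr; nlinarith
        rw [this]
        field_simp
        ring
      rw [e]
      refine (norm_add_le _ _).trans ?_
      rw [norm_smul, norm_smul, Real.norm_eq_abs, Real.norm_eq_abs, abs_of_pos (by positivity),
        abs_neg, abs_of_nonneg (by positivity)]
      have h3 : ‖F.dy n (F.g n c) z z‖ ≤ F.κ n * as (F.g n c) := by
        have := F.dy_radial hn (F.g n c)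
        rwa [hpt] at this
      have h4 : n / F.σ ^ 2 * ‖X z‖ ≤ n * (‖X z‖ / F.σ) := by
        have : n / F.σ ^ 2 ≤ n / F.σ := by
          refine div_le_div_of_nonneg_left (by positivity) hσ ?_
          have := F.one_le
          nlinarith
        calc n / F.σ ^ 2 * ‖X z‖ ≤ n / F.σ * ‖X z‖ := mul_le_mul_of_nonneg_right this (norm_nonneg _)
          _ = _ := by ring
      calc F.σ ^ n * ‖F.dy n (F.g n c) z z‖ + n / F.σ ^ 2 * ‖X z‖
          ≤ F.σ ^ n * (F.κ n * as (F.g n c)) + n * (‖X z‖ / F.σ) := by gcongr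
        _ ≤ 512 * N * (‖X z‖ / F.σ) + n * (‖X z‖ / F.σ) := by gcongr
        _ = _ := by ring
    have hnN : (n:ℝ) ≤ N := by
      rw [hN]
      have h1 : (n:ℝ) ≤ n ^ 4 := by
        calc (n:ℝ) = n ^ 1 := (pow_one _).symm
          _ ≤ n ^ 4 := pow_le_pow_right₀ hn1 (by norm_num)
      have h2 : 1 ≤ y ^ 8 := one_le_pow₀ hy
      have : (0:ℝ) ≤ n ^ 4 := by positivity
      nlinarith
    calc ‖fderiv ℝ X z z - (n:ℝ) • X z‖ * (3 * ‖z‖) ≤ (512 * N + n) * (‖X z‖ / F.σ) * (3 * F.σ) := by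
          gcongr
      _ = 3 * (512 * N + n) * ‖X z‖ := by field_simp
      _ ≤ 1600 * N * ‖X z‖ := by
          have h5 : 3 * (512 * N + n) ≤ 1600 * N := by linarith
          exact mul_le_mul_of_nonneg_right h5 (norm_nonneg _)

end

end Pool.Agent.W960.HS
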