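import Pool.Agent.W960.HS.Far2
import Pool.Agent.H709U.Top

/-! Closed orbits reaching far away. -/

open Real Set MeasureTheory Topology Filter
open scoped ENNReal

namespace Pool.Agent.W960.HS

noncomputable section

open Pool.Agent.W960.HR (T mem_T GP sn ZC zone lg_le_iff le_lg_iff hasDerivAt_lg)
open Pool.Agent.H709R2 (wedge rot divRot divW winv ClosedOrbit continuous_rot fld contDiff_fld
  contDiffAt_winv field contDiff_field sq_rot exists_poly)
open Pool.Agent.H709U (Orb rf chi h4_exhaust h4Box h4Box_compact mb m0 h1 h2 lg)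
open Pool.Agent.H709U.H3 (part cont_sq' sq_sub_ge)
open Pool.Agent.H709Q (Maj)

/-- weighted length of a curve which leaves a disc -/
lemma chi_len {γ γ' : ℝ → ℝ × ℝ} {T : ℝ} (hT : 0 < T) (hd : ∀ t, HasDerivAt γ (γ' t) t)
    (hc : Continuous γ') (hper : ∀ t, γ (t + T) = γ t) {p : ℝ × ℝ} {R : ℝ} (hR : 0 < R) {t₁ : ℝ}
    (ht1' : H709R2.sq (γ t₁ - p) ≤ R ^ 2)
    (hy : ∃ y ∈ range γ, (R / 5) ^ 2 ≤ H709R2.sq (y - γ t₁)) :
    R / 200 ≤ ∫ t in (0:ℝ)..T, chi p R (γ t) * √(H709R2.sq (γ' t)) := by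
  have hγ : Continuous γ := continuous_iff_continuousAt.2 fun t => (hd t).continuousAt
  have hper' : ∀ t, γ' (t + T) = γ' t := by
    intro t
    have h1 : HasDerivAt (fun s => γ (s + T)) (γ' (t + T)) t := by
      simpa using (hd (t + T)).comp_add_const t T
    have h2 : (fun s => γ (s + T)) = γ := funext hper
    rw [h2] at h1
    exact h1.unique (hd t)
  have hP : Function.Periodic (fun t => chi p R (γ t) * √(H709R2.sq (γ' t))) T := by
    intro t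
    simp only [hper, hper']
  have hshift : ∫ t in (0:ℝ)..T, chi p R (γ t) * √(H709R2.sq (γ' t)) =
      ∫ t in t₁..(t₁ + T), chi p R (γ t) * √(H709R2.sq (γ' t)) := by
    have := hP.intervalIntegral_add_eq 0 t₁
    rwa [zero_add] at this
  have hgoal : ∀ s, t₁ ≤ s → s ≤ t₁ + T → (∀ t ∈ Ioo t₁ s, H709R2.sq (γ t - p) ≤ 4 * R ^ 2) →
      (R / 5) ^ 2 ≤ H709R2.sq (γ s - γ t₁) →
      R / 200 ≤ ∫ t in (0:ℝ)..T, chi p R (γ t) * √(H709R2.sq (γ' t)) := by
    intro s h1 h2 h3 h4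
    rw [hshift]
    have h5 := part hd hc hR h1 h2 h3
    have h6 : R / 5 ≤ √(H709R2.sq (γ s - γ t₁)) := Real.le_sqrt_of_sq_le h4
    linarith
  by_cases hcase : ∀ t ∈ Icc t₁ (t₁ + T), H709R2.sq (γ t - p) ≤ 4 * R ^ 2
  · obtain ⟨y, ⟨s, rfl⟩, hs⟩ := hy
    obtain ⟨s', hs', hss⟩ := Function.Periodic.exists_mem_Ico (f := γ) hper hT s t₁
    rw [hss] at hs
    exact hgoal s' hs'.1 hs'.2.le (fun t ht => hcase t ⟨ht.1.le, (ht.2.trans hs'.2).le⟩) hs
  · push Not at hcase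
    obtain ⟨t₂, ht2, ht2'⟩ := hcase
    set S : Set ℝ := Icc t₁ t₂ ∩ {t | 4 * R ^ 2 ≤ H709R2.sq (γ t - p)} with hS
    have hScomp : IsCompact S := isCompact_Icc.inter_right
      (isClosed_le continuous_const (cont_sq'.comp (hγ.sub continuous_const)))
    have hSne : S.Nonempty := ⟨t₂, ⟨ht2.1, le_rfl⟩, ht2'.le⟩
    obtain ⟨t₃, ht3, hmin⟩ := hScomp.exists_isLeast hSne
    refine hgoal t₃ ht3.1.1 (ht3.1.2.trans ht2.2) (fun t ht => ?_) ?_
    · by_contra hcon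
      push Not at hcon
      have : t₃ ≤ t := hmin ⟨⟨ht.1.le, ht.2.le.trans ht3.1.2⟩, hcon.le⟩
      linarith [ht.2]
    · have h1 := sq_sub_ge hR (a := γ t₃ - p) (b := γ t₁ - p) ht3.2 ht1'
      have h2 : γ t₃ - p - (γ t₁ - p) = γ t₃ - γ t₁ := by abel
      rw [h2] at h1
      nlinarith [sq_nonneg R]

/-- closed orbits which leave a disc -/
theorem cross_maj {P Q : MvPolynomial (Fin 2) ℝ} {n : ℕ} (hP : P.totalDegree ≤ n)
    (hQ : Q.totalDegree ≤ n) {ρ : ℝ} (hρ : 0 < ρ) :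
    Maj (fun α => ({C | ClosedOrbit (rf (field P Q) α) C ∧ (∃ z ∈ C, H709R2.sq z ≤ ρ ^ 2 ∧
      ∃ y ∈ C, (ρ / 5) ^ 2 ≤ H709R2.sq (y - z))}.encard : ℝ≥0∞)) (8000 * (n + 1)) := by
  set X := field P Q with hX
  have hXc : ContDiff ℝ 2 X := contDiff_field P Q
  have key := h4_exhaust (fun α => rf X α)
    (fun α C => ∃ z ∈ C, H709R2.sq z ≤ ρ ^ 2 ∧ ∃ y ∈ C, (ρ / 5) ^ 2 ≤ H709R2.sq (y - z))
    (8000 * (n + 1)) ?_
  · exact key
  intro m
  obtain ⟨hm1, hm2⟩ := h2 n P Q hP hQ 0 ρ hρ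
  have hw : ∀ z, X z ≠ 0 → ContDiffAt ℝ 1 (fun z => chi 0 ρ z * winv X z) z := fun z hz =>
    (h1 X hXc 0 z ρ 0 hρ hz).1
  obtain ⟨g, hg1, hg2, hg3⟩ := mb X hXc (fun z => chi 0 ρ z * winv X z) hw (h4Box m)
    (h4Box_compact m) _ hm1 (ρ / 200) (by positivity) (by
      intro α _ z _ hz
      exact ENNReal.ofReal_le_ofReal (h1 X hXc 0 z ρ α hρ hz).2)
  refine ⟨g, hg1, ?_, ?_⟩
  · intro α hα
    refine le_trans ?_ (hg2 α hα)
    apply ENat.toENNReal_mono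
    apply encard_le_encard
    rintro C ⟨hC1, ⟨z, hz, hz1, y, hy, hy1⟩, hC4⟩
    obtain ⟨γ, T, hγ, rfl⟩ := m0 X hXc α C hC1
    refine ⟨γ, T, hγ, rfl, hC4, ?_⟩
    have hγc : Continuous γ := continuous_iff_continuousAt.2 fun t => (hγ.ode t).continuousAt
    have hYc : Continuous fun t => rf X α (γ t) :=
      (continuous_rot α).comp (hXc.continuous.comp hγc)
    obtain ⟨t₀, rfl⟩ := hz
    have h3 := chi_len hγ.pos hγ.ode hYc hγ.per (p := 0) hρ (t₁ := t₀)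
      (by rw [sub_zero]; exact hz1) ⟨y, hy, hy1⟩
    refine h3.trans (le_of_eq ?_)
    congr 1
    funext t
    have hr : H709R2.sq (rf X α (γ t)) = H709R2.sq (X (γ t)) := sq_rot _ _
    rw [hr]
    unfold winv
    rw [mul_assoc]
    congr 1
    rw [← div_eq_inv_mul, Real.div_sqrt]
  · refine (setLIntegral_le_lintegral _ _).trans (hg3.trans ?_)
    refine (mul_le_mul_right ((setLIntegral_le_lintegral _ _).trans hm2) _).trans ?_
    rw [← ENNReal.ofReal_mul (by positivity)]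
    apply ENNReal.ofReal_le_ofReal
    have e1 : 1 / (ρ / 200) * ((2 * n + 4) * π ^ 2 * ρ) = 200 * (2 * n + 4) * π ^ 2 := by
      field_simp
    rw [e1]
    have hpi : π ^ 2 ≤ 9.9225 := by
      have h1 := Real.pi_lt_d2
      have h0 := Real.pi_pos
      nlinarith
    have hn : (0 : ℝ) ≤ n := Nat.cast_nonneg n
    nlinarith [mul_le_mul_of_nonneg_left hpi (by positivity : (0:ℝ) ≤ 200 * (2 * n + 4))]

variable {n : ℕ}

lemma me_of_maj {N : ℝ → ℝ≥0∞} {K : ℝ} (h : Maj N K) : ME N (ENNReal.ofReal K) := h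

/-- closed orbits reaching far away, on the good event -/
theorem far_me (hn : 1 ≤ n) {y : ℝ} (hy : 1 ≤ y) {c : T n → ℝ × ℝ} (hc : c ∈ GF n y) {W : ℝ}
    (hW : 4 * (1600 * (n ^ 4 * y ^ 8) * (6200 * (n ^ 4 * y ^ 8))) ≤ W) :
    ME (fun α => ({C | ClosedOrbit (rf (fld (sc n c)) α) C ∧ ∃ z ∈ C, W < ‖z‖}.encard : ℝ≥0∞))
      (ENNReal.ofReal 4000 + ENNReal.ofReal (8000 * (n + 1))) := by
  have hn1 : (1:ℝ) ≤ n := by exact_mod_cast hn
  have hzc := far_zc hn hy hc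
  set N : ℝ := n ^ 4 * y ^ 8 with hN
  have hbig : 1 ≤ N := by
    have h1 : 1 ≤ (n:ℝ) ^ 4 := one_le_pow₀ hn1
    have h2 : 1 ≤ y ^ 8 := one_le_pow₀ hy
    nlinarith
  obtain ⟨P, Q, hP, hQ, hPQ⟩ := exists_poly (sc n c)
  have hdeg : (T n).sup (fun m => m.1 + m.2) ≤ n := Finset.sup_le fun m hm => mem_T.1 hm
  set R : ℝ := 1600 * N with hR
  set Λ : ℝ := 6200 * N with hΛ
  have hR0 : 0 < R := by positivity
  have hΛ1 : 1 ≤ Λ := by rw [hΛ]; linarith
  have hΛ0 : 0 < Λ := by linarith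
  have hX2 : ContDiff ℝ 2 (fld (sc n c)) := contDiff_fld _
  have m1 := me_of_maj (zone hX2 (Or.inr rfl) hΛ1 hzc)
  have m2 := me_of_maj (cross_maj (hP.trans hdeg) (hQ.trans hdeg) (ρ := 2 * (R * Λ)) (by positivity))
  rw [hPQ] at m2
  refine (m1.add m2).mono (fun α hα => ?_) le_rfl
  refine (enc_mono ?_).trans (enc_union _ _)
  rintro C ⟨hC, w, hw, hwW⟩
  have heu : ∀ z : ℝ × ℝ, H709R2.sq z = eu z ^ 2 := fun z => (eu_sq z).symm
  by_cases hfar : ∀ z ∈ C, (R * Λ) ^ 2 ≤ H709R2.sq z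
  · left
    have h0C : (0 : ℝ × ℝ) ∉ C := by
      intro h
      have := hfar 0 h
      unfold H709R2.sq at this
      simp at this
      rcases this with h2 | h2 <;> linarith
    refine ⟨hC, h0C, fun z hz => ?_⟩
    have hz0 : z ≠ 0 := fun h => h0C (h ▸ hz)
    have h1 : Real.log (R * Λ) ≤ lg 0 z := by
      rw [le_lg_iff hz0 (by positivity), sub_zero]
      exact hfar z hz
    rw [Real.log_mul hR0.ne' hΛ0.ne'] at h1
    linarith
  · right
    push Not at hfar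
    obtain ⟨z₀, hz₀, hz₀s⟩ := hfar
    refine ⟨hC, ?_⟩
    obtain ⟨γ, T', hO, hCr⟩ := m0 (fld (sc n c)) hX2 α C hC
    have hγc : Continuous γ := orb_cont hO
    have hec : Continuous fun t => eu (γ t) := continuous_eu.comp hγc
    have h1 : eu z₀ ≤ 2 * (R * Λ) := by
      have h2 : eu z₀ < R * Λ := by
        unfold eu
        rw [Real.sqrt_lt' (by positivity)]
        exact hz₀s
      have : 0 < R * Λ := by positivity
      linarith
    have h2 : 4 * (R * Λ) < eu w := by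
      have := norm_le_eu w
      linarith
    rw [hCr] at hw hz₀
    obtain ⟨s, rfl⟩ := hw
    obtain ⟨t, rfl⟩ := hz₀
    have hRL : 0 < R * Λ := by positivity
    obtain ⟨u, hu⟩ := mem_range_of_exists_le_of_exists_ge hec ⟨t, h1⟩
      ⟨s, show 2 * (R * Λ) ≤ eu (γ s) by linarith⟩
    have hu' : eu (γ u) = 2 * (R * Λ) := hu
    refine ⟨γ u, by rw [hCr]; exact ⟨u, rfl⟩, ?_, γ s, by rw [hCr]; exact ⟨s, rfl⟩, ?_⟩
    · rw [heu, hu']
    · have h3 := sq_sub_ge (a := γ s) (b := γ u) (R := 2 * (R * Λ)) (by positivity)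
        (by rw [heu]; nlinarith) (by rw [heu, hu'])
      nlinarith [sq_nonneg (R * Λ)]

end

end Pool.Agent.W960.HS
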