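import Pool.Agent.W960.HS.Loc2
import Pool.Agent.W960.HR.Law

/-! Gaussian estimates in a chart. -/

open Real Set MeasureTheory Topology Filter ProbabilityTheory
open scoped ENNReal

namespace Pool.Agent.W960.HS

noncomputable section

open Pool.Agent.W960.HR (T mem_T GP resample g2_le volume_ball_le)
open Pool.Agent.H709R2 (fld g2)

variable {n : ℕ}

/-- index of the constant term -/
def o (n : ℕ) : T n := ⟨(0, 0), mem_T.2 (by simp)⟩

lemma wt_o : wt (o n).1 = 0 := by simp [wt, o]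

lemma as_update (g : T n → ℝ × ℝ) (v : ℝ × ℝ) : as (Function.update g (o n) v) = as g := by
  unfold as
  refine Finset.sum_congr rfl fun m _ => ?_
  by_cases h : m = o n
  · rw [h, wt_o, zero_mul, zero_mul]
  · rw [Function.update_of_ne h]

lemma Ph_update (g : T n → ℝ × ℝ) (v t : ℝ × ℝ) :
    Ph n (Function.update g (o n) v) t = v + (Ph n g t - g (o n)) := by
  classical
  unfold Ph
  have hb : bt n (o n).1 * (t.1 ^ (o n).1.1 * t.2 ^ (o n).1.2) = 1 := by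
    simp [o, bt_zero]
  rw [← Finset.add_sum_erase Finset.univ _ (Finset.mem_univ (o n)),
    ← Finset.add_sum_erase Finset.univ (fun m : T n => (bt n m.1 * (t.1 ^ m.1.1 * t.2 ^ m.1.2)) • g m)
      (Finset.mem_univ (o n))]
  simp only [Function.update_self, hb, one_smul, add_sub_cancel_left]
  congr 1
  refine Finset.sum_congr rfl fun i hi => ?_
  rw [Function.update_of_ne (Finset.ne_of_mem_erase hi)]

lemma continuous_as : Continuous (as (n := n)) := by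
  unfold as
  fun_prop

lemma continuous_Ph : Continuous fun q : (T n → ℝ × ℝ) × (ℝ × ℝ) => Ph n q.1 q.2 := by
  unfold Ph
  fun_prop

/-- integration over the constant term -/
lemma cond {Ψ : ℝ → ℝ × ℝ → ℝ≥0∞} (hΨ : Measurable (Function.uncurry Ψ)) {K : ℝ → ℝ≥0∞}
    (hK : ∀ a, 0 ≤ a → ∀ b, ∫⁻ v, Ψ a (v + b) ∂g2 ≤ K a) (t : ℝ × ℝ) :
    ∫⁻ g, Ψ (as g) (Ph n g t) ∂GP (T n) ≤ ∫⁻ g, K (as g) ∂GP (T n) := by
  have hm : Measurable fun g : T n → ℝ × ℝ => Ψ (as g) (Ph n g t) := by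
    have h1 : Continuous fun g : T n → ℝ × ℝ => Ph n g t :=
      continuous_Ph.comp (continuous_id.prodMk continuous_const)
    exact hΨ.comp (continuous_as.measurable.prodMk h1.measurable)
  have h1 := resample (fun _ : T n => g2) hm (o n)
  have h2 : ∫⁻ g, Ψ (as g) (Ph n g t) ∂GP (T n) =
      ∫⁻ g, (∫⁻ w, Ψ (as (Function.update g (o n) w)) (Ph n (Function.update g (o n) w) t) ∂g2)
        ∂GP (T n) := h1
  rw [h2]
  refine lintegral_mono fun g => ?_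
  simp only [as_update, Ph_update]
  exact hK _ (as_nonneg g) _

/-- the sum of the weights -/
lemma sum_wt : ∑ m : T n, wt m.1 ≤ 256 := by
  rw [Finset.sum_coe_sort (T n) wt]
  have h1 : ∀ m : ℕ × ℕ, wt m ≤ 64 * ((1 / 2) ^ m.1 * (1 / 2) ^ m.2) := by
    intro m
    unfold wt
    have h2 : ∀ k : ℕ, ((k:ℝ)) ^ 2 ≤ 4 ^ k := by
      intro k
      induction k with
      | zero => norm_num
      | succ k ih =>
        rcases Nat.eq_zero_or_pos k with h | h
        · rw [h]; norm_num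
        · have h3 : (1:ℝ) ≤ k := by exact_mod_cast h
          push_cast
          rw [pow_succ (4:ℝ) k]
          nlinarith
    have h3 := h2 (m.1 + m.2)
    push_cast at h3
    have h4 : ((1:ℝ) / 8) ^ (m.1 + m.2) = (1 / 4) ^ (m.1 + m.2) * (1 / 2) ^ (m.1 + m.2) := by
      rw [← mul_pow]; norm_num
    rw [h4, ← pow_add]
    have h5 : (4:ℝ) ^ (m.1 + m.2) * (1 / 4) ^ (m.1 + m.2) = 1 := by
      rw [← mul_pow]; norm_num
    calc 64 * ((m.1:ℝ) + m.2) ^ 2 * ((1 / 4) ^ (m.1 + m.2) * (1 / 2) ^ (m.1 + m.2)) ≤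
          64 * 4 ^ (m.1 + m.2) * ((1 / 4) ^ (m.1 + m.2) * (1 / 2) ^ (m.1 + m.2)) := by gcongr
      _ = 64 * (4 ^ (m.1 + m.2) * (1 / 4) ^ (m.1 + m.2)) * (1 / 2) ^ (m.1 + m.2) := by ring
      _ = _ := by rw [h5, mul_one]
  have h2 : T n ⊆ Finset.range (n + 1) ×ˢ Finset.range (n + 1) := Finset.filter_subset _ _
  have hg : ∑ i ∈ Finset.range (n + 1), ((1:ℝ) / 2) ^ i ≤ 2 := by
    have h := summable_geometric_two.sum_le_tsum (Finset.range (n + 1)) (fun i _ => by positivity)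
    rwa [tsum_geometric_two] at h
  calc ∑ m ∈ T n, wt m ≤ ∑ m ∈ Finset.range (n + 1) ×ˢ Finset.range (n + 1), wt m :=
        Finset.sum_le_sum_of_subset_of_nonneg h2 fun m _ _ => wt_nonneg m
    _ ≤ ∑ m ∈ Finset.range (n + 1) ×ˢ Finset.range (n + 1), 64 * ((1 / 2) ^ m.1 * (1 / 2) ^ m.2) :=
        Finset.sum_le_sum fun m _ => h1 m
    _ = 64 * ((∑ i ∈ Finset.range (n + 1), ((1:ℝ) / 2) ^ i) *
        ∑ i ∈ Finset.range (n + 1), ((1:ℝ) / 2) ^ i) := by
        rw [Finset.sum_product, Finset.sum_mul_sum, Finset.mul_sum]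
        refine Finset.sum_congr rfl fun i _ => ?_
        rw [Finset.mul_sum]
    _ ≤ 64 * (2 * 2) := by gcongr
    _ = 256 := by norm_num

/-- fourth moment in the plane -/
def M4 : ℝ≥0∞ := ∫⁻ v, ENNReal.ofReal (‖v‖ ^ 4) ∂g2

lemma M4_ne : M4 ≠ ∞ := by
  have h1 : Integrable (fun x : ℝ => ‖x‖ ^ 4) (gaussianReal 0 1) := by
    have := (memLp_id_gaussianReal (μ := 0) (v := 1) 4).integrable_norm_pow (by norm_num)
    simpa using this
  have h2 : Integrable (fun v : ℝ × ℝ => ‖v.1‖ ^ 4) g2 := h1.comp_fst _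
  have h3 : Integrable (fun v : ℝ × ℝ => ‖v.2‖ ^ 4) g2 := h1.comp_snd _
  have h4 := (h2.add h3).lintegral_lt_top
  refine (lt_of_le_of_lt (lintegral_mono fun v => ENNReal.ofReal_le_ofReal ?_) h4).ne
  have h5 : ‖v‖ ^ 4 ≤ ‖v.1‖ ^ 4 + ‖v.2‖ ^ 4 := by
    rw [Prod.norm_def]
    rcases le_total ‖v.1‖ ‖v.2‖ with h | h
    · rw [max_eq_right h]; have : 0 ≤ ‖v.1‖ ^ 4 := by positivity
      linarith
    · rw [max_eq_left h]; have : 0 ≤ ‖v.2‖ ^ 4 := by positivity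
      linarith
  exact h5

lemma as_pow4 (g : T n → ℝ × ℝ) : as g ^ 4 ≤ 256 ^ 3 * ∑ m : T n, wt m.1 * ‖g m‖ ^ 4 := by
  have h0 : 0 ≤ ∑ m : T n, wt m.1 := Finset.sum_nonneg fun m _ => wt_nonneg _
  have h1 : as g ^ 2 ≤ (∑ m : T n, wt m.1) * ∑ m : T n, wt m.1 * ‖g m‖ ^ 2 :=
    Finset.sum_sq_le_sum_mul_sum_of_sq_le_mul _ (fun m _ => wt_nonneg _)
      (fun m _ => mul_nonneg (wt_nonneg _) (by positivity)) fun m _ => le_of_eq (by ring)
  have h2 : (∑ m : T n, wt m.1 * ‖g m‖ ^ 2) ^ 2 ≤ (∑ m : T n, wt m.1) *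
      ∑ m : T n, wt m.1 * ‖g m‖ ^ 4 :=
    Finset.sum_sq_le_sum_mul_sum_of_sq_le_mul _ (fun m _ => wt_nonneg _)
      (fun m _ => mul_nonneg (wt_nonneg _) (by positivity)) fun m _ => le_of_eq (by ring)
  have h3 : 0 ≤ ∑ m : T n, wt m.1 * ‖g m‖ ^ 4 :=
    Finset.sum_nonneg fun m _ => mul_nonneg (wt_nonneg _) (by positivity)
  have h4 : 0 ≤ ∑ m : T n, wt m.1 * ‖g m‖ ^ 2 :=
    Finset.sum_nonneg fun m _ => mul_nonneg (wt_nonneg _) (by positivity)
  have hW := sum_wt (n := n)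
  calc as g ^ 4 = (as g ^ 2) ^ 2 := by ring
    _ ≤ ((∑ m : T n, wt m.1) * ∑ m : T n, wt m.1 * ‖g m‖ ^ 2) ^ 2 :=
        pow_le_pow_left₀ (sq_nonneg _) h1 2
    _ = (∑ m : T n, wt m.1) ^ 2 * (∑ m : T n, wt m.1 * ‖g m‖ ^ 2) ^ 2 := by ring
    _ ≤ (∑ m : T n, wt m.1) ^ 2 * ((∑ m : T n, wt m.1) * ∑ m : T n, wt m.1 * ‖g m‖ ^ 4) :=
        mul_le_mul_of_nonneg_left h2 (by positivity)
    _ = (∑ m : T n, wt m.1) ^ 3 * ∑ m : T n, wt m.1 * ‖g m‖ ^ 4 := by ring
    _ ≤ 256 ^ 3 * ∑ m : T n, wt m.1 * ‖g m‖ ^ 4 :=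
        mul_le_mul_of_nonneg_right (pow_le_pow_left₀ h0 hW 3) h3

/-- uniform bound for the fourth moment of `as` -/
def K4 : ℝ≥0∞ := ENNReal.ofReal (256 ^ 4) * M4

lemma K4_ne : K4 ≠ ∞ := ENNReal.mul_ne_top ENNReal.ofReal_ne_top M4_ne

lemma as4 : ∫⁻ g, ENNReal.ofReal (as g ^ 4) ∂GP (T n) ≤ K4 := by
  have hm : ∀ m : T n, Measurable fun g : T n → ℝ × ℝ => ENNReal.ofReal (‖g m‖ ^ 4) := fun m => by
    fun_prop
  calc ∫⁻ g, ENNReal.ofReal (as g ^ 4) ∂GP (T n)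
      ≤ ∫⁻ g, ENNReal.ofReal (256 ^ 3) * ∑ m : T n, ENNReal.ofReal (wt m.1) *
          ENNReal.ofReal (‖g m‖ ^ 4) ∂GP (T n) := by
        refine lintegral_mono fun g => ?_
        refine (ENNReal.ofReal_le_ofReal (as_pow4 g)).trans (le_of_eq ?_)
        rw [ENNReal.ofReal_mul (by norm_num), ENNReal.ofReal_sum_of_nonneg fun m _ =>
          mul_nonneg (wt_nonneg _) (by positivity)]
        congr 1
        refine Finset.sum_congr rfl fun m _ => ?_
        rw [ENNReal.ofReal_mul (wt_nonneg _)]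
    _ = ENNReal.ofReal (256 ^ 3) * ∑ m : T n, ENNReal.ofReal (wt m.1) * M4 := by
        rw [lintegral_const_mul _ (by fun_prop), lintegral_finsetSum _ fun m _ => by fun_prop]
        congr 1
        refine Finset.sum_congr rfl fun m _ => ?_
        rw [lintegral_const_mul _ (hm m)]
        congr 1
        have h1 := (measurePreserving_eval (fun _ : T n => g2) m).lintegral_comp
          (f := fun v : ℝ × ℝ => ENNReal.ofReal (‖v‖ ^ 4)) (by fun_prop)
        exact h1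
    _ ≤ K4 := by
        rw [← Finset.sum_mul, ← mul_assoc]
        unfold K4
        refine mul_le_mul_left ?_ _
        rw [← ENNReal.ofReal_sum_of_nonneg fun m _ => wt_nonneg _, ← ENNReal.ofReal_mul (by norm_num)]
        apply ENNReal.ofReal_le_ofReal
        have := sum_wt (n := n)
        nlinarith

end

end Pool.Agent.W960.HS
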