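import Pool.Agent.W960.HS.Far1
import Pool.Agent.W960.HS.GE
import Pool.Agent.W960.HR.Near

/-! The probability of the good event. -/

open Real Set MeasureTheory Topology Filter
open scoped ENNReal

namespace Pool.Agent.W960.HS

noncomputable section

open Pool.Agent.W960.HR (T mem_T GP sn mean_sn full_T card_le g2_le volume_ball_le)
open Pool.Agent.H709R2 (g2)

variable {n : ℕ}

lemma inner_e0 (v : EuclideanSpace ℝ (T n)) : inner ℝ (ev n (1, (0, 0))) v = v (o n) := by
  rw [PiLp.inner_apply, Finset.sum_eq_single (o n)]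
  · simp only [ev, o, RCLike.inner_apply, conj_trivial]
    have : sm n (0, 0) = 1 := by unfold sm; rw [mlt_zero, Real.sqrt_one]
    rw [this]
    simp
  · intro m _ hm
    have h1 : m.1.1 ≠ 0 ∨ m.1.2 ≠ 0 := by
      by_contra hcon
      push Not at hcon
      apply hm
      apply Subtype.ext
      exact Prod.ext hcon.1 hcon.2
    simp only [ev, RCLike.inner_apply, conj_trivial]
    rcases h1 with h1 | h1
    · rw [zero_pow h1]; simp
    · rw [zero_pow h1]; simp
  · intro h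
    exact absurd (Finset.mem_univ _) h

lemma Yh_law {u : ℝ × ℝ} (hu : u.1 ^ 2 + u.2 ^ 2 = 1) :
    ∃ O : EuclideanSpace ℝ (T n) →ₗᵢ[ℝ] EuclideanSpace ℝ (T n),
      ∀ c, Yh n c u = tr O c (o n) := by
  obtain ⟨O, hO⟩ := gram (ι := Unit) (fun _ => ev n (0, u)) (fun _ => ev n (1, (0, 0))) (by
    intro _ _
    rw [inner_ev, inner_ev]
    congr 1
    unfold dt3
    simp only
    nlinarith)
  refine ⟨O, fun c => ?_⟩
  have h1 : ∀ v, inner ℝ (ev n (0, u)) v = (O v) (o n) := by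
    intro v
    rw [← O.inner_map_map, hO (), inner_e0]
  unfold Yh
  rw [h1, h1]
  rfl

lemma prob_dir' {u : ℝ × ℝ} (hu : u.1 ^ 2 + u.2 ^ 2 = 1) {ρ : ℝ} (hρ : 0 ≤ ρ) :
    GP (T n) {c | ‖Yh n c u‖ < ρ} ≤ ENNReal.ofReal (4 * ρ ^ 2) := by
  obtain ⟨O, hO⟩ := Yh_law (n := n) hu
  have h1 : MeasurableSet {v : ℝ × ℝ | ‖v‖ < ρ} :=
    (isOpen_lt (by fun_prop) continuous_const).measurableSet
  have h2 : MeasurableSet {g : T n → ℝ × ℝ | ‖g (o n)‖ < ρ} :=
    (isOpen_lt (by fun_prop) continuous_const).measurableSet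
  have e1 : {c | ‖Yh n c u‖ < ρ} = (tr O) ⁻¹' {g : T n → ℝ × ℝ | ‖g (o n)‖ < ρ} := by
    ext c
    simp only [mem_ofPred_eq, mem_preimage, hO]
  have e2 : {g : T n → ℝ × ℝ | ‖g (o n)‖ < ρ} = (fun g : T n → ℝ × ℝ => g (o n)) ⁻¹'
      {v : ℝ × ℝ | ‖v‖ < ρ} := rfl
  rw [e1, (mp_tr O).measure_preimage h2.nullMeasurableSet, e2]
  have h3 := (measurePreserving_eval (fun _ : T n => g2) (o n)).measure_preimage
    h1.nullMeasurableSet
  have h4 : GP (T n) = Measure.pi fun _ : T n => g2 := rfl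
  rw [h4]
  refine (le_of_eq h3).trans ((g2_le _).trans ?_)
  refine (measure_mono ?_).trans (volume_ball_le (0 : ℝ × ℝ) hρ)
  intro v hv
  show ‖v + 0‖ ≤ ρ
  rw [add_zero]
  exact le_of_lt hv

lemma continuous_Yh (u : ℝ × ℝ) : Continuous fun c : T n → ℝ × ℝ => Yh n c u := by
  have h1 : Continuous fun c : T n → ℝ × ℝ => c1 c := by
    unfold c1
    exact (PiLp.continuous_toLp 2 _).comp (by fun_prop)
  have h2 : Continuous fun c : T n → ℝ × ℝ => c2 c := by
    unfold c2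
    exact (PiLp.continuous_toLp 2 _).comp (by fun_prop)
  unfold Yh
  exact (continuous_const.inner h1).prodMk (continuous_const.inner h2)

lemma measurable_GF (n : ℕ) (y : ℝ) : MeasurableSet (GF n y) := by
  have h1 : MeasurableSet {c : T n → ℝ × ℝ | sn c ≤ (n * y ^ 2) ^ 2} :=
    (isClosed_le continuous_sn continuous_const).measurableSet
  have h2 : ∀ i, MeasurableSet {c : T n → ℝ × ℝ | 2 / (n ^ 2 * y ^ 6) ≤ ‖Yh n c (di (Ln n y) i)‖} :=
    fun i => (isClosed_le continuous_const (continuous_Yh _).norm).measurableSet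
  have e : GF n y = {c : T n → ℝ × ℝ | sn c ≤ (n * y ^ 2) ^ 2} ∩
      ⋂ i ∈ Finset.range (Ln n y + 1),
        {c : T n → ℝ × ℝ | 2 / (n ^ 2 * y ^ 6) ≤ ‖Yh n c (di (Ln n y) i)‖} := by
    ext c
    simp only [GF, mem_ofPred_eq, mem_inter_iff, mem_iInter]
  rw [e]
  exact h1.inter (Finset.measurableSet_biInter _ fun i _ => h2 i)

theorem prob_GF (hn : 1 ≤ n) {y : ℝ} (hy : 1 ≤ y) :
    GP (T n) (GF n y)ᶜ ≤ ENNReal.ofReal (152 / y ^ 4) := by
  have hn1 : (1:ℝ) ≤ n := by exact_mod_cast hn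
  have hy0 : 0 < y := by linarith
  have hsub : (GF n y)ᶜ ⊆ {c : T n → ℝ × ℝ | ENNReal.ofReal ((n * y ^ 2) ^ 2) ≤ ENNReal.ofReal (sn c)} ∪
      ⋃ i ∈ Finset.range (Ln n y + 1), {c | ‖Yh n c (di (Ln n y) i)‖ < 2 / (n ^ 2 * y ^ 6)} := by
    intro c hc
    by_contra hcon
    rw [mem_union, not_or] at hcon
    apply hc
    constructor
    · by_contra h1
      push Not at h1
      exact hcon.1 (ENNReal.ofReal_le_ofReal h1.le)
    · intro i hi
      by_contra h1
      push Not at h1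
      apply hcon.2
      simp only [mem_iUnion]
      exact ⟨i, hi, h1⟩
  have hp1 : GP (T n) {c : T n → ℝ × ℝ | ENNReal.ofReal ((n * y ^ 2) ^ 2) ≤ ENNReal.ofReal (sn c)} ≤
      ENNReal.ofReal (8 / y ^ 4) := by
    have h1 := meas_ge_le_lintegral_div (μ := GP (T n)) (f := fun c => ENNReal.ofReal (sn c))
      (continuous_sn (S := T n)).measurable.ennreal_ofReal.aemeasurable
      (ε := ENNReal.ofReal ((n * y ^ 2) ^ 2))
      (by rw [Ne, ENNReal.ofReal_eq_zero, not_le]; positivity) ENNReal.ofReal_ne_top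
    refine h1.trans ?_
    rw [ENNReal.div_le_iff (by rw [Ne, ENNReal.ofReal_eq_zero, not_le]; positivity)
      ENNReal.ofReal_ne_top, ← ENNReal.ofReal_mul (by positivity)]
    refine mean_sn.trans (ENNReal.ofReal_le_ofReal ?_)
    have h2 := card_le (full_T hn)
    have e : 8 / y ^ 4 * (n * y ^ 2) ^ 2 = 8 * n ^ 2 := by field_simp
    rw [e]
    linarith
  have hp2 : GP (T n) (⋃ i ∈ Finset.range (Ln n y + 1),
      {c | ‖Yh n c (di (Ln n y) i)‖ < 2 / (n ^ 2 * y ^ 6)}) ≤ ENNReal.ofReal (144 / y ^ 4) := by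
    refine (measure_biUnion_finset_le _ _).trans ?_
    calc _ ≤ ∑ i ∈ Finset.range (Ln n y + 1), ENNReal.ofReal (4 * (2 / (n ^ 2 * y ^ 6)) ^ 2) := by
          refine Finset.sum_le_sum fun i _ => prob_dir' ?_ (by positivity)
          unfold di
          simp only
          linarith [Real.sin_sq_add_cos_sq (2 * π * i / (Ln n y) - π)]
      _ = ENNReal.ofReal (((Ln n y + 1 : ℕ) : ℝ)) * ENNReal.ofReal (4 * (2 / (n ^ 2 * y ^ 6)) ^ 2) := by
          rw [Finset.sum_const, nsmul_eq_mul, Finset.card_range, ENNReal.ofReal_natCast]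
      _ ≤ _ := by
          rw [← ENNReal.ofReal_mul (Nat.cast_nonneg _)]
          apply ENNReal.ofReal_le_ofReal
          have h1 : ((Ln n y : ℕ) : ℝ) ≤ 7 * n ^ 4 * y ^ 8 + 1 := (Nat.ceil_lt_add_one (by positivity)).le
          have h2 : 1 ≤ (n:ℝ) ^ 4 * y ^ 8 := by
            have h1 : 1 ≤ (n:ℝ) ^ 4 := one_le_pow₀ hn1
            have h2 : 1 ≤ y ^ 8 := one_le_pow₀ hy
            nlinarith
          have h3 : (((Ln n y + 1 : ℕ) : ℝ)) ≤ 9 * (n ^ 4 * y ^ 8) := by
            push_cast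
            linarith
          calc _ ≤ 9 * (n ^ 4 * y ^ 8) * (4 * (2 / (n ^ 2 * y ^ 6)) ^ 2) :=
                mul_le_mul_of_nonneg_right h3 (by positivity)
            _ = 144 / y ^ 4 := by
                field_simp
                norm_num
  calc _ ≤ _ := measure_mono hsub
    _ ≤ _ := measure_union_le _ _
    _ ≤ _ := add_le_add hp1 hp2
    _ = _ := by
        rw [← ENNReal.ofReal_add (by positivity) (by positivity)]
        congr 1
        ring

end

end Pool.Agent.W960.HS
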