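import Pool.Agent.W960.HS.Big
import Pool.Agent.W960.HS.Far3
import Pool.Agent.W960.HS.Far4
import Pool.Agent.W960.HR.Exp2
import Pool.Agent.W960.HR.Law

/-! The mean number of closed orbits of the Kostlan ensemble. -/

open Real Set MeasureTheory Topology Filter
open scoped ENNReal

namespace Pool.Agent.W960.HS

noncomputable section

open Pool.Agent.W960.HR (T mem_T GP measurePreserving_rotc' rotInv_g2)
open Pool.Agent.H709R2 (wedge rot divRot divW winv ClosedOrbit continuous_rot fld contDiff_fld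
  contDiffAt_winv NP measurable_NP rotc rot_fld continuous_rotc g2)
open Pool.Agent.H709U (Orb rf m0)

/-- base of the third scale -/
def dd : ℝ := 2 ^ (1 / 16 : ℝ)

lemma dd_pow : dd ^ 16 = 2 := by
  unfold dd
  rw [← Real.rpow_natCast, ← Real.rpow_mul (by norm_num)]
  norm_num

lemma dd_lt : 1 < dd := Real.one_lt_rpow (by norm_num) (by norm_num)

/-- parameter of the good event at the scale `j` -/
def yj (n j : ℕ) : ℝ := dd ^ j / (3 * √n)

/-- bad event at the scale `j` -/
def Aj (n j : ℕ) : Set (T n → ℝ × ℝ) := {c | 1 ≤ yj n j → c ∉ GF n (yj n j)}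

variable {n : ℕ}

lemma meas_Aj (n j : ℕ) : MeasurableSet (Aj n j) := by
  unfold Aj
  by_cases h : 1 ≤ yj n j
  · have : {c : T n → ℝ × ℝ | 1 ≤ yj n j → c ∉ GF n (yj n j)} = (GF n (yj n j))ᶜ := by
      ext c
      simp [h]
    rw [this]
    exact (measurable_GF n _).compl
  · have : {c : T n → ℝ × ℝ | 1 ≤ yj n j → c ∉ GF n (yj n j)} = univ := by
      ext c
      simp [h]
    rw [this]
    exact MeasurableSet.univ

lemma yj_pos (hn : 1 ≤ n) (j : ℕ) : 0 < yj n j := by
  have := sqrt_pos' hn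
  have := dd_lt
  unfold yj
  positivity

lemma yj_scale (hn : 1 ≤ n) (j : ℕ) :
    4 * (1600 * (n ^ 4 * yj n j ^ 8) * (6200 * (n ^ 4 * yj n j ^ 8))) ≤ 2 ^ j := by
  have h0 := sqrt_pos' hn
  have hn0 : (0:ℝ) < n := by exact_mod_cast hn
  have e1 : (√(n:ℝ)) ^ 16 = n ^ 8 := by
    rw [show 16 = 2 * 8 by norm_num, pow_mul, Real.sq_sqrt hn0.le]
  have e2 : 4 * (1600 * (n ^ 4 * yj n j ^ 8) * (6200 * (n ^ 4 * yj n j ^ 8))) =
      39680000 * n ^ 8 * (yj n j ^ 16) := by ring
  have e3 : yj n j ^ 16 = 2 ^ j / (43046721 * n ^ 8) := by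
    unfold yj
    rw [div_pow, mul_pow, e1, ← pow_mul, mul_comm j 16, pow_mul, dd_pow]
    norm_num
  rw [e2, e3]
  have e4 : 39680000 * (n:ℝ) ^ 8 * (2 ^ j / (43046721 * n ^ 8)) = 39680000 / 43046721 * 2 ^ j := by
    field_simp
  rw [e4]
  have : (0:ℝ) < 2 ^ j := by positivity
  nlinarith

/-- weight parameter -/
def tj (n j : ℕ) : ℝ := 1 / max 1 (yj n j)

lemma tj_pos (n j : ℕ) : 0 < tj n j := by
  unfold tj
  have : 0 < max 1 (yj n j) := lt_max_of_lt_left one_pos
  positivity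

lemma bad_le (hn : 1 ≤ n) (j : ℕ) :
    ENNReal.ofReal (tj n j) + ENNReal.ofReal (1 / tj n j ^ 2) * GP (T n) (Aj n j) ≤
      ENNReal.ofReal (153 / yj n j) := by
  have hy := yj_pos hn j
  have hpr : GP (T n) (Aj n j) ≤ 1 := prob_le_one
  rcases lt_or_ge (yj n j) 1 with h | h
  · have e : tj n j = 1 := by unfold tj; rw [max_eq_left h.le, div_one]
    rw [e]
    calc _ ≤ ENNReal.ofReal 1 + ENNReal.ofReal (1 / 1 ^ 2) * 1 := by gcongr
      _ = ENNReal.ofReal 2 := by
          rw [mul_one, ← ENNReal.ofReal_add (by norm_num) (by norm_num)]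
          norm_num
      _ ≤ _ := by
          apply ENNReal.ofReal_le_ofReal
          rw [le_div_iff₀ hy]
          linarith
  · have e : tj n j = 1 / yj n j := by unfold tj; rw [max_eq_right h]
    have hA : GP (T n) (Aj n j) ≤ ENNReal.ofReal (152 / yj n j ^ 4) := by
      refine (measure_mono ?_).trans (prob_GF hn h)
      intro c hc
      exact hc h
    rw [e]
    calc _ ≤ ENNReal.ofReal (1 / yj n j) + ENNReal.ofReal (1 / (1 / yj n j) ^ 2) *
          ENNReal.ofReal (152 / yj n j ^ 4) := by gcongr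
      _ = ENNReal.ofReal (1 / yj n j + 1 / (1 / yj n j) ^ 2 * (152 / yj n j ^ 4)) := by
          rw [← ENNReal.ofReal_mul (by positivity), ← ENNReal.ofReal_add (by positivity)
            (by positivity)]
      _ ≤ _ := by
          apply ENNReal.ofReal_le_ofReal
          have e2 : 1 / (1 / yj n j) ^ 2 * (152 / yj n j ^ 4) = 152 / yj n j / yj n j := by
            field_simp
          rw [e2]
          have h1 : 152 / yj n j / yj n j ≤ 152 / yj n j := div_le_self (by positivity) h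
          have h2 : 1 / yj n j + 152 / yj n j = 153 / yj n j := by rw [← add_div]; norm_num
          linarith

/-- the total majorant -/
def Kt (n : ℕ) (c : T n → ℝ × ℝ) : ℝ≥0∞ :=
  (ENNReal.ofReal 4000 + ENNReal.ofReal (8000 * (n + 1))) + ∑' j, Kl n j c +
    ∑' j, Kb n j (tj n j) (Aj n j) c

/-- All closed orbits, for a vector of coefficients which is good at some scale. -/
theorem all_me (hn : 1 ≤ n) {c : T n → ℝ × ℝ} (hc : ∃ j, c ∉ Aj n j) :
    ME (fun α => NP (rotc α (sc n c))) (Kt n c) := by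
  classical
  set J := Nat.find hc with hJ
  have hJ1 : c ∉ Aj n J := Nat.find_spec hc
  have hJ2 : ∀ j < J, c ∈ Aj n j := by
    intro j hj
    have := Nat.find_min hc hj
    rwa [not_not] at this
  obtain ⟨hy, hg⟩ : 1 ≤ yj n J ∧ c ∈ GF n (yj n J) := by
    simp only [Aj, mem_ofPred_eq, not_forall, not_not] at hJ1
    obtain ⟨h1, h2⟩ := hJ1
    exact ⟨h1, h2⟩
  have hJ0 : 0 < J := by
    by_contra hcon
    have h0 : J = 0 := by omega
    rw [h0] at hy
    unfold yj at hy
    have h1 := sqrt_one' hn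
    rw [pow_zero, le_div_iff₀ (by positivity)] at hy
    linarith
  set X := fld (sc n c) with hX
  have hX2 : ContDiff ℝ 2 X := contDiff_fld _
  have hXr : ∀ α, Continuous (rf X α) := fun α => (continuous_rot α).comp hX2.continuous
  have m1 := far_me hn hy hg (yj_scale hn J)
  have m2 := ME.tsum fun j => loc_me hn c j
  have m3 : ∀ j, ME (fun α => (((if c ∈ Aj n j then OL X (Metric.closedBall 0 (2 ^ (j + 1)))
      (Ici (2 ^ j / 32)) α else (∅ : Set (Set (ℝ × ℝ)))).encard : ℕ∞) : ℝ≥0∞))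
      (Kb n j (tj n j) (Aj n j) c) := by
    intro j
    by_cases h : c ∈ Aj n j
    · simp only [if_pos h]
      exact big_me hn c j (tj_pos n j) h
    · simp only [if_neg h]
      exact ⟨fun _ => 0, measurable_const, fun α _ => by simp, by simp⟩
  refine ((m1.add m2).add (ME.tsum m3)).mono (fun α hα => ?_) le_rfl
  have hfld : fld (rotc α (sc n c)) = rf X α := by
    funext z
    unfold rf
    rw [hX, rot_fld]
  have hNP : NP (rotc α (sc n c)) = (({C : Set (ℝ × ℝ) | ClosedOrbit (rf X α) C}.encard : ℕ∞) : ℝ≥0∞) := by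
    unfold NP
    rw [hfld]
  rw [hNP]
  have hsub : {C : Set (ℝ × ℝ) | ClosedOrbit (rf X α) C} ⊆
      ({C | ClosedOrbit (rf X α) C ∧ ∃ z ∈ C, (2:ℝ) ^ J < ‖z‖} ∪
        ⋃ j, OL X (An j) (Iio (2 ^ j / 32)) α) ∪
      ⋃ j, (if c ∈ Aj n j then OL X (Metric.closedBall 0 (2 ^ (j + 1)))
      (Ici (2 ^ j / 32)) α else (∅ : Set (Set (ℝ × ℝ)))) := by
    intro C hC
    have hC' : ClosedOrbit (rf X α) C := hC
    by_cases hfar : ∃ z ∈ C, (2:ℝ) ^ J < ‖z‖
    · exact Or.inl (Or.inl ⟨hC', hfar⟩)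
    push Not at hfar
    obtain ⟨γ, T', ho, hCr⟩ := m0 X hX2 α C hC'
    have hex : ∃ j : ℕ, ∀ z ∈ C, ‖z‖ ≤ (2:ℝ) ^ (j + 1) :=
      ⟨J, fun z hz => (hfar z hz).trans (pow_le_pow_right₀ (by norm_num) (by omega))⟩
    set j := Nat.find hex with hj
    have hj1 : ∀ z ∈ C, ‖z‖ ≤ (2:ℝ) ^ (j + 1) := Nat.find_spec hex
    have hj2 : j = 0 ∨ ∃ w ∈ C, (2:ℝ) ^ j < ‖w‖ := by
      rcases Nat.eq_zero_or_pos j with h0 | h0
      · exact Or.inl h0
      · right
        have h4 := Nat.find_min hex (m := j - 1) (by omega)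
        push Not at h4
        rwa [Nat.sub_add_cancel h0] at h4
    have hjJ : j < J := by
      rcases hj2 with h0 | ⟨w, hw, hw2⟩
      · rw [h0]; exact hJ0
      · have h5 : (2:ℝ) ^ j < 2 ^ J := hw2.trans_le (hfar w hw)
        exact (pow_lt_pow_iff_right₀ (by norm_num)).1 h5
    rcases lt_or_ge (∫ t in (0:ℝ)..T', winv X (γ t) * H709R2.sq (X (γ t))) (2 ^ j / 32) with h | h
    · refine Or.inl (Or.inr ?_)
      rw [mem_iUnion]
      refine ⟨j, γ, T', ho, hCr, fun z hz => ⟨?_, hj1 z hz⟩, h⟩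
      rcases hj2 with h0 | ⟨w, hw, hw2⟩
      · rw [h0, pow_zero]
        linarith [norm_nonneg z]
      · rw [hCr] at hz hw
        obtain ⟨a, rfl⟩ := hz
        obtain ⟨b, rfl⟩ := hw
        have h6 := (norm_le_eu _).trans (orb_diam (hXr α) ho a b)
        rw [← winv_len (X := X) (α := α)] at h6
        have h7 := norm_le_norm_add_norm_sub' (γ b) (γ a)
        have h8 : (0:ℝ) < 2 ^ j := by positivity
        linarith
    · refine Or.inr ?_
      rw [mem_iUnion]
      refine ⟨j, ?_⟩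
      rw [if_pos (hJ2 j hjJ)]
      exact ⟨γ, T', ho, hCr, fun z hz => mem_closedBall_zero_iff.2 (hj1 z hz), h⟩
  refine (enc_mono hsub).trans ((enc_union _ _).trans ?_)
  refine add_le_add ((enc_union _ _).trans (add_le_add le_rfl (enc_iUnion _))) (enc_iUnion _)

lemma ae_some (hn : 1 ≤ n) : ∀ᵐ c ∂GP (T n), ∃ j, c ∉ Aj n j := by
  rw [ae_iff]
  have hd := dd_lt
  have h1 : ∀ j : ℕ, GP (T n) {c | ¬ ∃ j, c ∉ Aj n j} ≤ ENNReal.ofReal (153 / yj n j) := by
    intro j
    have h2 := bad_le hn j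
    have h3 : GP (T n) {c | ¬ ∃ j, c ∉ Aj n j} ≤ GP (T n) (Aj n j) := by
      apply measure_mono
      intro c hc
      have hc' : ¬ ∃ j, c ∉ Aj n j := hc
      push Not at hc'
      exact hc' j
    have h4 : (1:ℝ≥0∞) ≤ ENNReal.ofReal (1 / tj n j ^ 2) := by
      rw [ENNReal.one_le_ofReal]
      have ht := tj_pos n j
      have ht1 : tj n j ≤ 1 := by
        unfold tj
        exact (div_le_one (lt_max_of_lt_left one_pos)).2 (le_max_left _ _)
      rw [le_div_iff₀ (by positivity), one_mul]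
      exact pow_le_one₀ ht.le ht1
    calc _ ≤ _ := h3
      _ = 1 * GP (T n) (Aj n j) := (one_mul _).symm
      _ ≤ ENNReal.ofReal (1 / tj n j ^ 2) * GP (T n) (Aj n j) := by gcongr
      _ ≤ _ := le_add_self
      _ ≤ _ := h2
  have h2 : Tendsto (fun j : ℕ => ENNReal.ofReal (153 / yj n j)) atTop (𝓝 0) := by
    have h3 : Tendsto (fun j : ℕ => (459 * √(n:ℝ)) * (1 / dd) ^ j) atTop (𝓝 ((459 * √(n:ℝ)) * 0)) :=
      (tendsto_pow_atTop_nhds_zero_of_lt_one (by positivity)
        ((div_lt_one (by linarith)).2 hd)).const_mul _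
    rw [mul_zero] at h3
    have h4 := (ENNReal.tendsto_ofReal h3)
    rw [ENNReal.ofReal_zero] at h4
    refine h4.congr fun j => ?_
    congr 1
    have := sqrt_pos' hn
    unfold yj
    rw [div_pow, one_pow]
    field_simp
    norm_num
  exact le_antisymm (ge_of_tendsto' h2 h1) zero_le

/-- the constant -/
def CT : ℝ≥0∞ := ENNReal.ofReal 20000 + CL +
  CM * (ENNReal.ofReal 470016 * ∑' j : ℕ, ENNReal.ofReal ((1 / dd) ^ j))

lemma CT_ne : CT ≠ ⊤ := by
  have h := geo_ne (r := 1 / dd) (by have := dd_lt; positivity)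
    ((div_lt_one (by linarith [dd_lt])).2 dd_lt)
  unfold CT
  exact ENNReal.add_ne_top.2 ⟨ENNReal.add_ne_top.2 ⟨ENNReal.ofReal_ne_top, CL_ne⟩,
    ENNReal.mul_ne_top CM_ne (ENNReal.mul_ne_top ENNReal.ofReal_ne_top h)⟩

lemma mean_Kt (hn : 1 ≤ n) : ∫⁻ c, Kt n c ∂GP (T n) ≤ CT * ENNReal.ofReal n := by
  have hn1 : (1:ℝ) ≤ n := by exact_mod_cast hn
  have m1 : Measurable fun c : T n → ℝ × ℝ => ∑' j, Kl n j c := Measurable.tsum (loc_mean hn).1
  have m2 : ∀ j, Measurable (Kb n j (tj n j) (Aj n j)) := fun j => (big_mean hn j (meas_Aj n j)).1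
  have m3 : Measurable fun c : T n → ℝ × ℝ =>
      (ENNReal.ofReal 4000 + ENNReal.ofReal (8000 * (n + 1))) + ∑' j, Kl n j c :=
    measurable_const.add m1
  unfold Kt
  rw [lintegral_add_left m3, lintegral_add_left measurable_const, lintegral_const, measure_univ,
    mul_one, lintegral_tsum fun j => (m2 j).aemeasurable]
  have h1 : ENNReal.ofReal 4000 + ENNReal.ofReal (8000 * (n + 1)) ≤
      ENNReal.ofReal 20000 * ENNReal.ofReal n := by
    rw [← ENNReal.ofReal_add (by norm_num) (by positivity), ← ENNReal.ofReal_mul (by norm_num)]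
    apply ENNReal.ofReal_le_ofReal
    linarith
  have h2 : ∀ j, ∫⁻ c, Kb n j (tj n j) (Aj n j) c ∂GP (T n) ≤
      CM * (ENNReal.ofReal 470016 * ENNReal.ofReal ((1 / dd) ^ j)) * ENNReal.ofReal n := by
    intro j
    refine (big_mean hn j (meas_Aj n j)).2.trans ?_
    calc _ ≤ CM * ENNReal.ofReal (1024 * √n) * ENNReal.ofReal (153 / yj n j) := by
          gcongr
          exact bad_le hn j
      _ = _ := by
          have h0 := sqrt_pos' hn
          have hd := dd_lt
          have e1 : ENNReal.ofReal (1024 * √n) * ENNReal.ofReal (153 / yj n j) =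
              ENNReal.ofReal 470016 * ENNReal.ofReal ((1 / dd) ^ j) * ENNReal.ofReal n := by
            rw [← ENNReal.ofReal_mul (by positivity), ← ENNReal.ofReal_mul (by norm_num),
              ← ENNReal.ofReal_mul (by positivity)]
            congr 1
            have e : 470016 * (1 / dd) ^ j * (n:ℝ) = 470016 * (1 / dd) ^ j * (√n * √n) := by
              rw [Real.mul_self_sqrt (Nat.cast_nonneg _)]
            rw [e]
            unfold yj
            rw [div_pow, one_pow]
            field_simp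
            norm_num
          rw [mul_assoc, e1]
          ring
  calc _ ≤ ENNReal.ofReal 20000 * ENNReal.ofReal n + CL * ENNReal.ofReal n +
        ∑' j, CM * (ENNReal.ofReal 470016 * ENNReal.ofReal ((1 / dd) ^ j)) * ENNReal.ofReal n :=
        add_le_add (add_le_add h1 (loc_mean hn).2) (ENNReal.tsum_le_tsum h2)
    _ = _ := by
        rw [ENNReal.tsum_mul_right, ENNReal.tsum_mul_left, ENNReal.tsum_mul_left]
        unfold CT
        ring

lemma continuous_sc (n : ℕ) : Continuous (sc n) := by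
  unfold sc
  fun_prop

lemma sc_rotc (n : ℕ) (α : ℝ) (c : T n → ℝ × ℝ) : sc n (rotc α c) = rotc α (sc n c) := by
  funext m
  unfold sc rotc
  rw [H709R2.rot_smul]

/-- **The mean number of closed orbits of the Kostlan ensemble.** -/
theorem kostlan : ∃ C : ℝ, ∀ n : ℕ, 1 ≤ n →
    ∫⁻ c, NP (sc n c) ∂GP (T n) ≤ ENNReal.ofReal (C * n) := by
  refine ⟨CT.toReal, fun n hn => ?_⟩
  have hn1 : (1:ℝ) ≤ n := by exact_mod_cast hn
  have hNm : Measurable fun c : T n → ℝ × ℝ => NP (sc n c) :=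
    measurable_NP.comp (continuous_sc n).measurable
  have h1 : ∀ α, ∫⁻ c, NP (rotc α (sc n c)) ∂GP (T n) = ∫⁻ c, NP (sc n c) ∂GP (T n) := by
    intro α
    have h2 := (measurePreserving_rotc' (fun _ : T n => g2) rotInv_g2 α).lintegral_comp hNm
    have h3 : ∀ c : T n → ℝ × ℝ, NP (rotc α (sc n c)) = NP (sc n (rotc α c)) := fun c => by
      rw [sc_rotc]
    simp_rw [h3]
    exact h2
  have hmeas : Measurable (Function.uncurry fun (α : ℝ) (c : T n → ℝ × ℝ) => NP (rotc α (sc n c))) := by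
    have h4 : Continuous fun q : ℝ × (T n → ℝ × ℝ) => rotc q.1 (sc n q.2) :=
      continuous_rotc.comp (continuous_fst.prodMk ((continuous_sc n).comp continuous_snd))
    exact measurable_NP.comp h4.measurable
  have h2 : ∫⁻ c, (∫⁻ α in Ioo 0 π, NP (rotc α (sc n c))) ∂GP (T n) =
      ENNReal.ofReal π * ∫⁻ c, NP (sc n c) ∂GP (T n) := by
    rw [← lintegral_lintegral_swap (μ := volume.restrict (Ioo 0 π)) (ν := GP (T n))
      (f := fun (α : ℝ) (c : T n → ℝ × ℝ) => NP (rotc α (sc n c))) hmeas.aemeasurable]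
    simp only [h1]
    rw [lintegral_const, Measure.restrict_apply_univ, Real.volume_Ioo, sub_zero, mul_comm]
  have h3 : ∫⁻ c, (∫⁻ α in Ioo 0 π, NP (rotc α (sc n c))) ∂GP (T n) ≤ CT * ENNReal.ofReal n := by
    refine (lintegral_mono_ae ?_).trans (mean_Kt hn)
    filter_upwards [ae_some hn] with c hc
    exact (all_me hn hc).lintegral_le
  rw [h2] at h3
  have h4 : (1:ℝ≥0∞) ≤ ENNReal.ofReal π := by
    rw [ENNReal.one_le_ofReal]
    linarith [Real.pi_gt_three]
  calc ∫⁻ c, NP (sc n c) ∂GP (T n) = 1 * ∫⁻ c, NP (sc n c) ∂GP (T n) := (one_mul _).symm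
    _ ≤ ENNReal.ofReal π * ∫⁻ c, NP (sc n c) ∂GP (T n) := by gcongr
    _ ≤ CT * ENNReal.ofReal n := h3
    _ = ENNReal.ofReal (CT.toReal * n) := by
        rw [ENNReal.ofReal_mul ENNReal.toReal_nonneg, ENNReal.ofReal_toReal CT_ne]

end

end Pool.Agent.W960.HS
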