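import Pool.Agent.H709R2.Cut

/-! The trace of an almost linear field which is tangent to a closed curve. -/

open Real Set MeasureTheory Topology Filter
open scoped ENNReal

namespace Pool.Agent.W960.HS

noncomputable section

open Pool.Agent.H709R2 (wedge rot divRot divW)

/-- Euclidean length -/
def eu (v : ℝ × ℝ) : ℝ := √(H709R2.sq v)

lemma eu_nonneg (v : ℝ × ℝ) : 0 ≤ eu v := Real.sqrt_nonneg _

lemma eu_sq (v : ℝ × ℝ) : eu v ^ 2 = H709R2.sq v :=
  Real.sq_sqrt (by unfold H709R2.sq; positivity)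

lemma abs_dot_le (a b : ℝ × ℝ) : |a.1 * b.1 + a.2 * b.2| ≤ eu a * eu b := by
  refine abs_le_of_sq_le_sq ?_ (mul_nonneg (eu_nonneg _) (eu_nonneg _))
  rw [mul_pow, eu_sq, eu_sq]
  unfold H709R2.sq
  nlinarith [sq_nonneg (a.1 * b.2 - a.2 * b.1)]

lemma abs_wedge_le' (a b : ℝ × ℝ) : |wedge a b| ≤ eu a * eu b := by
  refine abs_le_of_sq_le_sq ?_ (mul_nonneg (eu_nonneg _) (eu_nonneg _))
  rw [mul_pow, eu_sq, eu_sq]
  unfold H709R2.sq wedge
  nlinarith [sq_nonneg (a.1 * b.1 + a.2 * b.2)]

lemma continuous_eu : Continuous eu := by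
  unfold eu H709R2.sq
  fun_prop

/-- closed curves: integrals of linear forms -/
theorem flux {γ γ' v : ℝ → ℝ × ℝ} {T : ℝ} (hT : 0 < T) (hγ : ∀ t, HasDerivAt γ (γ' t) t)
    (hc : Continuous γ') (hv : Continuous v) (hper : γ T = γ 0) {p v₀ : ℝ × ℝ}
    {a b c d ε Λ κ m : ℝ}
    (he : ∀ t, eu (v t - v₀ - (a * ((γ t).1 - p.1) + b * ((γ t).2 - p.2),
      c * ((γ t).1 - p.1) + d * ((γ t).2 - p.2))) ≤ ε)
    (hw : ∀ t, wedge (v t) (γ' t) = 0)
    (hK : κ ≤ ∫ t in (0:ℝ)..T, ((v t).1 * (γ' t).1 + (v t).2 * (γ' t).2))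
    (hΛ : ∫ t in (0:ℝ)..T, eu (γ' t) ≤ Λ) (hκ : 0 < κ) (hm : 0 ≤ m) (had : |a + d| ≤ m)
    (hcb : |c - b| ≤ m) : |a + d| ≤ 2 * m * (ε * Λ) / κ := by
  have hγc : Continuous γ := continuous_iff_continuousAt.2 fun t => (hγ t).continuousAt
  set x : ℝ → ℝ := fun t => (γ t).1 - p.1 with hx
  set y : ℝ → ℝ := fun t => (γ t).2 - p.2 with hy
  set x' : ℝ → ℝ := fun t => (γ' t).1 with hx'
  set y' : ℝ → ℝ := fun t => (γ' t).2 with hy'
  have dx : ∀ t, HasDerivAt x (x' t) t := fun t => (hγ t).fst.sub_const _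
  have dy : ∀ t, HasDerivAt y (y' t) t := fun t => (hγ t).snd.sub_const _
  have cx : Continuous x := by fun_prop
  have cy : Continuous y := by fun_prop
  have cx' : Continuous x' := by fun_prop
  have cy' : Continuous y' := by fun_prop
  have ii : ∀ {f : ℝ → ℝ}, Continuous f → IntervalIntegrable f volume 0 T := fun h =>
    h.intervalIntegrable _ _
  have ex : x T = x 0 := by simp only [hx, hper]
  have ey : y T = y 0 := by simp only [hy, hper]
  have i0 : ∫ t in (0:ℝ)..T, x' t = 0 := by
    rw [intervalIntegral.integral_eq_sub_of_hasDerivAt (fun t _ => dx t) (ii cx'), ex, sub_self]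
  have i1 : ∫ t in (0:ℝ)..T, y' t = 0 := by
    rw [intervalIntegral.integral_eq_sub_of_hasDerivAt (fun t _ => dy t) (ii cy'), ey, sub_self]
  have i2 : ∫ t in (0:ℝ)..T, x t * x' t = 0 := by
    have h1 : ∀ t, HasDerivAt (fun t => x t ^ 2 / 2) (x t * x' t) t := by
      intro t
      have := ((dx t).pow 2).div_const 2
      refine this.congr_deriv ?_
      simp only [Nat.cast_ofNat, Nat.add_one_sub_one, pow_one]
      ring
    rw [intervalIntegral.integral_eq_sub_of_hasDerivAt (fun t _ => h1 t) (ii (cx.mul cx')), ex,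
      sub_self]
  have i3 : ∫ t in (0:ℝ)..T, y t * y' t = 0 := by
    have h1 : ∀ t, HasDerivAt (fun t => y t ^ 2 / 2) (y t * y' t) t := by
      intro t
      have := ((dy t).pow 2).div_const 2
      refine this.congr_deriv ?_
      simp only [Nat.cast_ofNat, Nat.add_one_sub_one, pow_one]
      ring
    rw [intervalIntegral.integral_eq_sub_of_hasDerivAt (fun t _ => h1 t) (ii (cy.mul cy')), ey,
      sub_self]
  set S := ∫ t in (0:ℝ)..T, x t * y' t with hS
  have i4 : ∫ t in (0:ℝ)..T, y t * x' t = -S := by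
    have h1 : ∀ t, HasDerivAt (fun t => x t * y t) (x' t * y t + x t * y' t) t := fun t =>
      (dx t).mul (dy t)
    have h2 := intervalIntegral.integral_eq_sub_of_hasDerivAt (fun t _ => h1 t)
      (ii ((cx'.mul cy).add (cx.mul cy')))
    have j1 : IntervalIntegrable (fun t => x' t * y t) volume 0 T := ii (cx'.mul cy)
    have j2 : IntervalIntegrable (fun t => x t * y' t) volume 0 T := ii (cx.mul cy')
    rw [ex, ey, sub_self, intervalIntegral.integral_add j1 j2] at h2
    have h3 : ∫ t in (0:ℝ)..T, x' t * y t = ∫ t in (0:ℝ)..T, y t * x' t := by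
      congr 1; ext1 t; ring
    linarith
  -- the two integrals
  have hA : ∫ t in (0:ℝ)..T, ((v₀.1 + a * x t + b * y t) * y' t - (v₀.2 + c * x t + d * y t) * x' t) =
      (a + d) * S := by
    have e : ∀ t, (v₀.1 + a * x t + b * y t) * y' t - (v₀.2 + c * x t + d * y t) * x' t =
        v₀.1 * y' t + a * (x t * y' t) + b * (y t * y' t) + (-v₀.2) * x' t + (-c) * (x t * x' t) +
          (-d) * (y t * x' t) := fun t => by ring
    simp_rw [e]
    rw [intervalIntegral.integral_add (ii (by fun_prop)) (ii (by fun_prop)),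
      intervalIntegral.integral_add (ii (by fun_prop)) (ii (by fun_prop)),
      intervalIntegral.integral_add (ii (by fun_prop)) (ii (by fun_prop)),
      intervalIntegral.integral_add (ii (by fun_prop)) (ii (by fun_prop)),
      intervalIntegral.integral_add (ii (by fun_prop)) (ii (by fun_prop)),
      intervalIntegral.integral_const_mul, intervalIntegral.integral_const_mul,
      intervalIntegral.integral_const_mul, intervalIntegral.integral_const_mul,
      intervalIntegral.integral_const_mul, intervalIntegral.integral_const_mul, i0, i1, i2, i3, i4,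
      ← hS]
    ring
  have hB : ∫ t in (0:ℝ)..T, ((v₀.1 + a * x t + b * y t) * x' t + (v₀.2 + c * x t + d * y t) * y' t) =
      (c - b) * S := by
    have e : ∀ t, (v₀.1 + a * x t + b * y t) * x' t + (v₀.2 + c * x t + d * y t) * y' t =
        v₀.1 * x' t + a * (x t * x' t) + b * (y t * x' t) + v₀.2 * y' t + c * (x t * y' t) +
          d * (y t * y' t) := fun t => by ring
    simp_rw [e]
    rw [intervalIntegral.integral_add (ii (by fun_prop)) (ii (by fun_prop)),
      intervalIntegral.integral_add (ii (by fun_prop)) (ii (by fun_prop)),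
      intervalIntegral.integral_add (ii (by fun_prop)) (ii (by fun_prop)),
      intervalIntegral.integral_add (ii (by fun_prop)) (ii (by fun_prop)),
      intervalIntegral.integral_add (ii (by fun_prop)) (ii (by fun_prop)),
      intervalIntegral.integral_const_mul, intervalIntegral.integral_const_mul,
      intervalIntegral.integral_const_mul, intervalIntegral.integral_const_mul,
      intervalIntegral.integral_const_mul, intervalIntegral.integral_const_mul, i0, i1, i2, i3, i4,
      ← hS]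
    ring
  -- the errors
  set e : ℝ → ℝ × ℝ := fun t => v t - v₀ - (a * x t + b * y t, c * x t + d * y t) with hedef
  have ce : Continuous e := by fun_prop
  have hεn : 0 ≤ ε := (eu_nonneg _).trans (he 0)
  have clen : Continuous fun t => eu (γ' t) := continuous_eu.comp hc
  have hΛ0 : ε * ∫ t in (0:ℝ)..T, eu (γ' t) ≤ ε * Λ := mul_le_mul_of_nonneg_left hΛ hεn
  have hE1 : |∫ t in (0:ℝ)..T, wedge (e t) (γ' t)| ≤ ε * Λ := by
    refine le_trans ?_ hΛ0
    rw [← intervalIntegral.integral_const_mul, ← Real.norm_eq_abs]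
    refine intervalIntegral.norm_integral_le_of_norm_le hT.le (Filter.Eventually.of_forall fun t _ => ?_)
      (ii (continuous_const.mul clen))
    rw [Real.norm_eq_abs]
    exact (abs_wedge_le' _ _).trans (mul_le_mul_of_nonneg_right (he t) (eu_nonneg _))
  have hE2 : |∫ t in (0:ℝ)..T, ((e t).1 * (γ' t).1 + (e t).2 * (γ' t).2)| ≤ ε * Λ := by
    refine le_trans ?_ hΛ0
    rw [← intervalIntegral.integral_const_mul, ← Real.norm_eq_abs]
    refine intervalIntegral.norm_integral_le_of_norm_le hT.le (Filter.Eventually.of_forall fun t _ => ?_)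
      (ii (continuous_const.mul clen))
    rw [Real.norm_eq_abs]
    exact (abs_dot_le _ _).trans (mul_le_mul_of_nonneg_right (he t) (eu_nonneg _))
  have hA' : (a + d) * S = -∫ t in (0:ℝ)..T, wedge (e t) (γ' t) := by
    rw [← hA, ← intervalIntegral.integral_neg]
    congr 1
    ext1 t
    have h1 := hw t
    simp only [wedge, hedef, Prod.fst_sub, Prod.snd_sub] at h1 ⊢
    simp only [hx', hy']
    linear_combination h1
  have hB' : ∫ t in (0:ℝ)..T, ((v t).1 * (γ' t).1 + (v t).2 * (γ' t).2) = (c - b) * S +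
      ∫ t in (0:ℝ)..T, ((e t).1 * (γ' t).1 + (e t).2 * (γ' t).2) := by
    rw [← hB, ← intervalIntegral.integral_add (ii (by fun_prop)) (ii (by fun_prop))]
    congr 1
    ext1 t
    simp only [hedef, Prod.fst_sub, Prod.snd_sub, hx', hy']
    ring
  rw [hB'] at hK
  have h1 : |a + d| * |S| ≤ ε * Λ := by
    rw [← abs_mul, hA', abs_neg]
    exact hE1
  have h2 : κ ≤ m * |S| + ε * Λ := by
    have h3 : (c - b) * S ≤ m * |S| := by
      refine (le_abs_self _).trans ?_
      rw [abs_mul]
      exact mul_le_mul_of_nonneg_right hcb (abs_nonneg _)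
    linarith [(abs_le.1 hE2).2]
  have hεΛ : 0 ≤ ε * Λ := (mul_nonneg (abs_nonneg _) (abs_nonneg _)).trans h1
  rw [le_div_iff₀ hκ]
  by_cases h3 : 2 * (ε * Λ) ≤ κ
  · have h4 : κ ≤ 2 * (m * |S|) := by linarith
    calc |a + d| * κ ≤ |a + d| * (2 * (m * |S|)) := mul_le_mul_of_nonneg_left h4 (abs_nonneg _)
      _ = 2 * m * (|a + d| * |S|) := by ring
      _ ≤ 2 * m * (ε * Λ) := mul_le_mul_of_nonneg_left h1 (by positivity)
  · push Not at h3
    calc |a + d| * κ ≤ m * (2 * (ε * Λ)) := mul_le_mul had h3.le hκ.le hm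
      _ = 2 * m * (ε * Λ) := by ring

/-- the divergence of the weighted field -/
lemma divW_eq {w : ℝ × ℝ → ℝ} {X Y : ℝ × ℝ → ℝ × ℝ} {p : ℝ × ℝ} (α : ℝ)
    (hw : DifferentiableAt ℝ w p) (hX : DifferentiableAt ℝ X p)
    (h : (fun z => w z • X z) =ᶠ[𝓝 p] Y) : divW w X α p = divRot Y α p := by
  have h1 : HasFDerivAt (fun z => w z • X z) _ p := hw.hasFDerivAt.smul hX.hasFDerivAt
  have h2 : fderiv ℝ Y p = _ := h.fderiv_eq.symm.trans h1.fderiv
  unfold divW divRot
  rw [h2]
  have h3 : fderiv ℝ w p (rot α (X p)) = (rot α (X p)).1 * fderiv ℝ w p (1, 0) +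
      (rot α (X p)).2 * fderiv ℝ w p (0, 1) := by
    have e : rot α (X p) = (rot α (X p)).1 • ((1, 0) : ℝ × ℝ) + (rot α (X p)).2 • ((0, 1) : ℝ × ℝ) := by
      ext <;> simp
    conv_lhs => rw [e]
    rw [map_add, map_smul, map_smul]
    simp only [smul_eq_mul]
  rw [h3]
  simp only [_root_.add_apply, _root_.smul_apply, ContinuousLinearMap.smulRight_apply, rot,
    Prod.fst_add, Prod.snd_add, Prod.smul_fst, Prod.smul_snd, smul_eq_mul]
  ring

end

end Pool.Agent.W960.HS
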