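import Pool.Agent.W960.HS.Isom

/-! The Kostlan field in a chart adapted to a point of the plane. -/

open Real Set MeasureTheory Topology Filter
open scoped ENNReal

namespace Pool.Agent.W960.HS

noncomputable section

open Pool.Agent.W960.HR (T mem_T GP)
open Pool.Agent.H709R2 (fld)

/-- a frame: the point `r u` with `|u| = 1`, and `σ = √(1 + r²)` -/
structure Fr where
  r : ℝ
  σ : ℝ
  u : ℝ
  v : ℝ
  hr : 0 ≤ r
  hσ : 0 < σ
  hσr : σ ^ 2 = 1 + r ^ 2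
  hu : u ^ 2 + v ^ 2 = 1

namespace Fr

/-- the point -/
def pt (F : Fr) : ℝ × ℝ := (F.r * F.u, F.r * F.v)

/-- radial coordinate -/
def x (F : Fr) (z : ℝ × ℝ) : ℝ := F.u * z.1 + F.v * z.2

/-- tangential coordinate -/
def y (F : Fr) (z : ℝ × ℝ) : ℝ := F.u * z.2 - F.v * z.1

/-- denominator -/
def D (F : Fr) (z : ℝ × ℝ) : ℝ := 1 + F.r * F.x z

/-- chart, scaled by `√n` -/
def t (F : Fr) (n : ℕ) (z : ℝ × ℝ) : ℝ × ℝ :=
  (√n * (F.x z - F.r) / F.D z, √n * (F.σ * F.y z) / F.D z)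

/-- the rotation of space -/
def R (F : Fr) (Z : ℝ × ℝ × ℝ) : ℝ × ℝ × ℝ :=
  ((Z.1 + F.r * F.x Z.2) / F.σ, (F.x Z.2 - F.r * Z.1) / F.σ, F.y Z.2)

lemma dt3_R (F : Fr) (Z W : ℝ × ℝ × ℝ) : dt3 (F.R Z) (F.R W) = dt3 Z W := by
  have h1 := F.hσr
  have h2 := F.hu
  have h0 := F.hσ.ne'
  unfold dt3 R x y
  field_simp
  rw [h1]
  have h3 : F.v ^ 2 = 1 - F.u ^ 2 := by linarith
  ring_nf
  rw [h3]
  ring_nf
  try rw [h3]
  try ring

lemma exists_iso (F : Fr) (n : ℕ) : ∃ O : EuclideanSpace ℝ (T n) →ₗᵢ[ℝ] EuclideanSpace ℝ (T n),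
    ∀ Z, O (ev n Z) = ev n (F.R Z) :=
  gram (fun Z => ev n Z) (fun Z => ev n (F.R Z)) fun Z W => by
    rw [inner_ev, inner_ev, dt3_R]

/-- the isometry -/
def O (F : Fr) (n : ℕ) : EuclideanSpace ℝ (T n) →ₗᵢ[ℝ] EuclideanSpace ℝ (T n) :=
  (F.exists_iso n).choose

lemma O_ev (F : Fr) (n : ℕ) (Z : ℝ × ℝ × ℝ) : F.O n (ev n Z) = ev n (F.R Z) :=
  (F.exists_iso n).choose_spec Z

/-- the transformed coefficients -/
def g (F : Fr) (n : ℕ) (c : T n → ℝ × ℝ) : T n → ℝ × ℝ := tr (F.O n) c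

lemma mp_g (F : Fr) (n : ℕ) : MeasurePreserving (F.g n) (GP (T n)) (GP (T n)) := mp_tr _

end Fr

/-- scaled coefficients -/
def sc (n : ℕ) (c : T n → ℝ × ℝ) : T n → ℝ × ℝ := fun m => sm n m.1 • c m

/-- coefficients of the normalised field -/
def bt (n : ℕ) (m : ℕ × ℕ) : ℝ := sm n m / √n ^ (m.1 + m.2)

lemma bt_nonneg (n : ℕ) (m : ℕ × ℕ) : 0 ≤ bt n m := by
  unfold bt
  have := sm_nonneg n m
  positivity

lemma bt_le {n : ℕ} (hn : 1 ≤ n) (m : ℕ × ℕ) : bt n m ≤ 1 := by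
  have hn0 : (0:ℝ) < n := by exact_mod_cast hn
  unfold bt
  rw [div_le_one (by positivity)]
  unfold sm
  rw [Real.sqrt_le_iff]
  refine ⟨by positivity, (mlt_le n m).trans (le_of_eq ?_)⟩
  rw [← pow_mul, mul_comm (m.1 + m.2) 2, pow_mul, Real.sq_sqrt hn0.le]

lemma bt_zero (n : ℕ) : bt n (0, 0) = 1 := by
  unfold bt sm
  rw [mlt_zero]
  simp

/-- the normalised field in the chart -/
def Ph (n : ℕ) (g : T n → ℝ × ℝ) (t : ℝ × ℝ) : ℝ × ℝ :=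
  ∑ m : T n, (bt n m.1 * (t.1 ^ m.1.1 * t.2 ^ m.1.2)) • g m

lemma fld_fst (n : ℕ) (c : T n → ℝ × ℝ) (z : ℝ × ℝ) :
    (fld (sc n c) z).1 = inner ℝ (ev n (1, z)) (c1 c) := by
  unfold fld
  rw [Prod.fst_sum, PiLp.inner_apply]
  refine Finset.sum_congr rfl fun m _ => ?_
  simp only [sc, ev, c1, Prod.smul_fst, smul_eq_mul, RCLike.inner_apply, conj_trivial, one_pow]
  ring

lemma fld_snd (n : ℕ) (c : T n → ℝ × ℝ) (z : ℝ × ℝ) :
    (fld (sc n c) z).2 = inner ℝ (ev n (1, z)) (c2 c) := by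
  unfold fld
  rw [Prod.snd_sum, PiLp.inner_apply]
  refine Finset.sum_congr rfl fun m _ => ?_
  simp only [sc, ev, c2, Prod.smul_snd, smul_eq_mul, RCLike.inner_apply, conj_trivial, one_pow]
  ring

lemma ev_R (F : Fr) {n : ℕ} (hn : 1 ≤ n) {z : ℝ × ℝ} (hD : 0 < F.D z) (m : T n) :
    ev n (F.R (1, z)) m = (F.D z / F.σ) ^ n *
      (bt n m.1 * ((F.t n z).1 ^ m.1.1 * (F.t n z).2 ^ m.1.2)) := by
  have hs0 := F.hσ
  have hn0 : (0:ℝ) < √n := Real.sqrt_pos.2 (by exact_mod_cast hn)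
  have hm := mem_T.1 m.2
  set i := m.1.1 with hi
  set j := m.1.2 with hj
  have e1 : (F.R (1, z)).1 = F.D z / F.σ := by
    simp only [Fr.R, Fr.D]
  have e2 : (F.R (1, z)).2.1 = F.D z / F.σ * ((F.t n z).1 / √n) := by
    simp only [Fr.R, Fr.t]
    field_simp
  have e3 : (F.R (1, z)).2.2 = F.D z / F.σ * ((F.t n z).2 / √n) := by
    simp only [Fr.R, Fr.t]
    field_simp
  simp only [ev]
  rw [e1, e2, e3, mul_pow, mul_pow, div_pow _ (√n), div_pow _ (√n)]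
  have e4 : (F.D z / F.σ) ^ n = (F.D z / F.σ) ^ (n - i - j) * (F.D z / F.σ) ^ i *
      (F.D z / F.σ) ^ j := by
    rw [← pow_add, ← pow_add]
    congr 1
    omega
  rw [e4]
  unfold bt
  rw [pow_add (√(n:ℝ))]
  field_simp
  simp only [hi, hj]
  ring

/-- The field in the chart. -/
theorem chart (F : Fr) {n : ℕ} (hn : 1 ≤ n) (c : T n → ℝ × ℝ) {z : ℝ × ℝ} (hD : 0 < F.D z) :
    fld (sc n c) z = (F.D z / F.σ) ^ n • Ph n (F.g n c) (F.t n z) := by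
  have key : ∀ w : EuclideanSpace ℝ (T n), inner ℝ (ev n (1, z)) w =
      (F.D z / F.σ) ^ n * ∑ m : T n, (bt n m.1 * ((F.t n z).1 ^ m.1.1 * (F.t n z).2 ^ m.1.2)) *
        (F.O n w) m := by
    intro w
    rw [← (F.O n).inner_map_map, F.O_ev, PiLp.inner_apply, Finset.mul_sum]
    refine Finset.sum_congr rfl fun m _ => ?_
    rw [ev_R F hn hD]
    simp only [RCLike.inner_apply, conj_trivial]
    ring
  ext
  · rw [fld_fst, key, Prod.smul_fst, Ph, Prod.fst_sum, smul_eq_mul]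
    rfl
  · rw [fld_snd, key, Prod.smul_snd, Ph, Prod.snd_sum, smul_eq_mul]
    rfl

end

end Pool.Agent.W960.HS
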