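import Pool.Agent.W960.HS.GE

/-! Negative moments of the normalised field. -/

open Real Set MeasureTheory Topology Filter ProbabilityTheory
open scoped ENNReal

namespace Pool.Agent.W960.HS

noncomputable section

open Pool.Agent.W960.HR (T mem_T GP resample g2_le volume_ball_le)
open Pool.Agent.H709R2 (fld g2)

variable {n : ℕ}

/-- the exponent of the negative moments -/
def s8 : ℝ := 15 / 8

/-- one dyadic factor -/
def βs : ℝ := (1 / 2 : ℝ) ^ (-s8)

lemma βs_pos : 0 < βs := Real.rpow_pos_of_pos (by norm_num) _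

lemma βs_lt : βs < 4 := by
  unfold βs s8
  have h1 : (1 / 2 : ℝ) ^ (-(15 / 8) : ℝ) = 2 ^ (15 / 8 : ℝ) := by
    rw [one_div, Real.inv_rpow (by norm_num), Real.rpow_neg (by norm_num), inv_inv]
  rw [h1]
  calc (2:ℝ) ^ (15 / 8 : ℝ) < 2 ^ (2:ℝ) := Real.rpow_lt_rpow_of_exponent_lt (by norm_num) (by norm_num)
    _ = 4 := by norm_num

/-- pointwise bound of the negative power -/
lemma neg_pow_le (x : ℝ × ℝ) : ENNReal.ofReal (‖x‖ ^ (-s8)) ≤ 1 + ∑' k : ℕ,
    {x : ℝ × ℝ | ‖x‖ ≤ (1 / 2) ^ k}.indicator (fun _ => ENNReal.ofReal (βs ^ (k + 1))) x := by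
  have hs : (0:ℝ) < s8 := by norm_num [s8]
  rcases (norm_nonneg x).eq_or_lt with h0 | h0
  · rw [← h0, Real.zero_rpow (by linarith), ENNReal.ofReal_zero]
    exact zero_le
  · by_cases h1 : ‖x‖ ≤ 1
    · obtain ⟨k, hk1, hk2⟩ := exists_nat_pow_near_of_lt_one h0 h1 (by norm_num : (0:ℝ) < 1 / 2)
        (by norm_num)
      refine le_trans ?_ le_add_self
      refine le_trans ?_ (ENNReal.le_tsum k)
      rw [indicator_of_mem (show x ∈ {x : ℝ × ℝ | ‖x‖ ≤ (1 / 2) ^ k} from hk2)]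
      apply ENNReal.ofReal_le_ofReal
      have h2 : ‖x‖ ^ (-s8) ≤ ((1 / 2 : ℝ) ^ (k + 1)) ^ (-s8) :=
        Real.rpow_le_rpow_of_nonpos (by positivity) hk1.le (by linarith)
      refine h2.trans (le_of_eq ?_)
      unfold βs
      rw [Real.rpow_pow_comm (by norm_num)]
    · push Not at h1
      refine le_trans ?_ le_self_add
      rw [← ENNReal.ofReal_one]
      exact ENNReal.ofReal_le_ofReal (Real.rpow_le_one_of_one_le_of_nonpos h1.le (by linarith))

/-- bound of the negative moments -/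
def K15 : ℝ≥0∞ := 1 + ∑' k : ℕ, ENNReal.ofReal (βs ^ (k + 1) * (4 * ((1 / 2) ^ k) ^ 2))

lemma K15_ne : K15 ≠ ∞ := by
  unfold K15
  refine ENNReal.add_ne_top.2 ⟨ENNReal.one_ne_top, ?_⟩
  have h0 := βs_pos
  have e : ∀ k : ℕ, ENNReal.ofReal (βs ^ (k + 1) * (4 * ((1 / 2) ^ k) ^ 2)) =
      ENNReal.ofReal (4 * βs) * ENNReal.ofReal (βs / 4) ^ k := by
    intro k
    rw [← ENNReal.ofReal_pow (by positivity), ← ENNReal.ofReal_mul (by positivity)]
    congr 1
    have h4 : (((1:ℝ) / 2) ^ k) ^ 2 = (1 / 4) ^ k := by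
      rw [← pow_mul, mul_comm k 2, pow_mul]; norm_num
    rw [h4, pow_succ, div_eq_mul_one_div βs 4, mul_pow]
    ring
  simp_rw [e]
  rw [ENNReal.tsum_mul_left, ENNReal.tsum_geometric]
  refine ENNReal.mul_ne_top ENNReal.ofReal_ne_top (ENNReal.inv_ne_top.2 ?_)
  have h1 : ENNReal.ofReal (βs / 4) < 1 := by
    rw [← ENNReal.ofReal_one]
    rw [ENNReal.ofReal_lt_ofReal_iff (by norm_num)]
    linarith [βs_lt]
  exact (tsub_pos_of_lt h1).ne'

lemma measurable_neg : Measurable fun v : ℝ × ℝ => ENNReal.ofReal (‖v‖ ^ (-s8)) := by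
  fun_prop

/-- negative moments around any point -/
lemma neg_moment (b : ℝ × ℝ) : ∫⁻ v, ENNReal.ofReal (‖v + b‖ ^ (-s8)) ∂g2 ≤ K15 := by
  have hm : ∀ k : ℕ, MeasurableSet {x : ℝ × ℝ | ‖x‖ ≤ (1 / 2) ^ k} := fun k =>
    (isClosed_le (by fun_prop) continuous_const).measurableSet
  have hm' : ∀ k : ℕ, MeasurableSet {v : ℝ × ℝ | ‖v + b‖ ≤ (1 / 2) ^ k} := fun k =>
    (isClosed_le (by fun_prop) continuous_const).measurableSet
  calc ∫⁻ v, ENNReal.ofReal (‖v + b‖ ^ (-s8)) ∂g2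
      ≤ ∫⁻ v, (1 + ∑' k : ℕ, {v : ℝ × ℝ | ‖v + b‖ ≤ (1 / 2) ^ k}.indicator
          (fun _ => ENNReal.ofReal (βs ^ (k + 1))) v) ∂g2 := lintegral_mono fun v => neg_pow_le (v + b)
    _ = 1 + ∑' k : ℕ, ENNReal.ofReal (βs ^ (k + 1)) * g2 {v : ℝ × ℝ | ‖v + b‖ ≤ (1 / 2) ^ k} := by
        rw [lintegral_add_left measurable_const, lintegral_const, measure_univ, mul_one,
          lintegral_tsum fun k => (measurable_const.indicator (hm' k)).aemeasurable]
        congr 1
        refine tsum_congr fun k => ?_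
        rw [lintegral_indicator_const (hm' k)]
    _ ≤ K15 := by
        unfold K15
        gcongr with k
        rw [ENNReal.ofReal_mul (pow_nonneg βs_pos.le _)]
        gcongr
        exact (g2_le _).trans (volume_ball_le b (by positivity))

/-- bound of the mixed moments -/
def KE : ℝ≥0∞ := (1 + K4) * (1 + K15)

lemma KE_ne : KE ≠ ∞ := ENNReal.mul_ne_top (ENNReal.add_ne_top.2 ⟨ENNReal.one_ne_top, K4_ne⟩)
  (ENNReal.add_ne_top.2 ⟨ENNReal.one_ne_top, K15_ne⟩)

lemma one_add_as4 : ∫⁻ g, ENNReal.ofReal (1 + as g ^ 4) ∂GP (T n) ≤ 1 + K4 := by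
  have e : ∀ g : T n → ℝ × ℝ, ENNReal.ofReal (1 + as g ^ 4) = 1 + ENNReal.ofReal (as g ^ 4) := by
    intro g
    rw [ENNReal.ofReal_add zero_le_one (by have := as_nonneg g; positivity), ENNReal.ofReal_one]
  simp_rw [e]
  rw [lintegral_add_left measurable_const, lintegral_const, measure_univ, mul_one]
  gcongr
  exact as4

/-- mixed moments -/
theorem mixed (t : ℝ × ℝ) :
    ∫⁻ g, ENNReal.ofReal ((1 + as g ^ 4) * (1 + ‖Ph n g t‖ ^ (-s8))) ∂GP (T n) ≤ KE := by
  have h := cond (n := n) (Ψ := fun a v => ENNReal.ofReal ((1 + a ^ 4) * (1 + ‖v‖ ^ (-s8))))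
    (K := fun a => ENNReal.ofReal (1 + a ^ 4) * (1 + K15)) (by fun_prop) (by
      intro a ha b
      have e : ∀ v : ℝ × ℝ, ENNReal.ofReal ((1 + a ^ 4) * (1 + ‖v + b‖ ^ (-s8))) =
          ENNReal.ofReal (1 + a ^ 4) * (1 + ENNReal.ofReal (‖v + b‖ ^ (-s8))) := by
        intro v
        rw [ENNReal.ofReal_mul (by positivity), ENNReal.ofReal_add (q := ‖v + b‖ ^ (-s8))
          zero_le_one (by positivity), ENNReal.ofReal_one]
      simp_rw [e]
      rw [lintegral_const_mul _ (by fun_prop), lintegral_add_left measurable_const, lintegral_const,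
        measure_univ, mul_one]
      gcongr
      exact neg_moment b) t
  refine h.trans ?_
  rw [lintegral_mul_const _ (by
    have := continuous_as (n := n)
    fun_prop)]
  unfold KE
  gcongr
  exact one_add_as4

/-- small values -/
theorem small {k : ℕ} (hk : k ≤ 2) (t : ℝ × ℝ) {ρ : ℝ} (hρ : 0 ≤ ρ) :
    ∫⁻ g, {g : T n → ℝ × ℝ | ‖Ph n g t‖ ≤ ρ * as g}.indicator
      (fun g => ENNReal.ofReal (as g ^ k)) g ∂GP (T n) ≤ ENNReal.ofReal (4 * ρ ^ 2) * (1 + K4) := by
  have hm : MeasurableSet {q : ℝ × (ℝ × ℝ) | ‖q.2‖ ≤ ρ * q.1} :=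
    (isClosed_le (by fun_prop) (by fun_prop)).measurableSet
  have hΨ : Measurable (Function.uncurry fun (a : ℝ) (v : ℝ × ℝ) =>
      {q : ℝ × (ℝ × ℝ) | ‖q.2‖ ≤ ρ * q.1}.indicator (fun q => ENNReal.ofReal (q.1 ^ k)) (a, v)) := by
    have : Measurable fun q : ℝ × (ℝ × ℝ) => ENNReal.ofReal (q.1 ^ k) := by fun_prop
    exact this.indicator hm
  have h := cond (n := n) (K := fun a => ENNReal.ofReal (4 * ρ ^ 2) * ENNReal.ofReal (1 + a ^ 4))
    hΨ (by
      intro a ha b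
      have hm' : MeasurableSet {v : ℝ × ℝ | ‖v + b‖ ≤ ρ * a} :=
        (isClosed_le (by fun_prop) continuous_const).measurableSet
      have e : ∀ v : ℝ × ℝ, {q : ℝ × (ℝ × ℝ) | ‖q.2‖ ≤ ρ * q.1}.indicator
          (fun q => ENNReal.ofReal (q.1 ^ k)) (a, v + b) =
          {v : ℝ × ℝ | ‖v + b‖ ≤ ρ * a}.indicator (fun _ => ENNReal.ofReal (a ^ k)) v := by
        intro v
        simp only [indicator, mem_ofPred_eq]
      simp_rw [e]
      rw [lintegral_indicator_const hm']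
      calc ENNReal.ofReal (a ^ k) * g2 {v : ℝ × ℝ | ‖v + b‖ ≤ ρ * a}
          ≤ ENNReal.ofReal (a ^ k) * ENNReal.ofReal (4 * (ρ * a) ^ 2) := by
            gcongr
            exact (g2_le _).trans (volume_ball_le b (by positivity))
        _ ≤ ENNReal.ofReal (4 * ρ ^ 2) * ENNReal.ofReal (1 + a ^ 4) := by
            rw [← ENNReal.ofReal_mul (by positivity), ← ENNReal.ofReal_mul (by positivity)]
            apply ENNReal.ofReal_le_ofReal
            have h1 : a ^ k * a ^ 2 ≤ 1 + a ^ 4 := by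
              rw [← pow_add]
              rcases le_total a 1 with h2 | h2
              · have h3 : a ^ (k + 2) ≤ 1 := pow_le_one₀ ha h2
                have : 0 ≤ a ^ 4 := by positivity
                linarith
              · have h3 : a ^ (k + 2) ≤ a ^ 4 := pow_le_pow_right₀ h2 (by omega)
                linarith
            calc a ^ k * (4 * (ρ * a) ^ 2) = 4 * ρ ^ 2 * (a ^ k * a ^ 2) := by ring
              _ ≤ 4 * ρ ^ 2 * (1 + a ^ 4) := by gcongr) t
  have e : ∀ g : T n → ℝ × ℝ, {g : T n → ℝ × ℝ | ‖Ph n g t‖ ≤ ρ * as g}.indicator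
      (fun g => ENNReal.ofReal (as g ^ k)) g =
      {q : ℝ × (ℝ × ℝ) | ‖q.2‖ ≤ ρ * q.1}.indicator (fun q => ENNReal.ofReal (q.1 ^ k))
        (as g, Ph n g t) := by
    intro g
    simp only [indicator, mem_ofPred_eq]
  simp_rw [e]
  refine h.trans ?_
  rw [lintegral_const_mul _ (by
    have := continuous_as (n := n)
    fun_prop)]
  gcongr
  exact one_add_as4

end

end Pool.Agent.W960.HS
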