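import Pool.Agent.W960.HS.Kernel
import Pool.Agent.W960.HR.Smooth

/-! Isometries of the space of coefficients preserve the Gaussian measure. -/

open Real Set MeasureTheory Topology Filter
open scoped ENNReal

namespace Pool.Agent.W960.HS

noncomputable section

open Pool.Agent.W960.HR (T mem_T GP sn pb continuous_dens dens_eq)
open Pool.Agent.H709R2 (dens gS_eq)

variable {S : Finset (ℕ × ℕ)}

/-- the first components as a vector -/
def c1 (c : S → ℝ × ℝ) : EuclideanSpace ℝ S := WithLp.toLp 2 fun m => (c m).1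

/-- the second components as a vector -/
def c2 (c : S → ℝ × ℝ) : EuclideanSpace ℝ S := WithLp.toLp 2 fun m => (c m).2

/-- an isometry acting on both components of the coefficients -/
def tr (O : EuclideanSpace ℝ S →ₗᵢ[ℝ] EuclideanSpace ℝ S) : (S → ℝ × ℝ) →ₗ[ℝ] (S → ℝ × ℝ) where
  toFun c := fun m => (O (c1 c) m, O (c2 c) m)
  map_add' c d := by
    funext m
    have h1 : c1 (c + d) = c1 c + c1 d := rfl
    have h2 : c2 (c + d) = c2 c + c2 d := rfl
    rw [h1, h2, map_add, map_add]
    rfl
  map_smul' r c := by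
    funext m
    have h1 : c1 (r • c) = r • c1 c := rfl
    have h2 : c2 (r • c) = r • c2 c := rfl
    rw [h1, h2, map_smul, map_smul]
    rfl

lemma tr_apply (O : EuclideanSpace ℝ S →ₗᵢ[ℝ] EuclideanSpace ℝ S) (c : S → ℝ × ℝ) (m : S) :
    tr O c m = (O (c1 c) m, O (c2 c) m) := rfl

lemma sn_eq (c : S → ℝ × ℝ) : sn c = ‖c1 c‖ ^ 2 + ‖c2 c‖ ^ 2 := by
  rw [EuclideanSpace.norm_sq_eq, EuclideanSpace.norm_sq_eq, ← Finset.sum_add_distrib]
  unfold sn H709R2.sq
  refine Finset.sum_congr rfl fun m _ => ?_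
  simp [c1, c2]

lemma sn_tr (O : EuclideanSpace ℝ S →ₗᵢ[ℝ] EuclideanSpace ℝ S) (c : S → ℝ × ℝ) :
    sn (tr O c) = sn c := by
  rw [sn_eq, sn_eq]
  have h1 : c1 (tr O c) = O (c1 c) := rfl
  have h2 : c2 (tr O c) = O (c2 c) := rfl
  rw [h1, h2, O.norm_map, O.norm_map]

lemma sn_eq_zero {c : S → ℝ × ℝ} (h : sn c = 0) : c = 0 := by
  unfold sn at h
  rw [Finset.sum_eq_zero_iff_of_nonneg fun m _ => by unfold H709R2.sq; positivity] at h
  funext m
  have h1 := h m (Finset.mem_univ m)
  by_contra hcon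
  exact (H709R2.sq_pos hcon).ne' h1

lemma continuous_sn : Continuous (sn (S := S)) := by
  unfold sn H709R2.sq
  fun_prop

lemma norm_sq_le_sn (c : S → ℝ × ℝ) : ‖c‖ ^ 2 ≤ sn c := by
  have h0 : 0 ≤ sn c := Finset.sum_nonneg fun m _ => by unfold H709R2.sq; positivity
  have h1 : ‖c‖ ≤ √(sn c) := by
    rw [pi_norm_le_iff_of_nonneg (Real.sqrt_nonneg _)]
    intro m
    refine Real.le_sqrt_of_sq_le ((HR.norm_sq_le_sq _).trans ?_)
    unfold sn
    exact Finset.single_le_sum (f := fun m => H709R2.sq (c m))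
      (fun m _ => by unfold H709R2.sq; positivity) (Finset.mem_univ m)
  have h2 := pow_le_pow_left₀ (norm_nonneg _) h1 2
  rwa [Real.sq_sqrt h0] at h2

lemma volume_tr (O : EuclideanSpace ℝ S →ₗᵢ[ℝ] EuclideanSpace ℝ S) :
    MeasurePreserving (tr O) (volume : Measure (S → ℝ × ℝ)) volume := by
  have hinj : Function.Injective (tr O) := by
    rw [← LinearMap.ker_eq_bot, LinearMap.ker_eq_bot']
    intro c hc
    apply sn_eq_zero
    rw [← sn_tr O, hc]
    unfold sn H709R2.sq
    simp
  have hdet : LinearMap.det (tr O) ≠ 0 := by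
    have h1 : tr O = ↑(LinearEquiv.ofInjectiveEndo (tr O) hinj) := by
      ext1 c; rfl
    rw [h1]
    exact (LinearEquiv.isUnit_det' _).ne_zero
  have hc : Continuous (tr O) := LinearMap.continuous_of_finiteDimensional _
  refine ⟨hc.measurable, ?_⟩
  have hmap := Measure.map_linearMap_addHaar_eq_smul_addHaar
    (volume : Measure (S → ℝ × ℝ)) hdet
  set B : Set (S → ℝ × ℝ) := {c | sn c ≤ 1} with hB
  have hBm : MeasurableSet B := (isClosed_le continuous_sn continuous_const).measurableSet
  have hpre : (tr O) ⁻¹' B = B := by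
    ext c
    simp only [hB, mem_preimage, mem_ofPred_eq, sn_tr]
  have h1 : volume B = ENNReal.ofReal |(LinearMap.det (tr O))⁻¹| * volume B := by
    have := congrArg (fun μ : Measure (S → ℝ × ℝ) => μ B) hmap
    rw [Measure.map_apply hc.measurable hBm, hpre] at this
    simpa using this
  have hpos : 0 < volume B := by
    have h2 : IsOpen {c : S → ℝ × ℝ | sn c < 1} := isOpen_lt continuous_sn continuous_const
    have h3 : (0 : S → ℝ × ℝ) ∈ {c : S → ℝ × ℝ | sn c < 1} := by
      simp [sn, H709R2.sq]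
    refine (h2.measure_pos volume ⟨0, h3⟩).trans_le (measure_mono fun c hc => ?_)
    have h4 : sn c < 1 := hc
    exact h4.le
  have hfin : volume B < ∞ := by
    have : B ⊆ Metric.closedBall 0 1 := by
      intro c hc
      rw [mem_closedBall_zero_iff]
      have h2 := (norm_sq_le_sn c).trans hc
      nlinarith [norm_nonneg c]
    exact (measure_mono this).trans_lt measure_closedBall_lt_top
  have h4 : ENNReal.ofReal |(LinearMap.det (tr O))⁻¹| = 1 := by
    by_contra hne
    have h5 : (1:ℝ≥0∞) * volume B = ENNReal.ofReal |(LinearMap.det (tr O))⁻¹| * volume B := by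
      rw [one_mul]; exact h1
    exact hne ((ENNReal.mul_left_inj hpos.ne' hfin.ne).1 h5).symm
  rw [hmap, h4, one_smul]

/-- The Gaussian measure is preserved. -/
theorem mp_tr (O : EuclideanSpace ℝ S →ₗᵢ[ℝ] EuclideanSpace ℝ S) :
    MeasurePreserving (tr O) (GP S) (GP S) := by
  have hc : Continuous (tr O) := LinearMap.continuous_of_finiteDimensional _
  refine ⟨hc.measurable, ?_⟩
  have h1 : GP S = (volume : Measure (S → ℝ × ℝ)).withDensity
      fun c => ENNReal.ofReal (∏ m : S, dens (c m)) := gS_eq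
  have hcd : Continuous fun c : S → ℝ × ℝ => ∏ m : S, dens (c m) :=
    continuous_finsetProd _ fun m _ => continuous_dens.comp (by fun_prop)
  have hf : Measurable fun c : S → ℝ × ℝ => ENNReal.ofReal (∏ m : S, dens (c m)) :=
    ENNReal.measurable_ofReal.comp hcd.measurable
  have hd : ∀ c : S → ℝ × ℝ, ∏ m : S, dens (c m) =
      ((√(2 * π))⁻¹ ^ 2) ^ S.card * rexp (-(sn c) / 2) := by
    intro c
    simp_rw [dens_eq]
    rw [Finset.prod_mul_distrib, Finset.prod_const, Finset.card_univ, Fintype.card_coe,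
      ← Real.exp_sum]
    congr 2
    rw [← Finset.sum_div, Finset.sum_neg_distrib]
    rfl
  rw [h1]
  ext A hA
  rw [Measure.map_apply hc.measurable hA, withDensity_apply _ (hc.measurable hA),
    withDensity_apply _ hA, ← lintegral_indicator (hc.measurable hA), ← lintegral_indicator hA]
  have hF : Measurable (A.indicator fun c : S → ℝ × ℝ => ENNReal.ofReal (∏ m : S, dens (c m))) :=
    hf.indicator hA
  rw [← (volume_tr O).lintegral_comp hF]
  refine lintegral_congr fun c => ?_
  simp only [indicator]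
  rw [hd, hd, sn_tr]
  rfl

end

end Pool.Agent.W960.HS
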