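import Pool.Agent.W960.HR.Wts
import Mathlib.Analysis.InnerProductSpace.PiL2
import Mathlib.LinearAlgebra.FiniteDimensional.Lemmas

/-! The kernel of the Kostlan ensemble and the isometries of the space of coefficients which
realise rotations of the projective plane. -/

open Real Set MeasureTheory Topology Filter
open scoped ENNReal

namespace Pool.Agent.W960.HS

noncomputable section

open Pool.Agent.W960.HR (T mem_T sum_T)

/-- multinomial coefficients -/
def mlt (n : ℕ) (m : ℕ × ℕ) : ℝ := (n.choose m.2 : ℝ) * ((n - m.2).choose m.1 : ℝ)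

lemma mlt_nonneg (n : ℕ) (m : ℕ × ℕ) : 0 ≤ mlt n m := by unfold mlt; positivity

lemma mlt_zero (n : ℕ) : mlt n (0, 0) = 1 := by simp [mlt]

lemma mlt_le (n : ℕ) (m : ℕ × ℕ) : mlt n m ≤ (n:ℝ) ^ (m.1 + m.2) := by
  unfold mlt
  have h1 : (n.choose m.2 : ℝ) ≤ (n:ℝ) ^ m.2 := by exact_mod_cast Nat.choose_le_pow n m.2
  have h2 : ((n - m.2).choose m.1 : ℝ) ≤ (n:ℝ) ^ m.1 := by
    have h3 : (n - m.2).choose m.1 ≤ n ^ m.1 :=
      (Nat.choose_le_pow _ _).trans (Nat.pow_le_pow_left (Nat.sub_le _ _) _)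
    exact_mod_cast h3
  calc _ ≤ (n:ℝ) ^ m.2 * (n:ℝ) ^ m.1 := mul_le_mul h1 h2 (by positivity) (by positivity)
    _ = _ := by rw [← pow_add, add_comm]

lemma multinom (n : ℕ) (A x y : ℝ) :
    ∑ m ∈ T n, mlt n m * (A ^ (n - m.1 - m.2) * x ^ m.1 * y ^ m.2) = (A + x + y) ^ n := by
  have h := sum_T n (fun i j => mlt n (i, j) * (A ^ (n - i - j) * x ^ i * y ^ j))
  have h0 : ∑ m ∈ T n, mlt n m * (A ^ (n - m.1 - m.2) * x ^ m.1 * y ^ m.2) =
      ∑ m ∈ T n, mlt n (m.1, m.2) * (A ^ (n - m.1 - m.2) * x ^ m.1 * y ^ m.2) := rfl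
  rw [h0, h, show A + x + y = y + (x + A) by ring, add_pow]
  refine Finset.sum_congr rfl fun j hj => ?_
  rw [add_pow, Finset.mul_sum, Finset.sum_mul]
  refine Finset.sum_congr rfl fun i hi => ?_
  rw [Finset.mem_range] at hi hj
  unfold mlt
  rw [show n - i - j = n - j - i by omega]
  ring

/-- square roots of the multinomial coefficients -/
def sm (n : ℕ) (m : ℕ × ℕ) : ℝ := √(mlt n m)

lemma sm_nonneg (n : ℕ) (m : ℕ × ℕ) : 0 ≤ sm n m := Real.sqrt_nonneg _

lemma sm_sq (n : ℕ) (m : ℕ × ℕ) : sm n m ^ 2 = mlt n m := Real.sq_sqrt (mlt_nonneg _ _)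

/-- weighted monomials of degree `n` in three variables -/
def ev (n : ℕ) (Z : ℝ × ℝ × ℝ) : EuclideanSpace ℝ (T n) :=
  WithLp.toLp 2 fun m => sm n m.1 * (Z.1 ^ (n - m.1.1 - m.1.2) * Z.2.1 ^ m.1.1 * Z.2.2 ^ m.1.2)

/-- scalar product in space -/
def dt3 (Z W : ℝ × ℝ × ℝ) : ℝ := Z.1 * W.1 + Z.2.1 * W.2.1 + Z.2.2 * W.2.2

lemma inner_ev (n : ℕ) (Z W : ℝ × ℝ × ℝ) : inner ℝ (ev n Z) (ev n W) = dt3 Z W ^ n := by
  rw [PiLp.inner_apply]
  unfold dt3
  rw [← multinom, ← Finset.sum_coe_sort (T n)]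
  refine Finset.sum_congr rfl fun m _ => ?_
  simp only [ev, RCLike.inner_apply, conj_trivial]
  rw [← sm_sq, mul_pow, mul_pow, mul_pow]
  ring

/-- Families with the same Gram matrix are related by an isometry. -/
theorem gram {ι E : Type*} [NormedAddCommGroup E] [InnerProductSpace ℝ E] [FiniteDimensional ℝ E]
    (v w : ι → E) (h : ∀ i j, inner ℝ (v i) (v j) = (inner ℝ (w i) (w j) : ℝ)) :
    ∃ O : E →ₗᵢ[ℝ] E, ∀ i, O (v i) = w i := by
  classical
  set f : (ι →₀ ℝ) →ₗ[ℝ] E := Finsupp.linearCombination ℝ v with hf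
  set g : (ι →₀ ℝ) →ₗ[ℝ] E := Finsupp.linearCombination ℝ w with hg
  have hin : ∀ x y, (inner ℝ (f x) (f y) : ℝ) = inner ℝ (g x) (g y) := by
    intro x y
    simp only [hf, hg, Finsupp.linearCombination_apply, Finsupp.sum]
    simp only [sum_inner, inner_sum, real_inner_smul_left, real_inner_smul_right, h]
  have hnorm : ∀ x, ‖f x‖ = ‖g x‖ := by
    intro x
    have h1 := hin x x
    rw [real_inner_self_eq_norm_sq, real_inner_self_eq_norm_sq] at h1
    exact (sq_eq_sq₀ (norm_nonneg _) (norm_nonneg _)).1 h1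
  have hker : ∀ x, f x = 0 → g x = 0 := by
    intro x hx
    have := hnorm x
    rw [hx, norm_zero] at this
    exact norm_eq_zero.1 this.symm
  obtain ⟨s, hs⟩ : ∃ s : LinearMap.range f →ₗ[ℝ] (ι →₀ ℝ),
      f.rangeRestrict ∘ₗ s = LinearMap.id :=
    f.rangeRestrict.exists_rightInverse_of_surjective (LinearMap.range_rangeRestrict f)
  have hs' : ∀ y : LinearMap.range f, f (s y) = y := by
    intro y
    have := congrArg (fun l => (l y : E)) hs
    simpa using this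
  set L : LinearMap.range f →ₗ[ℝ] E := g ∘ₗ s with hL
  have hLn : ∀ y, ‖L y‖ = ‖y‖ := by
    intro y
    simp only [hL, LinearMap.comp_apply]
    rw [← hnorm, hs']
    rfl
  set L' : LinearMap.range f →ₗᵢ[ℝ] E := ⟨L, hLn⟩ with hL'
  refine ⟨L'.extend, fun i => ?_⟩
  have hv : f (Finsupp.single i 1) = v i := by simp [hf]
  have hw : g (Finsupp.single i 1) = w i := by simp [hg]
  have h1 : L'.extend (f (Finsupp.single i 1)) = L' ⟨f (Finsupp.single i 1), LinearMap.mem_range_self f _⟩ :=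
    L'.extend_apply ⟨f (Finsupp.single i 1), LinearMap.mem_range_self f _⟩
  rw [← hv, ← hw, h1]
  have h4 : L' ⟨f (Finsupp.single i 1), LinearMap.mem_range_self f _⟩ =
      g (s ⟨f (Finsupp.single i 1), LinearMap.mem_range_self f _⟩) := rfl
  rw [h4]
  have h2 : f (s ⟨f (Finsupp.single i 1), LinearMap.mem_range_self f _⟩ - Finsupp.single i 1) = 0 := by
    rw [map_sub, hs', sub_self]
  have h3 := hker _ h2
  rwa [map_sub, sub_eq_zero] at h3

end

end Pool.Agent.W960.HS
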