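import Pool.Agent.W960.HS.Series

/-! The chart near its centre. -/

open Real Set MeasureTheory Topology Filter
open scoped ENNReal

namespace Pool.Agent.W960.HS

noncomputable section

open Pool.Agent.W960.HR (T mem_T GP abs_fst_le abs_snd_le)
open Pool.Agent.H709R2 (fld)

namespace Fr

variable (F : Fr) {n : ℕ} {z z' w : ℝ × ℝ}

/-- closeness to the centre -/
def Nr (F : Fr) (n : ℕ) (z : ℝ × ℝ) : Prop := √n * ‖z - F.pt‖ ≤ F.σ / 32

lemma u_le : |F.u| ≤ 1 := by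
  have := F.hu
  rw [abs_le]
  constructor <;> nlinarith [sq_nonneg F.v, sq_nonneg (F.u - 1), sq_nonneg (F.u + 1)]

lemma v_le : |F.v| ≤ 1 := by
  have := F.hu
  rw [abs_le]
  constructor <;> nlinarith [sq_nonneg F.u, sq_nonneg (F.v - 1), sq_nonneg (F.v + 1)]

lemma one_le : 1 ≤ F.σ := by
  have h1 := F.hσr
  have h2 := F.hσ
  nlinarith [sq_nonneg F.r]

lemma r_le : F.r ≤ F.σ := by
  have h1 := F.hσr
  have h2 := F.hσ
  have h3 := F.hr
  nlinarith

lemma x_sub : F.x z - F.x z' = F.x (z - z') := by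
  unfold x; simp only [Prod.fst_sub, Prod.snd_sub]; ring

lemma y_sub : F.y z - F.y z' = F.y (z - z') := by
  unfold y; simp only [Prod.fst_sub, Prod.snd_sub]; ring

lemma x_pt : F.x F.pt = F.r := by
  have := F.hu
  unfold x pt
  simp only
  linear_combination F.r * this

lemma y_pt : F.y F.pt = 0 := by
  unfold y pt
  simp only
  ring

lemma x_le : |F.x w| ≤ 2 * ‖w‖ := by
  unfold x
  refine (abs_add_le _ _).trans ?_
  rw [abs_mul, abs_mul]
  have h1 : |F.u| * |w.1| ≤ 1 * ‖w‖ := mul_le_mul F.u_le (abs_fst_le w) (abs_nonneg _) zero_le_one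
  have h2 : |F.v| * |w.2| ≤ 1 * ‖w‖ := mul_le_mul F.v_le (abs_snd_le w) (abs_nonneg _) zero_le_one
  linarith

lemma y_le : |F.y w| ≤ 2 * ‖w‖ := by
  unfold y
  refine (abs_sub _ _).trans ?_
  rw [abs_mul, abs_mul]
  have h1 : |F.u| * |w.2| ≤ 1 * ‖w‖ := mul_le_mul F.u_le (abs_snd_le w) (abs_nonneg _) zero_le_one
  have h2 : |F.v| * |w.1| ≤ 1 * ‖w‖ := mul_le_mul F.v_le (abs_fst_le w) (abs_nonneg _) zero_le_one
  linarith

/-- normalised coordinates -/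
def ξ (z : ℝ × ℝ) : ℝ := (F.x z - F.r) / F.σ

def η (z : ℝ × ℝ) : ℝ := F.y z / F.σ

def q (z : ℝ × ℝ) : ℝ := F.σ ^ 2 / F.D z

def ρ : ℝ := F.r / F.σ

lemma rho_nonneg : 0 ≤ F.ρ := div_nonneg F.hr F.hσ.le

lemma rho_le : F.ρ ≤ 1 := (div_le_one F.hσ).2 F.r_le

lemma D_eq : F.D z = F.σ ^ 2 * (1 + F.ρ * F.ξ z) := by
  have h0 := F.hσ.ne'
  unfold D ρ ξ
  field_simp
  rw [F.hσr]
  ring

section

variable (hn : 1 ≤ n) (h : F.Nr n z) (h' : F.Nr n z')

include hn h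

lemma xi_le : √n * |F.ξ z| ≤ 1 / 16 := by
  unfold ξ
  rw [abs_div, abs_of_pos F.hσ, ← F.x_pt, F.x_sub, ← mul_div_assoc, div_le_iff₀ F.hσ]
  have h1 := mul_le_mul_of_nonneg_left (F.x_le (w := z - F.pt)) (Real.sqrt_nonneg n)
  unfold Nr at h
  linarith

lemma eta_le : √n * |F.η z| ≤ 1 / 16 := by
  unfold η
  have e : F.y z = F.y (z - F.pt) := by rw [← F.y_sub, F.y_pt, sub_zero]
  rw [abs_div, abs_of_pos F.hσ, e, ← mul_div_assoc, div_le_iff₀ F.hσ]
  have h1 := mul_le_mul_of_nonneg_left (F.y_le (w := z - F.pt)) (Real.sqrt_nonneg n)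
  unfold Nr at h
  linarith

omit h in
lemma sqrt_ge : 1 ≤ √(n:ℝ) := by
  rw [Real.one_le_sqrt]; exact_mod_cast hn

lemma xi_le' : |F.ξ z| ≤ 1 / 16 := by
  have h1 := F.xi_le hn h
  have h2 := sqrt_ge hn
  nlinarith [abs_nonneg (F.ξ z)]

lemma eta_le' : |F.η z| ≤ 1 / 16 := by
  have h1 := F.eta_le hn h
  have h2 := sqrt_ge hn
  nlinarith [abs_nonneg (F.η z)]

lemma d_bounds : 15 / 16 ≤ 1 + F.ρ * F.ξ z ∧ 1 + F.ρ * F.ξ z ≤ 17 / 16 := by
  have h1 : |F.ρ * F.ξ z| ≤ 1 / 16 := by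
    rw [abs_mul, abs_of_nonneg F.rho_nonneg]
    calc F.ρ * |F.ξ z| ≤ 1 * (1 / 16) := mul_le_mul F.rho_le (F.xi_le' hn h) (abs_nonneg _) zero_le_one
      _ = _ := by ring
  rw [abs_le] at h1
  constructor <;> linarith [h1.1, h1.2]

lemma D_pos : 0 < F.D z := by
  rw [F.D_eq]
  have := (F.d_bounds hn h).1
  have h0 := F.hσ
  positivity

lemma q_eq : F.q z = (1 + F.ρ * F.ξ z)⁻¹ := by
  have := (F.d_bounds hn h).1
  have h0 := F.hσ
  have h1 : 1 + F.ρ * F.ξ z ≠ 0 := by linarith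
  unfold q
  rw [F.D_eq]
  field_simp

lemma q_bounds : 16 / 17 ≤ F.q z ∧ F.q z ≤ 16 / 15 := by
  obtain ⟨h1, h2⟩ := F.d_bounds hn h
  rw [F.q_eq hn h]
  constructor
  · rw [le_inv_comm₀ (by norm_num) (by linarith)]
    linarith
  · rw [inv_le_comm₀ (by linarith) (by norm_num)]
    linarith

lemma t_fst : (F.t n z).1 = √n * (F.ξ z * F.q z) / F.σ := by
  have h0 := F.hσ.ne'
  have h1 := (F.D_pos hn h).ne'
  unfold t ξ q
  field_simp

lemma t_snd : (F.t n z).2 = √n * (F.η z * F.q z) := by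
  have h0 := F.hσ.ne'
  have h1 := (F.D_pos hn h).ne'
  unfold t η q
  field_simp

lemma t1_le : |(F.t n z).1| ≤ 1 / (15 * F.σ) := by
  rw [F.t_fst hn h, abs_div, abs_of_pos F.hσ, abs_mul, abs_mul, abs_of_nonneg (Real.sqrt_nonneg _)]
  obtain ⟨h1, h2⟩ := F.q_bounds hn h
  rw [abs_of_nonneg (by linarith : 0 ≤ F.q z)]
  have h3 : √n * (|F.ξ z| * F.q z) ≤ 1 / 15 := by
    calc √n * (|F.ξ z| * F.q z) = (√n * |F.ξ z|) * F.q z := by ring
      _ ≤ 1 / 16 * (16 / 15) := mul_le_mul (F.xi_le hn h) h2 (by linarith) (by norm_num)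
      _ = _ := by norm_num
  rw [div_le_div_iff₀ F.hσ (by have := F.hσ; positivity)]
  nlinarith [F.hσ]

lemma t2_le : |(F.t n z).2| ≤ 1 / 15 := by
  rw [F.t_snd hn h, abs_mul, abs_mul, abs_of_nonneg (Real.sqrt_nonneg _)]
  obtain ⟨h1, h2⟩ := F.q_bounds hn h
  rw [abs_of_nonneg (by linarith : 0 ≤ F.q z)]
  calc √n * (|F.η z| * F.q z) = (√n * |F.η z|) * F.q z := by ring
    _ ≤ 1 / 16 * (16 / 15) := mul_le_mul (F.eta_le hn h) h2 (by linarith) (by norm_num)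
    _ = _ := by norm_num

lemma t_le : ‖F.t n z‖ ≤ 1 / 8 := by
  rw [Prod.norm_def, max_le_iff, Real.norm_eq_abs, Real.norm_eq_abs]
  constructor
  · refine (F.t1_le hn h).trans ?_
    rw [div_le_div_iff₀ (by have := F.hσ; positivity) (by norm_num)]
    linarith [F.one_le]
  · exact (F.t2_le hn h).trans (by norm_num)

include h'

lemma xi_sub : |F.ξ z - F.ξ z'| ≤ 2 * ‖z - z'‖ / F.σ := by
  have e : F.ξ z - F.ξ z' = F.x (z - z') / F.σ := by
    unfold ξ; rw [← F.x_sub]; ring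
  rw [e, abs_div, abs_of_pos F.hσ]
  exact div_le_div_of_nonneg_right F.x_le F.hσ.le

lemma eta_sub : |F.η z - F.η z'| ≤ 2 * ‖z - z'‖ / F.σ := by
  have e : F.η z - F.η z' = F.y (z - z') / F.σ := by
    unfold η; rw [← F.y_sub]; ring
  rw [e, abs_div, abs_of_pos F.hσ]
  exact div_le_div_of_nonneg_right F.y_le F.hσ.le

lemma q_sub_eq : F.q z - F.q z' = -(F.ρ * (F.ξ z - F.ξ z')) * (F.q z * F.q z') := by
  rw [F.q_eq hn h, F.q_eq hn h']
  have h1 := (F.d_bounds hn h).1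
  have h2 := (F.d_bounds hn h').1
  have h3 : 1 + F.ρ * F.ξ z ≠ 0 := by linarith
  have h4 : 1 + F.ρ * F.ξ z' ≠ 0 := by linarith
  field_simp
  ring

lemma q_sub : |F.q z - F.q z'| ≤ 3 * ‖z - z'‖ / F.σ := by
  obtain ⟨h1, h2⟩ := F.q_bounds hn h
  obtain ⟨h3, h4⟩ := F.q_bounds hn h'
  rw [F.q_sub_eq hn h h', abs_mul, abs_neg, abs_mul, abs_of_nonneg F.rho_nonneg,
    abs_of_nonneg (by nlinarith : 0 ≤ F.q z * F.q z')]
  have h5 : F.q z * F.q z' ≤ 16 / 15 * (16 / 15) := mul_le_mul h2 h4 (by linarith) (by norm_num)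
  have h6 : F.ρ * |F.ξ z - F.ξ z'| ≤ 1 * (2 * ‖z - z'‖ / F.σ) :=
    mul_le_mul F.rho_le (F.xi_sub hn h h') (abs_nonneg _) zero_le_one
  have h7 : 0 ≤ ‖z - z'‖ / F.σ := div_nonneg (norm_nonneg _) F.hσ.le
  calc F.ρ * |F.ξ z - F.ξ z'| * (F.q z * F.q z') ≤ 1 * (2 * ‖z - z'‖ / F.σ) * (16 / 15 * (16 / 15)) :=
        mul_le_mul h6 h5 (by nlinarith) (by rw [one_mul, mul_div_assoc]; linarith)
    _ = (2 * (256 / 225)) * (‖z - z'‖ / F.σ) := by ring
    _ ≤ 3 * (‖z - z'‖ / F.σ) := mul_le_mul_of_nonneg_right (by norm_num) h7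
    _ = _ := by ring

lemma prod_sub {f : ℝ × ℝ → ℝ} (hf : |f z'| ≤ 1 / 16) (hd : |f z - f z'| ≤ 2 * ‖z - z'‖ / F.σ) :
    |f z * F.q z - f z' * F.q z'| ≤ 3 * ‖z - z'‖ / F.σ ∧
    |f z * F.q z ^ 2 - f z' * F.q z' ^ 2| ≤ 3 * ‖z - z'‖ / F.σ := by
  obtain ⟨h1, h2⟩ := F.q_bounds hn h
  obtain ⟨h3, h4⟩ := F.q_bounds hn h'
  have h7 : 0 ≤ ‖z - z'‖ / F.σ := div_nonneg (norm_nonneg _) F.hσ.le
  set δ := ‖z - z'‖ / F.σ with hδ
  have hd' : |f z - f z'| ≤ 2 * δ := by rw [hδ, ← mul_div_assoc]; exact hd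
  have hq' : |F.q z - F.q z'| ≤ 3 * δ := by rw [hδ, ← mul_div_assoc]; exact F.q_sub hn h h'
  have hq2 : |F.q z ^ 2 - F.q z' ^ 2| ≤ 3 * δ * (32 / 15) := by
    have e : F.q z ^ 2 - F.q z' ^ 2 = (F.q z - F.q z') * (F.q z + F.q z') := by ring
    rw [e, abs_mul, abs_of_nonneg (by linarith : 0 ≤ F.q z + F.q z')]
    exact mul_le_mul hq' (by linarith) (by linarith) (by linarith)
  constructor
  · have e : f z * F.q z - f z' * F.q z' = (f z - f z') * F.q z + f z' * (F.q z - F.q z') := by ring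
    rw [e, mul_div_assoc]
    refine (abs_add_le _ _).trans ?_
    rw [abs_mul, abs_mul, abs_of_nonneg (by linarith : 0 ≤ F.q z)]
    have a1 : |f z - f z'| * F.q z ≤ 2 * δ * (16 / 15) := mul_le_mul hd' h2 (by linarith) (by linarith)
    have a2 : |f z'| * |F.q z - F.q z'| ≤ 1 / 16 * (3 * δ) :=
      mul_le_mul hf hq' (abs_nonneg _) (by norm_num)
    linarith
  · have e : f z * F.q z ^ 2 - f z' * F.q z' ^ 2 = (f z - f z') * F.q z ^ 2 +
        f z' * (F.q z ^ 2 - F.q z' ^ 2) := by ring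
    rw [e, mul_div_assoc]
    refine (abs_add_le _ _).trans ?_
    rw [abs_mul, abs_mul, abs_of_nonneg (sq_nonneg (F.q z))]
    have a0 : F.q z ^ 2 ≤ 256 / 225 := by nlinarith
    have a1 : |f z - f z'| * F.q z ^ 2 ≤ 2 * δ * (256 / 225) :=
      mul_le_mul hd' a0 (by positivity) (by linarith)
    have a2 : |f z'| * |F.q z ^ 2 - F.q z' ^ 2| ≤ 1 / 16 * (3 * δ * (32 / 15)) :=
      mul_le_mul hf hq2 (abs_nonneg _) (by norm_num)
    nlinarith

lemma t_sub : ‖F.t n z - F.t n z'‖ ≤ 3 * (√n / F.σ) * ‖z - z'‖ := by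
  have h0 := F.hσ
  have hs : 0 ≤ √(n:ℝ) := Real.sqrt_nonneg _
  rw [Prod.norm_def, max_le_iff, Real.norm_eq_abs, Real.norm_eq_abs]
  constructor
  · rw [Prod.fst_sub, F.t_fst hn h, F.t_fst hn h', ← sub_div, ← mul_sub, abs_div, abs_of_pos h0, abs_mul,
      abs_of_nonneg hs]
    have h1 := (F.prod_sub hn h h' (f := F.ξ) (F.xi_le' hn h') (F.xi_sub hn h h')).1
    have h2 : |F.ξ z * F.q z - F.ξ z' * F.q z'| / F.σ ≤ 3 * ‖z - z'‖ / F.σ := by
      refine (div_le_self (abs_nonneg _) F.one_le).trans h1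
    calc √n * |F.ξ z * F.q z - F.ξ z' * F.q z'| / F.σ =
          √n * (|F.ξ z * F.q z - F.ξ z' * F.q z'| / F.σ) := by ring
      _ ≤ √n * (3 * ‖z - z'‖ / F.σ) := mul_le_mul_of_nonneg_left h2 hs
      _ = _ := by ring
  · rw [Prod.snd_sub, F.t_snd hn h, F.t_snd hn h', ← mul_sub, abs_mul, abs_of_nonneg hs]
    have h1 := (F.prod_sub hn h h' (f := F.η) (F.eta_le' hn h') (F.eta_sub hn h h')).1
    calc √n * |F.η z * F.q z - F.η z' * F.q z'| ≤ √n * (3 * ‖z - z'‖ / F.σ) :=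
          mul_le_mul_of_nonneg_left h1 hs
      _ = _ := by ring

/-- inverse Lipschitz bound -/
lemma inv_lip : ‖z - z'‖ ≤ 3 * (F.σ ^ 2 / √n) * ‖F.t n z - F.t n z'‖ := by
  have h0 := F.hσ
  have hs1 := sqrt_ge hn
  have hs : 0 < √(n:ℝ) := by linarith
  obtain ⟨h1, h2⟩ := F.q_bounds hn h
  obtain ⟨h3, h4⟩ := F.q_bounds hn h'
  set τ := ‖F.t n z - F.t n z'‖ with hτ
  have hτ0 : 0 ≤ τ := norm_nonneg _
  have ht1 : |(F.t n z).1 - (F.t n z').1| ≤ τ := abs_fst_le (F.t n z - F.t n z')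
  have ht2 : |(F.t n z).2 - (F.t n z').2| ≤ τ := abs_snd_le (F.t n z - F.t n z')
  have hqq : 225 / 256 * (256 / 289) ≤ F.q z * F.q z' := by nlinarith
  -- ξ
  have e1 : F.ξ z * F.q z - F.ξ z' * F.q z' = (F.ξ z - F.ξ z') * (F.q z * F.q z') := by
    rw [F.q_eq hn h, F.q_eq hn h']
    have h1 := (F.d_bounds hn h).1
    have h2 := (F.d_bounds hn h').1
    have h3 : 1 + F.ρ * F.ξ z ≠ 0 := by linarith
    have h4 : 1 + F.ρ * F.ξ z' ≠ 0 := by linarith
    have hA := mul_inv_cancel₀ h3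
    have hB := mul_inv_cancel₀ h4
    linear_combination (-(F.ξ z * (1 + F.ρ * F.ξ z)⁻¹)) * hB +
      (F.ξ z' * (1 + F.ρ * F.ξ z')⁻¹) * hA
  have hξ : |F.ξ z - F.ξ z'| ≤ 289 / 225 * (F.σ / √n * τ) := by
    have e2 : (F.t n z).1 - (F.t n z').1 = √n / F.σ * ((F.ξ z - F.ξ z') * (F.q z * F.q z')) := by
      rw [F.t_fst hn h, F.t_fst hn h', ← e1]
      ring
    rw [e2, abs_mul, abs_mul, abs_of_pos (by positivity : 0 < √n / F.σ),
      abs_of_pos (by nlinarith : 0 < F.q z * F.q z')] at ht1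
    have h5 : |F.ξ z - F.ξ z'| * (F.q z * F.q z') ≤ F.σ / √n * τ := by
      rw [div_mul_eq_mul_div, le_div_iff₀ hs]
      rw [div_mul_eq_mul_div, div_le_iff₀ h0] at ht1
      nlinarith
    have h6 : |F.ξ z - F.ξ z'| * (225 / 289) ≤ |F.ξ z - F.ξ z'| * (F.q z * F.q z') :=
      mul_le_mul_of_nonneg_left (by linarith) (abs_nonneg _)
    linarith
  -- η
  have hη : |F.η z - F.η z'| ≤ 6 / 5 * (F.σ / √n * τ) := by
    have hq0 : F.q z ≠ 0 := by linarith
    have hq0' : F.q z' ≠ 0 := by linarith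
    have e3 : (1 / F.q z) - (1 / F.q z') = F.ρ * (F.ξ z - F.ξ z') := by
      rw [F.q_eq hn h, F.q_eq hn h']
      simp only [one_div, inv_inv]
      ring
    have e2 : F.η z - F.η z' = ((F.t n z).2 - (F.t n z').2) * (1 / F.q z) / √n +
        (F.t n z').2 * (F.ρ * (F.ξ z - F.ξ z')) / √n := by
      rw [← e3, F.t_snd hn h, F.t_snd hn h']
      field_simp
      ring
    rw [e2]
    refine (abs_add_le _ _).trans ?_
    rw [abs_div, abs_div, abs_mul, abs_mul, abs_mul, abs_of_pos hs, abs_of_nonneg F.rho_nonneg]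
    have a0 : |1 / F.q z| ≤ 17 / 16 := by
      rw [abs_of_nonneg (by apply div_nonneg <;> linarith), div_le_iff₀ (by linarith)]
      linarith
    have a1 : |(F.t n z).2 - (F.t n z').2| * |1 / F.q z| / √n ≤ τ * (17 / 16) / √n := by
      gcongr
    have a2 : |(F.t n z').2| * (F.ρ * |F.ξ z - F.ξ z'|) / √n ≤
        1 / 15 * (1 * (289 / 225 * (F.σ / √n * τ))) / √n := by
      refine div_le_div_of_nonneg_right ?_ hs.le
      exact mul_le_mul (F.t2_le hn h') (mul_le_mul F.rho_le hξ (abs_nonneg _) zero_le_one)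
        (mul_nonneg F.rho_nonneg (abs_nonneg _)) (by norm_num)
    have a3 : τ * (17 / 16) / √n ≤ 17 / 16 * (F.σ / √n * τ) := by
      have : τ * 1 ≤ τ * F.σ := mul_le_mul_of_nonneg_left F.one_le hτ0
      rw [div_le_iff₀ hs]
      have e : 17 / 16 * (F.σ / √n * τ) * √n = 17 / 16 * (F.σ * τ) := by field_simp
      rw [e]
      nlinarith
    have a4 : 1 / 15 * (1 * (289 / 225 * (F.σ / √n * τ))) / √n ≤ 1 / 15 * (289 / 225) * (F.σ / √n * τ) := by
      refine (div_le_self (by positivity) hs1).trans (le_of_eq (by ring))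
    have a5 : 0 ≤ F.σ / √n * τ := by positivity
    nlinarith
  -- back
  have hx : |F.x z - F.x z'| ≤ 289 / 225 * (F.σ ^ 2 / √n * τ) := by
    have e : F.x z - F.x z' = F.σ * (F.ξ z - F.ξ z') := by unfold ξ; field_simp; ring
    rw [e, abs_mul, abs_of_pos h0]
    calc F.σ * |F.ξ z - F.ξ z'| ≤ F.σ * (289 / 225 * (F.σ / √n * τ)) :=
          mul_le_mul_of_nonneg_left hξ h0.le
      _ = _ := by ring
  have hy : |F.y z - F.y z'| ≤ 6 / 5 * (F.σ ^ 2 / √n * τ) := by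
    have e : F.y z - F.y z' = F.σ * (F.η z - F.η z') := by unfold η; field_simp
    rw [e, abs_mul, abs_of_pos h0]
    calc F.σ * |F.η z - F.η z'| ≤ F.σ * (6 / 5 * (F.σ / √n * τ)) :=
          mul_le_mul_of_nonneg_left hη h0.le
      _ = _ := by ring
  have hp : 0 ≤ F.σ ^ 2 / √n * τ := by positivity
  have hsum : |F.x z - F.x z'| + |F.y z - F.y z'| ≤ 3 * (F.σ ^ 2 / √n * τ) := by linarith
  have hu := F.hu
  rw [Prod.norm_def, max_le_iff, Real.norm_eq_abs, Real.norm_eq_abs, mul_assoc]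
  constructor
  · refine le_trans ?_ hsum
    have e : (z - z').1 = F.u * (F.x z - F.x z') - F.v * (F.y z - F.y z') := by
      unfold x y; simp only [Prod.fst_sub]; linear_combination -(z.1 - z'.1) * hu
    rw [e]
    refine (abs_sub _ _).trans ?_
    rw [abs_mul, abs_mul]
    have b1 := mul_le_mul_of_nonneg_right F.u_le (abs_nonneg (F.x z - F.x z'))
    have b2 := mul_le_mul_of_nonneg_right F.v_le (abs_nonneg (F.y z - F.y z'))
    linarith
  · refine le_trans ?_ hsum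
    have e : (z - z').2 = F.v * (F.x z - F.x z') + F.u * (F.y z - F.y z') := by
      unfold x y; simp only [Prod.snd_sub]; linear_combination -(z.2 - z'.2) * hu
    rw [e]
    refine (abs_add_le _ _).trans ?_
    rw [abs_mul, abs_mul]
    have b1 := mul_le_mul_of_nonneg_right F.v_le (abs_nonneg (F.x z - F.x z'))
    have b2 := mul_le_mul_of_nonneg_right F.u_le (abs_nonneg (F.y z - F.y z'))
    linarith

end

end Fr

end

end Pool.Agent.W960.HS
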