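import Pool.Agent.W960.HS.Loc

/-! The derivative of the normalised field near the centre of the chart. -/

open Real Set MeasureTheory Topology Filter
open scoped ENNReal

namespace Pool.Agent.W960.HS

noncomputable section

open Pool.Agent.W960.HR (T mem_T GP abs_fst_le abs_snd_le)
open Pool.Agent.H709R2 (fld)

namespace Fr

variable (F : Fr) {n : ℕ} {z z' w : ℝ × ℝ}

/-- the radial coordinate as a linear map -/
def X : (ℝ × ℝ) →L[ℝ] ℝ :=
  F.u • ContinuousLinearMap.fst ℝ ℝ ℝ + F.v • ContinuousLinearMap.snd ℝ ℝ ℝ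

/-- the tangential coordinate as a linear map -/
def Y : (ℝ × ℝ) →L[ℝ] ℝ :=
  F.u • ContinuousLinearMap.snd ℝ ℝ ℝ - F.v • ContinuousLinearMap.fst ℝ ℝ ℝ

lemma X_apply : F.X w = F.x w := by simp [X, x]

lemma Y_apply : F.Y w = F.y w := by simp [Y, y]

/-- inverse length scale -/
def κ (n : ℕ) : ℝ := √n / F.σ

lemma kappa_pos (hn : 1 ≤ n) : 0 < F.κ n :=
  div_pos (lt_of_lt_of_le zero_lt_one (sqrt_ge hn)) F.hσ

def dt1 (n : ℕ) (z : ℝ × ℝ) : (ℝ × ℝ) →L[ℝ] ℝ := (F.κ n * (F.q z ^ 2 / F.σ)) • F.X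

def dt2 (n : ℕ) (z : ℝ × ℝ) : (ℝ × ℝ) →L[ℝ] ℝ :=
  (F.κ n * F.q z) • F.Y - (F.κ n * (F.ρ * (F.η z * F.q z ^ 2))) • F.X

lemma hasFDerivAt_t (hn : 1 ≤ n) (h : F.Nr n z) :
    HasFDerivAt (F.t n) ((F.dt1 n z).prod (F.dt2 n z)) z := by
  have h0 := F.hσ
  have hD := F.D_pos hn h
  have hx : HasFDerivAt (fun z => F.x z) F.X z := by
    have := F.X.hasFDerivAt (x := z)
    exact this.congr_of_eventuallyEq (Eventually.of_forall fun w => F.X_apply.symm)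
  have hy : HasFDerivAt (fun z => F.y z) F.Y z := by
    have := F.Y.hasFDerivAt (x := z)
    exact this.congr_of_eventuallyEq (Eventually.of_forall fun w => F.Y_apply.symm)
  have hDd : HasFDerivAt (fun z => F.D z) (F.r • F.X) z := by
    unfold D
    exact (hx.const_mul F.r).const_add 1
  have hi : HasFDerivAt (fun z => (F.D z)⁻¹) ((-(F.D z ^ 2)⁻¹) • (F.r • F.X)) z :=
    (hasDerivAt_inv hD.ne').comp_hasFDerivAt z hDd
  have h1 : HasFDerivAt (fun z => √n * (F.x z - F.r) * (F.D z)⁻¹) _ z :=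
    ((hx.sub_const F.r).const_mul (√(n:ℝ))).mul hi
  have h2 : HasFDerivAt (fun z => √n * (F.σ * F.y z) * (F.D z)⁻¹) _ z :=
    ((hy.const_mul F.σ).const_mul (√(n:ℝ))).mul hi
  have h3 := h1.prodMk h2
  refine (h3.congr_of_eventuallyEq (Eventually.of_forall fun w => ?_)).congr_fderiv ?_
  · simp only [t, div_eq_mul_inv]
  · have hr := F.hσr
    have hx' : F.D z = 1 + F.r * F.x z := rfl
    refine ContinuousLinearMap.ext fun w => ?_
    ext
    · simp only [ContinuousLinearMap.prod_apply, _root_.add_apply, _root_.smul_apply, smul_eq_mul,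
        dt1, κ, q]
      field_simp
      rw [hx']
      have e : F.σ ^ 4 = F.σ ^ 2 * F.σ ^ 2 := by ring
      try rw [e]
      try rw [hr]
      ring
    · simp only [ContinuousLinearMap.prod_apply, _root_.add_apply, _root_.smul_apply, smul_eq_mul,
        dt2, κ, q, ρ, η, _root_.sub_apply]
      field_simp
      try ring

section

variable (hn : 1 ≤ n) (h : F.Nr n z) (h' : F.Nr n z')

include hn h

lemma q2_le : F.q z ^ 2 ≤ 256 / 225 := by
  obtain ⟨h1, h2⟩ := F.q_bounds hn h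
  nlinarith

lemma dt1_le : |F.dt1 n z w| ≤ 3 * F.κ n * ‖w‖ := by
  have hκ := F.kappa_pos hn
  have h0 := F.hσ
  unfold dt1
  rw [_root_.smul_apply, smul_eq_mul, F.X_apply, abs_mul, abs_of_nonneg (by positivity)]
  have h1 : F.q z ^ 2 / F.σ ≤ 256 / 225 := (div_le_self (sq_nonneg _) F.one_le).trans (F.q2_le hn h)
  calc F.κ n * (F.q z ^ 2 / F.σ) * |F.x w| ≤ F.κ n * (256 / 225) * (2 * ‖w‖) :=
        mul_le_mul (mul_le_mul_of_nonneg_left h1 hκ.le) F.x_le (abs_nonneg _) (by positivity)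
    _ ≤ 3 * F.κ n * ‖w‖ := by
        have : 0 ≤ F.κ n * ‖w‖ := by positivity
        nlinarith

lemma dt2_le : |F.dt2 n z w| ≤ 3 * F.κ n * ‖w‖ := by
  have hκ := F.kappa_pos hn
  have h0 := F.hσ
  obtain ⟨h1, h2⟩ := F.q_bounds hn h
  unfold dt2
  rw [_root_.sub_apply, _root_.smul_apply, _root_.smul_apply, smul_eq_mul, smul_eq_mul, F.X_apply,
    F.Y_apply]
  refine (abs_sub _ _).trans ?_
  rw [abs_mul, abs_mul, abs_mul, abs_mul, abs_mul, abs_mul, abs_of_nonneg hκ.le,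
    abs_of_nonneg (by linarith : 0 ≤ F.q z), abs_of_nonneg F.rho_nonneg,
    abs_of_nonneg (sq_nonneg (F.q z))]
  have a1 : F.κ n * F.q z * |F.y w| ≤ F.κ n * (16 / 15) * (2 * ‖w‖) :=
    mul_le_mul (mul_le_mul_of_nonneg_left h2 hκ.le) F.y_le (abs_nonneg _) (by positivity)
  have a2 : F.κ n * (F.ρ * (|F.η z| * F.q z ^ 2)) * |F.x w| ≤
      F.κ n * (1 * (1 / 16 * (256 / 225))) * (2 * ‖w‖) := by
    refine mul_le_mul (mul_le_mul_of_nonneg_left ?_ hκ.le) F.x_le (abs_nonneg _) (by positivity)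
    exact mul_le_mul F.rho_le (mul_le_mul (F.eta_le' hn h) (F.q2_le hn h) (sq_nonneg _)
      (by norm_num)) (mul_nonneg (abs_nonneg _) (sq_nonneg _)) zero_le_one
  have : 0 ≤ F.κ n * ‖w‖ := by positivity
  nlinarith

include h'

lemma div_sigma_le : F.κ n * (‖z - z'‖ / F.σ) ≤ F.κ n ^ 2 * ‖z - z'‖ := by
  have hκ := F.kappa_pos hn
  have h0 := F.hσ
  have h1 : 1 / F.σ ≤ F.κ n := by
    unfold κ
    exact div_le_div_of_nonneg_right (sqrt_ge hn) h0.le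
  calc F.κ n * (‖z - z'‖ / F.σ) = F.κ n * (1 / F.σ) * ‖z - z'‖ := by ring
    _ ≤ F.κ n * F.κ n * ‖z - z'‖ := by gcongr
    _ = _ := by ring

lemma q2_sub : |F.q z ^ 2 - F.q z' ^ 2| ≤ 13 / 2 * (‖z - z'‖ / F.σ) := by
  obtain ⟨h1, h2⟩ := F.q_bounds hn h
  obtain ⟨h3, h4⟩ := F.q_bounds hn h'
  have h5 := F.q_sub hn h h'
  rw [mul_div_assoc] at h5
  have e : F.q z ^ 2 - F.q z' ^ 2 = (F.q z - F.q z') * (F.q z + F.q z') := by ring
  rw [e, abs_mul, abs_of_nonneg (by linarith : 0 ≤ F.q z + F.q z')]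
  have h6 : 0 ≤ ‖z - z'‖ / F.σ := div_nonneg (norm_nonneg _) F.hσ.le
  calc |F.q z - F.q z'| * (F.q z + F.q z') ≤ 3 * (‖z - z'‖ / F.σ) * (32 / 15) :=
        mul_le_mul h5 (by linarith) (by linarith) (by positivity)
    _ ≤ _ := by nlinarith

lemma dt1_sub : |F.dt1 n z w - F.dt1 n z' w| ≤ 13 * F.κ n ^ 2 * ‖z - z'‖ * ‖w‖ := by
  have hκ := F.kappa_pos hn
  have h0 := F.hσ
  have e : F.dt1 n z w - F.dt1 n z' w = F.κ n * ((F.q z ^ 2 - F.q z' ^ 2) / F.σ) * F.x w := by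
    unfold dt1
    rw [_root_.smul_apply, _root_.smul_apply, smul_eq_mul, smul_eq_mul, F.X_apply]
    ring
  rw [e, abs_mul, abs_mul, abs_div, abs_of_pos h0, abs_of_pos hκ]
  have h1 : |F.q z ^ 2 - F.q z' ^ 2| / F.σ ≤ 13 / 2 * (‖z - z'‖ / F.σ) :=
    (div_le_self (abs_nonneg _) F.one_le).trans (F.q2_sub hn h h')
  have h2 := F.div_sigma_le hn h h'
  calc F.κ n * (|F.q z ^ 2 - F.q z' ^ 2| / F.σ) * |F.x w| ≤
        F.κ n * (13 / 2 * (‖z - z'‖ / F.σ)) * (2 * ‖w‖) :=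
        mul_le_mul (mul_le_mul_of_nonneg_left h1 hκ.le) F.x_le (abs_nonneg _) (by positivity)
    _ = 13 * (F.κ n * (‖z - z'‖ / F.σ)) * ‖w‖ := by ring
    _ ≤ 13 * (F.κ n ^ 2 * ‖z - z'‖) * ‖w‖ := by gcongr
    _ = _ := by ring

lemma dt2_sub : |F.dt2 n z w - F.dt2 n z' w| ≤ 13 * F.κ n ^ 2 * ‖z - z'‖ * ‖w‖ := by
  have hκ := F.kappa_pos hn
  have h0 := F.hσ
  have e : F.dt2 n z w - F.dt2 n z' w = F.κ n * ((F.q z - F.q z') * F.y w -
      F.ρ * (F.η z * F.q z ^ 2 - F.η z' * F.q z' ^ 2) * F.x w) := by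
    unfold dt2
    simp only [_root_.sub_apply, _root_.smul_apply, smul_eq_mul, F.X_apply, F.Y_apply]
    ring
  have h2 := F.div_sigma_le hn h h'
  have h5 := F.q_sub hn h h'
  have h6 := (F.prod_sub hn h h' (f := F.η) (F.eta_le' hn h') (F.eta_sub hn h h')).2
  rw [mul_div_assoc] at h5 h6
  set δ := ‖z - z'‖ / F.σ with hδ
  have hδ0 : 0 ≤ δ := div_nonneg (norm_nonneg _) h0.le
  rw [e, abs_mul, abs_of_pos hκ]
  have a1 : |(F.q z - F.q z') * F.y w - F.ρ * (F.η z * F.q z ^ 2 - F.η z' * F.q z' ^ 2) * F.x w| ≤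
      12 * δ * ‖w‖ := by
    refine (abs_sub _ _).trans ?_
    rw [abs_mul, abs_mul, abs_mul, abs_of_nonneg F.rho_nonneg]
    have b1 : |F.q z - F.q z'| * |F.y w| ≤ 3 * δ * (2 * ‖w‖) :=
      mul_le_mul h5 F.y_le (abs_nonneg _) (by linarith)
    have b2 : F.ρ * |F.η z * F.q z ^ 2 - F.η z' * F.q z' ^ 2| * |F.x w| ≤ 1 * (3 * δ) * (2 * ‖w‖) :=
      mul_le_mul (mul_le_mul F.rho_le h6 (abs_nonneg _) zero_le_one) F.x_le (abs_nonneg _)
        (by linarith)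
    linarith
  calc F.κ n * |(F.q z - F.q z') * F.y w - F.ρ * (F.η z * F.q z ^ 2 - F.η z' * F.q z' ^ 2) * F.x w|
      ≤ F.κ n * (12 * δ * ‖w‖) := mul_le_mul_of_nonneg_left a1 hκ.le
    _ = 12 * (F.κ n * δ) * ‖w‖ := by ring
    _ ≤ 13 * (F.κ n ^ 2 * ‖z - z'‖) * ‖w‖ := by
        refine mul_le_mul_of_nonneg_right ?_ (norm_nonneg _)
        have : 0 ≤ F.κ n ^ 2 * ‖z - z'‖ := by positivity
        linarith
    _ = _ := by ring

end

/-- the normalised field -/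
def yf (n : ℕ) (g : T n → ℝ × ℝ) (z : ℝ × ℝ) : ℝ × ℝ := Ph n g (F.t n z)

/-- its derivative -/
def dy (n : ℕ) (g : T n → ℝ × ℝ) (z w : ℝ × ℝ) : ℝ × ℝ :=
  F.dt1 n z w • P1 n g (F.t n z) + F.dt2 n z w • P2 n g (F.t n z)

variable (g : T n → ℝ × ℝ)

lemma hasFDerivAt_yf (hn : 1 ≤ n) (h : F.Nr n z) : HasFDerivAt (F.yf n g)
    ((F.dt1 n z).smulRight (P1 n g (F.t n z)) + (F.dt2 n z).smulRight (P2 n g (F.t n z))) z := by
  have := (hasFDerivAt_Ph g (F.t n z)).comp z (F.hasFDerivAt_t hn h)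
  refine this.congr_fderiv (ContinuousLinearMap.ext fun w => ?_)
  simp

lemma fderiv_yf (hn : 1 ≤ n) (h : F.Nr n z) : fderiv ℝ (F.yf n g) z w = F.dy n g z w := by
  rw [(F.hasFDerivAt_yf g hn h).fderiv]
  simp [dy]

lemma dy_le (hn : 1 ≤ n) (h : F.Nr n z) : ‖F.dy n g z w‖ ≤ 6 * F.κ n * as g * ‖w‖ := by
  unfold dy
  refine (norm_add_le _ _).trans ?_
  rw [norm_smul, norm_smul, Real.norm_eq_abs, Real.norm_eq_abs]
  have hκ := F.kappa_pos hn
  have a1 : |F.dt1 n z w| * ‖P1 n g (F.t n z)‖ ≤ 3 * F.κ n * ‖w‖ * as g :=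
    mul_le_mul (F.dt1_le hn h) (P1_le g hn (F.t_le hn h)) (norm_nonneg _) (by positivity)
  have a2 : |F.dt2 n z w| * ‖P2 n g (F.t n z)‖ ≤ 3 * F.κ n * ‖w‖ * as g :=
    mul_le_mul (F.dt2_le hn h) (P2_le g hn (F.t_le hn h)) (norm_nonneg _) (by positivity)
  linarith

lemma dy_sub (hn : 1 ≤ n) (h : F.Nr n z) (h' : F.Nr n z') :
    ‖F.dy n g z w - F.dy n g z' w‖ ≤ 44 * F.κ n ^ 2 * as g * ‖z - z'‖ * ‖w‖ := by
  have hκ := F.kappa_pos hn
  have ha := as_nonneg g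
  have hts := F.t_sub hn h h'
  have e : F.dy n g z w - F.dy n g z' w =
      F.dt1 n z w • (P1 n g (F.t n z) - P1 n g (F.t n z')) +
      (F.dt1 n z w - F.dt1 n z' w) • P1 n g (F.t n z') +
      (F.dt2 n z w • (P2 n g (F.t n z) - P2 n g (F.t n z')) +
      (F.dt2 n z w - F.dt2 n z' w) • P2 n g (F.t n z')) := by
    unfold dy
    rw [smul_sub, sub_smul, smul_sub, sub_smul]
    abel
  rw [e]
  have b1 : ‖F.dt1 n z w • (P1 n g (F.t n z) - P1 n g (F.t n z'))‖ ≤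
      3 * F.κ n * ‖w‖ * (as g * (3 * F.κ n * ‖z - z'‖)) := by
    rw [norm_smul, Real.norm_eq_abs]
    exact mul_le_mul (F.dt1_le hn h) ((P1_sub g hn (F.t_le hn h) (F.t_le hn h')).trans
      (mul_le_mul_of_nonneg_left hts ha)) (norm_nonneg _) (by positivity)
  have b2 : ‖(F.dt1 n z w - F.dt1 n z' w) • P1 n g (F.t n z')‖ ≤
      13 * F.κ n ^ 2 * ‖z - z'‖ * ‖w‖ * as g := by
    rw [norm_smul, Real.norm_eq_abs]
    exact mul_le_mul (F.dt1_sub hn h h') (P1_le g hn (F.t_le hn h')) (norm_nonneg _) (by positivity)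
  have b3 : ‖F.dt2 n z w • (P2 n g (F.t n z) - P2 n g (F.t n z'))‖ ≤
      3 * F.κ n * ‖w‖ * (as g * (3 * F.κ n * ‖z - z'‖)) := by
    rw [norm_smul, Real.norm_eq_abs]
    exact mul_le_mul (F.dt2_le hn h) ((P2_sub g hn (F.t_le hn h) (F.t_le hn h')).trans
      (mul_le_mul_of_nonneg_left hts ha)) (norm_nonneg _) (by positivity)
  have b4 : ‖(F.dt2 n z w - F.dt2 n z' w) • P2 n g (F.t n z')‖ ≤
      13 * F.κ n ^ 2 * ‖z - z'‖ * ‖w‖ * as g := by
    rw [norm_smul, Real.norm_eq_abs]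
    exact mul_le_mul (F.dt2_sub hn h h') (P2_le g hn (F.t_le hn h')) (norm_nonneg _) (by positivity)
  refine (norm_add_le _ _).trans ((add_le_add (norm_add_le _ _) (norm_add_le _ _)).trans ?_)
  nlinarith

/-- second order expansion -/
lemma yf_taylor (hn : 1 ≤ n) (h : F.Nr n z) (h' : F.Nr n z') :
    ‖F.yf n g z' - F.yf n g z - F.dy n g z (z' - z)‖ ≤ 44 * F.κ n ^ 2 * as g * ‖z' - z‖ ^ 2 := by
  have hκ := F.kappa_pos hn
  have ha := as_nonneg g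
  set s : Set (ℝ × ℝ) := {y | F.Nr n y} ∩ Metric.closedBall z ‖z' - z‖ with hs
  have hconv : Convex ℝ s := by
    refine Convex.inter ?_ (convex_closedBall _ _)
    have e : {y | F.Nr n y} = Metric.closedBall F.pt (F.σ / 32 / √n) := by
      ext y
      have hs : 0 < √(n:ℝ) := lt_of_lt_of_le zero_lt_one (sqrt_ge hn)
      simp only [Nr, mem_ofPred_eq, mem_closedBall_iff_norm]
      rw [le_div_iff₀ hs, mul_comm]
    rw [e]
    exact convex_closedBall _ _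
  have hz : z ∈ s := ⟨h, Metric.mem_closedBall_self (norm_nonneg _)⟩
  have hz' : z' ∈ s := ⟨h', by rw [mem_closedBall_iff_norm]⟩
  have hd : ∀ y ∈ s, HasFDerivWithinAt (F.yf n g)
      ((F.dt1 n y).smulRight (P1 n g (F.t n y)) + (F.dt2 n y).smulRight (P2 n g (F.t n y))) s y :=
    fun y hy => (F.hasFDerivAt_yf g hn hy.1).hasFDerivWithinAt
  have hb : ∀ y ∈ s, ‖((F.dt1 n y).smulRight (P1 n g (F.t n y)) +
      (F.dt2 n y).smulRight (P2 n g (F.t n y))) - ((F.dt1 n z).smulRight (P1 n g (F.t n z)) +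
      (F.dt2 n z).smulRight (P2 n g (F.t n z)))‖ ≤ 44 * F.κ n ^ 2 * as g * ‖z' - z‖ := by
    intro y hy
    refine ContinuousLinearMap.opNorm_le_bound _ (by positivity) fun w => ?_
    have h1 := F.dy_sub g hn hy.1 h (w := w)
    have h2 : ‖y - z‖ ≤ ‖z' - z‖ := mem_closedBall_iff_norm.1 hy.2
    have e : (((F.dt1 n y).smulRight (P1 n g (F.t n y)) +
      (F.dt2 n y).smulRight (P2 n g (F.t n y))) - ((F.dt1 n z).smulRight (P1 n g (F.t n z)) +
      (F.dt2 n z).smulRight (P2 n g (F.t n z)))) w = F.dy n g y w - F.dy n g z w := by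
      simp [dy]
    rw [e]
    refine h1.trans ?_
    gcongr
  have := hconv.norm_image_sub_le_of_norm_hasFDerivWithin_le' hd hb hz hz'
  have e : ((F.dt1 n z).smulRight (P1 n g (F.t n z)) +
      (F.dt2 n z).smulRight (P2 n g (F.t n z))) (z' - z) = F.dy n g z (z' - z) := by
    simp [dy]
  rw [e] at this
  refine this.trans (le_of_eq (by ring))

end Fr

end

end Pool.Agent.W960.HS
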