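import Pool.Agent.W960.HS.Mid2

/-! All closed orbits in an annulus which are short compared with the radius. -/

open Real Set MeasureTheory Topology Filter
open scoped ENNReal

namespace Pool.Agent.W960.HS

noncomputable section

open Pool.Agent.W960.HR (T mem_T GP)
open Pool.Agent.H709R2 (wedge rot divRot divW winv ClosedOrbit continuous_rot fld contDiff_fld
  contDiffAt_winv)
open Pool.Agent.H709U (Orb rf)

lemma geo_ne {r : ℝ} (h0 : 0 ≤ r) (h1 : r < 1) : ∑' j : ℕ, ENNReal.ofReal (r ^ j) ≠ ⊤ := by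
  rw [← ENNReal.ofReal_tsum_of_nonneg (fun j => pow_nonneg h0 j)
    (summable_geometric_of_lt_one h0 h1)]
  exact ENNReal.ofReal_ne_top

/-- base of the first scale -/
def bb : ℝ := 2 ^ (1 / 23 : ℝ)

lemma bb_pow : bb ^ 23 = 2 := by
  unfold bb
  rw [← Real.rpow_natCast, ← Real.rpow_mul (by norm_num)]
  norm_num

lemma bb_one : 1 ≤ bb := Real.one_le_rpow (by norm_num) (by norm_num)

lemma bb_lt : 1 < bb := Real.one_lt_rpow (by norm_num) (by norm_num)

/-- base of the second scale -/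
def aa : ℝ := (1 / 2) ^ (1 / 3 : ℝ)

lemma aa_pos : 0 < aa := Real.rpow_pos_of_pos (by norm_num) _

lemma aa_pow : aa ^ 3 = 1 / 2 := by
  unfold aa
  rw [← Real.rpow_natCast, ← Real.rpow_mul (by norm_num)]
  norm_num

lemma aa_lt : aa < 1 := Real.rpow_lt_one (by norm_num) (by norm_num) (by norm_num)

/-- weight parameter -/
def th (j k : ℕ) : ℝ := aa ^ j / aa ^ (2 * k)

lemma th_pos (j k : ℕ) : 0 < th j k := by
  have := aa_pos
  unfold th; positivity

lemma th_one (j k : ℕ) : th j k / 2 ^ k = aa ^ j * aa ^ k := by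
  have h := aa_pos
  have e : (2:ℝ) ^ k = 1 / aa ^ (3 * k) := by
    rw [pow_mul, aa_pow, div_pow, one_pow, one_div_one_div]
  rw [e]
  unfold th
  have e2 : aa ^ (3 * k) = aa ^ k * aa ^ k * aa ^ k := by ring
  have e3 : aa ^ (2 * k) = aa ^ k * aa ^ k := by ring
  rw [e2, e3]
  field_simp

lemma th_two (j k : ℕ) : 2 ^ k / (th j k ^ 2 * 2 ^ j) = aa ^ j * aa ^ k := by
  have h := aa_pos
  have e : ∀ k : ℕ, (2:ℝ) ^ k = 1 / aa ^ (3 * k) := fun k => by
    rw [pow_mul, aa_pow, div_pow, one_pow, one_div_one_div]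
  rw [e, e]
  unfold th
  have e2 : aa ^ (3 * k) = aa ^ k * aa ^ k * aa ^ k := by ring
  have e3 : aa ^ (2 * k) = aa ^ k * aa ^ k := by ring
  have e4 : aa ^ (3 * j) = aa ^ j * aa ^ j * aa ^ j := by ring
  rw [e2, e3, e4]
  field_simp

variable {n : ℕ}

/-- the majorant for an annulus -/
def Kl (n j : ℕ) (c : T n → ℝ × ℝ) : ℝ≥0∞ :=
  ∑ q ∈ cells n j, Kc (Fq q) n (sj n j) (bb ^ j) ((Fq q).g n c) + ∑' k, Km n j k (th j k) c

lemma ol_mono {X : ℝ × ℝ → ℝ × ℝ} {Ω Ω' : Set (ℝ × ℝ)} {M M' : Set ℝ} (h : Ω ⊆ Ω') (h' : M ⊆ M')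
    (α : ℝ) : OL X Ω M α ⊆ OL X Ω' M' α := by
  rintro C ⟨γ, T', ho, hC, hΩ, hl⟩
  exact ⟨γ, T', ho, hC, hΩ.trans h, h' hl⟩

/-- short orbits in an annulus -/
theorem loc_me (hn : 1 ≤ n) (c : T n → ℝ × ℝ) (j : ℕ) :
    ME (fun α => ((OL (fld (sc n c)) (An j) (Iio (2 ^ j / 32)) α).encard : ℝ≥0∞)) (Kl n j c) := by
  have hs := sj_pos hn j
  have h1 := small_me hn c j (β := bb ^ j) (one_le_pow₀ bb_one)
  have h2 : ∀ k : ℕ, ME (fun α => ((OL (fld (sc n c)) (An j)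
      (Ico (2 ^ k * sj n j) (2 * (2 ^ k * sj n j)) ∩ Iio (2 ^ j / 32)) α).encard : ℝ≥0∞))
      (Km n j k (th j k) c) := by
    intro k
    by_cases hk : 2 ^ k * sj n j ≤ 2 ^ j / 32
    · exact (mid_me hn c hk (th_pos j k)).mono
        (fun α _ => enc_mono (ol_mono Subset.rfl inter_subset_left α)) le_rfl
    · refine ⟨fun _ => 0, measurable_const, fun α _ => ?_, by simp⟩
      have he : OL (fld (sc n c)) (An j)
          (Ico (2 ^ k * sj n j) (2 * (2 ^ k * sj n j)) ∩ Iio (2 ^ j / 32)) α = ∅ := by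
        rw [eq_empty_iff_forall_notMem]
        rintro C ⟨γ, T', ho, hC, hΩ, hl⟩
        have a1 := hl.1.1
        have a2 := hl.2
        rw [mem_Iio] at a2
        exact hk (a1.trans a2.le)
      show ((OL (fld (sc n c)) (An j)
          (Ico (2 ^ k * sj n j) (2 * (2 ^ k * sj n j)) ∩ Iio (2 ^ j / 32)) α).encard : ℝ≥0∞) ≤ 0
      rw [he]
      simp
  refine (h1.add (ME.tsum h2)).mono (fun α _ => ?_) le_rfl
  have hsub : OL (fld (sc n c)) (An j) (Iio (2 ^ j / 32)) α ⊆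
      OL (fld (sc n c)) (An j) (Iio (sj n j)) α ∪ ⋃ k : ℕ, OL (fld (sc n c)) (An j)
      (Ico (2 ^ k * sj n j) (2 * (2 ^ k * sj n j)) ∩ Iio (2 ^ j / 32)) α := by
    rintro C ⟨γ, T', ho, hC, hΩ, hl⟩
    set x := ∫ t in (0:ℝ)..T', winv (fld (sc n c)) (γ t) * H709R2.sq (fld (sc n c) (γ t)) with hx
    rcases lt_or_ge x (sj n j) with h | h
    · exact Or.inl ⟨γ, T', ho, hC, hΩ, h⟩
    · right
      rw [mem_iUnion]
      have h3 : ∃ k : ℕ, x < 2 ^ (k + 1) * sj n j := by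
        obtain ⟨k, hk⟩ := pow_unbounded_of_one_lt (x / sj n j) (by norm_num : (1:ℝ) < 2)
        refine ⟨k, ?_⟩
        rw [div_lt_iff₀ hs] at hk
        refine hk.trans_le (mul_le_mul_of_nonneg_right ?_ hs.le)
        exact pow_le_pow_right₀ (by norm_num) (by omega)
      classical
      set k := Nat.find h3 with hkd
      have hk1 : x < 2 ^ (k + 1) * sj n j := Nat.find_spec h3
      have hk2 : 2 ^ k * sj n j ≤ x := by
        rcases Nat.eq_zero_or_pos k with h0 | h0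
        · rw [h0, pow_zero, one_mul]; exact h
        · have h4 := Nat.find_min h3 (m := k - 1) (by omega)
          push Not at h4
          rwa [Nat.sub_add_cancel h0] at h4
      refine ⟨k, γ, T', ho, hC, hΩ, ⟨hk2, ?_⟩, hl⟩
      rw [pow_succ] at hk1
      linarith
  refine (enc_mono hsub).trans ((enc_union _ _).trans ?_)
  gcongr
  exact enc_iUnion _

/-- the constant -/
def CL : ℝ≥0∞ := CE * (ENNReal.ofReal (25 * 10 ^ 6) * ∑' j : ℕ, ENNReal.ofReal ((1 / bb ^ 7) ^ j)) +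
  CM * (ENNReal.ofReal (2 * 10 ^ 9) * ((∑' j : ℕ, ENNReal.ofReal (aa ^ j)) *
    ∑' k : ℕ, ENNReal.ofReal (aa ^ k)))

lemma CL_ne : CL ≠ ⊤ := by
  have h1 : 1 < bb ^ 7 := one_lt_pow₀ bb_lt (by norm_num)
  have h2 : ∑' j : ℕ, ENNReal.ofReal ((1 / bb ^ 7) ^ j) ≠ ⊤ :=
    geo_ne (by positivity) ((div_lt_one (by linarith)).2 h1)
  have h3 := geo_ne aa_pos.le aa_lt
  unfold CL
  exact ENNReal.add_ne_top.2 ⟨ENNReal.mul_ne_top CE_ne (ENNReal.mul_ne_top ENNReal.ofReal_ne_top h2),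
    ENNReal.mul_ne_top CM_ne (ENNReal.mul_ne_top ENNReal.ofReal_ne_top (ENNReal.mul_ne_top h3 h3))⟩

theorem loc_mean (hn : 1 ≤ n) : (∀ j, Measurable (Kl n j)) ∧
    ∫⁻ c, ∑' j, Kl n j c ∂GP (T n) ≤ CL * ENNReal.ofReal n := by
  have m1 : ∀ j, Measurable fun c : T n → ℝ × ℝ =>
      ∑ q ∈ cells n j, Kc (Fq q) n (sj n j) (bb ^ j) ((Fq q).g n c) := fun j =>
    (small_mean hn j (one_le_pow₀ bb_one)).1
  have m2 : ∀ j k, Measurable (Km n j k (th j k)) := fun j k => (mid_mean hn j k (th_pos j k)).1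
  have m3 : ∀ j, Measurable fun c : T n → ℝ × ℝ => ∑' k, Km n j k (th j k) c := fun j =>
    Measurable.tsum fun k => m2 j k
  have m4 : ∀ j, Measurable (Kl n j) := fun j => (m1 j).add (m3 j)
  refine ⟨m4, ?_⟩
  rw [lintegral_tsum fun j => (m4 j).aemeasurable]
  have h1 : ∀ j, ∫⁻ c, Kl n j c ∂GP (T n) ≤
      CE * (ENNReal.ofReal (25 * 10 ^ 6) * ENNReal.ofReal ((1 / bb ^ 7) ^ j)) * ENNReal.ofReal n +
      ∑' k : ℕ, CM * (ENNReal.ofReal (2 * 10 ^ 9) * (ENNReal.ofReal (aa ^ j) *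
        ENNReal.ofReal (aa ^ k))) * ENNReal.ofReal n := by
    intro j
    have hb := bb_lt
    have hb0 : 0 < bb := by linarith
    unfold Kl
    rw [lintegral_add_left (m1 j), lintegral_tsum fun k => (m2 j k).aemeasurable]
    refine add_le_add ?_ (ENNReal.tsum_le_tsum fun k => ?_)
    · refine (small_mean hn j (one_le_pow₀ bb_one)).2.trans (le_of_eq ?_)
      rw [← ENNReal.ofReal_mul (by norm_num), mul_assoc CE, ← ENNReal.ofReal_mul (by positivity)]
      congr 2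
      have e : (2:ℝ) ^ j = bb ^ (23 * j) := by rw [pow_mul, bb_pow]
      rw [e, div_pow, one_pow, ← pow_mul, ← pow_mul, ← pow_mul, mul_comm j 16, mul_comm j 7]
      have e2 : bb ^ (23 * j) = bb ^ (16 * j) * bb ^ (7 * j) := by rw [← pow_add]; congr 1; ring
      rw [e2]
      field_simp
      ring
    · refine (mid_mean hn j k (th_pos j k)).2.trans (le_of_eq ?_)
      have ha := aa_pos
      rw [← ENNReal.ofReal_mul (by positivity), ← ENNReal.ofReal_mul (by positivity),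
        mul_assoc CM, ← ENNReal.ofReal_mul (by positivity), th_one, th_two]
      congr 2
      ring
  refine (ENNReal.tsum_le_tsum h1).trans (le_of_eq ?_)
  rw [ENNReal.tsum_add]
  simp_rw [ENNReal.tsum_mul_right, ENNReal.tsum_mul_left]
  rw [ENNReal.tsum_mul_right]
  unfold CL
  ring

end

end Pool.Agent.W960.HS
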