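import Pool.Agent.W960.HS.Pt
import Pool.Agent.W960.HR.Cover

/-! Closed orbits in an annulus which are short compared with the radius. -/

open Real Set MeasureTheory Topology Filter
open scoped ENNReal

namespace Pool.Agent.W960.HS

noncomputable section

open Pool.Agent.W960.HR (T mem_T GP norm_sq_le_sq sq_le_norm_sq volume_ball_le encard_biUnion_le')
open Pool.Agent.H709R2 (wedge rot divRot divW winv ClosedOrbit continuous_rot fld contDiff_fld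
  contDiffAt_winv)
open Pool.Agent.H709U (Orb rf)

/-- cell size in the annulus `j` -/
def sj (n j : ℕ) : ℝ := 2 ^ j / (512 * √n)

/-- annulus -/
def An (j : ℕ) : Set (ℝ × ℝ) := {z | (2:ℝ) ^ j ≤ 2 * ‖z‖ + 1 ∧ ‖z‖ ≤ 2 ^ (j + 1)}

open Classical in
/-- cell centres -/
def cells (n j : ℕ) : Finset (ℝ × ℝ) :=
  ((gr (sj n j) (2 ^ (j + 1))) ×ˢ (gr (sj n j) (2 ^ (j + 1)))).filter
    fun q => (2:ℝ) ^ j ≤ 4 * sg q

variable {n : ℕ}

section

variable (hn : 1 ≤ n)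

include hn

lemma sqrt_pos' : 0 < √(n:ℝ) := Real.sqrt_pos.2 (by exact_mod_cast hn)

lemma sqrt_one' : 1 ≤ √(n:ℝ) := Real.one_le_sqrt.2 (by exact_mod_cast hn)

lemma sj_pos (j : ℕ) : 0 < sj n j := by
  have := sqrt_pos' hn
  unfold sj; positivity

lemma sqrt_sj (j : ℕ) : √n * sj n j = 2 ^ j / 512 := by
  have := sqrt_pos' hn
  unfold sj; field_simp

lemma sj_le (j : ℕ) : sj n j ≤ 2 ^ j / 512 := by
  rw [← sqrt_sj hn]
  have := sqrt_one' hn
  nlinarith [sj_pos hn j]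

lemma cells_card (j : ℕ) : ((cells n j).card : ℝ) ≤ 5 * 10 ^ 6 * n := by
  classical
  have h0 := sqrt_one' hn
  have h1 : ((gr (sj n j) (2 ^ (j + 1))).card : ℝ) ≤ 2051 * √n := by
    refine (gr_card (sj_pos hn j) (by positivity)).trans ?_
    have e : (2:ℝ) ^ (j + 1) / sj n j = 1024 * √n := by
      have := sqrt_pos' hn
      unfold sj
      rw [pow_succ]
      field_simp
      norm_num
    rw [e]
    linarith
  have h2 : (cells n j).card ≤ (gr (sj n j) (2 ^ (j + 1))).card * (gr (sj n j) (2 ^ (j + 1))).card := by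
    unfold cells
    refine (Finset.card_filter_le _ _).trans ?_
    rw [Finset.card_product]
  have h3 : ((cells n j).card : ℝ) ≤ ((gr (sj n j) (2 ^ (j + 1))).card : ℝ) *
      ((gr (sj n j) (2 ^ (j + 1))).card : ℝ) := by exact_mod_cast h2
  have h4 : √(n:ℝ) * √n = n := Real.mul_self_sqrt (Nat.cast_nonneg _)
  calc _ ≤ _ := h3
    _ ≤ (2051 * √n) * (2051 * √n) := mul_le_mul h1 h1 (Nat.cast_nonneg _) (by positivity)
    _ = 2051 ^ 2 * (√n * √n) := by ring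
    _ ≤ _ := by
        rw [h4]
        have : (0:ℝ) ≤ n := Nat.cast_nonneg _
        nlinarith

lemma cells_cover {j : ℕ} {z : ℝ × ℝ} (h1 : 7 / 8 * (2:ℝ) ^ j ≤ 2 * ‖z‖ + 1)
    (h2 : ‖z‖ ≤ 2 ^ (j + 1)) : ∃ q ∈ cells n j, ‖z - q‖ ≤ sj n j := by
  classical
  obtain ⟨y1, hy1, hy1'⟩ := gr_cover (sj_pos hn j) ((norm_fst_le z).trans h2)
  obtain ⟨y2, hy2, hy2'⟩ := gr_cover (sj_pos hn j) ((norm_snd_le z).trans h2)
  have h3 : ‖z - (y1, y2)‖ ≤ sj n j := by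
    rw [Prod.norm_def, max_le_iff]
    exact ⟨hy1', hy2'⟩
  refine ⟨(y1, y2), ?_, h3⟩
  unfold cells
  rw [Finset.mem_filter, Finset.mem_product]
  refine ⟨⟨hy1, hy2⟩, ?_⟩
  have h4 : ‖z‖ ≤ ‖((y1, y2) : ℝ × ℝ)‖ + sj n j := by
    have := norm_add_le (z - (y1, y2)) (y1, y2)
    rw [sub_add_cancel] at this
    linarith
  have h5 := norm_le_sg (y1, y2)
  have h6 := one_le_sg (y1, y2)
  have h7 := sj_le hn j
  have h8 : (0:ℝ) < 2 ^ j := by positivity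
  linarith

lemma cells_scale {j : ℕ} {q : ℝ × ℝ} (hq : q ∈ cells n j) : √n * sj n j ≤ (Fq q).σ / 128 := by
  classical
  rw [sqrt_sj hn, Fq_σ]
  unfold cells at hq
  have := (Finset.mem_filter.1 hq).2
  linarith

end

lemma cells_sg {j : ℕ} {q : ℝ × ℝ} (hq : q ∈ cells n j) : (2:ℝ) ^ j ≤ 4 * (Fq q).σ := by
  classical
  rw [Fq_σ]
  unfold cells at hq
  exact (Finset.mem_filter.1 hq).2

lemma An_compact (j : ℕ) : IsCompact (An j) := by
  refine (isCompact_closedBall (0 : ℝ × ℝ) (2 ^ (j + 1))).of_isClosed_subset ?_ ?_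
  · have h1 : IsClosed {z : ℝ × ℝ | (2:ℝ) ^ j ≤ 2 * ‖z‖ + 1} :=
      isClosed_le continuous_const (by fun_prop)
    have h2 : IsClosed {z : ℝ × ℝ | ‖z‖ ≤ (2:ℝ) ^ (j + 1)} :=
      isClosed_le (by fun_prop) continuous_const
    exact h1.inter h2
  · intro z hz
    rw [mem_closedBall_zero_iff]
    exact hz.2

lemma An_sg {j : ℕ} {z : ℝ × ℝ} (hz : z ∈ An j) : (2:ℝ) ^ j ≤ 3 * sg z := by
  have h1 := hz.1
  have h2 := norm_le_sg z
  have h3 := one_le_sg z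
  linarith

/-- the zero near a short orbit -/
lemma near_zero (hn : 1 ≤ n) (c : T n → ℝ × ℝ) {j : ℕ} {α : ℝ} {γ : ℝ → ℝ × ℝ} {T' : ℝ}
    (ho : Orb (rf (fld (sc n c)) α) γ T') (hΩ : ∀ t, γ t ∈ An j) {Λ : ℝ} (hΛ : Λ ≤ 2 ^ j / 16)
    (hl : ∫ t in (0:ℝ)..T', winv (fld (sc n c)) (γ t) * H709R2.sq (fld (sc n c) (γ t)) ≤ Λ) :
    ∃ q ∈ cells n j, ∃ z₀, fld (sc n c) z₀ = 0 ∧ ‖z₀ - q‖ ≤ sj n j ∧ ∀ t, ‖z₀ - γ t‖ ≤ Λ := by
  obtain ⟨z₀, hz1, hz2, hz3⟩ := orb_zero (contDiff_fld (sc n c)) ho hl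
  have h1 : ‖z₀‖ ≤ 2 ^ (j + 1) := by
    have := hz3 0 (2 ^ (j + 1)) (fun t => by rw [sub_zero]; exact (hΩ t).2)
    rwa [sub_zero] at this
  have h2 : ‖γ 0‖ ≤ ‖z₀‖ + Λ := by
    have h3 := norm_add_le (γ 0 - z₀) z₀
    rw [sub_add_cancel] at h3
    have h4 := hz2 0
    rw [norm_sub_rev] at h4
    linarith
  have h3 := (hΩ 0).1
  obtain ⟨q, hq, hq'⟩ := cells_cover hn (z := z₀) (j := j) (by linarith) h1
  exact ⟨q, hq, z₀, hz1, hq', hz2⟩

/-- small orbits in the annulus -/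
theorem small_me (hn : 1 ≤ n) (c : T n → ℝ × ℝ) (j : ℕ) {β : ℝ} (hβ : 1 ≤ β) :
    ME (fun α => ((OL (fld (sc n c)) (An j) (Iio (sj n j)) α).encard : ℝ≥0∞))
      (∑ q ∈ cells n j, Kc (Fq q) n (sj n j) β ((Fq q).g n c)) := by
  have h := ME.sum (cells n j) fun q hq =>
    cell_me (Fq q) hn c (sj_pos hn j) (cells_scale hn hq) hβ
  refine h.mono (fun α _ => ?_) le_rfl
  refine (enc_mono ?_).trans (encard_biUnion_le' (cells n j) fun q =>
    OL (fld (sc n c)) (Metric.closedBall (Fq q).pt (2 * sj n j)) (Iio (sj n j)) α)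
  rintro C ⟨γ, T', ho, rfl, hΩ, hl⟩
  have hs := sj_le hn j
  have h2 : (0:ℝ) < 2 ^ j := by positivity
  obtain ⟨q, hq, z₀, -, hz2, hz3⟩ := near_zero hn c ho (fun t => hΩ ⟨t, rfl⟩) (Λ := sj n j)
    (by linarith) (le_of_lt hl)
  simp only [mem_iUnion]
  refine ⟨q, hq, γ, T', ho, rfl, ?_, hl⟩
  rintro _ ⟨t, rfl⟩
  rw [Fq_pt, mem_closedBall_iff_norm]
  have e : γ t - q = -(z₀ - γ t) + (z₀ - q) := by abel
  rw [e]
  refine (norm_add_le _ _).trans ?_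
  rw [norm_neg]
  linarith [hz3 t]

theorem small_mean (hn : 1 ≤ n) (j : ℕ) {β : ℝ} (hβ : 1 ≤ β) :
    Measurable (fun c : T n → ℝ × ℝ => ∑ q ∈ cells n j, Kc (Fq q) n (sj n j) β ((Fq q).g n c)) ∧
    ∫⁻ c, ∑ q ∈ cells n j, Kc (Fq q) n (sj n j) β ((Fq q).g n c) ∂GP (T n) ≤
      CE * ENNReal.ofReal (5 * 10 ^ 6 * n * (4 * β ^ 16 / 2 ^ j + 1 / β ^ 7)) := by
  have hβ0 : 0 < β := by linarith
  have hm : ∀ q ∈ cells n j, Measurable fun c : T n → ℝ × ℝ =>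
      Kc (Fq q) n (sj n j) β ((Fq q).g n c) := fun q hq =>
    (cell_mean (Fq q) hn (sj_pos hn j) (cells_scale hn hq) hβ).1.comp ((Fq q).mp_g n).measurable
  refine ⟨Finset.measurable_fun_sum _ hm, ?_⟩
  rw [lintegral_finsetSum' _ fun q hq => (hm q hq).aemeasurable]
  have h1 : ∀ q ∈ cells n j, ∫⁻ c, Kc (Fq q) n (sj n j) β ((Fq q).g n c) ∂GP (T n) ≤
      CE * ENNReal.ofReal (4 * β ^ 16 / 2 ^ j + 1 / β ^ 7) := by
    intro q hq
    obtain ⟨k1, k2⟩ := cell_mean (Fq q) hn (sj_pos hn j) (cells_scale hn hq) hβ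
    rw [((Fq q).mp_g n).lintegral_comp k1]
    refine k2.trans ?_
    gcongr CE * ENNReal.ofReal (?_ + _)
    have h2 := cells_sg hq
    have h3 := (Fq q).hσ
    have h4 : (0:ℝ) < 2 ^ j := by positivity
    rw [div_le_div_iff₀ h3 h4]
    have h5 : 0 < β ^ 16 := by positivity
    nlinarith
  refine (Finset.sum_le_sum h1).trans ?_
  rw [Finset.sum_const, nsmul_eq_mul]
  calc ((cells n j).card : ℝ≥0∞) * (CE * ENNReal.ofReal (4 * β ^ 16 / 2 ^ j + 1 / β ^ 7)) =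
        CE * (ENNReal.ofReal ((cells n j).card : ℝ) *
          ENNReal.ofReal (4 * β ^ 16 / 2 ^ j + 1 / β ^ 7)) := by
        rw [ENNReal.ofReal_natCast]; ring
    _ ≤ _ := by
        rw [← ENNReal.ofReal_mul (Nat.cast_nonneg _)]
        gcongr
        exact cells_card hn j

/-- detects a zero in a cell -/
def Zq (n : ℕ) (F : Fr) (g : T n → ℝ × ℝ) : ℝ≥0∞ :=
  ∑ τ ∈ gd F.σ (1 / (20 * F.σ)), {g : T n → ℝ × ℝ | ‖Ph n g τ‖ ≤ 1 / (20 * F.σ) * as g}.indicator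
    (fun g => ENNReal.ofReal (as g ^ 0)) g

lemma Zq_ge (hn : 1 ≤ n) (F : Fr) (c : T n → ℝ × ℝ) {z₀ : ℝ × ℝ} (hz : F.Nr n z₀)
    (h0 : fld (sc n c) z₀ = 0) : 1 ≤ Zq n F (F.g n c) := by
  have hσ := F.one_le
  have hρ : 0 < 1 / (20 * F.σ) := by positivity
  have hρ1 : 1 / (20 * F.σ) ≤ 1 / 20 := by
    rw [div_le_div_iff₀ (by positivity) (by norm_num)]; linarith
  obtain ⟨τ, hτ, hτ'⟩ := gd_cover (σ := F.σ) hρ (F.t1_le hn hz) (F.t2_le hn hz)
  have hy : Ph n (F.g n c) (F.t n z₀) = 0 := by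
    have := F.B_smul hn c (F.D_pos hn hz)
    rw [h0, smul_zero] at this
    exact this.symm
  have hev : F.g n c ∈ {g : T n → ℝ × ℝ | ‖Ph n g τ‖ ≤ 1 / (20 * F.σ) * as g} := by
    have h3 := Ph_sub (F.g n c) hn (t := τ) (s := F.t n z₀) (gd_norm F.one_le hρ hρ1 hτ)
      (F.t_le hn hz)
    rw [hy, sub_zero] at h3
    refine h3.trans ?_
    rw [mul_comm, norm_sub_rev]
    exact mul_le_mul_of_nonneg_right hτ' (as_nonneg _)
  unfold Zq
  refine le_trans ?_ (Finset.single_le_sum (f := fun τ =>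
    {g : T n → ℝ × ℝ | ‖Ph n g τ‖ ≤ 1 / (20 * F.σ) * as g}.indicator
    (fun g => ENNReal.ofReal (as g ^ 0)) (F.g n c)) (fun _ _ => zero_le) hτ)
  rw [indicator_of_mem hev]
  simp

lemma Zq_mean (n : ℕ) (F : Fr) : Measurable (Zq n F) ∧
    ∫⁻ g, Zq n F g ∂GP (T n) ≤ (1 + K4) * ENNReal.ofReal (64 / F.σ) := by
  have hσ := F.one_le
  have hρ : 0 < 1 / (20 * F.σ) := by positivity
  have hms : ∀ τ, MeasurableSet {g : T n → ℝ × ℝ | ‖Ph n g τ‖ ≤ 1 / (20 * F.σ) * as g} := fun τ => by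
    have h1 : Continuous fun g : T n → ℝ × ℝ => Ph n g τ :=
      continuous_Ph.comp (continuous_id.prodMk continuous_const)
    exact (isClosed_le h1.norm (continuous_const.mul continuous_as)).measurableSet
  have hma : Measurable fun g : T n → ℝ × ℝ => ENNReal.ofReal (as g ^ 0) := by
    simp only [pow_zero]
    exact measurable_const
  have hm : ∀ τ, Measurable fun g : T n → ℝ × ℝ =>
      {g : T n → ℝ × ℝ | ‖Ph n g τ‖ ≤ 1 / (20 * F.σ) * as g}.indicator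
        (fun g => ENNReal.ofReal (as g ^ 0)) g := fun τ => hma.indicator (hms τ)
  refine ⟨Finset.measurable_fun_sum _ fun τ _ => hm τ, ?_⟩
  unfold Zq
  rw [lintegral_finsetSum _ fun τ _ => hm τ]
  calc _ ≤ ∑ τ ∈ gd F.σ (1 / (20 * F.σ)), ENNReal.ofReal (4 * (1 / (20 * F.σ)) ^ 2) * (1 + K4) :=
        Finset.sum_le_sum fun τ _ => small (by norm_num) τ hρ.le
    _ = (1 + K4) * (ENNReal.ofReal ((gd F.σ (1 / (20 * F.σ))).card : ℝ) *
          ENNReal.ofReal (4 * (1 / (20 * F.σ)) ^ 2)) := by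
        rw [Finset.sum_const, nsmul_eq_mul, ENNReal.ofReal_natCast]
        ring
    _ ≤ _ := by
        rw [← ENNReal.ofReal_mul (Nat.cast_nonneg _)]
        gcongr
        have h1 := gd_card (σ := F.σ) F.one_le hρ (by
          rw [div_le_div_iff₀ (by positivity) (by positivity)]; linarith)
        calc _ ≤ 16 / (F.σ * (1 / (20 * F.σ)) ^ 2) * (4 * (1 / (20 * F.σ)) ^ 2) :=
              mul_le_mul_of_nonneg_right h1 (by positivity)
          _ = 64 / F.σ := by field_simp; norm_num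

end

end Pool.Agent.W960.HS
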