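import Pool.Agent.W960.HS.Mid

/-! Closed orbits of intermediate length in an annulus. -/

open Real Set MeasureTheory Topology Filter
open scoped ENNReal

namespace Pool.Agent.W960.HS

noncomputable section

open Pool.Agent.W960.HR (T mem_T GP norm_sq_le_sq sq_le_norm_sq volume_ball_le encard_biUnion_le')
open Pool.Agent.H709R2 (wedge rot divRot divW winv ClosedOrbit continuous_rot fld contDiff_fld
  contDiffAt_winv)
open Pool.Agent.H709U (Orb rf)

/-- the majorising function -/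
def hm (n j k : ℕ) (θ : ℝ) (c : T n → ℝ × ℝ) (p : ℝ × ℝ) : ℝ≥0∞ :=
  ENNReal.ofReal (√n / sg p) * (ENNReal.ofReal θ * Qk n c p + ENNReal.ofReal (1 / θ ^ 2) *
    ∑ q ∈ cells n j, {p : ℝ × ℝ | ‖p + -q‖ ≤ 4 * (2 ^ k * sj n j)}.indicator
      (fun _ => Zq n (Fq q) ((Fq q).g n c)) p)

variable {n : ℕ}

lemma meas_near (q : ℝ × ℝ) (r : ℝ) : MeasurableSet {p : ℝ × ℝ | ‖p + -q‖ ≤ r} :=
  (isClosed_le (by fun_prop) continuous_const).measurableSet

lemma measurable_hm (j k : ℕ) (θ : ℝ) :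
    Measurable fun q : (T n → ℝ × ℝ) × (ℝ × ℝ) => hm n j k θ q.1 q.2 := by
  have h1 : Measurable fun q : (T n → ℝ × ℝ) × (ℝ × ℝ) => ENNReal.ofReal (√n / sg q.2) :=
    (measurable_const.div (continuous_sg.measurable.comp measurable_snd)).ennreal_ofReal
  have h2 : ∀ q₀ : ℝ × ℝ, Measurable fun q : (T n → ℝ × ℝ) × (ℝ × ℝ) =>
      {p : ℝ × ℝ | ‖p + -q₀‖ ≤ 4 * (2 ^ k * sj n j)}.indicator
      (fun _ => Zq n (Fq q₀) ((Fq q₀).g n q.1)) q.2 := by
    intro q₀
    have h3 : Measurable fun q : (T n → ℝ × ℝ) × (ℝ × ℝ) => Zq n (Fq q₀) ((Fq q₀).g n q.1) :=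
      ((Zq_mean n (Fq q₀)).1.comp ((Fq q₀).mp_g n).measurable).comp measurable_fst
    have h4 : MeasurableSet {q : (T n → ℝ × ℝ) × (ℝ × ℝ) | ‖q.2 + -q₀‖ ≤ 4 * (2 ^ k * sj n j)} :=
      measurable_snd (meas_near q₀ _)
    have h5 := h3.indicator h4
    exact h5
  unfold hm
  exact h1.mul ((measurable_Qk.const_mul _).add
    ((Finset.measurable_fun_sum _ fun q₀ _ => h2 q₀).const_mul _))

lemma measurable_hm_fix (j k : ℕ) (θ : ℝ) (c : T n → ℝ × ℝ) : Measurable (hm n j k θ c) := by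
  have h1 : Measurable fun p : ℝ × ℝ => (c, p) := measurable_const.prodMk measurable_id
  have h2 := (measurable_hm (n := n) j k θ).comp h1
  simpa only [Function.comp_def] using h2

/-- the majorant -/
def Km (n j k : ℕ) (θ : ℝ) (c : T n → ℝ × ℝ) : ℝ≥0∞ :=
  ENNReal.ofReal (1 / (2 ^ k * sj n j)) * ∫⁻ p in An j, hm n j k θ c p

/-- orbits of intermediate length -/
theorem mid_me (hn : 1 ≤ n) (c : T n → ℝ × ℝ) {j k : ℕ} (hk : 2 ^ k * sj n j ≤ 2 ^ j / 32) {θ : ℝ}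
    (hθ : 0 < θ) : ME (fun α => ((OL (fld (sc n c)) (An j)
      (Ico (2 ^ k * sj n j) (2 * (2 ^ k * sj n j))) α).encard : ℝ≥0∞)) (Km n j k θ c) := by
  have hs := sj_pos hn j
  refine ol_me c (R := 2 ^ (j + 1)) (by positivity) (An_compact j) (fun z hz => hz.2)
    measurableSet_Ico (by positivity) (fun x hx => hx.1) (measurable_hm_fix j k θ c) ?_
  intro α γ T' ho hΩ hl
  have h1k : (1:ℝ) ≤ 2 ^ k := one_le_pow₀ (by norm_num)
  obtain ⟨q, hq, z₀, hz1, hz2, hz3⟩ := near_zero hn c ho hΩ (Λ := 2 * (2 ^ k * sj n j))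
    (by linarith) hl.2.le
  refine (hr_young hn c (γ 0) hθ).trans ?_
  unfold hm
  gcongr
  refine le_mul_of_one_le_right zero_le ?_
  have hmem : γ 0 ∈ {p : ℝ × ℝ | ‖p + -q‖ ≤ 4 * (2 ^ k * sj n j)} := by
    show ‖γ 0 + -q‖ ≤ 4 * (2 ^ k * sj n j)
    have e : γ 0 + -q = -(z₀ - γ 0) + (z₀ - q) := by abel
    rw [e]
    refine (norm_add_le _ _).trans ?_
    rw [norm_neg]
    nlinarith [hz3 0]
  refine le_trans ?_ (Finset.single_le_sum (f := fun q =>
    {p : ℝ × ℝ | ‖p + -q‖ ≤ 4 * (2 ^ k * sj n j)}.indicator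
      (fun _ => Zq n (Fq q) ((Fq q).g n c)) (γ 0)) (fun _ _ => zero_le) hq)
  rw [indicator_of_mem hmem]
  refine Zq_ge hn (Fq q) c ?_ hz1
  unfold Fr.Nr
  rw [Fq_pt]
  have h1 := cells_scale hn hq
  have h2 : √n * ‖z₀ - q‖ ≤ √n * sj n j := mul_le_mul_of_nonneg_left hz2 (Real.sqrt_nonneg _)
  have h3 := (Fq q).hσ
  linarith

/-- the constant -/
def CM : ℝ≥0∞ := ENNReal.ofReal 77 * KE + (1 + K4)

lemma CM_ne : CM ≠ ⊤ := ENNReal.add_ne_top.2 ⟨ENNReal.mul_ne_top ENNReal.ofReal_ne_top KE_ne,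
  ENNReal.add_ne_top.2 ⟨ENNReal.one_ne_top, K4_ne⟩⟩

theorem mid_mean (hn : 1 ≤ n) (j k : ℕ) {θ : ℝ} (hθ : 0 < θ) :
    Measurable (Km n j k θ) ∧ ∫⁻ c, Km n j k θ c ∂GP (T n) ≤
      CM * ENNReal.ofReal (10 ^ 9 * n * (θ / 2 ^ k + 2 ^ k / (θ ^ 2 * 2 ^ j))) := by
  have hs := sj_pos hn j
  have hn0 := sqrt_pos' hn
  have hmj := measurable_hm (n := n) j k θ
  refine ⟨measurable_const.mul hmj.lintegral_prod_right', ?_⟩
  unfold Km
  rw [lintegral_const_mul _ hmj.lintegral_prod_right', lintegral_lintegral_swap hmj.aemeasurable]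
  have hZm : ∀ q : ℝ × ℝ, Measurable fun c : T n → ℝ × ℝ => Zq n (Fq q) ((Fq q).g n c) := fun q =>
    (Zq_mean n (Fq q)).1.comp ((Fq q).mp_g n).measurable
  -- inner integral
  have h1 : ∀ p, ∫⁻ c, hm n j k θ c p ∂GP (T n) ≤ ENNReal.ofReal (√n / sg p) *
      (ENNReal.ofReal θ * (ENNReal.ofReal 77 * KE) + ENNReal.ofReal (1 / θ ^ 2) *
      ∑ q ∈ cells n j, {p : ℝ × ℝ | ‖p + -q‖ ≤ 4 * (2 ^ k * sj n j)}.indicator
        (fun _ => (1 + K4) * ENNReal.ofReal (256 / 2 ^ j)) p) := by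
    intro p
    have m1 : Measurable fun c : T n → ℝ × ℝ => Qk n c p := by
      have h1 : Measurable fun c : T n → ℝ × ℝ => (c, p) := measurable_id.prodMk measurable_const
      have h2 := (measurable_Qk (n := n)).comp h1
      simpa only [Function.comp_def] using h2
    have m2 : ∀ q : ℝ × ℝ, Measurable fun c : T n → ℝ × ℝ =>
        {p : ℝ × ℝ | ‖p + -q‖ ≤ 4 * (2 ^ k * sj n j)}.indicator
        (fun _ => Zq n (Fq q) ((Fq q).g n c)) p := by
      intro q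
      by_cases h : p ∈ {p : ℝ × ℝ | ‖p + -q‖ ≤ 4 * (2 ^ k * sj n j)}
      · simp only [indicator_of_mem h]
        exact hZm q
      · simp only [indicator_of_notMem h]
        exact measurable_const
    have m3 : Measurable fun c : T n → ℝ × ℝ => ∑ q ∈ cells n j,
        {p : ℝ × ℝ | ‖p + -q‖ ≤ 4 * (2 ^ k * sj n j)}.indicator
        (fun _ => Zq n (Fq q) ((Fq q).g n c)) p := Finset.measurable_fun_sum _ fun q _ => m2 q
    have m4 : Measurable fun c : T n → ℝ × ℝ => ENNReal.ofReal θ * Qk n c p := m1.const_mul _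
    have m5 : Measurable fun c : T n → ℝ × ℝ => ENNReal.ofReal (1 / θ ^ 2) * ∑ q ∈ cells n j,
        {p : ℝ × ℝ | ‖p + -q‖ ≤ 4 * (2 ^ k * sj n j)}.indicator
        (fun _ => Zq n (Fq q) ((Fq q).g n c)) p := m3.const_mul _
    have m6 : Measurable fun c : T n → ℝ × ℝ => ENNReal.ofReal θ * Qk n c p +
        ENNReal.ofReal (1 / θ ^ 2) * ∑ q ∈ cells n j,
        {p : ℝ × ℝ | ‖p + -q‖ ≤ 4 * (2 ^ k * sj n j)}.indicator
        (fun _ => Zq n (Fq q) ((Fq q).g n c)) p := m4.add m5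
    unfold hm
    rw [lintegral_const_mul _ m6,
      lintegral_add_left m4, lintegral_const_mul _ m1, lintegral_const_mul _ m3,
      lintegral_finsetSum _ fun q _ => m2 q]
    gcongr with q hq
    · exact mean_Qk hn p
    · by_cases h : p ∈ {p : ℝ × ℝ | ‖p + -q‖ ≤ 4 * (2 ^ k * sj n j)}
      · simp only [indicator_of_mem h]
        rw [((Fq q).mp_g n).lintegral_comp (Zq_mean n (Fq q)).1]
        refine (Zq_mean n (Fq q)).2.trans ?_
        gcongr _ * ENNReal.ofReal ?_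
        have h2 := cells_sg hq
        have h3 := (Fq q).hσ
        rw [div_le_div_iff₀ h3 (by positivity)]
        linarith
      · simp only [indicator_of_notMem h]
        simp
  have h2 : ∀ p ∈ An j, ∫⁻ c, hm n j k θ c p ∂GP (T n) ≤ ENNReal.ofReal (3 * √n / 2 ^ j) *
      (ENNReal.ofReal θ * (ENNReal.ofReal 77 * KE) + ENNReal.ofReal (1 / θ ^ 2) *
      ∑ q ∈ cells n j, {p : ℝ × ℝ | ‖p + -q‖ ≤ 4 * (2 ^ k * sj n j)}.indicator
        (fun _ => (1 + K4) * ENNReal.ofReal (256 / 2 ^ j)) p) := by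
    intro p hp
    refine (h1 p).trans ?_
    gcongr ENNReal.ofReal ?_ * _
    have h3 := An_sg hp
    have h4 := one_le_sg p
    rw [div_le_div_iff₀ (by linarith) (by positivity)]
    nlinarith
  have mi : ∀ q : ℝ × ℝ, Measurable ({p : ℝ × ℝ | ‖p + -q‖ ≤ 4 * (2 ^ k * sj n j)}.indicator
        (fun _ => (1 + K4) * ENNReal.ofReal (256 / 2 ^ j))) := fun q =>
    measurable_const.indicator (meas_near q _)
  have ms : Measurable fun p : ℝ × ℝ => ∑ q ∈ cells n j,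
      {p : ℝ × ℝ | ‖p + -q‖ ≤ 4 * (2 ^ k * sj n j)}.indicator
        (fun _ => (1 + K4) * ENNReal.ofReal (256 / 2 ^ j)) p :=
    Finset.measurable_fun_sum _ fun q _ => mi q
  have hvolA : volume (An j) ≤ ENNReal.ofReal (4 * (2 ^ (j + 1)) ^ 2) := by
    refine (measure_mono ?_).trans (volume_ball_le (0 : ℝ × ℝ) (by positivity))
    intro z hz
    show ‖z + 0‖ ≤ 2 ^ (j + 1)
    rw [add_zero]
    exact hz.2
  have h3 : ∫⁻ p in An j, ∑ q ∈ cells n j, {p : ℝ × ℝ | ‖p + -q‖ ≤ 4 * (2 ^ k * sj n j)}.indicator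
        (fun _ => (1 + K4) * ENNReal.ofReal (256 / 2 ^ j)) p ≤
      (1 + K4) * ENNReal.ofReal (5 * 10 ^ 6 * n * (256 / 2 ^ j * (4 * (4 * (2 ^ k * sj n j)) ^ 2))) := by
    refine (setLIntegral_le_lintegral _ _).trans ?_
    rw [lintegral_finsetSum _ fun q _ => mi q]
    calc _ ≤ ∑ q ∈ cells n j, (1 + K4) * ENNReal.ofReal (256 / 2 ^ j) *
          ENNReal.ofReal (4 * (4 * (2 ^ k * sj n j)) ^ 2) := by
          refine Finset.sum_le_sum fun q _ => ?_
          rw [lintegral_indicator_const (meas_near q _)]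
          gcongr
          exact volume_ball_le _ (by positivity)
      _ = (1 + K4) * (ENNReal.ofReal ((cells n j).card : ℝ) * ENNReal.ofReal (256 / 2 ^ j *
          (4 * (4 * (2 ^ k * sj n j)) ^ 2))) := by
          rw [Finset.sum_const, nsmul_eq_mul, ENNReal.ofReal_natCast,
            ENNReal.ofReal_mul (p := 256 / 2 ^ j) (by positivity)]
          ring
      _ ≤ _ := by
          rw [← ENNReal.ofReal_mul (Nat.cast_nonneg _)]
          gcongr
          exact cells_card hn j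
  calc ENNReal.ofReal (1 / (2 ^ k * sj n j)) * ∫⁻ p in An j, ∫⁻ c, hm n j k θ c p ∂GP (T n)
      ≤ ENNReal.ofReal (1 / (2 ^ k * sj n j)) * ∫⁻ p in An j, ENNReal.ofReal (3 * √n / 2 ^ j) *
      (ENNReal.ofReal θ * (ENNReal.ofReal 77 * KE) + ENNReal.ofReal (1 / θ ^ 2) *
      ∑ q ∈ cells n j, {p : ℝ × ℝ | ‖p + -q‖ ≤ 4 * (2 ^ k * sj n j)}.indicator
        (fun _ => (1 + K4) * ENNReal.ofReal (256 / 2 ^ j)) p) := by
        gcongr _ * ?_
        exact setLIntegral_mono' (An_compact j).measurableSet h2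
    _ = ENNReal.ofReal (1 / (2 ^ k * sj n j)) * (ENNReal.ofReal (3 * √n / 2 ^ j) *
      (ENNReal.ofReal θ * (ENNReal.ofReal 77 * KE) * volume (An j) + ENNReal.ofReal (1 / θ ^ 2) *
      ∫⁻ p in An j, ∑ q ∈ cells n j, {p : ℝ × ℝ | ‖p + -q‖ ≤ 4 * (2 ^ k * sj n j)}.indicator
        (fun _ => (1 + K4) * ENNReal.ofReal (256 / 2 ^ j)) p)) := by
        have m5 : Measurable fun p : ℝ × ℝ => ENNReal.ofReal (1 / θ ^ 2) * ∑ q ∈ cells n j,
          {p : ℝ × ℝ | ‖p + -q‖ ≤ 4 * (2 ^ k * sj n j)}.indicator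
            (fun _ => (1 + K4) * ENNReal.ofReal (256 / 2 ^ j)) p := ms.const_mul _
        have m6 : Measurable fun p : ℝ × ℝ => ENNReal.ofReal θ * (ENNReal.ofReal 77 * KE) +
          ENNReal.ofReal (1 / θ ^ 2) * ∑ q ∈ cells n j,
          {p : ℝ × ℝ | ‖p + -q‖ ≤ 4 * (2 ^ k * sj n j)}.indicator
            (fun _ => (1 + K4) * ENNReal.ofReal (256 / 2 ^ j)) p := measurable_const.add m5
        rw [lintegral_const_mul _ m6,
          lintegral_add_left measurable_const, setLIntegral_const, lintegral_const_mul _ ms]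
    _ ≤ ENNReal.ofReal (1 / (2 ^ k * sj n j)) * (ENNReal.ofReal (3 * √n / 2 ^ j) *
      (ENNReal.ofReal θ * CM * ENNReal.ofReal (4 * (2 ^ (j + 1)) ^ 2) +
        ENNReal.ofReal (1 / θ ^ 2) * (CM * ENNReal.ofReal
          (5 * 10 ^ 6 * n * (256 / 2 ^ j * (4 * (4 * (2 ^ k * sj n j)) ^ 2)))))) := by
        gcongr
        · exact le_self_add
        · refine h3.trans ?_
          gcongr
          exact le_add_self
    _ = CM * ENNReal.ofReal (1 / (2 ^ k * sj n j) * (3 * √n / 2 ^ j * (θ * (4 * (2 ^ (j + 1)) ^ 2) +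
        1 / θ ^ 2 * (5 * 10 ^ 6 * n * (256 / 2 ^ j * (4 * (4 * (2 ^ k * sj n j)) ^ 2)))))) := by
        rw [ENNReal.ofReal_mul (p := 1 / (2 ^ k * sj n j)) (by positivity),
          ENNReal.ofReal_mul (p := 3 * √n / 2 ^ j) (by positivity),
          ENNReal.ofReal_add (by positivity) (by positivity),
          ENNReal.ofReal_mul (p := θ) hθ.le, ENNReal.ofReal_mul (p := 1 / θ ^ 2) (by positivity)]
        ring
    _ ≤ _ := by
        gcongr CM * ENNReal.ofReal ?_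
        have e1 : 1 / (2 ^ k * sj n j) * (3 * √n / 2 ^ j * (θ * (4 * (2 ^ (j + 1)) ^ 2) +
            1 / θ ^ 2 * (5 * 10 ^ 6 * n * (256 / 2 ^ j * (4 * (4 * (2 ^ k * sj n j)) ^ 2))))) =
            24576 * (√n * √n) * (θ / 2 ^ k) + 480000000 * n * (2 ^ k / (θ ^ 2 * 2 ^ j)) := by
          unfold sj
          rw [pow_succ]
          field_simp
          ring
        have e2 : √(n:ℝ) * √n = n := Real.mul_self_sqrt (Nat.cast_nonneg _)
        rw [e1, e2]
        have a1 : 0 ≤ (n:ℝ) * (θ / 2 ^ k) := by positivity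
        have a2 : 0 ≤ (n:ℝ) * (2 ^ k / (θ ^ 2 * 2 ^ j)) := by positivity
        nlinarith

end

end Pool.Agent.W960.HS
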