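import Pool.Agent.W960.HS.Cell4
import Pool.Agent.W960.HR.Chart

/-! The frame at a point and the kernel of the length. -/

open Real Set MeasureTheory Topology Filter
open scoped ENNReal

namespace Pool.Agent.W960.HS

noncomputable section

open Pool.Agent.W960.HR (T mem_T GP norm_sq_le_sq sq_le_norm_sq)
open Pool.Agent.H709R2 (wedge rot divRot divW winv ClosedOrbit continuous_rot fld contDiff_fld
  contDiffAt_winv)
open Pool.Agent.H709U (Orb rf)

/-- `√(1 + |p|²)` -/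
def sg (p : ℝ × ℝ) : ℝ := √(1 + H709R2.sq p)

lemma sq_nonneg' (p : ℝ × ℝ) : 0 ≤ H709R2.sq p := by unfold H709R2.sq; positivity

lemma sg_sq (p : ℝ × ℝ) : sg p ^ 2 = 1 + H709R2.sq p :=
  Real.sq_sqrt (by have := sq_nonneg' p; linarith)

lemma one_le_sg (p : ℝ × ℝ) : 1 ≤ sg p :=
  Real.le_sqrt_of_sq_le (by have := sq_nonneg' p; linarith)

lemma eu_le_sg (p : ℝ × ℝ) : eu p ≤ sg p := Real.sqrt_le_sqrt (by linarith)

lemma norm_le_sg (p : ℝ × ℝ) : ‖p‖ ≤ sg p := (norm_le_eu p).trans (eu_le_sg p)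

lemma continuous_sg : Continuous sg := by
  unfold sg H709R2.sq
  fun_prop

lemma exists_fr (p : ℝ × ℝ) : ∃ F : Fr, F.pt = p ∧ F.σ = sg p ∧ F.r = eu p := by
  have h0 := sg_sq p
  have h1 := eu_sq p
  by_cases h : eu p = 0
  · have hp : p = 0 := by
      by_contra hcon
      exact (Real.sqrt_pos.2 (H709R2.sq_pos hcon)).ne' h
    refine ⟨⟨eu p, sg p, 1, 0, eu_nonneg _, by linarith [one_le_sg p], by rw [h0, h1], by norm_num⟩,
      ?_, rfl, rfl⟩
    show ((eu p * 1, eu p * 0) : ℝ × ℝ) = p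
    rw [h, hp]
    simp
  · refine ⟨⟨eu p, sg p, p.1 / eu p, p.2 / eu p, eu_nonneg _, by linarith [one_le_sg p],
      by rw [h0, h1], ?_⟩, ?_, rfl, rfl⟩
    · rw [div_pow, div_pow, ← add_div, h1, div_eq_one_iff_eq]
      · rfl
      · intro h2
        exact h (by unfold eu; rw [h2, Real.sqrt_zero])
    · unfold Fr.pt
      ext
      · simp only
        field_simp
      · simp only
        field_simp

/-- the frame at a point -/
def Fq (p : ℝ × ℝ) : Fr := (exists_fr p).choose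

lemma Fq_pt (p : ℝ × ℝ) : (Fq p).pt = p := (exists_fr p).choose_spec.1

lemma Fq_σ (p : ℝ × ℝ) : (Fq p).σ = sg p := (exists_fr p).choose_spec.2.1

lemma Fq_r (p : ℝ × ℝ) : (Fq p).r = eu p := (exists_fr p).choose_spec.2.2

namespace Fr

variable (F : Fr) {n : ℕ}

lemma D_pt : F.D F.pt = F.σ ^ 2 := by
  unfold D
  rw [F.x_pt, F.hσr]
  ring

lemma t_pt : F.t n F.pt = 0 := by
  unfold t
  rw [F.x_pt, F.y_pt]
  ext <;> simp

lemma nr_pt : F.Nr n F.pt := by
  unfold Nr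
  rw [sub_self, norm_zero, mul_zero]
  have := F.hσ
  positivity

end Fr

/-- the kernel -/
def hr (n : ℕ) (c : T n → ℝ × ℝ) (p : ℝ × ℝ) : ℝ :=
  |wedge (fld (sc n c) p) (fderiv ℝ (fld (sc n c)) p (1, 0))| / H709R2.sq (fld (sc n c) p) +
  |wedge (fld (sc n c) p) (fderiv ℝ (fld (sc n c)) p (0, 1))| / H709R2.sq (fld (sc n c) p)

variable {n : ℕ}

lemma hr_nonneg (c : T n → ℝ × ℝ) (p : ℝ × ℝ) : 0 ≤ hr n c p := by
  have := sq_nonneg' (fld (sc n c) p)
  unfold hr
  positivity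

lemma cont_fld : Continuous fun q : (T n → ℝ × ℝ) × (ℝ × ℝ) => fld (sc n q.1) q.2 := by
  unfold fld sc
  fun_prop

lemma cont_gx : Continuous fun q : (T n → ℝ × ℝ) × (ℝ × ℝ) =>
    HR.Gx HR.one HR.e0 (sc n q.1) q.2 := by
  unfold HR.Gx HR.Gs sc
  fun_prop

lemma cont_gy : Continuous fun q : (T n → ℝ × ℝ) × (ℝ × ℝ) =>
    HR.Gy HR.one HR.e0 (sc n q.1) q.2 := by
  unfold HR.Gy HR.Gs sc
  fun_prop

lemma cont_wedge (v : ℝ × ℝ) : Continuous fun q : (T n → ℝ × ℝ) × (ℝ × ℝ) =>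
    wedge (fld (sc n q.1) q.2) (fderiv ℝ (fld (sc n q.1)) q.2 v) := by
  have h1 := cont_fld (n := n)
  have h2 : Continuous fun q : (T n → ℝ × ℝ) × (ℝ × ℝ) => fderiv ℝ (fld (sc n q.1)) q.2 v := by
    simp_rw [HR.fderiv_fld]
    exact (cont_gx.const_smul v.1).add (cont_gy.const_smul v.2)
  unfold wedge
  exact (h1.fst.mul h2.snd).sub (h1.snd.mul h2.fst)

lemma measurable_hr : Measurable fun q : (T n → ℝ × ℝ) × (ℝ × ℝ) => hr n q.1 q.2 := by
  have h1 : Continuous fun q : (T n → ℝ × ℝ) × (ℝ × ℝ) => H709R2.sq (fld (sc n q.1) q.2) := by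
    have := cont_fld (n := n)
    unfold H709R2.sq
    exact (this.fst.pow 2).add (this.snd.pow 2)
  unfold hr
  exact ((cont_wedge (1, 0)).abs.measurable.div h1.measurable).add
    ((cont_wedge (0, 1)).abs.measurable.div h1.measurable)

lemma measurable_hr_fix (c : T n → ℝ × ℝ) : Measurable (hr n c) := by
  have h1 : Measurable fun p : ℝ × ℝ => (c, p) := measurable_const.prodMk measurable_id
  have h2 := (measurable_hr (n := n)).comp h1
  simpa only [Function.comp_def] using h2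

/-- the normalised kernel -/
def qk (n : ℕ) (c : T n → ℝ × ℝ) (p : ℝ × ℝ) : ℝ := sg p / √n * hr n c p

lemma qk_nonneg (c : T n → ℝ × ℝ) (p : ℝ × ℝ) : 0 ≤ qk n c p := by
  have := hr_nonneg c p
  have := one_le_sg p
  unfold qk
  positivity

lemma wedge_le_eu (a b : ℝ × ℝ) : |wedge a b| ≤ eu a * eu b := by
  unfold eu
  rw [← Real.sqrt_mul (sq_nonneg' a)]
  refine Real.abs_le_sqrt ?_
  unfold wedge H709R2.sq
  nlinarith [sq_nonneg (a.1 * b.1 + a.2 * b.2)]

section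

variable (F : Fr)

lemma ratio_le (hn : 1 ≤ n) (c : T n → ℝ × ℝ) (hX : fld (sc n c) F.pt ≠ 0) {w : ℝ × ℝ}
    (hw : ‖w‖ = 1) :
    |wedge (fld (sc n c) F.pt) (fderiv ℝ (fld (sc n c)) F.pt w)| / H709R2.sq (fld (sc n c) F.pt) ≤
      9 * F.κ n * (as (F.g n c) / ‖Ph n (F.g n c) 0‖) := by
  set g := F.g n c with hg
  set X := fld (sc n c) with hXd
  set p := F.pt with hp
  have hσ := F.hσ
  have hD : 0 < F.D p := by rw [hp, F.D_pt]; positivity
  have hnr : F.Nr n p := F.nr_pt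
  set b := F.B n p with hb
  have hb0 : 0 < b := F.B_pos hD
  have hXd' : DifferentiableAt ℝ X p :=
    (contDiff_fld (m := 2) (sc n c)).differentiable (by norm_num) p
  have hBd : DifferentiableAt ℝ (F.B n) p := (F.contDiffAt_B (m := 1) hD).differentiableAt (by norm_num)
  have h1 : fderiv ℝ (fun z => F.B n z • X z) p w = b • fderiv ℝ X p w + (fderiv ℝ (F.B n) p w) • X p := by
    rw [fderiv_fun_smul hBd hXd']
    simp [hb]
  rw [(F.B_smul_ev hn c hD).fderiv_eq, F.fderiv_yf g hn hnr] at h1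
  have hY : b • X p = Ph n g 0 := by
    rw [hb, hXd, F.B_smul hn c hD]
    unfold Fr.yf
    rw [hp, F.t_pt]
  have hY0 : Ph n g 0 ≠ 0 := by rw [← hY]; exact smul_ne_zero hb0.ne' hX
  have h2 : wedge (Ph n g 0) (F.dy n g p w) = b ^ 2 * wedge (X p) (fderiv ℝ X p w) := by
    rw [← hY, h1]
    unfold wedge
    simp only [Prod.smul_fst, Prod.smul_snd, Prod.fst_add, Prod.snd_add, smul_eq_mul]
    ring
  have h3 : H709R2.sq (Ph n g 0) = b ^ 2 * H709R2.sq (X p) := by rw [← hY, sq_smul']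
  have hs := H709R2.sq_pos hX
  have h4 : |wedge (X p) (fderiv ℝ X p w)| / H709R2.sq (X p) =
      |wedge (Ph n g 0) (F.dy n g p w)| / H709R2.sq (Ph n g 0) := by
    rw [h2, h3, abs_mul, abs_of_pos (by positivity : 0 < b ^ 2)]
    field_simp
  rw [h4]
  have hsY := H709R2.sq_pos hY0
  have he : 0 < eu (Ph n g 0) := Real.sqrt_pos.2 hsY
  have hYn : 0 < ‖Ph n g 0‖ := norm_pos_iff.2 hY0
  have h5 := F.dy_le g hn hnr (w := w)
  rw [hw, mul_one] at h5
  have h6 := (eu_le_norm (F.dy n g p w)).trans (mul_le_mul_of_nonneg_left h5 (by norm_num))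
  calc |wedge (Ph n g 0) (F.dy n g p w)| / H709R2.sq (Ph n g 0)
      ≤ (eu (Ph n g 0) * eu (F.dy n g p w)) / H709R2.sq (Ph n g 0) :=
        div_le_div_of_nonneg_right (wedge_le_eu _ _) hsY.le
    _ = eu (F.dy n g p w) / eu (Ph n g 0) := by rw [← eu_sq]; field_simp
    _ ≤ (3 / 2 * (6 * F.κ n * as g)) / eu (Ph n g 0) := div_le_div_of_nonneg_right h6 he.le
    _ ≤ (3 / 2 * (6 * F.κ n * as g)) / ‖Ph n g 0‖ := by
        have := F.kappa_pos hn
        have := as_nonneg g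
        exact div_le_div_of_nonneg_left (by positivity) hYn (norm_le_eu _)
    _ = _ := by ring

lemma qk_le (hn : 1 ≤ n) (hσ : F.σ = sg F.pt) (c : T n → ℝ × ℝ) (hX : fld (sc n c) F.pt ≠ 0) :
    qk n c F.pt ≤ 18 * (as (F.g n c) / ‖Ph n (F.g n c) 0‖) := by
  have hn0 : 0 < √(n:ℝ) := Real.sqrt_pos.2 (by exact_mod_cast hn)
  have h1 := ratio_le F hn c hX (w := (1, 0)) (by simp)
  have h2 := ratio_le F hn c hX (w := (0, 1)) (by simp)
  have hs := F.hσ
  unfold qk hr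
  rw [← hσ]
  calc F.σ / √n * _ ≤ F.σ / √n * (9 * F.κ n * (as (F.g n c) / ‖Ph n (F.g n c) 0‖) +
        9 * F.κ n * (as (F.g n c) / ‖Ph n (F.g n c) 0‖)) :=
        mul_le_mul_of_nonneg_left (add_le_add h1 h2) (by positivity)
    _ = 18 * (F.σ / √n * F.κ n) * (as (F.g n c) / ‖Ph n (F.g n c) 0‖) := by ring
    _ = _ := by
        have : F.σ / √n * F.κ n = 1 := by unfold Fr.κ; field_simp
        rw [this, mul_one]

end

lemma pow32 {a b : ℝ} (ha : 0 ≤ a) (hb : 0 < b) : 18 * (a / b) * √(18 * (a / b)) ≤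
    77 * ((1 + a ^ 4) * (1 + b ^ (-s8))) := by
  have h1 : √(18 * (a / b)) = √18 * (√a / √b) := by
    rw [Real.sqrt_mul (by norm_num), Real.sqrt_div ha]
  have h2 : a * √a ≤ 1 + a ^ 4 := by
    rcases le_total a 1 with h | h
    · have : √a ≤ 1 := Real.sqrt_le_one.2 h
      nlinarith [Real.sqrt_nonneg a, pow_nonneg ha 4]
    · have h3 : √a ≤ a := by
        rw [Real.sqrt_le_left (by linarith)]
        nlinarith
      have : a ^ 2 ≤ a ^ 4 := pow_le_pow_right₀ h (by norm_num)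
      nlinarith
  have h3 : 1 / (b * √b) ≤ 1 + b ^ (-s8) := by
    have e : 1 / (b * √b) = b ^ (-(3 / 2) : ℝ) := by
      rw [Real.rpow_neg hb.le, one_div, show (3 / 2 : ℝ) = 1 + 1 / 2 by norm_num,
        Real.rpow_add hb, Real.rpow_one, Real.sqrt_eq_rpow]
    rw [e]
    rcases le_total b 1 with h | h
    · have := Real.rpow_le_rpow_of_exponent_ge hb h (by norm_num [s8] : -s8 ≤ -(3 / 2))
      linarith
    · have h4 := Real.rpow_le_one_of_one_le_of_nonpos h (by norm_num : (-(3 / 2) : ℝ) ≤ 0)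
      have : 0 ≤ b ^ (-s8) := (Real.rpow_pos_of_pos hb _).le
      linarith
  have h4 : √(18:ℝ) ≤ 77 / 18 := by
    rw [Real.sqrt_le_left (by norm_num)]
    norm_num
  have hb2 : 0 < √b := Real.sqrt_pos.2 hb
  calc 18 * (a / b) * √(18 * (a / b)) = (18 * √18) * ((a * √a) * (1 / (b * √b))) := by
        rw [h1]; field_simp
    _ ≤ 77 * ((1 + a ^ 4) * (1 + b ^ (-s8))) := by
        refine mul_le_mul (by linarith) (mul_le_mul h2 h3 (by positivity) (by positivity))
          (by positivity) (by norm_num)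

/-- the power `3/2` of the normalised kernel -/
def Qk (n : ℕ) (c : T n → ℝ × ℝ) (p : ℝ × ℝ) : ℝ≥0∞ := ENNReal.ofReal (qk n c p * √(qk n c p))

lemma measurable_Qk : Measurable fun q : (T n → ℝ × ℝ) × (ℝ × ℝ) => Qk n q.1 q.2 := by
  have h1 : Measurable fun q : (T n → ℝ × ℝ) × (ℝ × ℝ) => qk n q.1 q.2 := by
    unfold qk
    exact ((continuous_sg.measurable.comp measurable_snd).div_const _).mul measurable_hr
  unfold Qk
  exact (h1.mul h1.sqrt).ennreal_ofReal

lemma measurable_Qk_fix (c : T n → ℝ × ℝ) : Measurable (Qk n c) := by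
  have h1 : Measurable fun p : ℝ × ℝ => (c, p) := measurable_const.prodMk measurable_id
  have h2 := (measurable_Qk (n := n)).comp h1
  simpa only [Function.comp_def] using h2

/-- the mean of the kernel -/
theorem mean_Qk (hn : 1 ≤ n) (p : ℝ × ℝ) :
    ∫⁻ c, Qk n c p ∂GP (T n) ≤ ENNReal.ofReal 77 * KE := by
  set F := Fq p with hF
  have hp : F.pt = p := Fq_pt p
  have hσ : F.σ = sg F.pt := by rw [hp]; exact Fq_σ p
  have h1 : ∀ c : T n → ℝ × ℝ, Qk n c p ≤ ENNReal.ofReal 77 *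
      ENNReal.ofReal ((1 + as (F.g n c) ^ 4) * (1 + ‖Ph n (F.g n c) 0‖ ^ (-s8))) := by
    intro c
    rw [← ENNReal.ofReal_mul (by norm_num)]
    unfold Qk
    apply ENNReal.ofReal_le_ofReal
    by_cases h0 : fld (sc n c) p = 0
    · have : qk n c p = 0 := by
        unfold qk hr
        rw [h0]
        unfold H709R2.sq
        simp
      rw [this, zero_mul]
      have : 0 ≤ ‖Ph n (F.g n c) 0‖ ^ (-s8) := Real.rpow_nonneg (norm_nonneg _) _
      positivity
    · have hX : fld (sc n c) F.pt ≠ 0 := by rw [hp]; exact h0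
      have h2 := qk_le F hn hσ c hX
      rw [hp] at h2
      have hq := qk_nonneg c p
      have hP : 0 < ‖Ph n (F.g n c) 0‖ := by
        rw [norm_pos_iff]
        intro h3
        apply hX
        have hD : 0 < F.D F.pt := by rw [F.D_pt]; have := F.hσ; positivity
        rw [chart F hn c hD, F.t_pt, h3, smul_zero]
      refine le_trans ?_ (pow32 (as_nonneg _) hP)
      exact mul_le_mul h2 (Real.sqrt_le_sqrt h2) (Real.sqrt_nonneg _) (hq.trans h2)
  have hm : Measurable fun g : T n → ℝ × ℝ =>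
      ENNReal.ofReal ((1 + as g ^ 4) * (1 + ‖Ph n g 0‖ ^ (-s8))) := by
    have a1 : Measurable fun g : T n → ℝ × ℝ => Ph n g 0 :=
      (continuous_Ph.comp (continuous_id.prodMk continuous_const)).measurable
    have a2 := (continuous_as (n := n)).measurable
    exact ENNReal.measurable_ofReal.comp (((a2.pow_const 4).const_add 1).mul
      ((a1.norm.pow_const (-s8)).const_add 1))
  calc ∫⁻ c, Qk n c p ∂GP (T n) ≤ ∫⁻ c, ENNReal.ofReal 77 *
        ENNReal.ofReal ((1 + as (F.g n c) ^ 4) * (1 + ‖Ph n (F.g n c) 0‖ ^ (-s8))) ∂GP (T n) :=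
        lintegral_mono h1
    _ = ENNReal.ofReal 77 * ∫⁻ c, ENNReal.ofReal ((1 + as (F.g n c) ^ 4) *
        (1 + ‖Ph n (F.g n c) 0‖ ^ (-s8))) ∂GP (T n) :=
        lintegral_const_mul _ (hm.comp (F.mp_g n).measurable)
    _ = ENNReal.ofReal 77 * ∫⁻ g, ENNReal.ofReal ((1 + as g ^ 4) *
        (1 + ‖Ph n g 0‖ ^ (-s8))) ∂GP (T n) := by
        rw [(F.mp_g n).lintegral_comp hm]
    _ ≤ _ := by
        gcongr
        exact mixed 0

lemma young32 {q θ : ℝ} (hq : 0 ≤ q) (hθ : 0 < θ) : q ≤ θ * (q * √q) + 1 / θ ^ 2 := by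
  have h0 : 0 ≤ θ * (q * √q) := by positivity
  rcases le_or_gt q (1 / θ ^ 2) with h | h
  · linarith
  · have h1 : 1 / θ ≤ √q := by
      refine Real.le_sqrt_of_sq_le ?_
      rw [div_pow, one_pow]
      exact h.le
    have h2 : 1 ≤ θ * √q := by
      calc (1:ℝ) = θ * (1 / θ) := by field_simp
        _ ≤ _ := mul_le_mul_of_nonneg_left h1 hθ.le
    have h3 : q ≤ θ * (q * √q) := by
      calc q = 1 * q := (one_mul q).symm
        _ ≤ (θ * √q) * q := mul_le_mul_of_nonneg_right h2 hq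
        _ = _ := by ring
    have : 0 ≤ 1 / θ ^ 2 := by positivity
    linarith

/-- the kernel is controlled by its normalised power -/
lemma hr_young (hn : 1 ≤ n) (c : T n → ℝ × ℝ) (p : ℝ × ℝ) {θ : ℝ} (hθ : 0 < θ) :
    ENNReal.ofReal (hr n c p) ≤ ENNReal.ofReal (√n / sg p) *
      (ENNReal.ofReal θ * Qk n c p + ENNReal.ofReal (1 / θ ^ 2)) := by
  have hn0 : 0 < √(n:ℝ) := Real.sqrt_pos.2 (by exact_mod_cast hn)
  have hs := one_le_sg p
  have e : hr n c p = √n / sg p * qk n c p := by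
    unfold qk
    field_simp
  have hq := qk_nonneg c p
  unfold Qk
  rw [← ENNReal.ofReal_mul hθ.le, ← ENNReal.ofReal_add (by positivity) (by positivity),
    ← ENNReal.ofReal_mul (by positivity), e]
  exact ENNReal.ofReal_le_ofReal (mul_le_mul_of_nonneg_left (young32 hq hθ) (by positivity))

/-- closed orbits with a lower bound for the length -/
theorem ol_me (c : T n → ℝ × ℝ) {R : ℝ} (hR : 0 < R) {Ω : Set (ℝ × ℝ)} (hΩ : IsCompact Ω)
    (hΩR : ∀ z ∈ Ω, ‖z‖ ≤ R) {M : Set ℝ} (hM : MeasurableSet M) {ℓ : ℝ} (hℓ : 0 < ℓ)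
    (hMℓ : ∀ x ∈ M, ℓ ≤ x) {h : ℝ × ℝ → ℝ≥0∞} (hh : Measurable h)
    (hb : ∀ α γ T', Orb (rf (fld (sc n c)) α) γ T' → (∀ t, γ t ∈ Ω) →
      (∫ t in (0:ℝ)..T', winv (fld (sc n c)) (γ t) * H709R2.sq (fld (sc n c) (γ t))) ∈ M →
      ENNReal.ofReal (hr n c (γ 0)) ≤ h (γ 0)) :
    ME (fun α => ((OL (fld (sc n c)) Ω M α).encard : ℝ≥0∞))
      (ENNReal.ofReal (1 / ℓ) * ∫⁻ z in Ω, h z) := by
  set X := fld (sc n c) with hX
  have hXc : ContDiff ℝ 2 X := contDiff_fld _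
  obtain ⟨G, hG1, hG2, hG3⟩ := mb2 (X := X) hXc (p₀ := 0) (s := R) hR
    (w₁ := winv X) (w₂ := winv X) (w := winv X) (fun z _ hz => contDiffAt_winv hXc hz)
    (fun z _ hz => contDiffAt_winv hXc hz) (fun z _ hz => contDiffAt_winv hXc hz)
    (Ω := Ω) hΩ (fun z hz => by rw [sub_zero]; exact hΩR z hz) (M := M) (M' := univ)
    hM MeasurableSet.univ hh hℓ (by
      intro α _ γ T' ho hΩ' h1 _
      refine ⟨hMℓ _ h1, ?_⟩
      have hX0 : X (γ 0) ≠ 0 := by
        intro h0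
        apply ho.ne 0
        unfold rf
        rw [h0]
        unfold rot
        ext <;> simp
      refine (ENNReal.ofReal_le_ofReal (H709R2.abs_divW_winv_le hXc hX0 α)).trans ?_
      exact hb α γ T' ho hΩ' h1)
  refine ⟨G, hG1, fun α hα => le_trans (enc_mono ?_) (hG2 α hα),
    (setLIntegral_le_lintegral _ _).trans hG3⟩
  rintro C ⟨γ, T', ho, hC, hCΩ, hl⟩
  exact ⟨γ, T', ho, hC, hCΩ, hl, mem_univ _⟩

end

end Pool.Agent.W960.HS
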