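import Pool.Agent.W960.HS.Frame

/-! Bounds for the normalised field in a chart. -/

open Real Set MeasureTheory Topology Filter
open scoped ENNReal

namespace Pool.Agent.W960.HS

noncomputable section

open Pool.Agent.W960.HR (T mem_T GP abs_pow_sub_le abs_fst_le abs_snd_le)
open Pool.Agent.H709R2 (fld)

/-- weights -/
def wt (m : ℕ × ℕ) : ℝ := 64 * ((m.1:ℝ) + m.2) ^ 2 * (1 / 8) ^ (m.1 + m.2)

lemma wt_nonneg (m : ℕ × ℕ) : 0 ≤ wt m := by unfold wt; positivity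

/-- the size of all coefficients but the constant one -/
def as {n : ℕ} (g : T n → ℝ × ℝ) : ℝ := ∑ m : T n, wt m.1 * ‖g m‖

lemma as_nonneg {n : ℕ} (g : T n → ℝ × ℝ) : 0 ≤ as g :=
  Finset.sum_nonneg fun m _ => mul_nonneg (wt_nonneg _) (norm_nonneg _)

/-- first partial derivative -/
def P1 (n : ℕ) (g : T n → ℝ × ℝ) (t : ℝ × ℝ) : ℝ × ℝ :=
  ∑ m : T n, (bt n m.1 * ((m.1.1 * t.1 ^ (m.1.1 - 1)) * t.2 ^ m.1.2)) • g m

/-- second partial derivative -/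
def P2 (n : ℕ) (g : T n → ℝ × ℝ) (t : ℝ × ℝ) : ℝ × ℝ :=
  ∑ m : T n, (bt n m.1 * (t.1 ^ m.1.1 * (m.1.2 * t.2 ^ (m.1.2 - 1)))) • g m

lemma step8 (i : ℕ) : (i:ℝ) * (1 / 8) ^ (i - 1) = 8 * i * (1 / 8) ^ i := by
  rcases i with _ | i
  · simp
  · rw [Nat.add_sub_cancel, pow_succ]
    ring

lemma pow_abs_le {x : ℝ} (hx : |x| ≤ 1 / 8) (i : ℕ) : |x ^ i| ≤ (1 / 8) ^ i := by
  rw [abs_pow]
  exact pow_le_pow_left₀ (abs_nonneg _) hx i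

lemma pow_sub_le8 {x a : ℝ} (hx : |x| ≤ 1 / 8) (ha : |a| ≤ 1 / 8) (i : ℕ) :
    |x ^ i - a ^ i| ≤ 8 * i * (1 / 8) ^ i * |x - a| := by
  rw [← step8]
  exact abs_pow_sub_le hx ha i

lemma mono_sub {x y a b δ : ℝ} (hx : |x| ≤ 1 / 8) (hy : |y| ≤ 1 / 8) (ha : |a| ≤ 1 / 8)
    (hb : |b| ≤ 1 / 8) (h1 : |x - a| ≤ δ) (h2 : |y - b| ≤ δ) (i j : ℕ) :
    |x ^ i * y ^ j - a ^ i * b ^ j| ≤ 8 * (i + j) * (1 / 8) ^ (i + j) * δ := by
  have hδ : 0 ≤ δ := (abs_nonneg _).trans h1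
  have e : x ^ i * y ^ j - a ^ i * b ^ j = (x ^ i - a ^ i) * y ^ j + a ^ i * (y ^ j - b ^ j) := by
    ring
  rw [e]
  refine (abs_add_le _ _).trans ?_
  rw [abs_mul, abs_mul]
  have h3 : |x ^ i - a ^ i| * |y ^ j| ≤ 8 * i * (1 / 8) ^ i * δ * (1 / 8) ^ j :=
    mul_le_mul ((pow_sub_le8 hx ha i).trans (mul_le_mul_of_nonneg_left h1 (by positivity)))
      (pow_abs_le hy j) (abs_nonneg _) (by positivity)
  have h4 : |a ^ i| * |y ^ j - b ^ j| ≤ (1 / 8) ^ i * (8 * j * (1 / 8) ^ j * δ) :=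
    mul_le_mul (pow_abs_le ha i)
      ((pow_sub_le8 hy hb j).trans (mul_le_mul_of_nonneg_left h2 (by positivity)))
      (abs_nonneg _) (by positivity)
  refine (add_le_add h3 h4).trans (le_of_eq ?_)
  rw [pow_add]
  ring

lemma d1_le {x y : ℝ} (hx : |x| ≤ 1 / 8) (hy : |y| ≤ 1 / 8) (i j : ℕ) :
    |(i * x ^ (i - 1)) * y ^ j| ≤ 64 * ((i:ℝ) + j) ^ 2 * (1 / 8) ^ (i + j) := by
  rw [abs_mul, abs_mul, abs_of_nonneg (Nat.cast_nonneg i)]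
  have h1 : (i:ℝ) * |x ^ (i - 1)| ≤ i * (1 / 8) ^ (i - 1) :=
    mul_le_mul_of_nonneg_left (pow_abs_le hx _) (Nat.cast_nonneg _)
  rw [step8] at h1
  refine (mul_le_mul h1 (pow_abs_le hy j) (abs_nonneg _) (by positivity)).trans ?_
  have h2 : (8:ℝ) * i ≤ 64 * ((i:ℝ) + j) ^ 2 := by
    have h3 : (i:ℝ) ≤ (i:ℝ) ^ 2 := by
      rcases Nat.eq_zero_or_pos i with h | h
      · rw [h]; norm_num
      · have : (1:ℝ) ≤ i := by exact_mod_cast h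
        nlinarith
    have h4 : (0:ℝ) ≤ i := Nat.cast_nonneg i
    have h5 : (0:ℝ) ≤ j := Nat.cast_nonneg j
    nlinarith
  rw [mul_assoc, ← pow_add]
  exact mul_le_mul_of_nonneg_right h2 (by positivity)

lemma d1_sub {x y a b δ : ℝ} (hx : |x| ≤ 1 / 8) (hy : |y| ≤ 1 / 8) (ha : |a| ≤ 1 / 8)
    (hb : |b| ≤ 1 / 8) (h1 : |x - a| ≤ δ) (h2 : |y - b| ≤ δ) (i j : ℕ) :
    |(i * x ^ (i - 1)) * y ^ j - (i * a ^ (i - 1)) * b ^ j| ≤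
      64 * ((i:ℝ) + j) ^ 2 * (1 / 8) ^ (i + j) * δ := by
  have hδ : 0 ≤ δ := (abs_nonneg _).trans h1
  rcases i with _ | i
  · simp only [Nat.cast_zero, zero_mul, sub_self, abs_zero]
    positivity
  · rw [Nat.add_sub_cancel]
    have e : ((i + 1 : ℕ) : ℝ) * x ^ i * y ^ j - ((i + 1 : ℕ) : ℝ) * a ^ i * b ^ j =
        ((i + 1 : ℕ) : ℝ) * (x ^ i * y ^ j - a ^ i * b ^ j) := by ring
    rw [e, abs_mul, abs_of_nonneg (Nat.cast_nonneg _)]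
    refine (mul_le_mul_of_nonneg_left (mono_sub hx hy ha hb h1 h2 i j) (Nat.cast_nonneg _)).trans ?_
    push_cast
    have h3 : ((i:ℝ) + 1) * (8 * (i + j) * (1 / 8) ^ (i + j)) ≤
        64 * ((i:ℝ) + 1 + j) ^ 2 * (1 / 8) ^ (i + 1 + j) := by
      have e2 : ((1:ℝ) / 8) ^ (i + 1 + j) = (1 / 8) ^ (i + j) * (1 / 8) := by
        rw [show i + 1 + j = i + j + 1 by ring, pow_succ]
      rw [e2]
      have h4 : (0:ℝ) ≤ i := Nat.cast_nonneg i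
      have h5 : (0:ℝ) ≤ j := Nat.cast_nonneg j
      have h6 : ((i:ℝ) + 1) * (8 * (i + j)) ≤ 8 * ((i:ℝ) + 1 + j) ^ 2 := by nlinarith
      calc ((i:ℝ) + 1) * (8 * (i + j) * (1 / 8) ^ (i + j)) =
            ((i:ℝ) + 1) * (8 * (i + j)) * (1 / 8) ^ (i + j) := by ring
        _ ≤ 8 * ((i:ℝ) + 1 + j) ^ 2 * (1 / 8) ^ (i + j) :=
            mul_le_mul_of_nonneg_right h6 (by positivity)
        _ = _ := by ring
    calc ((i:ℝ) + 1) * (8 * (i + j) * (1 / 8) ^ (i + j) * δ) =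
          ((i:ℝ) + 1) * (8 * (i + j) * (1 / 8) ^ (i + j)) * δ := by ring
      _ ≤ _ := mul_le_mul_of_nonneg_right h3 hδ

section

variable {n : ℕ} (g : T n → ℝ × ℝ) {t s : ℝ × ℝ}

lemma sum_bound {f : ℕ × ℕ → ℝ} {δ : ℝ} (hδ : 0 ≤ δ) (hn : 1 ≤ n)
    (h : ∀ m : T n, |f m.1| ≤ wt m.1 * δ) :
    ‖∑ m : T n, (bt n m.1 * f m.1) • g m‖ ≤ as g * δ := by
  refine (norm_sum_le _ _).trans ?_
  unfold as
  rw [Finset.sum_mul]
  refine Finset.sum_le_sum fun m _ => ?_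
  rw [norm_smul, Real.norm_eq_abs, abs_mul, abs_of_nonneg (bt_nonneg _ _)]
  have h1 : bt n m.1 * |f m.1| ≤ 1 * (wt m.1 * δ) :=
    mul_le_mul (bt_le hn _) (h m) (abs_nonneg _) zero_le_one
  calc bt n m.1 * |f m.1| * ‖g m‖ ≤ 1 * (wt m.1 * δ) * ‖g m‖ :=
        mul_le_mul_of_nonneg_right h1 (norm_nonneg _)
    _ = _ := by ring

lemma Ph_sub (hn : 1 ≤ n) (ht : ‖t‖ ≤ 1 / 8) (hs : ‖s‖ ≤ 1 / 8) :
    ‖Ph n g t - Ph n g s‖ ≤ as g * ‖t - s‖ := by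
  unfold Ph
  rw [← Finset.sum_sub_distrib]
  have e : ∀ m : T n, (bt n m.1 * (t.1 ^ m.1.1 * t.2 ^ m.1.2)) • g m -
      (bt n m.1 * (s.1 ^ m.1.1 * s.2 ^ m.1.2)) • g m =
      (bt n m.1 * (t.1 ^ m.1.1 * t.2 ^ m.1.2 - s.1 ^ m.1.1 * s.2 ^ m.1.2)) • g m := by
    intro m
    rw [← sub_smul]
    congr 1
    ring
  rw [Finset.sum_congr rfl fun m _ => e m]
  refine sum_bound (f := fun m => t.1 ^ m.1 * t.2 ^ m.2 - s.1 ^ m.1 * s.2 ^ m.2) g (norm_nonneg _) hn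
    fun m => ?_
  refine (mono_sub ((abs_fst_le t).trans ht) ((abs_snd_le t).trans ht) ((abs_fst_le s).trans hs)
    ((abs_snd_le s).trans hs) (abs_fst_le (t - s)) (abs_snd_le (t - s)) m.1.1 m.1.2).trans ?_
  refine mul_le_mul_of_nonneg_right ?_ (norm_nonneg _)
  unfold wt
  refine mul_le_mul_of_nonneg_right ?_ (by positivity)
  have h3 : ((m.1.1:ℝ) + m.1.2) ≤ ((m.1.1:ℝ) + m.1.2) ^ 2 := by
    rcases Nat.eq_zero_or_pos (m.1.1 + m.1.2) with h | h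
    · have h' : ((m.1.1:ℝ) + m.1.2) = 0 := by exact_mod_cast h
      rw [h']; norm_num
    · have : (1:ℝ) ≤ (m.1.1:ℝ) + m.1.2 := by exact_mod_cast h
      nlinarith
  nlinarith [sq_nonneg ((m.1.1:ℝ) + m.1.2)]

lemma P1_le (hn : 1 ≤ n) (ht : ‖t‖ ≤ 1 / 8) : ‖P1 n g t‖ ≤ as g := by
  have := sum_bound (f := fun m => (m.1 * t.1 ^ (m.1 - 1)) * t.2 ^ m.2) g zero_le_one hn
    fun m => by
      rw [mul_one]
      exact d1_le ((abs_fst_le t).trans ht) ((abs_snd_le t).trans ht) m.1.1 m.1.2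
  rw [mul_one] at this
  exact this

lemma P2_le (hn : 1 ≤ n) (ht : ‖t‖ ≤ 1 / 8) : ‖P2 n g t‖ ≤ as g := by
  have := sum_bound (f := fun m => t.1 ^ m.1 * (m.2 * t.2 ^ (m.2 - 1))) g zero_le_one hn
    fun m => by
      rw [mul_one, mul_comm]
      refine (d1_le ((abs_snd_le t).trans ht) ((abs_fst_le t).trans ht) m.1.2 m.1.1).trans
        (le_of_eq ?_)
      unfold wt
      rw [add_comm (m.1.2:ℝ), add_comm m.1.2]
  rw [mul_one] at this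
  exact this

lemma P1_sub (hn : 1 ≤ n) (ht : ‖t‖ ≤ 1 / 8) (hs : ‖s‖ ≤ 1 / 8) :
    ‖P1 n g t - P1 n g s‖ ≤ as g * ‖t - s‖ := by
  unfold P1
  rw [← Finset.sum_sub_distrib]
  have e : ∀ m : T n, (bt n m.1 * ((m.1.1 * t.1 ^ (m.1.1 - 1)) * t.2 ^ m.1.2)) • g m -
      (bt n m.1 * ((m.1.1 * s.1 ^ (m.1.1 - 1)) * s.2 ^ m.1.2)) • g m =
      (bt n m.1 * ((m.1.1 * t.1 ^ (m.1.1 - 1)) * t.2 ^ m.1.2 -
        (m.1.1 * s.1 ^ (m.1.1 - 1)) * s.2 ^ m.1.2)) • g m := by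
    intro m
    rw [← sub_smul]
    congr 1
    ring
  rw [Finset.sum_congr rfl fun m _ => e m]
  refine sum_bound (f := fun m => (m.1 * t.1 ^ (m.1 - 1)) * t.2 ^ m.2 -
    (m.1 * s.1 ^ (m.1 - 1)) * s.2 ^ m.2) g (norm_nonneg _) hn fun m => ?_
  exact d1_sub ((abs_fst_le t).trans ht) ((abs_snd_le t).trans ht) ((abs_fst_le s).trans hs)
    ((abs_snd_le s).trans hs) (abs_fst_le (t - s)) (abs_snd_le (t - s)) m.1.1 m.1.2

lemma P2_sub (hn : 1 ≤ n) (ht : ‖t‖ ≤ 1 / 8) (hs : ‖s‖ ≤ 1 / 8) :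
    ‖P2 n g t - P2 n g s‖ ≤ as g * ‖t - s‖ := by
  unfold P2
  rw [← Finset.sum_sub_distrib]
  have e : ∀ m : T n, (bt n m.1 * (t.1 ^ m.1.1 * (m.1.2 * t.2 ^ (m.1.2 - 1)))) • g m -
      (bt n m.1 * (s.1 ^ m.1.1 * (m.1.2 * s.2 ^ (m.1.2 - 1)))) • g m =
      (bt n m.1 * ((m.1.2 * t.2 ^ (m.1.2 - 1)) * t.1 ^ m.1.1 -
        (m.1.2 * s.2 ^ (m.1.2 - 1)) * s.1 ^ m.1.1)) • g m := by
    intro m
    rw [← sub_smul]
    congr 1
    ring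
  rw [Finset.sum_congr rfl fun m _ => e m]
  refine sum_bound (f := fun m => (m.2 * t.2 ^ (m.2 - 1)) * t.1 ^ m.1 -
    (m.2 * s.2 ^ (m.2 - 1)) * s.1 ^ m.1) g (norm_nonneg _) hn fun m => ?_
  refine (d1_sub ((abs_snd_le t).trans ht) ((abs_fst_le t).trans ht) ((abs_snd_le s).trans hs)
    ((abs_fst_le s).trans hs) (abs_snd_le (t - s)) (abs_fst_le (t - s)) m.1.2 m.1.1).trans
      (le_of_eq ?_)
  unfold wt
  rw [add_comm (m.1.2:ℝ), add_comm m.1.2]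

lemma hasFDerivAt_Ph (t : ℝ × ℝ) : HasFDerivAt (Ph n g)
    ((ContinuousLinearMap.fst ℝ ℝ ℝ).smulRight (P1 n g t) +
      (ContinuousLinearMap.snd ℝ ℝ ℝ).smulRight (P2 n g t)) t := by
  have h : ∀ m : T n, HasFDerivAt (fun t : ℝ × ℝ => (bt n m.1 * (t.1 ^ m.1.1 * t.2 ^ m.1.2)) • g m)
      ((bt n m.1 • ((t.1 ^ m.1.1) • ((m.1.2 * t.2 ^ (m.1.2 - 1)) • ContinuousLinearMap.snd ℝ ℝ ℝ) +
        (t.2 ^ m.1.2) • ((m.1.1 * t.1 ^ (m.1.1 - 1)) • ContinuousLinearMap.fst ℝ ℝ ℝ))).smulRight (g m)) t := by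
    intro m
    have h1 : HasFDerivAt (fun t : ℝ × ℝ => t.1 ^ m.1.1)
        ((m.1.1 * t.1 ^ (m.1.1 - 1)) • ContinuousLinearMap.fst ℝ ℝ ℝ) t :=
      (hasDerivAt_pow m.1.1 t.1).comp_hasFDerivAt t hasFDerivAt_fst
    have h2 : HasFDerivAt (fun t : ℝ × ℝ => t.2 ^ m.1.2)
        ((m.1.2 * t.2 ^ (m.1.2 - 1)) • ContinuousLinearMap.snd ℝ ℝ ℝ) t :=
      (hasDerivAt_pow m.1.2 t.2).comp_hasFDerivAt t hasFDerivAt_snd
    exact ((h1.mul h2).const_mul (bt n m.1)).smul_const (g m)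
  have h2 := HasFDerivAt.fun_sum (u := Finset.univ) fun m _ => h m
  refine h2.congr_fderiv ?_
  refine ContinuousLinearMap.ext fun w => ?_
  simp only [_root_.sum_apply, ContinuousLinearMap.smulRight_apply, _root_.smul_apply,
    _root_.add_apply, P1, P2, Finset.smul_sum, smul_eq_mul, ContinuousLinearMap.coe_fst',
    ContinuousLinearMap.coe_snd']
  rw [← Finset.sum_add_distrib]
  refine Finset.sum_congr rfl fun m _ => ?_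
  rw [smul_smul, smul_smul, ← add_smul]
  congr 1
  ring

end

end

end Pool.Agent.W960.HS
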